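import Pool.Agent.CollatzNat.Defs

set_option autoImplicit false

/-!
# S+ F2: natural densities of invariant sets and of predecessor sets, from the core theorem (helper84)
-/

namespace CollatzNat

open CollatzOne CollatzExp Finset Filter Topology

/-! ### Counting -/

/-- Number of elements of `S` of absolute value at most `N`. -/
noncomputable def cnt (S : Set ℤ) (N : ℕ) : ℝ := ({n : ℤ | |n| ≤ N ∧ n ∈ S}.ncard : ℝ)

/-- `d` is the natural density of `S`. -/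
def IsDens (S : Set ℤ) (d : ℝ) : Prop :=
  Tendsto (fun N : ℕ => ({n : ℤ | |n| ≤ N ∧ n ∈ S}.ncard : ℝ) / (2 * N + 1)) atTop (𝓝 d)

/-- `S` is invariant under the Collatz map. -/
def Inv (S : Set ℤ) : Prop := ∀ n, n ∈ S ↔ C n ∈ S

lemma box_eq (S : Set ℤ) (N : ℕ) : {n : ℤ | |n| ≤ N ∧ n ∈ S} = Set.Icc (-(N : ℤ)) N ∩ S := by
  ext n
  simp only [Set.mem_ofPred_eq, Set.mem_inter_iff, Set.mem_Icc, abs_le]

lemma box_finite (S : Set ℤ) (N : ℕ) : {n : ℤ | |n| ≤ N ∧ n ∈ S}.Finite := by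
  rw [box_eq]
  exact (Set.finite_Icc _ _).inter_of_left _

lemma cnt_nonneg (S : Set ℤ) (N : ℕ) : 0 ≤ cnt S N := Nat.cast_nonneg _

lemma cnt_mono {S T : Set ℤ} (h : S ⊆ T) (N : ℕ) : cnt S N ≤ cnt T N :=
  Nat.cast_le.2 (Set.ncard_le_ncard (fun _ hn => ⟨hn.1, h hn.2⟩) (box_finite T N))

lemma cnt_union {S T : Set ℤ} (h : Disjoint S T) (N : ℕ) : cnt (S ∪ T) N = cnt S N + cnt T N := by
  unfold cnt
  have h1 : {n : ℤ | |n| ≤ N ∧ n ∈ S ∪ T} = {n : ℤ | |n| ≤ N ∧ n ∈ S} ∪ {n : ℤ | |n| ≤ N ∧ n ∈ T} := by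
    rw [box_eq, box_eq, box_eq, Set.inter_union_distrib_left]
  rw [h1, Set.ncard_union_eq _ (box_finite S N) (box_finite T N)]
  · push_cast
    rfl
  · rw [box_eq, box_eq]
    exact h.mono Set.inter_subset_right Set.inter_subset_right

lemma cnt_univ (N : ℕ) : cnt Set.univ N = 2 * N + 1 := by
  unfold cnt
  rw [box_eq, Set.inter_univ, ← Finset.coe_Icc, Set.ncard_coe_finset, Int.card_Icc]
  have h : ((N : ℤ) + 1 - -(N : ℤ)).toNat = 2 * N + 1 := by omega
  rw [h]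
  push_cast
  ring

lemma cnt_compl (S : Set ℤ) (N : ℕ) : cnt S N + cnt Sᶜ N = 2 * N + 1 := by
  rw [← cnt_union disjoint_compl_right, Set.union_compl_self, cnt_univ]

lemma cnt_empty (N : ℕ) : cnt ∅ N = 0 := by
  unfold cnt
  rw [box_eq, Set.inter_empty]
  simp

/-! ### Trees -/

/-- The restricted tree of `3 m - 1`. -/
def tree (x : ℝ) (m : ℤ) : Set ℤ := {n | Tr x (3 * m - 1) n}

lemma NK_eq_cnt (x : ℝ) (m : ℤ) (N : ℕ) : NK x N m = cnt (tree x m) N := by
  unfold NK cnt tree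
  have h : {n : ℤ | |(n : ℝ)| ≤ (N : ℝ) ∧ Tr x (3 * m - 1) n} =
      {n : ℤ | |n| ≤ N ∧ n ∈ {n | Tr x (3 * m - 1) n}} := by
    ext n
    simp only [Set.mem_ofPred_eq]
    constructor
    · rintro ⟨h1, h2⟩
      exact ⟨by exact_mod_cast h1, h2⟩
    · rintro ⟨h1, h2⟩
      exact ⟨by exact_mod_cast h1, h2⟩
  rw [h]

lemma KK_root {x : ℝ} {m : ℤ} (hO : CollatzLin.OO m) (hm : |((3 * m - 1 : ℤ) : ℝ)| ≤ x) :
    KK x (3 * m - 1) := by
  unfold CollatzLin.OO at hO
  exact ⟨⟨by omega, by omega⟩, hm⟩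

lemma tree_disj {x : ℝ} {m m' : ℤ} (hO : CollatzLin.OO m) (hm : |((3 * m - 1 : ℤ) : ℝ)| ≤ x)
    (hO' : CollatzLin.OO m') (hm' : |((3 * m' - 1 : ℤ) : ℝ)| ≤ x) (hne : m ≠ m') :
    Disjoint (tree x m) (tree x m') := by
  rw [Set.disjoint_left]
  rintro n ⟨k, hk, hk2⟩ ⟨k', hk', hk2'⟩
  rcases lt_trichotomy k k' with h | h | h
  · apply hk2' k h
    rw [hk]
    exact KK_root hO hm
  · subst h
    apply hne
    have : 3 * m - 1 = 3 * m' - 1 := hk.symm.trans hk'
    omega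
  · apply hk2 k' h
    rw [hk']
    exact KK_root hO' hm'

lemma sum_tree_le {x : ℝ} (R : Finset ℤ)
    (hR : ∀ m ∈ R, CollatzLin.OO m ∧ |((3 * m - 1 : ℤ) : ℝ)| ≤ x) (S : Set ℤ)
    (hS : ∀ m ∈ R, tree x m ⊆ S) (N : ℕ) : ∑ m ∈ R, cnt (tree x m) N ≤ cnt S N := by
  classical
  have h1 : ∑ m ∈ R, cnt (tree x m) N = cnt (⋃ m ∈ R, tree x m) N := by
    clear hS
    induction R using Finset.induction_on with
    | empty => simp [cnt_empty]
    | insert m R hm ih =>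
      rw [sum_insert hm, ih fun m' hm' => hR m' (mem_insert_of_mem hm'), Finset.set_biUnion_insert,
        cnt_union]
      rw [Set.disjoint_iUnion₂_right]
      intro m' hm'
      have a1 := hR m (mem_insert_self _ _)
      have a2 := hR m' (mem_insert_of_mem hm')
      exact tree_disj a1.1 a1.2 a2.1 a2.2 (fun h => hm (h ▸ hm'))
  rw [h1]
  exact cnt_mono (Set.iUnion₂_subset hS) N

/-- The statement of the core theorem. -/
def CoreStmt : Prop := ∀ ε : ℝ, 0 < ε → ∀ B₀ : ℝ, ∃ (x : ℝ) (R : Finset ℤ) (L : ℤ → ℝ), B₀ ≤ x ∧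
    (∀ m ∈ R, CollatzLin.OO m ∧ |((3 * m - 1 : ℤ) : ℝ)| ≤ x ∧ B₀ ≤ |((3 * m - 1 : ℤ) : ℝ)|) ∧
    (∀ m, 0 ≤ L m) ∧ 1 - ε ≤ ∑ m ∈ R, L m ∧
    ∀ m ∈ R, ∃ X₀ : ℝ, ∀ X ≥ X₀, 2 * X * L m ≤ NK x X m

/-- The core theorem with a uniform threshold. -/
lemma core' (hcore : CoreStmt) {ε : ℝ} (hε : 0 < ε) (B₀ : ℝ) : ∃ (x : ℝ) (R : Finset ℤ) (L : ℤ → ℝ) (N₀ : ℕ), B₀ ≤ x ∧
    (∀ m ∈ R, CollatzLin.OO m ∧ |((3 * m - 1 : ℤ) : ℝ)| ≤ x ∧ B₀ ≤ |((3 * m - 1 : ℤ) : ℝ)|) ∧
    (∀ m, 0 ≤ L m) ∧ 1 - ε ≤ ∑ m ∈ R, L m ∧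
    ∀ R' ⊆ R, ∀ S : Set ℤ, (∀ m ∈ R', tree x m ⊆ S) → ∀ N ≥ N₀,
      2 * (N : ℝ) * ∑ m ∈ R', L m ≤ cnt S N := by
  obtain ⟨x, R, L, hB, hR, hL, hsum, hX⟩ := hcore ε hε B₀
  choose! X₀ hX₀ using hX
  refine ⟨x, R, L, ∑ m ∈ R, ⌈X₀ m⌉₊, hB, hR, hL, hsum, fun R' hR' S hS N hN => ?_⟩
  refine le_trans ?_ (sum_tree_le R' (fun m hm => ⟨(hR m (hR' hm)).1, (hR m (hR' hm)).2.1⟩) S hS N)
  rw [mul_sum]
  refine sum_le_sum fun m hm => ?_
  have h1 : X₀ m ≤ N := by
    refine (Nat.le_ceil _).trans ?_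
    have h2 : ⌈X₀ m⌉₊ ≤ ∑ m ∈ R, ⌈X₀ m⌉₊ :=
      single_le_sum (f := fun m => ⌈X₀ m⌉₊) (fun _ _ => Nat.zero_le _) (hR' hm)
    exact_mod_cast h2.trans hN
  have h2 := hX₀ m (hR' hm) N h1
  rwa [NK_eq_cnt] at h2

/-! ### Limits -/

lemma conv_of_close {f : ℕ → ℝ} (h : ∀ ε : ℝ, 0 < ε → ∃ (a : ℝ) (N₁ : ℕ), ∀ N ≥ N₁, |f N - a| ≤ ε) :
    ∃ d : ℝ, Tendsto f atTop (𝓝 d) := by
  apply cauchySeq_tendsto_of_complete
  rw [Metric.cauchySeq_iff']
  intro ε hε
  obtain ⟨a, N₁, hN₁⟩ := h (ε / 3) (by positivity)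
  refine ⟨N₁, fun n hn => ?_⟩
  have h1 := hN₁ n hn
  have h2 := hN₁ N₁ le_rfl
  rw [Real.dist_eq]
  rw [abs_le] at h1 h2
  rw [abs_lt]
  constructor <;> linarith

/-- A set such that every restricted tree with a large root is inside or outside. -/
def Adapted (B₀ : ℝ) (S : Set ℤ) : Prop := ∀ (x : ℝ) (m : ℤ), CollatzLin.OO m →
  |((3 * m - 1 : ℤ) : ℝ)| ≤ x → B₀ ≤ |((3 * m - 1 : ℤ) : ℝ)| → tree x m ⊆ S ∨ tree x m ⊆ Sᶜ

theorem dens_of_adapted (hcore : CoreStmt) {B₀ : ℝ} {S : Set ℤ} (hS : Adapted B₀ S) : ∃ d : ℝ, IsDens S d := by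
  classical
  apply conv_of_close
  intro ε hε
  obtain ⟨x, R, L, N₀, hB, hR, hL, hsum, hcount⟩ := core' hcore (half_pos hε) B₀
  set R₁ := R.filter (fun m => tree x m ⊆ S) with hR₁
  set R₂ := R.filter (fun m => ¬ tree x m ⊆ S) with hR₂
  set a := ∑ m ∈ R₁, L m with ha
  have ha0 : 0 ≤ a := sum_nonneg fun m _ => hL m
  have hadd : a + ∑ m ∈ R₂, L m = ∑ m ∈ R, L m := sum_filter_add_sum_filter_not _ _ _
  obtain ⟨N₁, hN₁⟩ := exists_nat_gt ((a + 1) / ε)
  refine ⟨a, max N₀ (max N₁ 1), fun N hN => ?_⟩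
  have hN0 : N₀ ≤ N := (le_max_left _ _).trans hN
  have hN1 : N₁ ≤ N := ((le_max_left _ _).trans (le_max_right _ _)).trans hN
  have hNR : (a + 1) / ε < N := lt_of_lt_of_le hN₁ (by exact_mod_cast hN1)
  have hNR' : a + 1 < N * ε := by rwa [div_lt_iff₀ hε] at hNR
  have h1 := hcount R₁ (filter_subset _ _) S (fun m hm => (mem_filter.1 hm).2) N hN0
  have h2 := hcount R₂ (filter_subset _ _) Sᶜ (fun m hm => by
    obtain ⟨hm1, hm2⟩ := mem_filter.1 hm
    obtain ⟨b1, b2, b3⟩ := hR m hm1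
    exact (hS x m b1 b2 b3).resolve_left hm2) N hN0
  have h3 := cnt_compl S N
  have hN00 : (0 : ℝ) ≤ N := Nat.cast_nonneg N
  have hpos : (0 : ℝ) < 2 * N + 1 := by positivity
  change |cnt S N / (2 * N + 1) - a| ≤ ε
  rw [div_sub' hpos.ne', abs_div, abs_of_pos hpos, div_le_iff₀ hpos, abs_le]
  have h4 : 2 * (N : ℝ) * (1 - ε / 2 - a) ≤ 2 * (N : ℝ) * ∑ m ∈ R₂, L m := by
    apply mul_le_mul_of_nonneg_left _ (by positivity)
    linarith
  rw [← ha] at h1
  constructor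
  · nlinarith
  · nlinarith

/-! ### Invariant sets -/

lemma Inv.iter {S : Set ℤ} (hS : Inv S) (k : ℕ) (n : ℤ) : n ∈ S ↔ C^[k] n ∈ S := by
  induction k generalizing n with
  | zero => rfl
  | succ k ih =>
    rw [Function.iterate_succ_apply]
    exact (hS n).trans (ih (C n))

lemma Inv.tree_sub {S : Set ℤ} (hS : Inv S) {x : ℝ} {m : ℤ} (hm : 3 * m - 1 ∈ S) : tree x m ⊆ S := by
  rintro n ⟨k, hk, _⟩
  rw [hS.iter k, hk]
  exact hm

lemma Inv.compl {S : Set ℤ} (hS : Inv S) : Inv Sᶜ := fun n => not_congr (hS n)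

lemma Inv.adapted {S : Set ℤ} (hS : Inv S) : Adapted 0 S := by
  intro x m _ _ _
  by_cases hm : 3 * m - 1 ∈ S
  · exact Or.inl (hS.tree_sub hm)
  · exact Or.inr (hS.compl.tree_sub hm)

/-- Every set that is invariant under the Collatz map has a natural density. -/
theorem inv_density_of (hcore : CoreStmt) (S : Set ℤ) (hS : ∀ n, n ∈ S ↔ C n ∈ S) :
    ∃ d : ℝ, Tendsto (fun N : ℕ => ({n : ℤ | |n| ≤ N ∧ n ∈ S}.ncard : ℝ) / (2 * N + 1)) atTop (𝓝 d) :=
  dens_of_adapted hcore (Inv.adapted hS)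

/-! ### Predecessor sets -/

lemma canon_one : ∀ N : ℕ, ∀ c : ℤ, c.natAbs ≤ N → c ≠ 0 → c % 3 = 1 → c % 2 = 0 →
    ∃ j : ℕ, (C^[j] c % 3 = 2 ∧ C^[j] c % 4 ≠ 0) ∧ ∀ i ≤ j, |C^[i] c| ≤ |c| := by
  intro N
  induction N using Nat.strong_induction_on with
  | _ N ih =>
    intro c hcN hc0 hc3 hc2
    have hC : C c = c / 2 := C_even hc2
    by_cases h4 : (c / 2) % 4 = 0
    · have hC2 : C (C c) = c / 4 := by
        rw [hC, C_even (by omega)]
        omega
      have hb : (c / 4).natAbs < c.natAbs := by omega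
      obtain ⟨j, hj1, hj2⟩ := ih (c / 4).natAbs (lt_of_lt_of_le hb hcN) (c / 4) le_rfl (by omega)
        (by omega) (by omega)
      have hit : ∀ i, C^[i + 2] c = C^[i] (c / 4) := by
        intro i
        rw [Function.iterate_add_apply]
        show C^[i] (C (C c)) = _
        rw [hC2]
      refine ⟨j + 2, by rw [hit]; exact hj1, fun i hi => ?_⟩
      rcases i with _ | _ | i
      · exact le_rfl
      · show |C c| ≤ |c|
        rw [hC, Int.abs_eq_natAbs, Int.abs_eq_natAbs]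
        omega
      · rw [hit]
        refine (hj2 i (by omega)).trans ?_
        rw [Int.abs_eq_natAbs, Int.abs_eq_natAbs]
        omega
    · refine ⟨1, ⟨?_, ?_⟩, fun i hi => ?_⟩
      · show C c % 3 = 2
        rw [hC]; omega
      · show C c % 4 ≠ 0
        rw [hC]; exact h4
      · rcases i with _ | i
        · exact le_rfl
        · have : i = 0 := by omega
          subst this
          show |C c| ≤ |c|
          rw [hC, Int.abs_eq_natAbs, Int.abs_eq_natAbs]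
          omega

lemma canon_any : ∀ N : ℕ, ∀ a : ℤ, a.natAbs ≤ N → a ≠ 0 →
    ∃ j : ℕ, (C^[j] a % 3 = 2 ∧ C^[j] a % 4 ≠ 0) ∧ ∀ i ≤ j, |C^[i] a| ≤ 3 * |a| + 1 := by
  intro N
  induction N using Nat.strong_induction_on with
  | _ N ih =>
    intro a haN ha0
    rcases Int.emod_two_eq_zero_or_one a with h2 | h2
    · have hC : C a = a / 2 := C_even h2
      obtain ⟨j, hj1, hj2⟩ := ih (a / 2).natAbs (by omega) (a / 2) le_rfl (by omega)
      have hit : ∀ i, C^[i + 1] a = C^[i] (a / 2) := by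
        intro i
        rw [Function.iterate_succ_apply, hC]
      refine ⟨j + 1, by rw [hit]; exact hj1, fun i hi => ?_⟩
      rcases i with _ | i
      · show |a| ≤ 3 * |a| + 1
        have := abs_nonneg a
        omega
      · rw [hit]
        refine (hj2 i (by omega)).trans ?_
        rw [Int.abs_eq_natAbs, Int.abs_eq_natAbs]
        omega
    · have hC : C a = 3 * a + 1 := C_odd h2
      obtain ⟨j, hj1, hj2⟩ := canon_one _ (3 * a + 1) le_rfl (by omega) (by omega) (by omega)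
      have hit : ∀ i, C^[i + 1] a = C^[i] (3 * a + 1) := by
        intro i
        rw [Function.iterate_succ_apply, hC]
      refine ⟨j + 1, by rw [hit]; exact hj1, fun i hi => ?_⟩
      rcases i with _ | i
      · show |a| ≤ 3 * |a| + 1
        have := abs_nonneg a
        omega
      · rw [hit]
        refine (hj2 i (by omega)).trans ?_
        rw [Int.abs_eq_natAbs, Int.abs_eq_natAbs]
        omega

lemma pre_adapted (a : ℤ) : Adapted (3 * |(a : ℝ)| + 2) {n : ℤ | ∃ k : ℕ, C^[k] n = a} := by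
  intro x m hO hmx hB
  by_cases h : ∃ n ∈ tree x m, ∃ k : ℕ, C^[k] n = a
  · left
    obtain ⟨n, ⟨k, hk, hk2⟩, i, hi⟩ := h
    have key : ∃ l : ℕ, C^[l] (3 * m - 1) = a := by
      by_cases hik : k ≤ i
      · refine ⟨i - k, ?_⟩
        rw [← hk, ← Function.iterate_add_apply, Nat.sub_add_cancel hik]
        exact hi
      · exfalso
        push Not at hik
        have h1 : C^[k - i] a = 3 * m - 1 := by
          rw [← hi, ← Function.iterate_add_apply, Nat.sub_add_cancel hik.le]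
          exact hk
        have ha : a ≠ 0 := by
          rintro rfl
          rw [iter_zero] at h1
          omega
        obtain ⟨j, hj1, hj2⟩ := canon_any _ a le_rfl ha
        have h2 : ¬ (i + j < k) := by
          intro hlt
          apply hk2 (i + j) hlt
          have h3 : C^[i + j] n = C^[j] a := by
            rw [add_comm, Function.iterate_add_apply, hi]
          rw [h3]
          refine ⟨hj1, ?_⟩
          have h4 := hj2 j le_rfl
          have h5 : |((C^[j] a : ℤ) : ℝ)| ≤ 3 * |(a : ℝ)| + 1 := by exact_mod_cast h4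
          linarith
        have h3 := hj2 (k - i) (by omega)
        rw [h1] at h3
        have h5 : |((3 * m - 1 : ℤ) : ℝ)| ≤ 3 * |(a : ℝ)| + 1 := by exact_mod_cast h3
        linarith
    obtain ⟨l, hl⟩ := key
    rintro n' ⟨k', hk', _⟩
    refine ⟨l + k', ?_⟩
    rw [Function.iterate_add_apply, hk', hl]
  · right
    intro n hn hcon
    exact h ⟨n, hn, hcon⟩

/-- Every predecessor set has a natural density. -/
theorem pre_density_of (hcore : CoreStmt) (a : ℤ) :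
    ∃ d : ℝ, Tendsto (fun N : ℕ => ({n : ℤ | |n| ≤ N ∧ ∃ k : ℕ, C^[k] n = a}.ncard : ℝ) / (2 * N + 1))
      atTop (𝓝 d) := dens_of_adapted hcore (pre_adapted a)

/-- Tightness. -/
theorem tight_of (hcore : CoreStmt) {ε : ℝ} (hε : 0 < ε) : ∃ M : ℕ, ∃ N₀ : ℕ, ∀ N ≥ N₀,
    (1 - ε) * (2 * N + 1) ≤ ({n : ℤ | |n| ≤ N ∧ ∃ k : ℕ, |C^[k] n| ≤ M}.ncard : ℝ) := by
  obtain ⟨x, R, L, N₀, hB, hR, hL, hsum, hcount⟩ := core' hcore (half_pos hε) 0
  obtain ⟨N₁, hN₁⟩ := exists_nat_gt (1 / ε)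
  refine ⟨⌊x⌋₊, max N₀ N₁, fun N hN => ?_⟩
  have hN0 : N₀ ≤ N := (le_max_left _ _).trans hN
  have hN1 : N₁ ≤ N := (le_max_right _ _).trans hN
  have h1 := hcount R subset_rfl {n : ℤ | ∃ k : ℕ, |C^[k] n| ≤ (⌊x⌋₊ : ℤ)} (fun m hm => by
    rintro n ⟨k, hk, _⟩
    refine ⟨k, ?_⟩
    rw [hk]
    have h2 := (hR m hm).2.1
    have h3 : ((3 * m - 1).natAbs : ℝ) ≤ x := by
      rw [Nat.cast_natAbs]
      exact_mod_cast h2
    have h4 : (3 * m - 1).natAbs ≤ ⌊x⌋₊ := Nat.le_floor h3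
    rw [Int.abs_eq_natAbs]
    exact_mod_cast h4) N hN0
  have h5 : (1 / ε) < N := lt_of_lt_of_le hN₁ (by exact_mod_cast hN1)
  have h6 : 1 < N * ε := by rwa [div_lt_iff₀ hε] at h5
  have h7 : 2 * (N : ℝ) * (1 - ε / 2) ≤ 2 * (N : ℝ) * ∑ m ∈ R, L m := by
    apply mul_le_mul_of_nonneg_left hsum (by positivity)
  change (1 - ε) * (2 * N + 1) ≤ cnt _ N
  refine le_trans ?_ h1
  nlinarith

/-! ### Additivity and positivity -/

lemma isDens_cnt {S : Set ℤ} {d : ℝ} (h : IsDens S d) :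
    Tendsto (fun N : ℕ => cnt S N / (2 * N + 1)) atTop (𝓝 d) := h

lemma IsDens.nonneg {S : Set ℤ} {d : ℝ} (h : IsDens S d) : 0 ≤ d :=
  ge_of_tendsto' h fun N => by positivity

lemma IsDens.mono {S T : Set ℤ} {d e : ℝ} (h : IsDens S d) (h' : IsDens T e) (hST : S ⊆ T) : d ≤ e :=
  le_of_tendsto_of_tendsto' h h' fun N =>
    div_le_div_of_nonneg_right (cnt_mono hST N) (by positivity)

lemma IsDens.unique {S : Set ℤ} {d e : ℝ} (h : IsDens S d) (h' : IsDens S e) : d = e :=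
  tendsto_nhds_unique h h'

lemma isDens_univ : IsDens Set.univ 1 := by
  have h : ∀ N : ℕ, (1 : ℝ) = cnt Set.univ N / (2 * N + 1) := by
    intro N
    rw [cnt_univ, div_self (by positivity)]
  exact tendsto_const_nhds.congr h

lemma isDens_empty : IsDens ∅ 0 := by
  have h : ∀ N : ℕ, (0 : ℝ) = cnt ∅ N / (2 * N + 1) := by
    intro N
    rw [cnt_empty, zero_div]
  exact tendsto_const_nhds.congr h

lemma IsDens.union {S T : Set ℤ} {d e : ℝ} (h : IsDens S d) (h' : IsDens T e) (hST : Disjoint S T) :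
    IsDens (S ∪ T) (d + e) := by
  refine (Tendsto.add (isDens_cnt h) (isDens_cnt h')).congr fun N => ?_
  change _ = cnt (S ∪ T) N / (2 * N + 1)
  rw [cnt_union hST, add_div]

lemma IsDens.compl {S : Set ℤ} {d : ℝ} (h : IsDens S d) : IsDens Sᶜ (1 - d) := by
  refine (Tendsto.const_sub 1 (isDens_cnt h)).congr fun N => ?_
  change _ = cnt Sᶜ N / (2 * N + 1)
  have h1 := cnt_compl S N
  have hpos : (0 : ℝ) < 2 * N + 1 := by positivity
  rw [eq_div_iff hpos.ne', sub_mul, div_mul_cancel₀ _ hpos.ne']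
  linarith

lemma isDens_biUnion {ι : Type*} {S : ι → Set ℤ} {d : ι → ℝ} (hd : ∀ i, IsDens (S i) (d i))
    (hdisj : Pairwise (Function.onFun Disjoint S)) (J : Finset ι) :
    IsDens (⋃ i ∈ J, S i) (∑ i ∈ J, d i) := by
  classical
  induction J using Finset.induction_on with
  | empty => simpa using isDens_empty
  | insert i J hi ih =>
    rw [Finset.set_biUnion_insert, sum_insert hi]
    refine (hd i).union ih ?_
    rw [Set.disjoint_iUnion₂_right]
    intro j hj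
    exact hdisj (fun h => hi (h ▸ hj))

lemma Inv.iUnion {ι : Sort*} {S : ι → Set ℤ} (h : ∀ i, Inv (S i)) : Inv (⋃ i, S i) := by
  intro n
  simp only [Set.mem_iUnion]
  exact exists_congr fun i => h i n

lemma Inv.diff {S T : Set ℤ} (hS : Inv S) (hT : Inv T) : Inv (S \ T) := fun n =>
  and_congr (hS n) (not_congr (hT n))

/-- Countable additivity of the densities on invariant sets. -/
theorem hasSum_dens_of (hcore : CoreStmt) {ι : Type*} {S : ι → Set ℤ} {d : ι → ℝ} {D : ℝ} (hS : ∀ i, Inv (S i))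
    (hd : ∀ i, IsDens (S i) (d i)) (hdisj : Pairwise (Function.onFun Disjoint S))
    (hD : IsDens (⋃ i, S i) D) : HasSum d D := by
  classical
  refine hasSum_of_isLUB_of_nonneg D (fun i => (hd i).nonneg) ⟨?_, ?_⟩
  · rintro _ ⟨J, rfl⟩
    refine (isDens_biUnion hd hdisj J).mono hD ?_
    exact Set.iUnion₂_subset fun i _ => Set.subset_iUnion S i
  · intro b hb
    refine le_of_forall_pos_le_add fun ε hε => ?_
    obtain ⟨x, R, L, N₀, hB, hR, hL, hsum, hcount⟩ := core' hcore hε 0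
    let J : Finset ι := R.biUnion fun m =>
      if h : ∃ i, 3 * m - 1 ∈ S i then {h.choose} else ∅
    have hJ : ∑ i ∈ J, d i ≤ b := hb ⟨J, rfl⟩
    have hU := isDens_biUnion hd hdisj J
    have hInvU : Inv (⋃ i ∈ J, S i) := Inv.iUnion fun i => Inv.iUnion fun _ => hS i
    set V := (⋃ i, S i) \ ⋃ i ∈ J, S i with hV
    have hInvV : Inv V := (Inv.iUnion hS).diff hInvU
    obtain ⟨e, he⟩ := inv_density_of hcore V hInvV
    have he' : IsDens V e := he
    have hsplit : D = ∑ i ∈ J, d i + e := by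
      refine hD.unique ?_
      have h1 := hU.union he' (Set.disjoint_sdiff_right)
      rwa [hV, Set.union_sdiff_cancel (Set.iUnion₂_subset fun i _ => Set.subset_iUnion S i)] at h1
    have hroot : ∀ m ∈ R, tree x m ⊆ Vᶜ := by
      intro m hm
      apply hInvV.compl.tree_sub
      intro hmV
      obtain ⟨h1, h2⟩ := hmV
      have h3 : ∃ i, 3 * m - 1 ∈ S i := Set.mem_iUnion.1 h1
      apply h2
      refine Set.mem_iUnion₂.2 ⟨h3.choose, ?_, h3.choose_spec⟩
      refine mem_biUnion.2 ⟨m, hm, ?_⟩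
      rw [dif_pos h3]
      exact mem_singleton_self _
    have hlow : 1 - ε ≤ 1 - e := by
      have h1 := isDens_cnt he'.compl
      have h2 : Tendsto (fun N : ℕ => (1 - ε) * (1 - 1 / (2 * (N : ℝ) + 1))) atTop
          (𝓝 ((1 - ε) * (1 - 0))) := by
        refine Tendsto.const_mul _ (Tendsto.const_sub _ ?_)
        have h3 : Tendsto (fun N : ℕ => 2 * (N : ℝ) + 1) atTop atTop :=
          tendsto_atTop_add_const_right _ _
            (Tendsto.const_mul_atTop (by norm_num) tendsto_natCast_atTop_atTop)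
        have h4 := h3.inv_tendsto_atTop
        refine h4.congr fun N => ?_
        rw [Pi.inv_apply, one_div]
      rw [sub_zero, mul_one] at h2
      refine le_of_tendsto_of_tendsto h2 h1 ?_
      filter_upwards [eventually_ge_atTop N₀] with N hN
      have h3 := hcount R subset_rfl Vᶜ hroot N hN
      have hpos : (0 : ℝ) < 2 * N + 1 := by positivity
      rw [le_div_iff₀ hpos]
      have h5 : (1 - ε) * (1 - 1 / (2 * (N : ℝ) + 1)) * (2 * N + 1) = 2 * N * (1 - ε) := by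
        field_simp
        ring
      rw [h5]
      refine le_trans ?_ h3
      have h4 : 2 * (N : ℝ) * (1 - ε) ≤ 2 * (N : ℝ) * ∑ m ∈ R, L m :=
        mul_le_mul_of_nonneg_left hsum (by positivity)
      linarith
    linarith

/-- Invariant sets with a nonzero element have positive density. -/
theorem dens_pos {S : Set ℤ} {d : ℝ} (hS : Inv S) (hd : IsDens S d) {a : ℤ} (ha : a ≠ 0)
    (haS : a ∈ S) : 0 < d := by
  obtain ⟨c, hc, hmain⟩ := merge_density collatz_density a ha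
  have h1 : c / 3 ≤ d := by
    refine ge_of_tendsto (isDens_cnt hd) ?_
    obtain ⟨N₁, hN₁⟩ := exists_nat_gt |(a : ℝ)|
    filter_upwards [eventually_ge_atTop (max N₁ 1)] with N hN
    have hN1 : N₁ ≤ N := (le_max_left _ _).trans hN
    have hN2 : 1 ≤ N := (le_max_right _ _).trans hN
    have h2 : |(a : ℝ)| ≤ N := hN₁.le.trans (by exact_mod_cast hN1)
    have h3 := hmain N h2
    have hpos : (0 : ℝ) < 2 * N + 1 := by positivity
    rw [le_div_iff₀ hpos]
    have h4 : ({n : ℤ | |(n : ℝ)| ≤ (N : ℝ) ∧ (0 < n * a ∧ ∃ i j : ℕ, C^[i] n = C^[j] a)}.ncard : ℝ) ≤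
        cnt S N := by
      refine Nat.cast_le.2 (Set.ncard_le_ncard ?_ (box_finite S N))
      rintro n ⟨hn, _, i, j, hij⟩
      refine ⟨by exact_mod_cast hn, ?_⟩
      rw [hS.iter i, hij, ← hS.iter j]
      exact haS
    refine le_trans ?_ (h3.trans h4)
    have h5 : (1 : ℝ) ≤ N := by exact_mod_cast hN2
    nlinarith
  linarith

/-- Every predecessor set has a natural density, which is positive if `3` does not divide `a`. -/
theorem pre_density_pos_of (hcore : CoreStmt) (a : ℤ) :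
    ∃ d : ℝ, Tendsto (fun N : ℕ => ({n : ℤ | |n| ≤ N ∧ ∃ k : ℕ, C^[k] n = a}.ncard : ℝ) / (2 * N + 1))
      atTop (𝓝 d) ∧ (¬ (3 : ℤ) ∣ a → 0 < d) := by
  obtain ⟨d, hd⟩ := pre_density_of hcore a
  refine ⟨d, hd, fun ha => ?_⟩
  obtain ⟨c, hc, hmain⟩ := collatz_density a ha
  have h1 : c / 3 ≤ d := by
    refine ge_of_tendsto hd ?_
    obtain ⟨N₁, hN₁⟩ := exists_nat_gt |(a : ℝ)|
    filter_upwards [eventually_ge_atTop (max N₁ 1)] with N hN
    have hN1 : N₁ ≤ N := (le_max_left _ _).trans hN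
    have hN2 : 1 ≤ N := (le_max_right _ _).trans hN
    have h2 : |(a : ℝ)| ≤ N := hN₁.le.trans (by exact_mod_cast hN1)
    have h3 := hmain N h2
    have hpos : (0 : ℝ) < 2 * N + 1 := by positivity
    rw [le_div_iff₀ hpos]
    have h4 : {n : ℤ | |(n : ℝ)| ≤ (N : ℝ) ∧ ∃ k : ℕ, C^[k] n = a} =
        {n : ℤ | |n| ≤ N ∧ ∃ k : ℕ, C^[k] n = a} := by
      ext n
      simp only [Set.mem_ofPred_eq]
      constructor
      · rintro ⟨h1, h2⟩
        exact ⟨by exact_mod_cast h1, h2⟩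
      · rintro ⟨h1, h2⟩
        exact ⟨by exact_mod_cast h1, h2⟩
    rw [h4] at h3
    refine le_trans ?_ h3
    have h5 : (1 : ℝ) ≤ N := by exact_mod_cast hN2
    nlinarith
  linarith

/-- The grand orbit of `a`. -/
def grand (a : ℤ) : Set ℤ := {n | ∃ i j : ℕ, C^[i] n = C^[j] a}

lemma mem_grand_self (a : ℤ) : a ∈ grand a := ⟨0, 0, rfl⟩

lemma grand_inv (a : ℤ) : Inv (grand a) := by
  intro n
  constructor
  · rintro ⟨i, j, h⟩
    refine ⟨i, j + 1, ?_⟩
    rw [← Function.iterate_succ_apply C i n, Function.iterate_succ_apply' C i n, h,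
      ← Function.iterate_succ_apply' C j a]
  · rintro ⟨i, j, h⟩
    exact ⟨i + 1, j, by rw [Function.iterate_succ_apply]; exact h⟩

lemma Inv.grand_sub {S : Set ℤ} (hS : Inv S) {a : ℤ} (ha : a ∈ S) : grand a ⊆ S := by
  rintro n ⟨i, j, h⟩
  rw [hS.iter i, h, ← hS.iter j]
  exact ha

lemma grand_eq_of_mem {a b : ℤ} (h : b ∈ grand a) : grand b = grand a := by
  apply Set.Subset.antisymm
  · exact (grand_inv a).grand_sub h
  · refine (grand_inv b).grand_sub ?_
    obtain ⟨i, j, hij⟩ := h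
    exact ⟨j, i, hij.symm⟩

/-- The grand orbits. -/
def Orbits : Set (Set ℤ) := {O | ∃ a, O = grand a}

lemma orbits_disj : Pairwise (Function.onFun Disjoint (fun O : Orbits => (O : Set ℤ))) := by
  rintro ⟨O, a, rfl⟩ ⟨O', b, rfl⟩ hne
  rw [Function.onFun, Set.disjoint_left]
  intro n h1 h2
  apply hne
  apply Subtype.ext
  show grand a = grand b
  rw [← grand_eq_of_mem h1, ← grand_eq_of_mem h2]

lemma iUnion_orbits : (⋃ O : Orbits, (O : Set ℤ)) = Set.univ := by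
  rw [Set.eq_univ_iff_forall]
  intro n
  exact Set.mem_iUnion.2 ⟨⟨grand n, n, rfl⟩, mem_grand_self n⟩

/-- The natural densities of the Collatz-invariant sets: existence, positivity, countable additivity;
the densities of the grand orbits sum to `1`. -/
theorem densities_of (hcore : CoreStmt) : ∃ δ : Set ℤ → ℝ,
    (∀ S : Set ℤ, (∀ n, n ∈ S ↔ C n ∈ S) →
      Tendsto (fun N : ℕ => ({n : ℤ | |n| ≤ N ∧ n ∈ S}.ncard : ℝ) / (2 * N + 1)) atTop (𝓝 (δ S))) ∧
    (∀ S : Set ℤ, (∀ n, n ∈ S ↔ C n ∈ S) → (∃ a ∈ S, a ≠ 0) → 0 < δ S) ∧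
    (∀ (ι : Type) (S : ι → Set ℤ), (∀ i n, n ∈ S i ↔ C n ∈ S i) →
      Pairwise (Function.onFun Disjoint S) → HasSum (fun i => δ (S i)) (δ (⋃ i, S i))) ∧
    HasSum (fun O : {O : Set ℤ // ∃ a, O = {n | ∃ i j : ℕ, C^[i] n = C^[j] a}} => δ O) 1 := by
  classical
  let δ : Set ℤ → ℝ := fun S => if h : ∃ d, IsDens S d then h.choose else 0
  have hδ : ∀ S : Set ℤ, Inv S → IsDens S (δ S) := by
    intro S hS
    have h : ∃ d, IsDens S d := inv_density_of hcore S hS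
    simp only [δ, dif_pos h]
    exact h.choose_spec
  refine ⟨δ, fun S hS => hδ S hS, ?_, ?_, ?_⟩
  · rintro S hS ⟨a, haS, ha⟩
    exact dens_pos hS (hδ S hS) ha haS
  · intro ι S hS hdisj
    exact hasSum_dens_of hcore hS (fun i => hδ _ (hS i)) hdisj (hδ _ (Inv.iUnion hS))
  · have h1 : IsDens (⋃ O : Orbits, (O : Set ℤ)) 1 := by
      rw [iUnion_orbits]; exact isDens_univ
    have hinv : ∀ O : Orbits, Inv (O : Set ℤ) := by
      rintro ⟨O, a, rfl⟩
      exact grand_inv a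
    exact hasSum_dens_of hcore (S := fun O : Orbits => (O : Set ℤ)) hinv (fun O => hδ _ (hinv O)) orbits_disj h1

end CollatzNat
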