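import Pool.Agent.CollatzNat.CoreThm
import Pool.Agent.CollatzNat.FinalOf

set_option autoImplicit false

/-!
# Natural densities of invariant sets and of predecessor sets
-/

namespace CollatzNat

open CollatzOne CollatzExp Finset Filter Topology

theorem coreStmt : CoreStmt := fun _ hε B₀ => core hε B₀

/-- Every set that is invariant under the Collatz map has a natural density. -/
theorem inv_density (S : Set ℤ) (hS : ∀ n, n ∈ S ↔ C n ∈ S) :
    ∃ d : ℝ, Tendsto (fun N : ℕ => ({n : ℤ | |n| ≤ N ∧ n ∈ S}.ncard : ℝ) / (2 * N + 1)) atTop (𝓝 d) :=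
  inv_density_of coreStmt S hS

/-- Every predecessor set has a natural density. -/
theorem pre_density (a : ℤ) :
    ∃ d : ℝ, Tendsto (fun N : ℕ => ({n : ℤ | |n| ≤ N ∧ ∃ k : ℕ, C^[k] n = a}.ncard : ℝ) / (2 * N + 1))
      atTop (𝓝 d) := pre_density_of coreStmt a

/-- Every predecessor set has a natural density, which is positive if `3` does not divide `a`. -/
theorem pre_density_pos (a : ℤ) :
    ∃ d : ℝ, Tendsto (fun N : ℕ => ({n : ℤ | |n| ≤ N ∧ ∃ k : ℕ, C^[k] n = a}.ncard : ℝ) / (2 * N + 1))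
      atTop (𝓝 d) ∧ (¬ (3 : ℤ) ∣ a → 0 < d) := pre_density_pos_of coreStmt a

/-- Tightness. -/
theorem tight {ε : ℝ} (hε : 0 < ε) : ∃ M : ℕ, ∃ N₀ : ℕ, ∀ N ≥ N₀,
    (1 - ε) * (2 * N + 1) ≤ ({n : ℤ | |n| ≤ N ∧ ∃ k : ℕ, |C^[k] n| ≤ M}.ncard : ℝ) :=
  tight_of coreStmt hε

/-- The natural densities of the Collatz-invariant sets: existence, positivity, countable additivity;
the densities of the grand orbits sum to `1`. -/
theorem densities : ∃ δ : Set ℤ → ℝ,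
    (∀ S : Set ℤ, (∀ n, n ∈ S ↔ C n ∈ S) →
      Tendsto (fun N : ℕ => ({n : ℤ | |n| ≤ N ∧ n ∈ S}.ncard : ℝ) / (2 * N + 1)) atTop (𝓝 (δ S))) ∧
    (∀ S : Set ℤ, (∀ n, n ∈ S ↔ C n ∈ S) → (∃ a ∈ S, a ≠ 0) → 0 < δ S) ∧
    (∀ (ι : Type) (S : ι → Set ℤ), (∀ i n, n ∈ S i ↔ C n ∈ S i) →
      Pairwise (Function.onFun Disjoint S) → HasSum (fun i => δ (S i)) (δ (⋃ i, S i))) ∧
    HasSum (fun O : {O : Set ℤ // ∃ a, O = {n | ∃ i j : ℕ, C^[i] n = C^[j] a}} => δ O) 1 :=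
  densities_of coreStmt

end CollatzNat
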