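import Pool.Agent.CollatzDens.Final
import Pool.Agent.CollatzLin.Defs2

set_option autoImplicit false

/-!
# Natural densities: definitions

Coordinates: the integer `3 v - 1` is described by `v`. The canonical integers are the integers
`a = 2, 5, 11 mod 12`, that is `a = 3 v - 1` with `v % 4 ≠ 3`.
-/

namespace CollatzNat

open CollatzOne CollatzExp Finset

/-- The integer `a` is canonical (congruent to 2 mod 3 and not divisible by 4) and `|a| ≤ x`. -/
def KK (x : ℝ) (a : ℤ) : Prop := (a % 3 = 2 ∧ a % 4 ≠ 0) ∧ |(a : ℝ)| ≤ x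

/-- The trajectory of `n` reaches `b`, and no earlier point of it is canonical of absolute value
at most `x`. -/
def Tr (x : ℝ) (b n : ℤ) : Prop := ∃ k : ℕ, C^[k] n = b ∧ ∀ j < k, ¬ KK x (C^[j] n)

/-- Number of integers of absolute value at most `X` in the restricted tree of `3 v - 1`. -/
noncomputable def NK (x X : ℝ) (v : ℤ) : ℝ :=
  ({n : ℤ | |(n : ℝ)| ≤ X ∧ Tr x (3 * v - 1) n}.ncard : ℝ)

/-- The trajectory of `3 v - 1` meets the canonical integers of absolute value at most `x`. -/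
def Hit (x : ℝ) (v : ℤ) : Prop := ∃ k : ℕ, KK x (C^[k] (3 * v - 1))

/-- All nonempty prefixes of the word lead to points above the level `x`. -/
def Out (x : ℝ) : List ℕ → ℤ → Prop
  | [], _ => True
  | e :: W, v => x < |((3 * c1 e v - 1 : ℤ) : ℝ)| ∧ Out x W (c1 e v)

/-- The odd predecessor `(2 ^ j * (3 v - 1) - 1) / 3` of `3 v - 1` (for odd `j`). -/
def uj (j : ℕ) (v : ℤ) : ℤ := (2 ^ j * (3 * v - 1) - 1) / 3

/-- The odd numbers up to `K`. -/
def odds (K : ℕ) : Finset ℕ := (range (K + 1)).filter (fun j => j % 2 = 1)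

open Classical in
/-- Number of integers of absolute value at most `X` of the form `2 ^ i * (3 v - 1)`, `uj j v`
(not 2 mod 3), and `2 ^ i * uj j v` (with `uj j v` divisible by 3), exponents at most `K`. -/
noncomputable def own (K : ℕ) (X : ℝ) (v : ℤ) : ℝ :=
  ∑ i ∈ range (K + 1), (if (2 : ℝ) ^ i * |((3 * v - 1 : ℤ) : ℝ)| ≤ X then 1 else 0) +
  ∑ j ∈ odds K, ((if uj j v % 3 ≠ 2 ∧ |(uj j v : ℝ)| ≤ X then 1 else 0) +
    ∑ i ∈ Icc 1 K, (if uj j v % 3 = 0 ∧ (2 : ℝ) ^ i * |(uj j v : ℝ)| ≤ X then 1 else 0))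

open Classical in
/-- The same count in terms of the height of the word `W` leading to `u`, at distance `s`. -/
noncomputable def ownw (K : ℕ) (s : ℝ) (W : List ℕ) (u : ℤ) : ℝ :=
  ∑ i ∈ range (K + 1), (if (2 : ℝ) ^ i * CollatzLin.ht W ≤ s then 1 else 0) +
  ∑ j ∈ odds K, ((if uj j u % 3 ≠ 2 ∧ (2 : ℝ) ^ j * CollatzLin.ht W ≤ 3 * s then 1 else 0) +
    ∑ i ∈ Icc 1 K, (if uj j u % 3 = 0 ∧ (2 : ℝ) ^ (i + j) * CollatzLin.ht W ≤ 3 * s then 1 else 0))

open Classical in
/-- The normalised final count. -/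
noncomputable def psiN (K l : ℕ) (s : ℝ) (v : ℤ) : ℝ :=
  1 / s * ∑ D ∈ range (100 * l - 1), ∑ W ∈ words (200 * l) D,
    if vd W v then ownw K s W (ch W v) else 0

open Classical in
/-- The truncated renewal count. -/
noncomputable def UU (E M : ℕ) (y : ℝ) : ℝ :=
  ∑ D ∈ range M, ∑ W ∈ words E D, if CollatzLin.ht W ≤ y then 1 / (3 : ℝ) ^ D else 0

/-- The positions at letter depth `D`: heights between `3 ^ (D / 16)` and `2 ^ (11 D) / 3 ^ D`,
size between `Y'` and `Y` times the height. -/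
structure RegP (T : ℤ → Prop) (D : ℕ) (Y Y' : ℝ) (J : ℕ) (v : ℤ) : Prop where
  ht : 3 ^ (17 * D) ≤ 2 ^ (16 * J)
  J_le : J ≤ 11 * D
  size : |(v : ℝ)| * 3 ^ D ≤ Y * 2 ^ J
  low : Y' * 2 ^ J ≤ |(v : ℝ)| * 3 ^ D
  tr : T v

/-- The condition on the points of the restricted trees. -/
def TT (x : ℝ) (v : ℤ) : Prop := CollatzLin.OO v ∧ Hit x v

/-- Minimum of the heights of all prefixes. -/
noncomputable def mh : List ℕ → ℝ
  | [] => 1
  | e :: W => min 1 (2 ^ e / 3 * mh W)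

/-- Minimum of the heights of the nonempty prefixes. -/
noncomputable def hn : List ℕ → ℝ
  | [] => 1
  | e :: W => 2 ^ e / 3 * mh W

open Classical in
/-- The words used at the root `m`: all nonempty prefixes lead above the level `x`, and the final
exponent is regular. -/
noncomputable def bw (x : ℝ) (D : ℕ) (m : ℤ) : Finset (List ℕ) :=
  (words (11 * D) D).filter (fun W => vd W m ∧ x / 3 + 1 < hn W * (|(m : ℝ)| - D) ∧
    3 ^ (17 * D) ≤ 2 ^ (16 * js W) ∧ js W ≤ 11 * D)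

/-- The functional of the root `m`. -/
noncomputable def Lam0 (x : ℝ) (D : ℕ) (m : ℤ) (g : ℕ → ℤ → ℝ) : ℝ :=
  ∑ W ∈ bw x D m, (3 : ℝ) ^ D / 2 ^ js W * g (js W) (ch W m)

open Classical in
/-- The roots. -/
noncomputable def roots (x : ℝ) (l : ℕ) : Finset ℤ :=
  (Icc (-⌊x⌋) ⌊x⌋).filter (fun m => CollatzLin.OO m ∧ |((3 * m - 1 : ℤ) : ℝ)| ≤ x ∧
    x ≤ 3 * 2 ^ (l / 2) * |(m : ℝ)|)

end CollatzNat
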