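import Pool.Agent.CollatzNat.Avg2
import Pool.Agent.CollatzNat.Defs
import Pool.Agent.CollatzDens.TT

set_option autoImplicit false

/-!
The average over the roots.
-/

namespace CollatzNat

open CollatzOne Finset

/-! ### The heights of the prefixes -/

lemma mh_pos' (W : List ℕ) : 0 < mh W := by
  induction W with
  | nil => exact one_pos
  | cons e W ih => exact lt_min one_pos (by positivity)

lemma log_mh (W : List ℕ) : Real.log (mh W) = m0 W := by
  induction W with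
  | nil => exact Real.log_one
  | cons e W ih =>
    have h1 : mh (e :: W) = min 1 (2 ^ e / 3 * mh W) := rfl
    have h2 : m0 (e :: W) = min 0 (xi e + m0 W) := rfl
    have h3 : Real.log (2 ^ e / 3 * mh W) = xi e + m0 W := by
      rw [Real.log_mul (by positivity) (mh_pos' W).ne', ih]; rfl
    have hp := mh_pos' W
    rw [h1, h2, ← h3]
    rcases le_total 1 (2 ^ e / 3 * mh W) with h | h
    · rw [min_eq_left h, Real.log_one, min_eq_left (Real.log_nonneg h)]
    · rw [min_eq_right h, min_eq_right (Real.log_nonpos (by positivity) h)]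

lemma hn_pos' (W : List ℕ) : 0 < hn W := by
  cases W with
  | nil => exact one_pos
  | cons e W =>
    have := mh_pos' W
    show 0 < 2 ^ e / 3 * mh W
    positivity

lemma log_hn (W : List ℕ) : Real.log (hn W) = m1 W := by
  cases W with
  | nil => exact Real.log_one
  | cons e W =>
    show Real.log (2 ^ e / 3 * mh W) = xi e + m0 W
    rw [Real.log_mul (by positivity) (mh_pos' W).ne', log_mh]; rfl

lemma exp_m1 (W : List ℕ) : Real.exp (m1 W) = hn W := by
  rw [← log_hn, Real.exp_log (hn_pos' W)]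

/-! ### Mean of the iterates -/

lemma per_iter_one (A : Sys) (n : ℕ) (J : ℕ) : Per (A.q ^ n) (A.PP^[n] (fun _ _ => 1) J) := by
  induction n generalizing J with
  | zero => intro v; rfl
  | succ n ih =>
    rw [Function.iterate_succ_apply']
    exact A.PP_per n _ ih J

lemma mean_iter_one (A : Sys) (n : ℕ) (J : ℕ) :
    CollatzOne.mean (A.q ^ n) (A.PP^[n] (fun _ _ => 1) J) = A.Z ^ n := by
  induction n generalizing J with
  | zero =>
    rw [pow_zero, pow_zero]
    exact mean_const le_rfl 1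
  | succ n ih =>
    rw [Function.iterate_succ_apply', A.mean_PP n _ (per_iter_one A n)]
    rw [sum_congr rfl fun w _ => by rw [ih (J + A.J w)], ← sum_mul, ← Sys.ent_Z_eq, pow_succ']

/-! ### The roots of one sign -/

/-- Harmonic sum of a periodic function over the part of the roots used by one word. -/
lemma one_sided {N : ℕ} (hN : 1 ≤ N) {f : ℤ → ℝ} (hf : Per N f) (h0 : ∀ v, 0 ≤ f v)
    {L l D : ℕ} {W : List ℕ} (hL : Real.exp L ≤ 2 ^ (l / 2)) {ε : ℝ} (hε : 0 < ε) :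
    ∃ x₀ : ℝ, 1 ≤ x₀ ∧ ∀ x ≥ x₀, ∃ A B : ℕ, 1 ≤ A ∧
      (∀ t : ℕ, A ≤ t → t ≤ B → x ≤ 3 * 2 ^ (l / 2) * t ∧ x / 3 + 1 < hn W * (t - D) ∧ 3 * (t : ℝ) + 1 ≤ x) ∧
      CollatzOne.mean N f * (min (L : ℝ) (max 0 (m1 W)) - ε) ≤
        ∑ t ∈ Ico A (B + 1), f (t : ℤ) / (t : ℝ) := by
  set c' := min (L : ℝ) (max 0 (m1 W)) with hc'
  have hN' : (1 : ℝ) ≤ N := by exact_mod_cast hN
  have hM : 0 ≤ CollatzOne.mean N f := CollatzOne.mean_nonneg h0
  rcases le_or_gt c' ε with hle | hlt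
  · refine ⟨1, le_rfl, fun x _ => ⟨1, 0, le_rfl, fun t h1 h2 => by omega, ?_⟩⟩
    rw [zero_add, Ico_self, sum_empty]
    exact mul_nonpos_of_nonneg_of_nonpos hM (by linarith)
  have hcL : c' ≤ L := min_le_left _ _
  have hcm : c' ≤ m1 W := by
    have h4 : c' ≤ max 0 (m1 W) := min_le_right _ _
    rcases max_choice 0 (m1 W) with h | h
    · rw [h] at h4; linarith
    · rwa [h] at h4
  have hm1 : 0 < m1 W := by linarith
  have hhn : Real.exp (m1 W) = hn W := exp_m1 W
  have hhn1 : 1 < hn W := by rw [← hhn]; exact Real.one_lt_exp_iff.2 hm1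
  set R : ℝ := 2 ^ (l / 2) with hR
  have hR1 : 1 ≤ R := one_le_pow₀ (by norm_num)
  set h' := min R (hn W) with hh'
  have hh1 : 1 ≤ h' := le_min hR1 hhn1.le
  have hch : Real.exp c' ≤ h' := by
    refine le_min ((Real.exp_le_exp.2 hcL).trans hL) ?_
    rw [← hhn]
    exact Real.exp_le_exp.2 hcm
  set q := 1 - Real.exp (-(ε / 2)) with hq
  have hq0 : 0 < q := by
    have : Real.exp (-(ε / 2)) < 1 := by rw [Real.exp_lt_one_iff]; linarith
    linarith
  refine ⟨max 4 (max (3 * (1 / 3 + Real.exp c' * (D + 4)) / q) (6 * N * R / ε)), ?_, fun x hx => ?_⟩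
  · exact le_trans (by norm_num) (le_max_left _ _)
  have hx4 : 4 ≤ x := (le_max_left _ _).trans hx
  have hxq : 3 * (1 / 3 + Real.exp c' * (D + 4)) ≤ x * q := by
    have := ((le_max_left _ _).trans (le_max_right _ _)).trans hx
    rwa [div_le_iff₀ hq0] at this
  have hxN : 6 * N * R ≤ x * ε := by
    have := ((le_max_right _ _).trans (le_max_right _ _)).trans hx
    rwa [div_le_iff₀ hε] at this
  set A : ℕ := ⌊x / (3 * h')⌋₊ + D + 4 with hA
  set B : ℕ := ⌊(x - 1) / 3⌋₊ with hB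
  have hA1 : x / (3 * h') + D + 3 < A := by
    have := Nat.lt_floor_add_one (x / (3 * h'))
    rw [hA]; push_cast; linarith
  have hA2 : (A : ℝ) ≤ x / (3 * h') + D + 4 := by
    have := Nat.floor_le (show 0 ≤ x / (3 * h') by positivity)
    rw [hA]; push_cast; linarith
  have hB1 : (x - 1) / 3 < B + 1 := Nat.lt_floor_add_one _
  have hB2 : (B : ℝ) ≤ (x - 1) / 3 := Nat.floor_le (by linarith)
  have hApos : (0 : ℝ) < A := by
    have : 0 ≤ x / (3 * h') := by positivity
    have : (0 : ℝ) ≤ D := Nat.cast_nonneg D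
    linarith
  refine ⟨A, B, by omega, fun t ht1 ht2 => ?_, ?_⟩
  · have ht1' : (A : ℝ) ≤ t := by exact_mod_cast ht1
    have ht2' : (t : ℝ) ≤ B := by exact_mod_cast ht2
    have hxh : x / (3 * h') * (3 * h') = x := div_mul_cancel₀ _ (by positivity)
    have hD0 : (0 : ℝ) ≤ D := Nat.cast_nonneg D
    refine ⟨?_, ?_, by linarith⟩
    · have h5 : x / (3 * h') ≤ t := by linarith
      have h6 : h' ≤ R := min_le_left _ _
      have h7 : (0 : ℝ) ≤ t := Nat.cast_nonneg t
      calc x = x / (3 * h') * (3 * h') := hxh.symm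
        _ ≤ t * (3 * R) := mul_le_mul h5 (by linarith) (by positivity) h7
        _ = 3 * R * t := by ring
    · have h5 : x / (3 * h') + 3 < t - D := by linarith
      have h6 : h' ≤ hn W := min_le_right _ _
      have h8 : x / 3 ≤ hn W * (x / (3 * h')) := by
        calc x / 3 = h' * (x / (3 * h')) := by field_simp
          _ ≤ _ := mul_le_mul_of_nonneg_right h6 (by positivity)
      nlinarith
  · have hratio : Real.exp (c' - ε / 2) ≤ ((B + 1 : ℕ) : ℝ) / A := by
      rw [le_div_iff₀ hApos]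
      push_cast
      have h9 : Real.exp (c' - ε / 2) = Real.exp c' * (1 - q) := by
        rw [hq, sub_eq_add_neg, Real.exp_add]; ring
      have h10 : (0 : ℝ) ≤ 1 - q := by rw [hq]; have := Real.exp_pos (-(ε / 2)); linarith
      have h10' : 1 - q ≤ 1 := by linarith
      have hec := Real.exp_pos c'
      have h11 : Real.exp c' * (x / (3 * h')) ≤ x / 3 := by
        calc Real.exp c' * (x / (3 * h')) ≤ h' * (x / (3 * h')) := mul_le_mul_of_nonneg_right hch (by positivity)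
          _ = x / 3 := by field_simp
      have hD0 : (0 : ℝ) ≤ (D : ℝ) + 4 := by positivity
      rw [h9]
      calc Real.exp c' * (1 - q) * A ≤ Real.exp c' * (1 - q) * (x / (3 * h') + D + 4) :=
            mul_le_mul_of_nonneg_left hA2 (by positivity)
        _ = (1 - q) * (Real.exp c' * (x / (3 * h'))) + (1 - q) * (Real.exp c' * (D + 4)) := by ring
        _ ≤ (1 - q) * (x / 3) + 1 * (Real.exp c' * (D + 4)) := by gcongr
        _ ≤ (x - 1) / 3 := by linarith
        _ ≤ B + 1 := hB1.le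
    have hAB : A ≤ B + 1 := by
      have h12 : 1 ≤ Real.exp (c' - ε / 2) := Real.one_le_exp (by linarith)
      have h13 := h12.trans hratio
      rw [le_div_iff₀ hApos, one_mul] at h13
      exact_mod_cast h13
    have hlog : c' - ε / 2 ≤ Real.log (((B + 1 : ℕ) : ℝ) / A) := by
      rw [Real.le_log_iff_exp_le (by positivity)]
      exact hratio
    have hap := (abs_le.1 (CollatzLin.ap hN hf h0 (X := A) (Y := B + 1) (by omega) hAB)).1
    have hmm : CollatzLin.mean N f = CollatzOne.mean N f := rfl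
    rw [hmm] at hap
    have hNA : CollatzOne.mean N f * N / A ≤ CollatzOne.mean N f * (ε / 2) := by
      rw [mul_div_assoc]
      refine mul_le_mul_of_nonneg_left ?_ hM
      rw [div_le_iff₀ hApos]
      have h14 : x / (3 * R) ≤ A := by
        have h15 : x / (3 * R) ≤ x / (3 * h') := by
          have h6 : h' ≤ R := min_le_left _ _
          gcongr
        have : (0 : ℝ) ≤ D := Nat.cast_nonneg D
        linarith
      calc (N : ℝ) = 6 * N * R / (6 * R) := by field_simp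
        _ ≤ x * ε / (6 * R) := by gcongr
        _ = ε / 2 * (x / (3 * R)) := by field_simp; ring
        _ ≤ ε / 2 * A := mul_le_mul_of_nonneg_left h14 (by positivity)
    have hlog' := mul_le_mul_of_nonneg_left hlog hM
    linarith

/-! ### The function of one word -/

open Classical in
/-- The contribution of the word `W` at the root `v`. -/
noncomputable def fW (W : List ℕ) (G : ℤ → ℝ) (v : ℤ) : ℝ :=
  if CollatzLin.OO v ∧ vd W v then (3 : ℝ) ^ W.length / 2 ^ js W * G (ch W v) else 0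

lemma vd_fun_per {W : List ℕ} {n k : ℕ} (hW : W.length = n) {G : ℤ → ℝ} (hG : Per (3 ^ k) G) (c : ℝ) :
    Per (3 ^ (n + k)) (fun v => if vd W v then c * G (ch W v) else 0) := by
  intro v
  have h1 : v + ((3 ^ (n + k) : ℕ) : ℤ) = v + 3 ^ n * 3 ^ k := by push_cast; rw [pow_add]
  dsimp only
  rw [h1]
  by_cases h : vd W v
  · rw [if_pos ((CollatzLin.vd_shift hW v (3 ^ k)).2 h), if_pos h, CollatzLin.ch_shift hW h]
    congr 1
    have := hG.add_mul (ch W v) (2 ^ js W)
    push_cast at this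
    rw [mul_comm ((2 : ℤ) ^ js W)]
    exact this
  · rw [if_neg (fun h' => h ((CollatzLin.vd_shift hW v (3 ^ k)).1 h')), if_neg h]

lemma mean_vd_fun {W : List ℕ} {n k : ℕ} (hW : W.length = n) {G : ℤ → ℝ} (hG : Per (3 ^ k) G) :
    CollatzOne.mean (3 ^ (n + k)) (fun v => if vd W v then (3 : ℝ) ^ n / 2 ^ js W * G (ch W v) else 0) =
      1 / 2 ^ js W * CollatzOne.mean (3 ^ k) G := by
  have h1 := CollatzLin.mean_vd (E := 1) hW hG
  have hwt := CollatzLin.wt_pos (E := 1) le_rfl W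
  have hpr := CollatzLin.pr_pos (E := 1) le_rfl W
  have h2 : ∀ v : ℤ, (if vd W v then (3 : ℝ) ^ n / 2 ^ js W * G (ch W v) else 0) =
      (3 : ℝ) ^ n / 2 ^ js W / CollatzLin.wt 1 W * (if vd W v then CollatzLin.wt 1 W * G (ch W v) else 0) := by
    intro v
    split_ifs
    · field_simp
    · ring
  have h3 : CollatzOne.mean (3 ^ (n + k)) (fun y => if vd W y then CollatzLin.wt 1 W * G (ch W y) else 0) =
      CollatzLin.pr 1 W * CollatzOne.mean (3 ^ k) G := h1
  rw [mean_congr h2, mean_smul, h3, CollatzLin.wt_eq, hW]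
  field_simp

lemma fW_eq {W : List ℕ} (G : ℤ → ℝ) (v : ℤ) : fW W G v = if CollatzLin.okd [] v then
    (fun v => if vd W v then (3 : ℝ) ^ W.length / 2 ^ js W * G (ch W v) else 0) v else 0 := by
  unfold fW
  by_cases h : CollatzLin.OO v
  · rw [if_pos ((CollatzLin.okd_nil v).2 h)]
    by_cases h2 : vd W v
    · rw [if_pos ⟨h, h2⟩]; dsimp only; rw [if_pos h2]
    · rw [if_neg (fun h' => h2 h'.2)]; dsimp only; rw [if_neg h2]
  · rw [if_neg (fun h' => h h'.1), if_neg (fun h' => h ((CollatzLin.okd_nil v).1 h'))]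

lemma fW_per {W : List ℕ} {n k : ℕ} (hW : W.length = n) {G : ℤ → ℝ} (hG : Per (3 ^ k) G) :
    Per (3 ^ (n + k) * (2 ^ js [] * 4)) (fW W G) := by
  have h1 := CollatzLin.okd_f_per [] (n + k) (vd_fun_per hW hG ((3 : ℝ) ^ W.length / 2 ^ js W))
  intro v
  rw [fW_eq, fW_eq]
  exact h1 v

lemma mean_fW {W : List ℕ} {n k : ℕ} (hW : W.length = n) {G : ℤ → ℝ} (hG : Per (3 ^ k) G) :
    CollatzOne.mean (3 ^ (n + k) * (2 ^ js [] * 4)) (fW W G) =
      3 / 4 * (1 / 2 ^ js W * CollatzOne.mean (3 ^ k) G) := by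
  have h1 := CollatzLin.mean_okd [] (n + k) (vd_fun_per hW hG ((3 : ℝ) ^ W.length / 2 ^ js W))
  rw [js_nil, pow_zero, pow_zero, div_one] at h1
  have h2 := mean_vd_fun hW hG
  rw [js_nil, pow_zero, mean_congr (fun v => fW_eq G v), ← h2]
  subst hW
  exact h1

lemma fW_nonneg {W : List ℕ} {G : ℤ → ℝ} (hG : ∀ v, 0 ≤ G v) (v : ℤ) : 0 ≤ fW W G v := by
  unfold fW
  split_ifs
  · exact mul_nonneg (by positivity) (hG _)
  · exact le_rfl

/-- Both signs. -/
lemma neg_per {N : ℕ} {f : ℤ → ℝ} (hf : Per N f) : Per N (fun v => f (-v)) := by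
  have := hf.comp_affine (-1) 0
  intro v
  have h := this v
  simp only [add_zero, neg_mul, one_mul] at h
  exact h

lemma neg_mean {N : ℕ} {f : ℤ → ℝ} (hf : Per N f) :
    CollatzOne.mean N (fun v => f (-v)) = CollatzOne.mean N f := by
  unfold CollatzOne.mean
  rw [← S_affine hf (isCoprime_one_left.neg_left) 0]
  congr 1
  refine S_congr fun v => ?_
  rw [add_zero, neg_mul, one_mul]

open Classical in
/-- The contribution of one word to the sum over the roots. -/
lemma word_roots {W : List ℕ} {l D k L : ℕ} (hW : W.length = D) {G : ℤ → ℝ} (hG : Per (3 ^ k) G)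
    (hG0 : ∀ v, 0 ≤ G v) (hL : Real.exp L ≤ 2 ^ (l / 2)) {ε : ℝ} (hε : 0 < ε) :
    ∃ x₀ : ℝ, ∀ x ≥ x₀, 3 / 2 * (ww W * CollatzOne.mean (3 ^ k) G * (min (L : ℝ) (max 0 (m1 W)) - ε)) ≤
      ∑ m ∈ roots x l, (if x / 3 + 1 < hn W * (|(m : ℝ)| - D) then fW W G m else 0) / |(m : ℝ)| := by
  set N := 3 ^ (D + k) * (2 ^ js [] * 4) with hN
  have hN1 : 1 ≤ N := by rw [hN]; exact Nat.one_le_iff_ne_zero.2 (by positivity)
  have hper := fW_per hW hG
  have hmean := mean_fW hW hG
  obtain ⟨x₁, hx₁1, hx₁⟩ := one_sided hN1 hper (fW_nonneg hG0) (D := D) (W := W) hL hε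
  obtain ⟨x₂, hx₂1, hx₂⟩ := one_sided hN1 (neg_per hper) (fun v => fW_nonneg hG0 (-v)) (D := D) (W := W) hL hε
  refine ⟨max x₁ x₂, fun x hx => ?_⟩
  have hxx₁ : x₁ ≤ x := (le_max_left _ _).trans hx
  have hxx₂ : x₂ ≤ x := (le_max_right _ _).trans hx
  obtain ⟨A, B, hA, hAB, hsum⟩ := hx₁ x hxx₁
  obtain ⟨A', B', hA', hAB', hsum'⟩ := hx₂ x hxx₂
  rw [neg_mean hper] at hsum'
  rw [hmean] at hsum hsum'
  set F : ℤ → ℝ := fun m => (if x / 3 + 1 < hn W * (|(m : ℝ)| - D) then fW W G m else 0) / |(m : ℝ)| with hF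
  have hF0 : ∀ m, 0 ≤ F m := by
    intro m
    rw [hF]
    refine div_nonneg ?_ (abs_nonneg _)
    split_ifs
    · exact fW_nonneg hG0 m
    · exact le_rfl
  -- the two images
  set P : Finset ℤ := ((Ico A (B + 1)).filter (fun t : ℕ => CollatzLin.OO (t : ℤ))).image (fun t : ℕ => (t : ℤ)) with hP
  set Q : Finset ℤ := ((Ico A' (B' + 1)).filter (fun t : ℕ => CollatzLin.OO (-(t : ℤ)))).image (fun t : ℕ => -(t : ℤ)) with hQ
  have hroot : ∀ (t : ℕ) (m : ℤ), |m| = t → CollatzLin.OO m → x ≤ 3 * 2 ^ (l / 2) * t → 3 * (t : ℝ) + 1 ≤ x →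
      m ∈ roots x l := by
    intro t m hm hO h1 h2
    unfold roots
    have hmR : |(m : ℝ)| = t := by rw [← Int.cast_abs, hm]; simp
    have ht0 : (0 : ℝ) ≤ t := Nat.cast_nonneg t
    rw [mem_filter, mem_Icc]
    refine ⟨?_, hO, ?_, ?_⟩
    · rw [← abs_le, Int.le_floor]
      rw [hm]
      push_cast
      linarith
    · push_cast
      calc |3 * (m : ℝ) - 1| ≤ |3 * (m : ℝ)| + |(1 : ℝ)| := abs_sub _ _
        _ = 3 * t + 1 := by rw [abs_mul, hmR, abs_of_pos (show (0 : ℝ) < 3 by norm_num), abs_one]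
        _ ≤ x := h2
    · rw [hmR]; exact h1
  have hPsub : P ⊆ roots x l := by
    intro m hm
    rw [hP, mem_image] at hm
    obtain ⟨t, ht, rfl⟩ := hm
    rw [mem_filter, mem_Ico] at ht
    obtain ⟨h1, -, h3⟩ := hAB t ht.1.1 (by omega)
    exact hroot t _ (by simp) ht.2 h1 h3
  have hQsub : Q ⊆ roots x l := by
    intro m hm
    rw [hQ, mem_image] at hm
    obtain ⟨t, ht, rfl⟩ := hm
    rw [mem_filter, mem_Ico] at ht
    obtain ⟨h1, -, h3⟩ := hAB' t ht.1.1 (by omega)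
    exact hroot t _ (by simp) ht.2 h1 h3
  have hdisj : Disjoint P Q := by
    rw [disjoint_left]
    intro m hm hm'
    rw [hP, mem_image] at hm
    rw [hQ, mem_image] at hm'
    obtain ⟨t, ht, rfl⟩ := hm
    obtain ⟨t', ht', h⟩ := hm'
    rw [mem_filter, mem_Ico] at ht ht'
    omega
  have hle : ∑ m ∈ P, F m + ∑ m ∈ Q, F m ≤ ∑ m ∈ roots x l, F m := by
    rw [← sum_union hdisj]
    exact sum_le_sum_of_subset_of_nonneg (union_subset hPsub hQsub) fun m _ _ => hF0 m
  have hPsum : ∑ m ∈ P, F m = ∑ t ∈ Ico A (B + 1), fW W G (t : ℤ) / (t : ℝ) := by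
    rw [hP, sum_image (fun a _ b _ h => by exact_mod_cast h), sum_filter]
    refine sum_congr rfl fun t ht => ?_
    rw [mem_Ico] at ht
    by_cases hO : CollatzLin.OO (t : ℤ)
    · rw [if_pos hO]
      obtain ⟨-, h2, -⟩ := hAB t ht.1 (by omega)
      have habs : |((t : ℤ) : ℝ)| = t := by push_cast; exact abs_of_nonneg (Nat.cast_nonneg t)
      rw [hF]
      dsimp only
      rw [habs, if_pos h2]
    · rw [if_neg hO]
      unfold fW
      rw [if_neg (fun h => hO h.1), zero_div]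
  have hQsum : ∑ m ∈ Q, F m = ∑ t ∈ Ico A' (B' + 1), fW W G (-(t : ℤ)) / (t : ℝ) := by
    rw [hQ, sum_image (fun a _ b _ h => by simpa using h), sum_filter]
    refine sum_congr rfl fun t ht => ?_
    rw [mem_Ico] at ht
    by_cases hO : CollatzLin.OO (-(t : ℤ))
    · rw [if_pos hO]
      obtain ⟨-, h2, -⟩ := hAB' t ht.1 (by omega)
      have habs : |((-(t : ℤ) : ℤ) : ℝ)| = t := by push_cast; rw [abs_neg]; exact abs_of_nonneg (Nat.cast_nonneg t)
      rw [hF]
      dsimp only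
      rw [habs, if_pos h2]
    · rw [if_neg hO]
      unfold fW
      rw [if_neg (fun h => hO h.1), zero_div]
  rw [hPsum, hQsum] at hle
  refine le_trans ?_ hle
  unfold ww
  linarith


/-! ### The theorem -/

lemma sum_ww_lett {D : ℕ} (hD : 600 ≤ D) : 1 - (99 / 100 : ℝ) ^ D ≤ ∑ W ∈ lettT D, ww W := by
  have h1 := tsys_Z_ge D hD
  rw [tsys_Z D hD] at h1
  refine h1.trans (le_of_eq (sum_congr rfl fun W _ => ?_))
  unfold ww
  rw [one_div_pow]

open Classical in
theorem base_avg {ε : ℝ} (hε : 0 < ε) : ∃ l₀ : ℕ, ∀ A : Sys, A.Str → l₀ ≤ A.l → ∃ x₀ : ℝ, ∀ x ≥ x₀,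
    3 / 2 * Real.log (4 / 3) - ε ≤ ∑ m ∈ roots x A.l,
      1 / |(m : ℝ)| * Lam0 x (22 * A.l) m (A.PP^[17 * A.blk] (fun _ _ => 1)) := by
  -- choice of the truncation
  have hlim1 : Filter.Tendsto (fun L : ℕ => ((L : ℝ) + 2) / 2 ^ L) Filter.atTop (nhds 0) := by
    have h1 := tendsto_pow_const_div_const_pow_of_one_lt 1 (show (1 : ℝ) < 2 by norm_num)
    have h2 := (tendsto_pow_const_div_const_pow_of_one_lt 0 (show (1 : ℝ) < 2 by norm_num)).const_mul 2
    have h3 := h1.add h2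
    simp only [pow_one, pow_zero, mul_zero, add_zero] at h3
    refine h3.congr fun L => ?_
    ring
  obtain ⟨L, hL⟩ := (hlim1.eventually (gt_mem_nhds (show (0 : ℝ) < ε / 12 by positivity))).exists
  obtain ⟨δ, hδ0, hδ⟩ : ∃ δ : ℝ, 0 < δ ∧ δ * (L + 4) ≤ ε / 12 := ⟨ε / (12 * (L + 4)), by positivity, by
    rw [div_mul_eq_mul_div, div_le_iff₀ (by positivity)]
    linarith⟩
  -- the tail estimates
  have hlimE : Filter.Tendsto (fun l : ℕ => (((11 * (22 * l) : ℕ) : ℝ) + 2) / 2 ^ (11 * (22 * l))) Filter.atTop (nhds 0) :=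
    hlim1.comp (Filter.tendsto_atTop_mono (fun l => by omega : ∀ l : ℕ, l ≤ 11 * (22 * l)) Filter.tendsto_id)
  have hlimD : Filter.Tendsto (fun l : ℕ => (99 / 100 : ℝ) ^ (22 * l)) Filter.atTop (nhds 0) :=
    (tendsto_pow_atTop_nhds_zero_of_lt_one (by norm_num) (by norm_num)).comp
      (Filter.tendsto_atTop_mono (fun l => by omega : ∀ l : ℕ, l ≤ 22 * l) Filter.tendsto_id)
  have hlimZ : Filter.Tendsto (fun l : ℕ => 17 * (399 / 400 : ℝ) ^ l) Filter.atTop (nhds 0) := by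
    have := (tendsto_pow_atTop_nhds_zero_of_lt_one (r := (399 / 400 : ℝ)) (by norm_num) (by norm_num)).const_mul 17
    simpa using this
  have hev := ((hlimE.eventually (gt_mem_nhds hδ0)).and (hlimD.eventually (gt_mem_nhds hδ0))).and
    ((hlimZ.eventually (gt_mem_nhds hδ0)).and (Filter.eventually_ge_atTop (max 600 (4 * L + 4))))
  obtain ⟨l₀, hl₀⟩ := Filter.eventually_atTop.1 hev
  refine ⟨l₀, fun A hA hl => ?_⟩
  obtain ⟨⟨hE, hD⟩, hZ, hl2⟩ := hl₀ A.l hl
  have hl600 : 600 ≤ A.l := (le_max_left _ _).trans hl2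
  have hlL : 4 * L + 4 ≤ A.l := (le_max_right _ _).trans hl2
  set D := 22 * A.l with hDdef
  set n := 17 * A.blk with hndef
  set G : ℤ → ℝ := A.PP^[n] (fun _ _ => 1) 0 with hG
  have hGconst : ∀ J v, A.PP^[n] (fun _ _ => 1) J v = G v := by
    intro J v
    rw [hG]
    have h1 := A.PP_iter_const n (fun _ => 1) J v
    have h2 := A.PP_iter_const n (fun _ => 1) 0 v
    rw [h1, h2]
  have hG0 : ∀ v, 0 ≤ G v := by
    intro v
    rw [hG, A.PP_iter]
    exact sum_nonneg fun p _ => by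
      rw [mul_one]
      exact (A.wt_pos _ _ _).le
  have hqn : A.q ^ n = 3 ^ (A.l * n) := by
    show (3 ^ A.l) ^ n = _
    rw [← pow_mul]
  have hGper : Per (3 ^ (A.l * n)) G := by rw [← hqn]; exact per_iter_one A n 0
  have hGmean : CollatzOne.mean (3 ^ (A.l * n)) G = A.Z ^ n := by rw [← hqn]; exact mean_iter_one A n 0
  -- the mass of the mixing blocks
  have hZn : 1 - δ ≤ A.Z ^ n := by
    have h1 : 1 - (n : ℝ) * (99 / 100) ^ A.l ≤ A.Z ^ n := by
      have h2 := one_add_mul_le_pow (a := -(99 / 100 : ℝ) ^ A.l) (by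
        have : (99 / 100 : ℝ) ^ A.l ≤ 1 := pow_le_one₀ (by norm_num) (by norm_num)
        linarith) n
      have h3 : (1 + -(99 / 100 : ℝ) ^ A.l) ^ n ≤ A.Z ^ n := by
        have h4 : (99 / 100 : ℝ) ^ A.l ≤ 1 := pow_le_one₀ (by norm_num) (by norm_num)
        exact pow_le_pow_left₀ (by linarith) (by linarith [hA.Z_ge]) n
      linarith
    have h5 : (n : ℝ) * (99 / 100) ^ A.l ≤ 17 * (399 / 400) ^ A.l := by
      rw [hndef]
      push_cast
      have h6 : (A.blk : ℝ) ^ 200 ≤ (63 / 50) ^ A.l := by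
        refine le_of_pow_le_pow_left₀ (n := 3) (by norm_num) (by positivity) ?_
        calc ((A.blk : ℝ) ^ 200) ^ 3 = 2 ^ (A.l / 600 * 600) := by
              unfold Sys.blk
              push_cast
              rw [← pow_mul, ← pow_mul]
          _ ≤ 2 ^ A.l := pow_le_pow_right₀ (by norm_num) (Nat.div_mul_le_self _ _)
          _ ≤ ((63 / 50) ^ 3) ^ A.l := pow_le_pow_left₀ (by norm_num) (by norm_num) _
          _ = ((63 / 50) ^ A.l) ^ 3 := by rw [← pow_mul, ← pow_mul, mul_comm]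
      have h7 : ((A.blk : ℝ) * (99 / 100) ^ A.l) ^ 200 ≤ ((399 / 400) ^ A.l) ^ 200 := by
        rw [mul_pow, ← pow_mul, ← pow_mul, mul_comm A.l 200, pow_mul, pow_mul]
        calc (A.blk : ℝ) ^ 200 * ((99 / 100) ^ 200) ^ A.l ≤ (63 / 50) ^ A.l * ((99 / 100) ^ 200) ^ A.l := by
              gcongr
          _ = (63 / 50 * (99 / 100) ^ 200) ^ A.l := by rw [mul_pow]
          _ ≤ _ := pow_le_pow_left₀ (by positivity) (by norm_num) _
      have h8 := le_of_pow_le_pow_left₀ (by norm_num) (by positivity) h7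
      linarith
    linarith
  have hZn1 : A.Z ^ n ≤ 1 := pow_le_one₀ A.Z_pos.le hA.Z_le
  -- the words
  have hexpL : Real.exp L ≤ 2 ^ (A.l / 2) := by
    have h1 : Real.exp L ≤ 4 ^ L := by
      have h2 : Real.exp 1 ≤ 4 := by have := Real.exp_one_lt_d9; linarith
      calc Real.exp L = Real.exp 1 ^ L := by rw [← Real.exp_nat_mul, mul_one]
        _ ≤ 4 ^ L := pow_le_pow_left₀ (Real.exp_pos _).le h2 L
    refine h1.trans ?_
    rw [show (4 : ℝ) = 2 ^ 2 by norm_num, ← pow_mul]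
    exact pow_le_pow_right₀ (by norm_num) (by omega)
  have hwords : ∃ x₀ : ℝ, ∀ x ≥ x₀, ∀ W ∈ lettT D,
      3 / 2 * (ww W * A.Z ^ n * (min (L : ℝ) (max 0 (m1 W)) - δ)) ≤
      ∑ m ∈ roots x A.l, (if x / 3 + 1 < hn W * (|(m : ℝ)| - D) then fW W G m else 0) / |(m : ℝ)| := by
    have h1 : ∀ᶠ x : ℝ in Filter.atTop, ∀ W ∈ lettT D,
        3 / 2 * (ww W * A.Z ^ n * (min (L : ℝ) (max 0 (m1 W)) - δ)) ≤
        ∑ m ∈ roots x A.l, (if x / 3 + 1 < hn W * (|(m : ℝ)| - D) then fW W G m else 0) / |(m : ℝ)| := by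
      rw [Filter.eventually_all_finset]
      intro W hW
      have hlen : W.length = D := (mem_lettT.1 hW).1.1
      obtain ⟨x₀, hx₀⟩ := word_roots hlen hGper hG0 hexpL hδ0
      rw [hGmean] at hx₀
      exact Filter.eventually_atTop.2 ⟨x₀, hx₀⟩
    exact Filter.eventually_atTop.1 h1
  obtain ⟨x₀, hx₀⟩ := hwords
  refine ⟨x₀, fun x hx => ?_⟩
  have hsum := sum_le_sum (hx₀ x hx)
  -- rewrite the right hand side
  have hrhs : ∑ m ∈ roots x A.l, 1 / |(m : ℝ)| * Lam0 x D m (A.PP^[n] (fun _ _ => 1)) =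
      ∑ W ∈ lettT D, ∑ m ∈ roots x A.l,
        (if x / 3 + 1 < hn W * (|(m : ℝ)| - D) then fW W G m else 0) / |(m : ℝ)| := by
    rw [sum_comm]
    refine sum_congr rfl fun m hm => ?_
    have hOO : CollatzLin.OO m := by
      unfold roots at hm
      exact (mem_filter.1 hm).2.1
    unfold Lam0
    have hbw : CollatzNat.bw x D m = (lettT D).filter (fun W => vd W m ∧ x / 3 + 1 < hn W * (|(m : ℝ)| - D)) := by
      unfold CollatzNat.bw lettT
      rw [filter_filter]
      refine filter_congr fun W _ => ?_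
      tauto
    rw [hbw, sum_filter, mul_sum]
    refine sum_congr rfl fun W hW => ?_
    have hlen : W.length = D := (mem_lettT.1 hW).1.1
    by_cases h1 : x / 3 + 1 < hn W * (|(m : ℝ)| - D)
    · rw [if_pos h1]
      unfold fW
      by_cases h2 : vd W m
      · rw [if_pos ⟨h2, h1⟩, if_pos ⟨hOO, h2⟩, hGconst, hlen]; ring
      · rw [if_neg (fun h => h2 h.1), if_neg (fun h => h2 h.2)]; ring
    · rw [if_neg h1, if_neg (fun h => h1 h.2)]; ring
  rw [hrhs]
  refine le_trans ?_ hsum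
  -- numerical estimate
  obtain ⟨d, hd⟩ : ∃ d, D = d + 1 := ⟨D - 1, by omega⟩
  have hsub : lettT D ⊆ words (11 * D) (d + 1) := by
    rw [← hd]
    exact filter_subset _ _
  have hmass : 1 - δ ≤ ∑ W ∈ lettT D, ww W := by
    have := sum_ww_lett (D := D) (by omega)
    linarith
  have hmin := sum_min_ge' (L := L) hsub hmass
  set E := 11 * D with hEdef
  have hE' : ((E : ℝ) + 2) / 2 ^ E < δ := hE
  have hZE : 1 - δ ≤ CollatzLin.Z E ^ d := by
    have h1 := CollatzLin.Z_pow_ge E d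
    have h2 : (d : ℝ) / 2 ^ E ≤ (E + 2) / 2 ^ E := by
      gcongr
      have : (d : ℝ) ≤ E := by exact_mod_cast (by omega : d ≤ E)
      linarith
    linarith
  have hZE1 : CollatzLin.Z E ^ d ≤ 1 := pow_le_one₀ (CollatzLin.Z_nonneg E) (CollatzLin.Z_le_one E)
  have hle1 : ∑ W ∈ lettT D, ww W ≤ 1 := by
    have h4 : ∑ W ∈ lettT D, ww W ≤ ∑ W ∈ words (11 * D) (d + 1), ww W :=
      sum_le_sum_of_subset_of_nonneg hsub fun W _ _ => (ww_pos W).le
    rw [sum_ww] at h4
    exact h4.trans (pow_le_one₀ (CollatzLin.Z_nonneg _) (CollatzLin.Z_le_one _))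
  have hsplit : ∑ W ∈ lettT D, 3 / 2 * (ww W * A.Z ^ n * (min (L : ℝ) (max 0 (m1 W)) - δ)) =
      3 / 2 * A.Z ^ n * (∑ W ∈ lettT D, ww W * min (L : ℝ) (max 0 (m1 W)) - (∑ W ∈ lettT D, ww W) * δ) := by
    rw [sum_mul, ← sum_sub_distrib, mul_sum]
    exact sum_congr rfl fun W _ => by ring
  rw [hsplit]
  have hmu : mu0 ≤ 1 := by
    unfold mu0
    have := Real.log_le_sub_one_of_pos (show (0 : ℝ) < 4 / 3 by norm_num)
    linarith
  have hmu0 := mu0_pos
  have hmudef : Real.log (4 / 3) = mu0 := rfl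
  rw [hmudef]
  have hx0 : 0 ≤ ((E : ℝ) + 2) / 2 ^ E := by positivity
  have hL0 : (0 : ℝ) ≤ L := Nat.cast_nonneg L
  have h5 : mu0 - δ - δ ≤ CollatzLin.Z E ^ d * (mu0 - (E + 2) / 2 ^ E) := by
    nlinarith
  have h6 : (∑ W ∈ lettT D, ww W) * δ ≤ δ := mul_le_of_le_one_left hδ0.le hle1
  have h7 : mu0 - ε / 4 ≤ ∑ W ∈ lettT D, ww W * min (L : ℝ) (max 0 (m1 W)) - (∑ W ∈ lettT D, ww W) * δ := by
    nlinarith
  have hδε : δ ≤ ε / 12 := by nlinarith
  have h8 : A.Z ^ n * (mu0 - ε / 4) ≥ mu0 - ε / 2 := by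
    rcases le_total 0 (mu0 - ε / 4) with h | h
    · nlinarith
    · nlinarith
  have hZpos : 0 ≤ A.Z ^ n := pow_nonneg A.Z_pos.le n
  have h9 := mul_le_mul_of_nonneg_left h7 hZpos
  linarith

end CollatzNat
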