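import Pool.Agent.CollatzNat.Blackwell2

set_option autoImplicit false

/-!
The renewal theorem: the lower limit of the renewal function is `1 / log (4 / 3)`.
-/

namespace CollatzNat

open Filter Topology Finset

lemma irr : Irrational (Real.log 3 / Real.log 2) := by
  rintro ⟨q, hq⟩
  have h2 : 0 < Real.log 2 := Real.log_pos (by norm_num)
  have h3 : 0 < Real.log 3 := Real.log_pos (by norm_num)
  have hq0 : 0 < (q : ℝ) := by rw [hq]; positivity
  have hq0' : 0 < q := by exact_mod_cast hq0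
  have hnum : 0 < q.num := Rat.num_pos.2 hq0'
  have hden : (0 : ℝ) < q.den := by exact_mod_cast q.den_pos
  have h4 : (q.den : ℝ) * Real.log 3 = q.num * Real.log 2 := by
    have h5 : (q : ℝ) = q.num / q.den := Rat.cast_def q
    rw [h5, div_eq_div_iff hden.ne' h2.ne'] at hq
    linarith
  obtain ⟨p, hp⟩ : ∃ p : ℕ, q.num = p := ⟨q.num.toNat, by omega⟩
  rw [hp] at h4
  push_cast at h4
  rw [← Real.log_pow, ← Real.log_pow] at h4
  have h6 : (3 : ℝ) ^ q.den = 2 ^ p := Real.log_injOn_pos (Set.mem_Ioi.2 (by positivity))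
    (Set.mem_Ioi.2 (by positivity)) h4
  have h7 : (3 : ℕ) ^ q.den = 2 ^ p := by exact_mod_cast h6
  have h8 : Odd (3 ^ q.den) := Odd.pow (by decide)
  rw [h7] at h8
  have h9 : p ≠ 0 := by
    intro h; rw [h] at hp; rw [hp] at hnum; exact absurd hnum (by simp)
  exact absurd (Even.pow_of_ne_zero (by decide : Even 2) h9) (Nat.not_even_iff_odd.2 h8)

/-- A step close to `1` in the semigroup. -/
lemma exists_step {η : ℝ} (hη : 1 < η) : ∃ d, SG d ∧ ((1 < d ∧ d ≤ η) ∨ (d < 1 ∧ 1 ≤ η * d)) := by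
  have hd := dense_addSubgroupClosure_pair_iff.2 irr
  have hl2 : 0 < Real.log 2 := Real.log_pos (by norm_num)
  have hl32 : 0 < Real.log (3 / 2) := Real.log_pos (by norm_num)
  have hl3 : Real.log 3 = Real.log (3 / 2) + Real.log 2 := by
    rw [← Real.log_mul (by norm_num) (by norm_num)]; norm_num
  have hlη : 0 < Real.log η := Real.log_pos hη
  obtain ⟨z, hz, hz0, hz1⟩ := hd.exists_between (show (0 : ℝ) < min (Real.log η) (min (Real.log (3 / 2)) (Real.log 2)) by
    simp [hlη, hl2, hl32])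
  obtain ⟨h1, h2, h3⟩ : z < Real.log η ∧ z < Real.log (3 / 2) ∧ z < Real.log 2 := by
    simpa [lt_min_iff] using hz1
  obtain ⟨n, m, hnm⟩ := AddSubgroup.mem_closure_pair.1 hz
  simp only [zsmul_eq_mul] at hnm
  rcases lt_trichotomy n 0 with hn | hn | hn
  · -- `n < 0`
    obtain ⟨k, rfl⟩ : ∃ k : ℕ, n = -(k + 1) := ⟨(-n - 1).toNat, by omega⟩
    push_cast at hnm
    have hm : (k + 1 : ℝ) < m := by
      have : (k + 1 : ℝ) * Real.log 2 < m * Real.log 2 := by
        have h5 : (0 : ℝ) ≤ k * Real.log (3 / 2) := by positivity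
        rw [hl3] at hnm
        nlinarith
      exact lt_of_mul_lt_mul_right this hl2.le
    have hm' : (k + 1 : ℤ) < m := by exact_mod_cast hm
    obtain ⟨j, rfl⟩ : ∃ j : ℕ, m = k + 1 + j := ⟨(m - k - 1).toNat, by omega⟩
    push_cast at hnm
    refine ⟨_, SG.of_pow k j, Or.inr ?_⟩
    have hval : (3 : ℝ) ^ (k + 1) / 2 ^ (k + 1 + j) = Real.exp (-z) := by
      rw [← hnm, show -(-(k + 1) * Real.log 3 + (k + 1 + j) * Real.log 2) =
        ((k + 1 : ℕ) : ℝ) * Real.log 3 - ((k + 1 + j : ℕ) : ℝ) * Real.log 2 by push_cast; ring,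
        Real.exp_sub, ← Real.log_pow, ← Real.log_pow, Real.exp_log (by positivity), Real.exp_log (by positivity)]
    rw [hval]
    constructor
    · rw [Real.exp_lt_one_iff]; linarith
    · have h7 : η = Real.exp (Real.log η) := (Real.exp_log (by linarith)).symm
      rw [h7, ← Real.exp_add, Real.one_le_exp_iff]
      linarith
  · -- `n = 0`
    subst hn
    simp only [Int.cast_zero, zero_mul, zero_add] at hnm
    have hm1 : (0 : ℝ) < m := by
      rw [← hnm] at hz0
      exact (pos_iff_pos_of_mul_pos hz0).2 hl2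
    have hm1' : (0 : ℤ) < m := by exact_mod_cast hm1
    have : (1 : ℝ) ≤ m := by exact_mod_cast hm1'
    nlinarith
  · -- `n > 0`
    obtain ⟨k, rfl⟩ : ∃ k : ℕ, n = k + 1 := ⟨(n - 1).toNat, by omega⟩
    push_cast at hnm
    have hm : (k + 1 : ℝ) < -m := by
      have : (k + 1 : ℝ) * Real.log 2 < -m * Real.log 2 := by
        have h5 : (0 : ℝ) ≤ k * Real.log (3 / 2) := by positivity
        rw [hl3] at hnm
        nlinarith
      exact lt_of_mul_lt_mul_right this hl2.le
    have hm' : (k + 1 : ℤ) < -m := by exact_mod_cast hm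
    obtain ⟨j, rfl⟩ : ∃ j : ℕ, m = -(k + 1 + j) := ⟨(-m - k - 1).toNat, by omega⟩
    push_cast at hnm
    refine ⟨_, SG.of_pow k j, Or.inl ?_⟩
    have hval : (3 : ℝ) ^ (k + 1) / 2 ^ (k + 1 + j) = Real.exp z := by
      rw [← hnm, show (k + 1) * Real.log 3 + (-(k + 1 + j)) * Real.log 2 =
        ((k + 1 : ℕ) : ℝ) * Real.log 3 - ((k + 1 + j : ℕ) : ℝ) * Real.log 2 by push_cast; ring,
        Real.exp_sub, ← Real.log_pow, ← Real.log_pow, Real.exp_log (by positivity), Real.exp_log (by positivity)]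
    rw [hval]
    constructor
    · rw [Real.one_lt_exp_iff]; exact hz0
    · have h7 : η = Real.exp (Real.log η) := (Real.exp_log (by linarith)).symm
      rw [h7, Real.exp_le_exp]
      exact h1.le

/-- The semigroup is dense. -/
lemma exists_sg {x η : ℝ} (hx : 0 < x) (hη : 1 < η) : ∃ c, SG c ∧ x ≤ c ∧ c ≤ η * x := by
  obtain ⟨d, hd, h⟩ := exists_step hη
  have hd0 := hd.pos
  rcases h with ⟨h1, h2⟩ | ⟨h1, h2⟩
  · obtain ⟨e, he⟩ : ∃ e : ℕ, bq e ≤ x := by
      obtain ⟨e, he⟩ := exists_pow_lt_of_lt_one (show 0 < x / 3 by positivity) (show (1 / 2 : ℝ) < 1 by norm_num)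
      refine ⟨e, ?_⟩
      unfold bq
      have : (1 / 2 : ℝ) ^ (e + 1) ≤ (1 / 2) ^ e := pow_le_pow_of_le_one (by norm_num) (by norm_num) (by omega)
      linarith
    have ha : SG (bq e) := by simpa using SG.mul e 1 SG.one
    obtain ⟨n, hn1, hn2⟩ := exists_nat_pow_near (show 1 ≤ x / bq e by rw [le_div_iff₀ (bq_pos e)]; linarith) h1
    rw [le_div_iff₀ (bq_pos e)] at hn1
    rw [div_lt_iff₀ (bq_pos e)] at hn2
    refine ⟨_, (hd.pow (n + 1)).mul' ha, hn2.le, ?_⟩
    rw [pow_succ']
    calc d * d ^ n * bq e = d * (d ^ n * bq e) := by ring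
      _ ≤ η * x := mul_le_mul h2 hn1 (by have := bq_pos e; positivity) (by linarith)
  · obtain ⟨N, hN⟩ : ∃ N : ℕ, x ≤ (3 / 2 : ℝ) ^ N := by
      obtain ⟨N, hN⟩ := pow_unbounded_of_one_lt x (show (1 : ℝ) < 3 / 2 by norm_num)
      exact ⟨N, hN.le⟩
    have ha : SG ((3 / 2) ^ N) := by
      refine SG.pow ?_ N
      have := SG.mul 0 1 SG.one
      unfold bq at this
      norm_num at this
      exact this
    have hd1 : 1 < 1 / d := by rw [lt_div_iff₀ hd0]; linarith
    obtain ⟨n, hn1, hn2⟩ := exists_nat_pow_near (show 1 ≤ (3 / 2) ^ N / x by rw [le_div_iff₀ hx]; linarith) hd1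
    rw [one_div_pow, le_div_iff₀ hx, div_mul_eq_mul_div, one_mul, div_le_iff₀ (by positivity)] at hn1
    rw [one_div_pow, div_lt_iff₀ hx, div_mul_eq_mul_div, one_mul, lt_div_iff₀ (by positivity)] at hn2
    refine ⟨_, ha.mul' (hd.pow n), hn1, ?_⟩
    rw [pow_succ] at hn2
    have h3 : (3 / 2) ^ N * d ^ n ≤ (3 / 2) ^ N * d ^ n * (η * d) := by
      refine le_mul_of_one_le_right (by positivity) h2
    calc (3 / 2) ^ N * d ^ n ≤ (3 / 2) ^ N * d ^ n * (η * d) := h3
      _ = η * ((3 / 2) ^ N * (d ^ n * d)) := by ring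
      _ ≤ η * x := mul_le_mul_of_nonneg_left hn2.le (by linarith)

lemma all_tendsto {x : ℕ → ℝ} (h1 : Tendsto x atTop atTop) (h2 : ∀ n, 0 < x n)
    (h3 : Tendsto (fun n => gl (x n)) atTop (𝓝 bet)) {a : ℝ} (ha : 0 < a) :
    Tendsto (fun n => gl (a * x n)) atTop (𝓝 bet) := by
  rw [Metric.tendsto_atTop]
  intro ε hε
  obtain ⟨η, hη1, hη2⟩ : ∃ η : ℝ, 1 < η ∧ η * (bet + ε / 2) < bet + ε := by
    have hb := bet_nonneg
    refine ⟨1 + ε / (4 * (bet + ε)), ?_, ?_⟩
    · have : 0 < ε / (4 * (bet + ε)) := by positivity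
      linarith
    · have h4 : ε / (4 * (bet + ε)) * (bet + ε / 2) ≤ ε / 4 := by
        rw [div_mul_eq_mul_div, div_le_iff₀ (by positivity)]
        nlinarith
      linarith
  obtain ⟨c, hc, hc1, hc2⟩ := exists_sg ha hη1
  have h4 := sg_tendsto h1 h2 h3 hc
  have h5 : ∀ᶠ n in atTop, gl (c * x n) < bet + ε / 2 := h4.eventually (gt_mem_nhds (by linarith))
  have h6 : ∀ᶠ n in atTop, bet - ε < gl (a * x n) := (h1.const_mul_atTop ha).eventually (bet_lower hε)
  obtain ⟨N, hN⟩ := eventually_atTop.1 (h5.and h6)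
  refine ⟨N, fun n hn => ?_⟩
  obtain ⟨h7, h8⟩ := hN n hn
  have hc' : 1 ≤ c / a := by rw [le_div_iff₀ ha]; linarith
  have h9 := gl_scale (mul_pos ha (h2 n)) hc'
  have hax : c / a * (a * x n) = c * x n := by field_simp
  rw [hax] at h9
  have h10 : c / a ≤ η := by rw [div_le_iff₀ ha]; exact hc2
  have h11 := gl_nonneg (mul_pos hc.pos (h2 n))
  rw [Real.dist_eq, abs_lt]
  constructor
  · linarith
  · have : gl (a * x n) ≤ η * gl (c * x n) := h9.trans (mul_le_mul_of_nonneg_right h10 h11)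
    nlinarith

lemma Gdiff_tendsto {x : ℕ → ℝ} (h1 : Tendsto x atTop atTop) (h2 : ∀ n, 0 < x n)
    (h3 : Tendsto (fun n => gl (x n)) atTop (𝓝 bet)) {a c : ℝ} (ha : 0 < a) (hc : 1 ≤ c) :
    Tendsto (fun n => Gl (c * (a * x n)) - Gl (a * x n)) atTop (𝓝 (bet * Real.log c)) := by
  set h := Real.log c with hh
  have hh0 : 0 ≤ h := Real.log_nonneg hc
  -- telescoping bounds
  have key : ∀ N : ℕ, 0 < N → ∀ r : ℝ, r = Real.exp (h / N) →
      (∀ n, (1 - 1 / r) * ∑ j ∈ range N, gl (r ^ j * a * x n) ≤ Gl (c * (a * x n)) - Gl (a * x n)) ∧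
      (∀ n, Gl (c * (a * x n)) - Gl (a * x n) ≤ (r - 1) * ∑ j ∈ range N, gl (r ^ (j + 1) * a * x n)) := by
    intro N hN r hr
    have hr1 : 1 ≤ r := by rw [hr, Real.one_le_exp_iff]; positivity
    have hrN : r ^ N = c := by
      rw [hr, ← Real.exp_nat_mul, mul_div_cancel₀ _ (by positivity), hh, Real.exp_log (by linarith)]
    have htel : ∀ n, Gl (c * (a * x n)) - Gl (a * x n) =
        ∑ j ∈ range N, (Gl (r * (r ^ j * a * x n)) - Gl (r ^ j * a * x n)) := by
      intro n
      have := sum_range_sub (fun j => Gl (r ^ j * a * x n)) N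
      rw [hrN, pow_zero, one_mul] at this
      rw [show c * (a * x n) = c * a * x n by ring, ← this]
      refine sum_congr rfl fun j _ => ?_
      rw [pow_succ', show r * r ^ j * a * x n = r * (r ^ j * a * x n) by ring]
    constructor
    · intro n
      rw [htel, mul_sum]
      refine sum_le_sum fun j _ => Gl_lower ?_ hr1
      have := h2 n
      positivity
    · intro n
      rw [htel, mul_sum]
      refine sum_le_sum fun j _ => ?_
      have h5 := Gl_upper (s := r ^ j * a * x n) (c := r) (by have := h2 n; positivity) hr1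
      rw [show r ^ (j + 1) * a * x n = r * (r ^ j * a * x n) by rw [pow_succ]; ring]
      exact h5
  rw [Metric.tendsto_atTop]
  intro ε hε
  -- choose `N`
  have hlim : Tendsto (fun N : ℕ => h / (N : ℝ)) atTop (𝓝 0) := tendsto_const_div_atTop_nhds_zero_nat h
  have hup : Tendsto (fun N : ℕ => bet * (h * Real.exp (h / (N : ℝ)))) atTop (𝓝 (bet * (h * 1))) := by
    have := (Real.continuous_exp.tendsto 0).comp hlim
    rw [Real.exp_zero] at this
    exact (this.const_mul h).const_mul bet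
  have hlo : Tendsto (fun N : ℕ => bet * (h * Real.exp (-(h / (N : ℝ))))) atTop (𝓝 (bet * (h * 1))) := by
    have := (Real.continuous_exp.tendsto (-0)).comp hlim.neg
    rw [neg_zero, Real.exp_zero] at this
    exact (this.const_mul h).const_mul bet
  rw [mul_one] at hup hlo
  obtain ⟨N, ⟨hN1, hN2⟩, hN0⟩ := ((hup.eventually (gt_mem_nhds (show bet * h < bet * h + ε / 2 by linarith))).and
    (hlo.eventually (lt_mem_nhds (show bet * h - ε / 2 < bet * h by linarith)))).and (eventually_gt_atTop 0) |>.exists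
  set r := Real.exp (h / N) with hr
  obtain ⟨hA, hB⟩ := key N hN0 r hr
  have hb := bet_nonneg
  have hN0' : (0 : ℝ) < N := by exact_mod_cast hN0
  have hr0 : 0 < r := Real.exp_pos _
  have hsumup : Tendsto (fun n => (r - 1) * ∑ j ∈ range N, gl (r ^ (j + 1) * a * x n)) atTop
      (𝓝 ((r - 1) * ∑ _j ∈ range N, bet)) :=
    (tendsto_finsetSum _ fun j _ => all_tendsto h1 h2 h3 (by positivity)).const_mul _
  have hsumlo : Tendsto (fun n => (1 - 1 / r) * ∑ j ∈ range N, gl (r ^ j * a * x n)) atTop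
      (𝓝 ((1 - 1 / r) * ∑ _j ∈ range N, bet)) :=
    (tendsto_finsetSum _ fun j _ => all_tendsto h1 h2 h3 (by positivity)).const_mul _
  rw [sum_const, card_range, nsmul_eq_mul] at hsumup hsumlo
  -- elementary inequalities
  have he1 : (r - 1) * (N * bet) ≤ bet * (h * r) := by
    have h5 : r - 1 ≤ h / N * r := by
      have h6 : -(h / N) + 1 ≤ Real.exp (-(h / N)) := Real.add_one_le_exp _
      have h7 : Real.exp (-(h / N)) * r = 1 := by rw [hr, ← Real.exp_add]; simp
      nlinarith
    calc (r - 1) * (N * bet) ≤ (h / N * r) * (N * bet) := mul_le_mul_of_nonneg_right h5 (by positivity)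
      _ = bet * (h * r) := by field_simp
  have he2 : bet * (h * Real.exp (-(h / N))) ≤ (1 - 1 / r) * (N * bet) := by
    have h7 : Real.exp (-(h / N)) = 1 / r := by rw [hr, Real.exp_neg, one_div]
    have h5 : h / N * (1 / r) ≤ 1 - 1 / r := by
      have h6 : h / N + 1 ≤ r := Real.add_one_le_exp _
      rw [mul_one_div, div_le_iff₀ hr0, sub_mul, one_div, inv_mul_cancel₀ hr0.ne']
      linarith
    rw [h7]
    calc bet * (h * (1 / r)) = (h / N * (1 / r)) * (N * bet) := by field_simp
      _ ≤ _ := mul_le_mul_of_nonneg_right h5 (by positivity)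
  obtain ⟨n0, hn0⟩ := eventually_atTop.1
    ((hsumup.eventually (gt_mem_nhds (show (r - 1) * (N * bet) < bet * h + ε by linarith))).and
    (hsumlo.eventually (lt_mem_nhds (show bet * h - ε < (1 - 1 / r) * (N * bet) by linarith))))
  refine ⟨n0, fun n hn => ?_⟩
  obtain ⟨h8, h9⟩ := hn0 n hn
  have h10 := hA n
  have h11 := hB n
  rw [Real.dist_eq, abs_lt]
  constructor <;> linarith

/-- The mean step of the walk. -/
noncomputable def mu0 : ℝ := Real.log (4 / 3)

lemma mu0_pos : 0 < mu0 := Real.log_pos (by norm_num)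

lemma hasSum_mu0 : HasSum (fun e => ew e * -Real.log (bq e)) mu0 := by
  have h1 : HasSum (fun n : ℕ => (n : ℝ) * (1 / 2) ^ n) ((1 / 2) / (1 - 1 / 2) ^ 2) :=
    hasSum_coe_mul_geometric_of_norm_lt_one (by norm_num)
  have h2 : HasSum (fun e : ℕ => ((e + 1 : ℕ) : ℝ) * (1 / 2) ^ (e + 1)) 2 := by
    rw [hasSum_nat_add_iff (f := fun n : ℕ => (n : ℝ) * (1 / 2) ^ n) 1]
    norm_num at h1 ⊢
    exact h1
  have h3 := (h2.mul_left (Real.log 2)).sub (hasSum_ew.mul_left (Real.log 3))
  have h4 : Real.log 2 * 2 - Real.log 3 * 1 = mu0 := by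
    unfold mu0
    rw [Real.log_div (by norm_num) (by norm_num), show (4 : ℝ) = 2 ^ 2 by norm_num, Real.log_pow]
    push_cast; ring
  rw [h4] at h3
  have h5 : (fun e => ew e * -Real.log (bq e)) =
      fun e : ℕ => Real.log 2 * (((e + 1 : ℕ) : ℝ) * (1 / 2) ^ (e + 1)) - Real.log 3 * ew e := by
    funext e
    unfold ew bq
    rw [Real.log_mul (by norm_num) (by positivity), Real.log_pow, one_div, Real.log_inv]
    ring
  rw [h5]
  exact h3

lemma Gl_double {s : ℝ} (hs : 0 < s) (k : ℕ) : Gl s - Gl (s / 2 ^ k) ≤ 48 * k := by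
  induction k with
  | zero => simp
  | succ k ih =>
    have h1 := Gl_upper (s := s / 2 ^ (k + 1)) (c := 2) (by positivity) (by norm_num)
    have h2 : 2 * (s / 2 ^ (k + 1)) = s / 2 ^ k := by rw [pow_succ]; field_simp
    rw [h2] at h1
    have h3 := gl_le (s := s / 2 ^ k) (by positivity)
    push_cast
    linarith

theorem bet_eq : bet * mu0 = 1 := by
  obtain ⟨x, h1, h2, h3⟩ := exists_seq
  have hlim : Tendsto (fun n => ∑' e, ew e * (Gl (x n) - Gl (bq e * x n))) atTop
      (𝓝 (∑' e, ew e * (bet * -Real.log (bq e)))) := by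
    refine tendsto_tsum_of_dominated_convergence (bound := fun e : ℕ => 48 * (((e + 1 : ℕ) : ℝ) * (1 / 2) ^ (e + 1))) ?_ ?_ ?_
    · have h4 : Summable (fun n : ℕ => (n : ℝ) * (1 / 2) ^ n) :=
        (hasSum_coe_mul_geometric_of_norm_lt_one (r := (1 / 2 : ℝ)) (by norm_num)).summable
      exact ((summable_nat_add_iff 1).2 h4).mul_left 48
    · intro e
      refine Tendsto.const_mul _ ?_
      rcases le_or_gt (bq e) 1 with h | h
      · have h5 := Gdiff_tendsto h1 h2 h3 (a := bq e) (c := 1 / bq e) (bq_pos e) (by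
          rw [le_div_iff₀ (bq_pos e)]; linarith)
        rw [one_div, Real.log_inv] at h5
        refine h5.congr fun n => ?_
        have hb := (bq_pos e).ne'
        rw [show (bq e)⁻¹ * (bq e * x n) = x n by field_simp]
      · have h5 := Gdiff_tendsto h1 h2 h3 (a := 1) (c := bq e) one_pos h.le
        rw [mul_neg]
        refine h5.neg.congr fun n => ?_
        rw [one_mul]
        ring
    · refine Eventually.of_forall fun n e => ?_
      have hw := ew_pos e
      have h4 : |Gl (x n) - Gl (bq e * x n)| ≤ 48 * ((e + 1 : ℕ) : ℝ) := by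
        rcases Nat.eq_zero_or_pos e with h | h
        · subst h
          have h5 : bq 0 = 3 / 2 := by unfold bq; norm_num
          have h6 := Gl_upper (s := x n) (c := 3 / 2) (h2 n) (by norm_num)
          have h7 := gl_le (s := 3 / 2 * x n) (by have := h2 n; positivity)
          have h8 := Gl_mono (h2 n) (show x n ≤ 3 / 2 * x n by have := h2 n; linarith)
          rw [h5, abs_le]
          push_cast
          constructor <;> linarith
        · have hle : bq e ≤ 1 := by
            unfold bq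
            have : (1 / 2 : ℝ) ^ (e + 1) ≤ (1 / 2) ^ 2 := pow_le_pow_of_le_one (by norm_num) (by norm_num) (by omega)
            linarith
          have h5 := Gl_mono (mul_pos (bq_pos e) (h2 n)) (show bq e * x n ≤ x n by
            have := h2 n; nlinarith)
          have h6 := Gl_double (h2 n) (e + 1)
          have h7 : Gl (x n / 2 ^ (e + 1)) ≤ Gl (bq e * x n) := by
            refine Gl_mono (by have := h2 n; positivity) ?_
            unfold bq
            rw [one_div_pow, div_eq_mul_one_div]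
            have h8 := h2 n
            have h9 : (0 : ℝ) < 1 / 2 ^ (e + 1) := by positivity
            nlinarith [mul_pos h8 h9]
          rw [abs_le]
          constructor
          · have : (0 : ℝ) ≤ 48 * ((e + 1 : ℕ) : ℝ) := by positivity
            linarith
          · linarith
      rw [Real.norm_eq_abs, abs_mul, abs_of_pos hw]
      calc ew e * |Gl (x n) - Gl (bq e * x n)| ≤ ew e * (48 * ((e + 1 : ℕ) : ℝ)) :=
            mul_le_mul_of_nonneg_left h4 hw.le
        _ = 48 * (((e + 1 : ℕ) : ℝ) * (1 / 2) ^ (e + 1)) := by unfold ew; ring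
  have hsum : ∑' e, ew e * (bet * -Real.log (bq e)) = bet * mu0 := by
    rw [← (hasSum_mu0.mul_left bet).tsum_eq]
    exact tsum_congr fun e => by ring
  rw [hsum] at hlim
  have heq : ∀ n, ∑' e, ew e * (Gl (x n) - Gl (bq e * x n)) = phi1 (x n) := by
    intro n
    have h5 := Gl_eq (h2 n)
    have h6 : ∑' e, ew e * (Gl (x n) - Gl (bq e * x n)) = Gl (x n) - Rop Gl (x n) := by
      have h7 : HasSum (fun e => ew e * Gl (x n)) (Gl (x n)) := by
        simpa using hasSum_ew.mul_right (Gl (x n))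
      have h8 := h7.sub (summable_Gl (h2 n)).hasSum
      rw [← show _ = Gl (x n) - Rop Gl (x n) from h8.tsum_eq]
      exact tsum_congr fun e => by ring
    linarith
  rw [funext heq] at hlim
  have hphi : Tendsto (fun n => phi1 (x n)) atTop (𝓝 1) := by
    have h5 : Tendsto (fun n => 1 - 1 / x n) atTop (𝓝 (1 - 0)) :=
      (h1.inv_tendsto_atTop.congr fun n => (one_div _).symm).const_sub 1
    rw [sub_zero] at h5
    refine h5.congr' ?_
    filter_upwards [h1.eventually (eventually_ge_atTop 1)] with n hn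
    unfold phi1
    rw [if_pos hn]
  exact tendsto_nhds_unique hlim hphi

/-- Lower bound of the renewal theorem. -/
theorem gl_lower {ε : ℝ} (hε : 0 < ε) : ∃ S : ℝ, ∀ s, S ≤ s → 1 / mu0 - ε ≤ gl s := by
  obtain ⟨S, hS⟩ := eventually_atTop.1 (bet_lower hε)
  refine ⟨S, fun s hs => ?_⟩
  have h1 := hS s hs
  have h2 : 1 / mu0 = bet := by
    rw [div_eq_iff mu0_pos.ne']
    exact bet_eq.symm
  rw [h2]
  exact h1.le

end CollatzNat
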