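import Pool.Agent.CollatzLin.Sums
import Pool.Agent.CollatzOne.Exists
import Pool.Agent.CollatzNat.Blackwell3

set_option autoImplicit false

/-!
The running minimum of the walk: the expected positive part is at least the mean step.
-/

namespace CollatzNat

open CollatzOne CollatzLin Finset

/-- Step of the walk. -/
noncomputable def xi (e : ℕ) : ℝ := Real.log (2 ^ e / 3)

lemma xi_eq (e : ℕ) : xi e = e * Real.log 2 - Real.log 3 := by
  unfold xi
  rw [Real.log_div (by positivity) (by norm_num), Real.log_pow]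

/-- Minimum of the logarithms of the heights of the initial segments (including the empty one). -/
noncomputable def m0 : List ℕ → ℝ
  | [] => 0
  | e :: W => min 0 (xi e + m0 W)

/-- Minimum of the logarithms of the heights of the nonempty initial segments. -/
noncomputable def m1 : List ℕ → ℝ
  | [] => 0
  | e :: W => xi e + m0 W

lemma m0_nonpos (W : List ℕ) : m0 W ≤ 0 := by
  cases W with
  | nil => exact le_rfl
  | cons e W => exact min_le_left _ _

lemma m0_snoc (W : List ℕ) (e : ℕ) : m0 (W ++ [e]) ≤ m0 W := by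
  induction W with
  | nil => exact m0_nonpos _
  | cons a W ih =>
    show min 0 (xi a + m0 (W ++ [e])) ≤ min 0 (xi a + m0 W)
    exact min_le_min le_rfl (by linarith)

lemma max_m1 (e : ℕ) (W : List ℕ) : max 0 (m1 (e :: W)) = m1 (e :: W) - m0 (e :: W) := by
  show max 0 (xi e + m0 W) = xi e + m0 W - min 0 (xi e + m0 W)
  have := max_add_min 0 (xi e + m0 W)
  linarith

lemma log_ht_cons (e : ℕ) (W : List ℕ) : Real.log (ht (e :: W)) = xi e + Real.log (ht W) := by
  rw [ht_cons, Real.log_mul (by positivity) (ht_pos W).ne']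
  rfl

lemma m0_le_take (W : List ℕ) (k : ℕ) : m0 W ≤ Real.log (ht (W.take k)) := by
  induction W generalizing k with
  | nil => simp [ht_nil, m0]
  | cons e W ih =>
    cases k with
    | zero => rw [List.take_zero, ht_nil, Real.log_one]; exact m0_nonpos _
    | succ k =>
      rw [List.take_succ_cons, log_ht_cons]
      refine (min_le_right _ _).trans ?_
      linarith [ih k]

lemma m1_le_take {W : List ℕ} (hW : W ≠ []) {k : ℕ} (hk : 1 ≤ k) : m1 W ≤ Real.log (ht (W.take k)) := by
  cases W with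
  | nil => exact absurd rfl hW
  | cons e W =>
    obtain ⟨k, rfl⟩ : ∃ j, k = j + 1 := ⟨k - 1, by omega⟩
    rw [List.take_succ_cons, log_ht_cons]
    show xi e + m0 W ≤ _
    linarith [m0_le_take W k]

/-- Weight of a word. -/
noncomputable def ww (W : List ℕ) : ℝ := 1 / 2 ^ js W

lemma ww_pos (W : List ℕ) : 0 < ww W := by unfold ww; positivity

lemma ww_cons (e : ℕ) (W : List ℕ) : ww (e :: W) = 1 / 2 ^ e * ww W := by
  unfold ww
  rw [js_cons, pow_add]
  field_simp

lemma ww_append (W V : List ℕ) : ww (W ++ V) = ww W * ww V := by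
  unfold ww
  rw [js_append, pow_add]
  field_simp

lemma sum_ww (E n : ℕ) : ∑ W ∈ words E n, ww W = Z E ^ n := by
  have h := sum_half_words E n
  unfold Z
  rw [one_div_pow] at h
  rw [← h]
  refine sum_congr rfl fun W _ => ?_
  unfold ww
  rw [one_div_pow]

/-- The expected positive part of the minimum. -/
theorem sum_max_ge (E n : ℕ) :
    Z E ^ n * ∑ e ∈ Icc 1 E, 1 / 2 ^ e * xi e ≤ ∑ W ∈ words E (n + 1), ww W * max 0 (m1 W) := by
  have h1 : ∑ W ∈ words E (n + 1), ww W * max 0 (m1 W) =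
      ∑ W ∈ words E (n + 1), ww W * m1 W - ∑ W ∈ words E (n + 1), ww W * m0 W := by
    rw [← sum_sub_distrib]
    refine sum_congr rfl fun W hW => ?_
    cases W with
    | nil =>
      have := (mem_words.1 hW).1
      simp at this
    | cons e W => rw [max_m1]; ring
  have h2 : ∑ W ∈ words E (n + 1), ww W * m1 W =
      Z E ^ n * ∑ e ∈ Icc 1 E, 1 / 2 ^ e * xi e + Z E * ∑ V ∈ words E n, ww V * m0 V := by
    rw [sum_words_succ]
    have h3 : ∀ e ∈ Icc 1 E, ∑ V ∈ words E n, ww (e :: V) * m1 (e :: V) =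
        Z E ^ n * (1 / 2 ^ e * xi e) + 1 / 2 ^ e * ∑ V ∈ words E n, ww V * m0 V := by
      intro e _
      rw [← sum_ww E n, sum_mul, mul_sum, ← sum_add_distrib]
      refine sum_congr rfl fun V _ => ?_
      rw [ww_cons]
      show 1 / 2 ^ e * ww V * (xi e + m0 V) = _
      ring
    rw [sum_congr rfl h3, sum_add_distrib, ← mul_sum, ← sum_mul, sum_letters]
  have h4 : ∑ W ∈ words E (n + 1), ww W * m0 W ≤ Z E * ∑ V ∈ words E n, ww V * m0 V := by
    rw [sum_words_add E n 1, mul_sum]
    refine sum_le_sum fun V _ => ?_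
    rw [show (1 : ℕ) = 0 + 1 from rfl, sum_words_succ]
    have h5 : ∀ e ∈ Icc 1 E, ∑ U ∈ words E 0, ww (V ++ e :: U) * m0 (V ++ e :: U) ≤ 1 / 2 ^ e * (ww V * m0 V) := by
      intro e _
      rw [words_zero, sum_singleton, ww_append, ww_cons]
      have h6 : ww [] = 1 := by simp [ww, js_nil]
      rw [h6]
      have h7 := m0_snoc V e
      have h8 := ww_pos V
      have h9 : (0 : ℝ) < 1 / 2 ^ e := by positivity
      have h10 : ww V * (1 / 2 ^ e * 1) * m0 (V ++ [e]) = (1 / 2 ^ e * ww V) * m0 (V ++ [e]) := by ring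
      rw [h10, ← mul_assoc]
      exact mul_le_mul_of_nonneg_left h7 (by positivity)
    refine (sum_le_sum h5).trans (le_of_eq ?_)
    rw [← sum_mul, sum_letters]
  linarith

lemma sum_e (E : ℕ) : ∑ e ∈ Icc 1 E, 1 / (2 : ℝ) ^ e * e = 2 - (E + 2) / 2 ^ E := by
  induction E with
  | zero => simp
  | succ E ih =>
    rw [sum_Icc_succ_top (by omega), ih, pow_succ]
    push_cast
    field_simp
    ring

lemma sum_xi_ge (E : ℕ) : mu0 - (E + 2) / 2 ^ E ≤ ∑ e ∈ Icc 1 E, 1 / 2 ^ e * xi e := by
  have h1 : ∑ e ∈ Icc 1 E, 1 / 2 ^ e * xi e =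
      (∑ e ∈ Icc 1 E, 1 / (2 : ℝ) ^ e * e) * Real.log 2 - (∑ e ∈ Icc 1 E, (1 : ℝ) / 2 ^ e) * Real.log 3 := by
    rw [sum_mul, sum_mul, ← sum_sub_distrib]
    refine sum_congr rfl fun e _ => ?_
    rw [xi_eq]; ring
  rw [h1, sum_e, sum_letters]
  unfold Z
  have h2 : mu0 = 2 * Real.log 2 - Real.log 3 := by
    unfold mu0
    rw [Real.log_div (by norm_num) (by norm_num), show (4 : ℝ) = 2 ^ 2 by norm_num, Real.log_pow]
    push_cast; ring
  have h3 : 0 < Real.log 3 := Real.log_pos (by norm_num)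
  have h4 : Real.log 2 ≤ 1 := by linarith [Real.log_two_lt_d9]
  have h5 : (0 : ℝ) ≤ (E + 2) / 2 ^ E := by positivity
  have h6 : (0 : ℝ) < 1 / 2 ^ E := by positivity
  rw [h2]
  nlinarith [mul_le_mul_of_nonneg_left h4 h5, mul_pos h6 h3]

/-- Tail of the first step. -/
lemma sum_tail (L E : ℕ) : ∑ e ∈ Icc 1 E, 1 / (2 : ℝ) ^ e * max 0 (xi e - L) ≤ (L + 2) / 2 ^ L := by
  have key : ∀ E : ℕ, ∑ e ∈ Icc 1 E, 1 / (2 : ℝ) ^ e * max 0 (xi e - L) ≤
      if L ≤ E then ((L : ℝ) + 2) / 2 ^ L - ((E : ℝ) + 2) / 2 ^ E else 0 := by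
    intro E
    induction E with
    | zero =>
      rw [Icc_eq_empty (by norm_num), sum_empty]
      split_ifs with h
      · have : L = 0 := by omega
        subst this; simp
      · exact le_rfl
    | succ E ih =>
      rw [sum_Icc_succ_top (by omega)]
      have hx : xi (E + 1) ≤ (E + 1 : ℕ) := by
        rw [xi_eq]
        have h3 : 0 < Real.log 3 := Real.log_pos (by norm_num)
        have h4 : Real.log 2 ≤ 1 := by linarith [Real.log_two_lt_d9]
        have h5 : (0 : ℝ) ≤ ((E + 1 : ℕ) : ℝ) := by positivity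
        nlinarith
      by_cases h : L ≤ E
      · rw [if_pos h] at ih
        rw [if_pos (by omega)]
        have h6 : max 0 (xi (E + 1) - L) ≤ (E + 1 : ℕ) := by
          refine max_le (by positivity) ?_
          have : (0 : ℝ) ≤ L := by positivity
          linarith
        have h7 : 1 / (2 : ℝ) ^ (E + 1) * max 0 (xi (E + 1) - L) ≤ 1 / 2 ^ (E + 1) * ((E + 1 : ℕ) : ℝ) :=
          mul_le_mul_of_nonneg_left h6 (by positivity)
        have h8 : ((E : ℝ) + 2) / 2 ^ E - ((E + 1 : ℕ) + 2 : ℝ) / 2 ^ (E + 1) = 1 / 2 ^ (E + 1) * ((E + 1 : ℕ) : ℝ) := by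
          rw [pow_succ]; push_cast; field_simp; ring
        linarith
      · rw [if_neg h] at ih
        have h9 : max 0 (xi (E + 1) - L) = 0 := by
          refine max_eq_left ?_
          have : ((E + 1 : ℕ) : ℝ) ≤ L := by exact_mod_cast (by omega : E + 1 ≤ L)
          linarith
        rw [h9, mul_zero, add_zero]
        split_ifs with h10
        · have : L = E + 1 := by omega
          subst this
          simpa using ih
        · exact ih
  refine (key E).trans ?_
  split_ifs
  · have : (0 : ℝ) ≤ ((E : ℝ) + 2) / 2 ^ E := by positivity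
    linarith
  · positivity

/-- Truncation of the minimum. -/
theorem sum_min_ge (E n L : ℕ) : Z E ^ n * (mu0 - (E + 2) / 2 ^ E) - (L + 2) / 2 ^ L ≤
    ∑ W ∈ words E (n + 1), ww W * min (L : ℝ) (max 0 (m1 W)) := by
  have h1 := sum_max_ge E n
  have h2 := mul_le_mul_of_nonneg_left (sum_xi_ge E) (pow_nonneg (Z_nonneg E) n)
  have h3 : ∑ W ∈ words E (n + 1), ww W * max 0 (m1 W) - ∑ W ∈ words E (n + 1), ww W * min (L : ℝ) (max 0 (m1 W)) ≤
      (L + 2) / 2 ^ L := by
    rw [← sum_sub_distrib, sum_words_succ]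
    have h4 : ∀ e ∈ Icc 1 E, ∑ V ∈ words E n, (ww (e :: V) * max 0 (m1 (e :: V)) -
        ww (e :: V) * min (L : ℝ) (max 0 (m1 (e :: V)))) ≤ 1 / 2 ^ e * max 0 (xi e - L) := by
      intro e _
      have h5 : ∀ V ∈ words E n, ww (e :: V) * max 0 (m1 (e :: V)) -
          ww (e :: V) * min (L : ℝ) (max 0 (m1 (e :: V))) ≤ ww V * (1 / 2 ^ e * max 0 (xi e - L)) := by
        intro V _
        rw [← mul_sub, ww_cons]
        have h6 : max 0 (m1 (e :: V)) - min (L : ℝ) (max 0 (m1 (e :: V))) ≤ max 0 (xi e - L) := by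
          have h7 : m1 (e :: V) ≤ xi e := by
            show xi e + m0 V ≤ xi e
            linarith [m0_nonpos V]
          have hL : (0 : ℝ) ≤ L := by positivity
          rcases le_total (L : ℝ) (max 0 (m1 (e :: V))) with h | h
          · rw [min_eq_left h]
            rcases max_choice 0 (m1 (e :: V)) with h8 | h8
            · rw [h8] at h ⊢
              have := le_max_left 0 (xi e - L)
              linarith
            · rw [h8]
              have := le_max_right 0 (xi e - L)
              linarith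
          · rw [min_eq_right h, sub_self]
            exact le_max_left _ _
        have h9 := ww_pos V
        calc 1 / 2 ^ e * ww V * (max 0 (m1 (e :: V)) - min (L : ℝ) (max 0 (m1 (e :: V))))
            ≤ 1 / 2 ^ e * ww V * max 0 (xi e - L) := mul_le_mul_of_nonneg_left h6 (by positivity)
          _ = ww V * (1 / 2 ^ e * max 0 (xi e - L)) := by ring
      refine (sum_le_sum h5).trans ?_
      rw [← sum_mul, sum_ww]
      refine mul_le_of_le_one_left ?_ (pow_le_one₀ (Z_nonneg E) (Z_le_one E))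
      have := le_max_left 0 (xi e - L)
      positivity
    exact (sum_le_sum h4).trans (sum_tail L E)
  linarith

/-- Restriction to a large set of words. -/
theorem sum_min_ge' {E n L : ℕ} {𝒲 : Finset (List ℕ)} {δ : ℝ} (h𝒲 : 𝒲 ⊆ words E (n + 1))
    (hmass : 1 - δ ≤ ∑ W ∈ 𝒲, ww W) :
    Z E ^ n * (mu0 - (E + 2) / 2 ^ E) - (L + 2) / 2 ^ L - L * δ ≤
      ∑ W ∈ 𝒲, ww W * min (L : ℝ) (max 0 (m1 W)) := by
  have h1 := sum_min_ge E n L
  have h2 : ∑ W ∈ words E (n + 1), ww W * min (L : ℝ) (max 0 (m1 W)) - ∑ W ∈ 𝒲, ww W * min (L : ℝ) (max 0 (m1 W)) ≤ L * δ := by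
    rw [← sum_sdiff h𝒲, add_sub_cancel_right]
    have h3 : ∀ W ∈ words E (n + 1) \ 𝒲, ww W * min (L : ℝ) (max 0 (m1 W)) ≤ L * ww W := by
      intro W _
      rw [mul_comm (L : ℝ)]
      exact mul_le_mul_of_nonneg_left (min_le_left _ _) (ww_pos W).le
    refine (sum_le_sum h3).trans ?_
    rw [← mul_sum]
    refine mul_le_mul_of_nonneg_left ?_ (by positivity)
    have h4 := sum_sdiff h𝒲 (f := ww)
    rw [sum_ww] at h4
    have h5 : Z E ^ (n + 1) ≤ 1 := pow_le_one₀ (Z_nonneg E) (Z_le_one E)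
    linarith
  linarith

end CollatzNat
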