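import Pool.Agent.CollatzNat.Avg

set_option autoImplicit false

/-!
The average over the roots of the mass of the words that stay above a threshold.
-/

namespace CollatzNat

open CollatzOne CollatzLin Finset

/-- Indicator of the roots on which a word is valid. -/
noncomputable def gi (σ : ℤ) (W : List ℕ) (t : ℤ) : ℝ := if OO (σ * t) ∧ vd W (σ * t) then 1 else 0

lemma gi_nonneg (σ : ℤ) (W : List ℕ) (t : ℤ) : 0 ≤ gi σ W t := by
  unfold gi; split_ifs <;> norm_num

lemma gi_one_per {W : List ℕ} {n : ℕ} (hW : W.length = n) : Per (3 ^ n * 4) (fun v => if OO v ∧ vd W v then (1 : ℝ) else 0) := by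
  intro v
  have h1 : OO (v + ((3 ^ n * 4 : ℕ) : ℤ)) ↔ OO v := by
    unfold OO; push_cast; omega
  have h2 : vd W (v + ((3 ^ n * 4 : ℕ) : ℤ)) ↔ vd W v := by
    have := vd_shift hW v 4
    push_cast
    exact this
  simp only [h1, h2]

lemma S_gi_one {W : List ℕ} {n : ℕ} (hW : W.length = n) :
    S (3 ^ n * 4) (fun v => if OO v ∧ vd W v then (1 : ℝ) else 0) = 3 := by
  rw [S_mul]
  have h1 : ∀ a : ℤ, S 4 (fun u => if OO (a + ((3 ^ n : ℕ) : ℤ) * u) ∧ vd W (a + ((3 ^ n : ℕ) : ℤ) * u) then (1 : ℝ) else 0) =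
      if vd W a then 3 else 0 := by
    intro a
    by_cases hv : vd W a
    · rw [if_pos hv, ← S_four_OO, ← S_affine per_OO (α := ((3 ^ n : ℕ) : ℤ)) (by
        push_cast; exact IsCoprime.pow_left (by norm_num : IsCoprime (3 : ℤ) 4)) a]
      refine S_congr fun u => ?_
      push_cast
      rw [show a + 3 ^ n * u = 3 ^ n * u + a by ring]
      have : vd W (3 ^ n * u + a) := by rw [add_comm]; exact (vd_shift hW a u).2 hv
      simp only [this, and_true]
    · rw [if_neg hv]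
      have h2 : ∀ u : ℤ, (if OO (a + ((3 ^ n : ℕ) : ℤ) * u) ∧ vd W (a + ((3 ^ n : ℕ) : ℤ) * u) then (1 : ℝ) else 0) = 0 := by
        intro u
        rw [if_neg]
        rintro ⟨-, h3⟩
        push_cast at h3
        exact hv ((vd_shift hW a u).1 h3)
      rw [S_congr h2, S_const, mul_zero]
  rw [S_congr h1, S_vd hW]

lemma gi_per {W : List ℕ} {n : ℕ} (hW : W.length = n) (σ : ℤ) : Per (3 ^ n * 4) (gi σ W) := by
  have := (gi_one_per hW).comp_affine σ 0
  intro v
  have h := this v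
  simp only [add_zero] at h
  exact h

lemma mean_gi {W : List ℕ} {n : ℕ} (hW : W.length = n) {σ : ℤ} (hσ : σ = 1 ∨ σ = -1) :
    CollatzLin.mean (3 ^ n * 4) (gi σ W) = 3 / 4 / 3 ^ n := by
  unfold CollatzLin.mean
  have hcop : IsCoprime σ ((3 ^ n * 4 : ℕ) : ℤ) := by
    rcases hσ with rfl | rfl
    · exact isCoprime_one_left
    · exact isCoprime_one_left.neg_left
  have h1 : S (3 ^ n * 4) (gi σ W) = 3 := by
    rw [← S_gi_one hW, ← S_affine (gi_one_per hW) hcop 0]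
    refine S_congr fun u => ?_
    rw [add_zero]
    rfl
  rw [h1]
  push_cast
  field_simp

/-- The indicator of the roots for which a word is valid and stays above the threshold. -/
def stays (σ : ℤ) (n : ℕ) (H : ℝ) (W : List ℕ) (t : ℕ) : Prop :=
  OO (σ * t) ∧ vd W (σ * t) ∧ ∀ k ∈ Icc 1 n, H < ht (W.take k) * t

open Classical in
/-- The contribution of one word. -/
lemma word_sum {W : List ℕ} {n L T₀ C : ℕ} {δ η : ℝ} {σ : ℤ} (hσ : σ = 1 ∨ σ = -1) (hn : 1 ≤ n)
    (hW : W.length = n) (hT : 1 ≤ T₀) (hδ : 0 ≤ δ) (h1 : Real.exp L * T₀ ≤ C) (h2 : 3 ^ n * 4 ≤ δ * T₀)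
    (hη : η ≤ δ) (h3 : Real.exp L ≤ δ * C) :
    3 / 4 * (ww W * (min (L : ℝ) (max 0 (m1 W)) - 3 * δ)) ≤
      ∑ t ∈ Ico T₀ (C + 1), (if stays σ n ((1 + η) * C) W t then (3 : ℝ) ^ n / 2 ^ js W else 0) / t := by
  have hRHS : ∀ s : Finset ℕ, 0 ≤ ∑ t ∈ s, (if stays σ n ((1 + η) * C) W t then (3 : ℝ) ^ n / 2 ^ js W else 0) / t := by
    intro s
    refine sum_nonneg fun t _ => ?_
    split_ifs <;> positivity
  have hww := ww_pos W
  set c' := min (L : ℝ) (max 0 (m1 W)) with hc'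
  rcases le_or_gt c' (3 * δ) with hle | hlt
  · refine le_trans ?_ (hRHS _)
    have : ww W * (c' - 3 * δ) ≤ 0 := mul_nonpos_of_nonneg_of_nonpos hww.le (by linarith)
    linarith
  have hc0 : 0 < c' := by linarith
  have hcL : c' ≤ L := min_le_left _ _
  have hcm : c' ≤ m1 W := by
    have h4 : c' ≤ max 0 (m1 W) := min_le_right _ _
    rcases max_choice 0 (m1 W) with h | h
    · rw [h] at h4; linarith
    · rwa [h] at h4
  have hWne : W ≠ [] := by
    rintro rfl
    simp at hW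
    omega
  have hT' : (1 : ℝ) ≤ T₀ := by exact_mod_cast hT
  have hexpL : 1 ≤ Real.exp L := Real.one_le_exp (by positivity)
  have hC1 : (1 : ℝ) ≤ C := by nlinarith
  set B := (1 + η) * C * Real.exp (-c') with hB
  set A : ℕ := max T₀ (⌊B⌋₊ + 1) with hA
  have hAB : B < A := by
    have h5 := Nat.lt_floor_add_one B
    have h6 : ((⌊B⌋₊ + 1 : ℕ) : ℝ) ≤ A := by exact_mod_cast le_max_right _ _
    push_cast at h6
    linarith
  have hAT : T₀ ≤ A := le_max_left _ _
  have hA1 : (1 : ℝ) ≤ A := by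
    have : (T₀ : ℝ) ≤ A := by exact_mod_cast hAT
    linarith
  have hexp' : Real.exp (-L) ≤ Real.exp (-c') := Real.exp_le_exp.2 (by linarith)
  have h2δ : 1 + 2 * δ ≤ Real.exp (2 * δ) := by
    have := Real.add_one_le_exp (2 * δ)
    linarith
  have hAle : (A : ℝ) ≤ C * Real.exp (-(c' - 2 * δ)) := by
    have h7 : Real.exp (-(c' - 2 * δ)) = Real.exp (-c') * Real.exp (2 * δ) := by
      rw [← Real.exp_add]; congr 1; ring
    have h8 : 0 < Real.exp (-c') := Real.exp_pos _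
    have h9 : C * (Real.exp (-c') * (1 + 2 * δ)) ≤ C * Real.exp (-(c' - 2 * δ)) := by
      rw [h7]
      gcongr
    refine le_trans ?_ h9
    rw [hA]
    push_cast
    refine max_le ?_ ?_
    · have h10 : (T₀ : ℝ) ≤ C * Real.exp (-L) := by
        rw [Real.exp_neg, ← div_eq_mul_inv, le_div_iff₀ (Real.exp_pos _)]
        linarith
      have h11 : C * Real.exp (-L) ≤ C * Real.exp (-c') := by gcongr
      have h12 : C * Real.exp (-c') ≤ C * (Real.exp (-c') * (1 + 2 * δ)) := by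
        refine mul_le_mul_of_nonneg_left ?_ (by linarith)
        exact le_mul_of_one_le_right h8.le (by linarith)
      linarith
    · have hfl : (⌊B⌋₊ : ℝ) + 1 ≤ C * Real.exp (-c') * (1 + δ) + 1 := by
        rcases le_or_gt 0 B with hB0 | hB0
        · have h10 := Nat.floor_le hB0
          have h11 : B ≤ C * Real.exp (-c') * (1 + δ) := by
            rw [hB]
            have : 0 ≤ C * Real.exp (-c') := by positivity
            nlinarith
          linarith
        · rw [Nat.floor_of_nonpos hB0.le]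
          have : 0 ≤ C * Real.exp (-c') * (1 + δ) := by positivity
          push_cast
          linarith
      have h12 : 1 ≤ C * Real.exp (-c') * δ := by
        have h13 : Real.exp c' ≤ δ * C := (Real.exp_le_exp.2 hcL).trans h3
        have h14 : Real.exp c' * Real.exp (-c') = 1 := by rw [← Real.exp_add]; simp
        calc (1 : ℝ) = Real.exp c' * Real.exp (-c') := h14.symm
          _ ≤ δ * C * Real.exp (-c') := mul_le_mul_of_nonneg_right h13 h8.le
          _ = _ := by ring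
      linarith
  have hlogpos : 0 < c' - 2 * δ := by linarith
  have hAC : (A : ℝ) < C := by
    have : Real.exp (-(c' - 2 * δ)) < 1 := by rw [Real.exp_lt_one_iff]; linarith
    nlinarith
  have hAC' : A ≤ C + 1 := by
    have : A < C := by exact_mod_cast hAC
    omega
  have hlog : c' - 2 * δ ≤ Real.log (((C + 1 : ℕ) : ℝ) / A) := by
    rw [Real.le_log_iff_exp_le (by positivity), le_div_iff₀ (by linarith)]
    have h15 := mul_le_mul_of_nonneg_left hAle (Real.exp_pos (c' - 2 * δ)).le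
    have h16 : Real.exp (c' - 2 * δ) * (C * Real.exp (-(c' - 2 * δ))) = C := by
      rw [mul_left_comm, ← Real.exp_add]; simp
    rw [h16] at h15
    push_cast
    linarith
  -- restrict to `[A, C]`
  have hsub : ∑ t ∈ Ico A (C + 1), (if stays σ n ((1 + η) * C) W t then (3 : ℝ) ^ n / 2 ^ js W else 0) / t ≤
      ∑ t ∈ Ico T₀ (C + 1), (if stays σ n ((1 + η) * C) W t then (3 : ℝ) ^ n / 2 ^ js W else 0) / t := by
    refine sum_le_sum_of_subset_of_nonneg (Ico_subset_Ico hAT le_rfl) fun t _ _ => ?_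
    split_ifs <;> positivity
  refine le_trans ?_ hsub
  have heq : ∑ t ∈ Ico A (C + 1), (if stays σ n ((1 + η) * C) W t then (3 : ℝ) ^ n / 2 ^ js W else 0) / t =
      3 ^ n / 2 ^ js W * ∑ t ∈ Ico A (C + 1), gi σ W (t : ℤ) / (t : ℝ) := by
    rw [mul_sum]
    refine sum_congr rfl fun t htm => ?_
    rw [mem_Ico] at htm
    have htA : (A : ℝ) ≤ t := by exact_mod_cast htm.1
    have hst : stays σ n ((1 + η) * C) W t ↔ (OO (σ * t) ∧ vd W (σ * t)) := by
      unfold stays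
      constructor
      · rintro ⟨a, b, -⟩; exact ⟨a, b⟩
      · rintro ⟨a, b⟩
        refine ⟨a, b, fun k hk => ?_⟩
        rw [mem_Icc] at hk
        have h17 := m1_le_take hWne hk.1
        have h18 : Real.exp c' ≤ ht (W.take k) := by
          rw [← Real.exp_log (ht_pos (W.take k))]
          exact Real.exp_le_exp.2 (hcm.trans h17)
        have h19 : (1 + η) * C = Real.exp c' * B := by
          rw [hB, mul_left_comm, ← Real.exp_add]; simp
        rw [h19]
        calc Real.exp c' * B < Real.exp c' * t := mul_lt_mul_of_pos_left (by linarith) (Real.exp_pos _)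
          _ ≤ ht (W.take k) * t := mul_le_mul_of_nonneg_right h18 (by positivity)
    unfold gi
    by_cases h : OO (σ * t) ∧ vd W (σ * t)
    · rw [if_pos (hst.2 h), if_pos h]; ring
    · rw [if_neg (fun h' => h (hst.1 h')), if_neg h]; ring
  rw [heq]
  have hN : 1 ≤ 3 ^ n * 4 := by
    have : 0 < 3 ^ n := by positivity
    omega
  have hap := (abs_le.1 (ap hN (gi_per hW σ) (gi_nonneg σ W) (X := A) (Y := C + 1) (hT.trans hAT) hAC')).1
  rw [mean_gi hW hσ] at hap
  have hNA : 3 / 4 / 3 ^ n * ((3 ^ n * 4 : ℕ) : ℝ) / A ≤ 3 / 4 / 3 ^ n * δ := by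
    rw [mul_div_assoc]
    refine mul_le_mul_of_nonneg_left ?_ (by positivity)
    rw [div_le_iff₀ (by linarith)]
    push_cast
    have : (T₀ : ℝ) ≤ A := by exact_mod_cast hAT
    nlinarith
  have hlog' := mul_le_mul_of_nonneg_left hlog (show (0 : ℝ) ≤ 3 / 4 / 3 ^ n by positivity)
  have hfin : 3 / 4 / 3 ^ n * (c' - 3 * δ) ≤ ∑ t ∈ Ico A (C + 1), gi σ W (t : ℤ) / (t : ℝ) := by
    linarith
  calc 3 / 4 * (ww W * (c' - 3 * δ)) = 3 ^ n / 2 ^ js W * (3 / 4 / 3 ^ n * (c' - 3 * δ)) := by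
        unfold ww
        field_simp
    _ ≤ _ := mul_le_mul_of_nonneg_left hfin (by positivity)

open Classical in
/-- The average over the roots. -/
theorem root_avg {ε : ℝ} (hε : 0 < ε) : ∃ (δ : ℝ) (L E₀ : ℕ), 0 < δ ∧ δ ≤ 1 ∧
    ∀ (n E T₀ C : ℕ) (𝒲 : Finset (List ℕ)) (η : ℝ) (σ : ℤ), σ = 1 ∨ σ = -1 → E₀ ≤ E →
    (n : ℝ) / 2 ^ E ≤ δ → 𝒲 ⊆ words E (n + 1) → 1 - δ ≤ ∑ W ∈ 𝒲, ww W → 1 ≤ T₀ →
    Real.exp L * T₀ ≤ C → 3 ^ (n + 1) * 4 ≤ δ * T₀ → η ≤ δ → Real.exp L ≤ δ * C →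
    3 / 4 * (mu0 - ε) ≤ ∑ t ∈ Ico T₀ (C + 1), (∑ W ∈ 𝒲,
      if stays σ (n + 1) ((1 + η) * C) W t then (3 : ℝ) ^ (n + 1) / 2 ^ js W else 0) / t := by
  -- choice of the constants
  have hlim1 : Filter.Tendsto (fun L : ℕ => ((L : ℝ) + 2) / 2 ^ L) Filter.atTop (nhds 0) := by
    have h1 := tendsto_pow_const_div_const_pow_of_one_lt 1 (show (1 : ℝ) < 2 by norm_num)
    have h2 := (tendsto_pow_const_div_const_pow_of_one_lt 0 (show (1 : ℝ) < 2 by norm_num)).const_mul 2
    have h3 := h1.add h2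
    simp only [pow_one, pow_zero, mul_zero, add_zero] at h3
    refine h3.congr fun L => ?_
    ring
  obtain ⟨L, hL⟩ := (hlim1.eventually (gt_mem_nhds (show (0 : ℝ) < ε / 4 by positivity))).exists
  obtain ⟨E₀, hE₀⟩ := Filter.eventually_atTop.1 (hlim1.eventually (gt_mem_nhds (show (0 : ℝ) < ε / 4 by positivity)))
  have hL4 : (0 : ℝ) < L + 4 := by positivity
  refine ⟨min 1 (ε / (4 * (L + 4))), L, E₀, by positivity, min_le_left _ _, ?_⟩
  intro n E T₀ C 𝒲 η σ hσ hE hnE h𝒲 hmass hT h1 h2 hη h3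
  set δ := min 1 (ε / (4 * ((L : ℝ) + 4))) with hδdef
  have hδ0 : 0 < δ := by rw [hδdef]; positivity
  have hδ1 : δ * (L + 4) ≤ ε / 4 := by
    have : δ ≤ ε / (4 * (L + 4)) := min_le_right _ _
    calc δ * (L + 4) ≤ ε / (4 * (L + 4)) * (L + 4) := mul_le_mul_of_nonneg_right this hL4.le
      _ = ε / 4 := by field_simp
  have hE' := hE₀ E hE
  have hswap : ∑ t ∈ Ico T₀ (C + 1), (∑ W ∈ 𝒲,
      if stays σ (n + 1) ((1 + η) * C) W t then (3 : ℝ) ^ (n + 1) / 2 ^ js W else 0) / t =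
      ∑ W ∈ 𝒲, ∑ t ∈ Ico T₀ (C + 1),
        (if stays σ (n + 1) ((1 + η) * C) W t then (3 : ℝ) ^ (n + 1) / 2 ^ js W else 0) / t := by
    rw [sum_comm]
    exact sum_congr rfl fun t _ => sum_div _ _ _
  rw [hswap]
  have hword := sum_le_sum fun W (hW : W ∈ 𝒲) => word_sum (L := L) hσ (by omega : 1 ≤ n + 1)
    (length_of_mem (h𝒲 hW)) hT hδ0.le h1 h2 hη h3
  refine le_trans ?_ hword
  rw [← mul_sum]
  refine mul_le_mul_of_nonneg_left ?_ (by norm_num)
  have hsplit : ∑ W ∈ 𝒲, ww W * (min (L : ℝ) (max 0 (m1 W)) - 3 * δ) =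
      ∑ W ∈ 𝒲, ww W * min (L : ℝ) (max 0 (m1 W)) - (∑ W ∈ 𝒲, ww W) * (3 * δ) := by
    rw [sum_mul, ← sum_sub_distrib]
    exact sum_congr rfl fun W _ => by ring
  rw [hsplit]
  have hmin := sum_min_ge' (L := L) h𝒲 hmass
  have hle1 : ∑ W ∈ 𝒲, ww W ≤ 1 := by
    have h4 : ∑ W ∈ 𝒲, ww W ≤ ∑ W ∈ words E (n + 1), ww W :=
      sum_le_sum_of_subset_of_nonneg h𝒲 fun W _ _ => (ww_pos W).le
    rw [sum_ww] at h4
    exact h4.trans (pow_le_one₀ (Z_nonneg E) (Z_le_one E))
  have hZ : 1 - δ ≤ Z E ^ n := by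
    have := Z_pow_ge E n
    linarith
  have hZ1 : Z E ^ n ≤ 1 := pow_le_one₀ (Z_nonneg E) (Z_le_one E)
  have hmu : mu0 ≤ 1 := by
    unfold mu0
    have := Real.log_le_sub_one_of_pos (show (0 : ℝ) < 4 / 3 by norm_num)
    linarith
  have hmu0 := mu0_pos
  have hx0 : 0 ≤ ((E : ℝ) + 2) / 2 ^ E := by positivity
  have h5 : mu0 - (E + 2) / 2 ^ E - δ ≤ Z E ^ n * (mu0 - (E + 2) / 2 ^ E) := by
    nlinarith
  have h6 : (∑ W ∈ 𝒲, ww W) * (3 * δ) ≤ 3 * δ := mul_le_of_le_one_left (by positivity) hle1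
  nlinarith

end CollatzNat
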