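import Mathlib

set_option autoImplicit false

/-!
The renewal functions of the random walk with steps `e log 2 - log 3` (probability `2 ^ (-e)`), in
multiplicative form, and the lower bound of the renewal theorem for them.
-/

namespace CollatzNat

open Filter Topology Finset

/-- Probability of the letter `e + 1`. -/
noncomputable def ew (e : ℕ) : ℝ := (1 / 2) ^ (e + 1)

/-- Change of scale by the letter `e + 1`. -/
noncomputable def bq (e : ℕ) : ℝ := 3 * (1 / 2) ^ (e + 1)

lemma ew_pos (e : ℕ) : 0 < ew e := by unfold ew; positivity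

lemma bq_pos (e : ℕ) : 0 < bq e := by unfold bq; positivity

lemma hasSum_ew : HasSum ew 1 := by
  have h := (hasSum_geometric_of_lt_one (r := (1 / 2 : ℝ)) (by norm_num) (by norm_num)).mul_left (1 / 2)
  have h2 : (fun e : ℕ => (1 / 2 : ℝ) * (1 / 2) ^ e) = ew := by
    funext e; unfold ew; rw [pow_succ']
  rw [h2] at h
  norm_num at h
  exact h

lemma sqrt_bq (e : ℕ) : √(bq e) = √3 * (√(1 / 2)) ^ (e + 1) := by
  unfold bq
  rw [Real.sqrt_mul (by norm_num)]
  congr 1
  rw [Real.sqrt_eq_iff_mul_self_eq (by positivity) (by positivity), ← pow_add, ← two_mul, pow_mul,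
    Real.sq_sqrt (by norm_num)]

/-- The contraction factor `√3 / (2 √2 - 1)`. -/
noncomputable def rho : ℝ := √3 * ((1 / 2 * √(1 / 2)) * (1 - 1 / 2 * √(1 / 2))⁻¹)

lemma sqrt_half_lt : √(1 / 2 : ℝ) < 0.7072 := by
  rw [Real.sqrt_lt' (by norm_num)]; norm_num

lemma sqrt_half_pos : 0 < √(1 / 2 : ℝ) := Real.sqrt_pos.2 (by norm_num)

lemma hasSum_rho : HasSum (fun e => ew e * √(bq e)) rho := by
  have h0 := sqrt_half_lt
  have h1 := sqrt_half_pos
  have h := ((hasSum_geometric_of_lt_one (r := (1 / 2 * √(1 / 2) : ℝ)) (by positivity)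
    (by linarith)).mul_left (1 / 2 * √(1 / 2))).mul_left (√3)
  have h2 : (fun e : ℕ => √3 * (1 / 2 * √(1 / 2) * (1 / 2 * √(1 / 2)) ^ e)) = fun e => ew e * √(bq e) := by
    funext e
    rw [sqrt_bq]
    unfold ew
    rw [← pow_succ' (1 / 2 * √(1 / 2)) e, mul_pow]
    ring
  rw [h2] at h
  exact h

lemma rho_le : rho ≤ 19 / 20 := by
  have h0 := sqrt_half_lt
  have h1 := sqrt_half_pos
  have h3 : √(3 : ℝ) < 1.7321 := by rw [Real.sqrt_lt' (by norm_num)]; norm_num
  have h4 : 0 < √(3 : ℝ) := Real.sqrt_pos.2 (by norm_num)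
  unfold rho
  rw [← div_eq_mul_inv, mul_div_assoc', div_le_iff₀ (by linarith)]
  nlinarith

lemma rho_nonneg : 0 ≤ rho := hasSum_rho.nonneg fun e => by
  have := ew_pos e
  positivity

/-- The averaging operator. -/
noncomputable def Rop (φ : ℝ → ℝ) (s : ℝ) : ℝ := ∑' e, ew e * φ (bq e * s)

/-- The basic function. -/
noncomputable def phi0 (s : ℝ) : ℝ := if 1 ≤ s then 1 / s else 0

/-- Its integrated version. -/
noncomputable def phi1 (s : ℝ) : ℝ := if 1 ≤ s then 1 - 1 / s else 0

/-- Partial renewal functions. -/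
noncomputable def gg : ℕ → ℝ → ℝ
  | 0, s => phi0 s
  | M + 1, s => phi0 s + Rop (gg M) s

/-- Partial integrated renewal functions. -/
noncomputable def GG : ℕ → ℝ → ℝ
  | 0, s => phi1 s
  | M + 1, s => phi1 s + Rop (GG M) s

lemma phi0_nonneg (s : ℝ) : 0 ≤ phi0 s := by
  unfold phi0
  split_ifs with h
  · positivity
  · exact le_rfl

lemma phi1_nonneg (s : ℝ) : 0 ≤ phi1 s := by
  unfold phi1
  split_ifs with h
  · rw [sub_nonneg, div_le_one (by linarith)]; exact h
  · exact le_rfl

/-- Summability of a bounded function. -/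
lemma summable_of_bdd {φ : ℝ → ℝ} {B : ℝ} {s : ℝ} (hs : 0 < s) (h0 : ∀ t, 0 < t → 0 ≤ φ t)
    (h1 : ∀ t, 0 < t → φ t ≤ B * √t) : Summable fun e => ew e * φ (bq e * s) := by
  refine Summable.of_nonneg_of_le (fun e => mul_nonneg (ew_pos e).le (h0 _ (mul_pos (bq_pos e) hs)))
    (fun e => ?_) (hasSum_rho.summable.mul_left (B * √s))
  have h2 := h1 _ (mul_pos (bq_pos e) hs)
  rw [Real.sqrt_mul (bq_pos e).le] at h2
  calc ew e * φ (bq e * s) ≤ ew e * (B * (√(bq e) * √s)) := mul_le_mul_of_nonneg_left h2 (ew_pos e).le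
    _ = B * √s * (ew e * √(bq e)) := by ring

lemma Rop_nonneg {φ : ℝ → ℝ} {s : ℝ} (hs : 0 < s) (h0 : ∀ t, 0 < t → 0 ≤ φ t) : 0 ≤ Rop φ s :=
  tsum_nonneg fun e => mul_nonneg (ew_pos e).le (h0 _ (mul_pos (bq_pos e) hs))

lemma Rop_sqrt_le {φ : ℝ → ℝ} {B : ℝ} {s : ℝ} (hs : 0 < s) (h0 : ∀ t, 0 < t → 0 ≤ φ t)
    (h1 : ∀ t, 0 < t → φ t ≤ B * √t) : Rop φ s ≤ B * rho * √s := by
  have h2 := (hasSum_rho.mul_left (B * √s))
  calc Rop φ s ≤ ∑' e, B * √s * (ew e * √(bq e)) := by
        refine Summable.tsum_le_tsum (fun e => ?_) (summable_of_bdd hs h0 h1) h2.summable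
        have h3 := h1 _ (mul_pos (bq_pos e) hs)
        rw [Real.sqrt_mul (bq_pos e).le] at h3
        calc ew e * φ (bq e * s) ≤ ew e * (B * (√(bq e) * √s)) :=
              mul_le_mul_of_nonneg_left h3 (ew_pos e).le
          _ = B * √s * (ew e * √(bq e)) := by ring
    _ = B * √s * rho := h2.tsum_eq
    _ = B * rho * √s := by ring

lemma gg_nonneg (M : ℕ) : ∀ s, 0 < s → 0 ≤ gg M s := by
  induction M with
  | zero => exact fun s _ => phi0_nonneg s
  | succ M ih => exact fun s hs => add_nonneg (phi0_nonneg s) (Rop_nonneg hs ih)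

lemma GG_nonneg (M : ℕ) : ∀ s, 0 < s → 0 ≤ GG M s := by
  induction M with
  | zero => exact fun s _ => phi1_nonneg s
  | succ M ih => exact fun s hs => add_nonneg (phi1_nonneg s) (Rop_nonneg hs ih)

lemma phi0_le_sqrt (s : ℝ) : phi0 s ≤ √s := by
  unfold phi0
  split_ifs with h
  · have h1 : 1 ≤ √s := Real.one_le_sqrt.2 h
    have h2 : 1 / s ≤ 1 := by rw [div_le_one (by linarith)]; exact h
    linarith
  · exact Real.sqrt_nonneg s

lemma phi1_le_sqrt (s : ℝ) : phi1 s ≤ √s := by
  unfold phi1
  split_ifs with h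
  · have h1 : 1 ≤ √s := Real.one_le_sqrt.2 h
    have h2 : 0 ≤ 1 / s := by positivity
    linarith
  · exact Real.sqrt_nonneg s

lemma gg_le_sqrt (M : ℕ) : ∀ s, 0 < s → gg M s ≤ 20 * √s := by
  induction M with
  | zero =>
    intro s hs
    have := phi0_le_sqrt s
    have h2 := Real.sqrt_nonneg s
    show phi0 s ≤ _
    linarith
  | succ M ih =>
    intro s hs
    have h1 := phi0_le_sqrt s
    have h2 := Rop_sqrt_le hs (gg_nonneg M) ih
    have h3 := rho_le
    have h4 := Real.sqrt_nonneg s
    show phi0 s + Rop (gg M) s ≤ _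
    nlinarith

lemma GG_le_sqrt (M : ℕ) : ∀ s, 0 < s → GG M s ≤ 20 * √s := by
  induction M with
  | zero =>
    intro s hs
    have := phi1_le_sqrt s
    have h2 := Real.sqrt_nonneg s
    show phi1 s ≤ _
    linarith
  | succ M ih =>
    intro s hs
    have h1 := phi1_le_sqrt s
    have h2 := Rop_sqrt_le hs (GG_nonneg M) ih
    have h3 := rho_le
    have h4 := Real.sqrt_nonneg s
    show phi1 s + Rop (GG M) s ≤ _
    nlinarith

lemma summable_gg (M : ℕ) {s : ℝ} (hs : 0 < s) : Summable fun e => ew e * gg M (bq e * s) :=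
  summable_of_bdd hs (gg_nonneg M) (gg_le_sqrt M)

lemma summable_GG (M : ℕ) {s : ℝ} (hs : 0 < s) : Summable fun e => ew e * GG M (bq e * s) :=
  summable_of_bdd hs (GG_nonneg M) (GG_le_sqrt M)

lemma gg_mono (M : ℕ) : ∀ s, 0 < s → gg M s ≤ gg (M + 1) s := by
  induction M with
  | zero =>
    intro s hs
    have := Rop_nonneg hs (gg_nonneg 0)
    show phi0 s ≤ phi0 s + Rop (gg 0) s
    linarith
  | succ M ih =>
    intro s hs
    have : Rop (gg M) s ≤ Rop (gg (M + 1)) s :=
      Summable.tsum_le_tsum (fun e => mul_le_mul_of_nonneg_left (ih _ (mul_pos (bq_pos e) hs)) (ew_pos e).le)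
        (summable_gg M hs) (summable_gg (M + 1) hs)
    show phi0 s + Rop (gg M) s ≤ phi0 s + Rop (gg (M + 1)) s
    linarith

lemma GG_mono (M : ℕ) : ∀ s, 0 < s → GG M s ≤ GG (M + 1) s := by
  induction M with
  | zero =>
    intro s hs
    have := Rop_nonneg hs (GG_nonneg 0)
    show phi1 s ≤ phi1 s + Rop (GG 0) s
    linarith
  | succ M ih =>
    intro s hs
    have : Rop (GG M) s ≤ Rop (GG (M + 1)) s :=
      Summable.tsum_le_tsum (fun e => mul_le_mul_of_nonneg_left (ih _ (mul_pos (bq_pos e) hs)) (ew_pos e).le)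
        (summable_GG M hs) (summable_GG (M + 1) hs)
    show phi1 s + Rop (GG M) s ≤ phi1 s + Rop (GG (M + 1)) s
    linarith

/-- Near monotonicity. -/
lemma gg_scale (M : ℕ) : ∀ s c, 0 < s → 1 ≤ c → gg M s ≤ c * gg M (c * s) := by
  have h0 : ∀ s c, 0 < s → 1 ≤ c → phi0 s ≤ c * phi0 (c * s) := by
    intro s c hs hc
    unfold phi0
    split_ifs with h1 h2 h2
    · have : c * (1 / (c * s)) = 1 / s := by field_simp
      rw [this]
    · exact absurd (by nlinarith : 1 ≤ c * s) h2
    · positivity
    · simp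
  induction M with
  | zero => exact h0
  | succ M ih =>
    intro s c hs hc
    have hcs : 0 < c * s := by positivity
    have : Rop (gg M) s ≤ c * Rop (gg M) (c * s) := by
      unfold Rop
      rw [← tsum_mul_left]
      refine Summable.tsum_le_tsum (fun e => ?_) (summable_gg M hs) ((summable_gg M hcs).mul_left c)
      have h1 := mul_le_mul_of_nonneg_left (ih (bq e * s) c (mul_pos (bq_pos e) hs) hc) (ew_pos e).le
      rw [show bq e * (c * s) = c * (bq e * s) by ring]
      linarith [h1]
    show phi0 s + Rop (gg M) s ≤ c * (phi0 (c * s) + Rop (gg M) (c * s))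
    have := h0 s c hs hc
    linarith

lemma GG_lower (M : ℕ) : ∀ s c, 0 < s → 1 ≤ c → (1 - 1 / c) * gg M s ≤ GG M (c * s) - GG M s := by
  have h0 : ∀ s c, 0 < s → 1 ≤ c → (1 - 1 / c) * phi0 s ≤ phi1 (c * s) - phi1 s := by
    intro s c hs hc
    have hc0 : 0 < c := by linarith
    unfold phi0 phi1
    split_ifs with h1 h2 h2
    · have : 1 - 1 / (c * s) - (1 - 1 / s) = (1 - 1 / c) * (1 / s) := by field_simp; ring
      rw [this]
    · exact absurd (by nlinarith : 1 ≤ c * s) h2
    · rw [mul_zero, sub_zero, sub_nonneg, div_le_one (by positivity)]; exact h2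
    · simp
  induction M with
  | zero => exact h0
  | succ M ih =>
    intro s c hs hc
    have hcs : 0 < c * s := by positivity
    have : (1 - 1 / c) * Rop (gg M) s ≤ Rop (GG M) (c * s) - Rop (GG M) s := by
      unfold Rop
      rw [← tsum_mul_left, ← (summable_GG M hcs).tsum_sub (summable_GG M hs)]
      refine Summable.tsum_le_tsum (fun e => ?_) ((summable_gg M hs).mul_left _)
        ((summable_GG M hcs).sub (summable_GG M hs))
      have h1 := mul_le_mul_of_nonneg_left (ih (bq e * s) c (mul_pos (bq_pos e) hs) hc) (ew_pos e).le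
      rw [show bq e * (c * s) = c * (bq e * s) by ring]
      linarith [h1]
    show (1 - 1 / c) * (phi0 s + Rop (gg M) s) ≤ phi1 (c * s) + Rop (GG M) (c * s) - (phi1 s + Rop (GG M) s)
    have := h0 s c hs hc
    linarith

lemma GG_upper (M : ℕ) : ∀ s c, 0 < s → 1 ≤ c → GG M (c * s) - GG M s ≤ (c - 1) * gg M (c * s) := by
  have h0 : ∀ s c, 0 < s → 1 ≤ c → phi1 (c * s) - phi1 s ≤ (c - 1) * phi0 (c * s) := by
    intro s c hs hc
    have hc0 : 0 < c := by linarith
    unfold phi0 phi1
    split_ifs with h2 h1 h1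
    · have : 1 - 1 / (c * s) - (1 - 1 / s) = (c - 1) * (1 / (c * s)) := by field_simp; ring
      rw [this]
    · have h3 : (c - 1) * (1 / (c * s)) - (1 - 1 / (c * s) - 0) = (1 - s) / s := by field_simp; ring
      have h4 : 0 ≤ (1 - s) / s := div_nonneg (by linarith) hs.le
      linarith
    · exact absurd (by nlinarith : 1 ≤ c * s) h2
    · simp
  induction M with
  | zero => exact h0
  | succ M ih =>
    intro s c hs hc
    have hcs : 0 < c * s := by positivity
    have : Rop (GG M) (c * s) - Rop (GG M) s ≤ (c - 1) * Rop (gg M) (c * s) := by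
      unfold Rop
      rw [← tsum_mul_left, ← (summable_GG M hcs).tsum_sub (summable_GG M hs)]
      refine Summable.tsum_le_tsum (fun e => ?_) ((summable_GG M hcs).sub (summable_GG M hs))
        ((summable_gg M hcs).mul_left _)
      have h1 := mul_le_mul_of_nonneg_left (ih (bq e * s) c (mul_pos (bq_pos e) hs) hc) (ew_pos e).le
      rw [show bq e * (c * s) = c * (bq e * s) by ring]
      linarith [h1]
    show phi1 (c * s) + Rop (GG M) (c * s) - (phi1 s + Rop (GG M) s) ≤ (c - 1) * (phi0 (c * s) + Rop (gg M) (c * s))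
    have := h0 s c hs hc
    linarith

/-- Uniform bound by a supersolution. -/
lemma gg_le (M : ℕ) : ∀ s, 0 < s → gg M s ≤ 48 * min 1 (√s) := by
  induction M with
  | zero =>
    intro s hs
    show phi0 s ≤ _
    unfold phi0
    split_ifs with h
    · have h1 : 1 ≤ √s := Real.one_le_sqrt.2 h
      rw [min_eq_left h1]
      have h2 : 1 / s ≤ 1 := by rw [div_le_one (by linarith)]; exact h
      linarith
    · have := Real.sqrt_nonneg s
      positivity
  | succ M ih =>
    intro s hs
    show phi0 s + Rop (gg M) s ≤ _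
    rcases lt_or_ge s 1 with h | h
    · have h1 : √s ≤ 1 := Real.sqrt_le_one.2 h.le
      rw [min_eq_right h1]
      have h2 : phi0 s = 0 := by unfold phi0; rw [if_neg (not_le.2 h)]
      have h3 := Rop_sqrt_le (B := 48) hs (gg_nonneg M) (fun t ht => (ih t ht).trans
        (mul_le_mul_of_nonneg_left (min_le_right _ _) (by norm_num)))
      have h4 := rho_le
      have h5 := Real.sqrt_nonneg s
      nlinarith
    · have h1 : 1 ≤ √s := Real.one_le_sqrt.2 h
      rw [min_eq_left h1]
      have h2 : phi0 s = 1 / s := by unfold phi0; rw [if_pos h]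
      obtain ⟨n, hn1, hn2⟩ : ∃ n : ℕ, 12 * s ≤ 2 ^ (n + 1) ∧ (2 : ℝ) ^ (n + 1) ≤ 24 * s := by
        obtain ⟨k, hk1, hk2⟩ := exists_nat_pow_near (show (1 : ℝ) ≤ 12 * s by linarith) (show (1 : ℝ) < 2 by norm_num)
        exact ⟨k, hk2.le, by rw [pow_succ]; linarith⟩
      -- compare with the constant bound, saving at the letter `n + 1`
      have h7 : HasSum (fun e => (48 * ew e - if e = n then 24 * ew e else 0)) (48 * 1 - 24 * ew n) := by
        refine (hasSum_ew.mul_left 48).sub ?_
        have h8 := hasSum_ite_eq n (24 * ew n)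
        have h9 : (fun e => if e = n then 24 * ew e else 0) = fun e => if e = n then 24 * ew n else 0 := by
          funext e
          by_cases he : e = n
          · subst he; rfl
          · rw [if_neg he, if_neg he]
        rw [h9]
        exact h8
      have h3 : Rop (gg M) s ≤ ∑' e, (48 * ew e - if e = n then 24 * ew e else 0) := by
        refine Summable.tsum_le_tsum (fun e => ?_) (summable_gg M hs) ?_
        · have h4 := ih _ (mul_pos (bq_pos e) hs)
          split_ifs with he
          · subst he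
            have h5 : √(bq e * s) ≤ 1 / 2 := by
              rw [Real.sqrt_le_left (by norm_num)]
              unfold bq
              rw [one_div, inv_pow, mul_assoc, ← div_eq_inv_mul, mul_div_assoc', div_le_iff₀ (by positivity)]
              linarith
            have h6 : gg M (bq e * s) ≤ 24 := by
              have := min_le_right 1 (√(bq e * s))
              linarith
            have := mul_le_mul_of_nonneg_left h6 (ew_pos e).le
            linarith
          · have h6 : gg M (bq e * s) ≤ 48 := by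
              have := min_le_left 1 (√(bq e * s))
              linarith
            have := mul_le_mul_of_nonneg_left h6 (ew_pos e).le
            linarith
        · exact h7.summable
      rw [h7.tsum_eq] at h3
      rw [h2]
      have h9 : 1 / s ≤ 24 * ew n := by
        unfold ew
        rw [one_div_pow, mul_one_div, div_le_div_iff₀ hs (by positivity)]
        linarith
      linarith

end CollatzNat
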