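import Pool.Agent.CollatzNat.Blackwell

set_option autoImplicit false

/-!
The limit renewal functions and the renewal theorem (lower limit).
-/

namespace CollatzNat

open Filter Topology Finset

/-- The renewal function. -/
noncomputable def gl (s : ℝ) : ℝ := ⨆ M, gg M s

/-- The integrated renewal function. -/
noncomputable def Gl (s : ℝ) : ℝ := ⨆ M, GG M s

lemma tendsto_gg {s : ℝ} (hs : 0 < s) : Tendsto (fun M => gg M s) atTop (𝓝 (gl s)) :=
  tendsto_atTop_ciSup (monotone_nat_of_le_succ fun M => gg_mono M s hs)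
    ⟨20 * √s, by rintro _ ⟨M, rfl⟩; exact gg_le_sqrt M s hs⟩

lemma tendsto_GG {s : ℝ} (hs : 0 < s) : Tendsto (fun M => GG M s) atTop (𝓝 (Gl s)) :=
  tendsto_atTop_ciSup (monotone_nat_of_le_succ fun M => GG_mono M s hs)
    ⟨20 * √s, by rintro _ ⟨M, rfl⟩; exact GG_le_sqrt M s hs⟩

lemma gl_nonneg {s : ℝ} (hs : 0 < s) : 0 ≤ gl s :=
  ge_of_tendsto' (tendsto_gg hs) fun M => gg_nonneg M s hs

lemma gg_le_gl {s : ℝ} (hs : 0 < s) (M : ℕ) : gg M s ≤ gl s :=
  (monotone_nat_of_le_succ fun M => gg_mono M s hs).ge_of_tendsto (tendsto_gg hs) M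

lemma gl_le {s : ℝ} (hs : 0 < s) : gl s ≤ 48 :=
  le_of_tendsto' (tendsto_gg hs) fun M => (gg_le M s hs).trans (by
    have := min_le_left 1 (√s)
    linarith)

lemma gl_le_sqrt {s : ℝ} (hs : 0 < s) : gl s ≤ 20 * √s :=
  le_of_tendsto' (tendsto_gg hs) fun M => gg_le_sqrt M s hs

lemma Gl_nonneg {s : ℝ} (hs : 0 < s) : 0 ≤ Gl s :=
  ge_of_tendsto' (tendsto_GG hs) fun M => GG_nonneg M s hs

lemma Gl_le_sqrt {s : ℝ} (hs : 0 < s) : Gl s ≤ 20 * √s :=
  le_of_tendsto' (tendsto_GG hs) fun M => GG_le_sqrt M s hs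

lemma gl_scale {s c : ℝ} (hs : 0 < s) (hc : 1 ≤ c) : gl s ≤ c * gl (c * s) :=
  le_of_tendsto_of_tendsto' (tendsto_gg hs) ((tendsto_gg (by positivity)).const_mul c)
    fun M => gg_scale M s c hs hc

lemma Gl_lower {s c : ℝ} (hs : 0 < s) (hc : 1 ≤ c) : (1 - 1 / c) * gl s ≤ Gl (c * s) - Gl s :=
  le_of_tendsto_of_tendsto' ((tendsto_gg hs).const_mul _) ((tendsto_GG (by positivity)).sub (tendsto_GG hs))
    fun M => GG_lower M s c hs hc

lemma Gl_upper {s c : ℝ} (hs : 0 < s) (hc : 1 ≤ c) : Gl (c * s) - Gl s ≤ (c - 1) * gl (c * s) :=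
  le_of_tendsto_of_tendsto' ((tendsto_GG (by positivity)).sub (tendsto_GG hs))
    ((tendsto_gg (by positivity)).const_mul _) fun M => GG_upper M s c hs hc

lemma Gl_mono {s t : ℝ} (hs : 0 < s) (h : s ≤ t) : Gl s ≤ Gl t := by
  have hc : 1 ≤ t / s := by rw [le_div_iff₀ hs]; linarith
  have h1 := Gl_lower hs hc
  rw [div_mul_cancel₀ _ hs.ne'] at h1
  have h2 : 0 ≤ (1 - 1 / (t / s)) * gl s := by
    refine mul_nonneg ?_ (gl_nonneg hs)
    rw [sub_nonneg, div_le_one (by linarith)]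
    exact hc
  linarith

/-- Dominated convergence for the averaging operator. -/
lemma tendsto_Rop {α : Type*} {l : Filter α} {φ : α → ℝ → ℝ} {ψ : ℝ → ℝ} {s : ℝ} (hs : 0 < s)
    (h0 : ∀ a t, 0 < t → 0 ≤ φ a t) (h1 : ∀ a t, 0 < t → φ a t ≤ 20 * √t)
    (h : ∀ t, 0 < t → Tendsto (fun a => φ a t) l (𝓝 (ψ t))) :
    Tendsto (fun a => Rop (φ a) s) l (𝓝 (Rop ψ s)) := by
  refine tendsto_tsum_of_dominated_convergence (bound := fun e => 20 * √s * (ew e * √(bq e)))
    (hasSum_rho.summable.mul_left _) (fun e => (h _ (mul_pos (bq_pos e) hs)).const_mul _)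
    (Eventually.of_forall fun a e => ?_)
  have h3 := h1 a _ (mul_pos (bq_pos e) hs)
  have h4 := h0 a _ (mul_pos (bq_pos e) hs)
  rw [Real.sqrt_mul (bq_pos e).le] at h3
  rw [Real.norm_of_nonneg (mul_nonneg (ew_pos e).le h4)]
  calc ew e * φ a (bq e * s) ≤ ew e * (20 * (√(bq e) * √s)) := mul_le_mul_of_nonneg_left h3 (ew_pos e).le
    _ = 20 * √s * (ew e * √(bq e)) := by ring

lemma gl_eq {s : ℝ} (hs : 0 < s) : gl s = phi0 s + Rop gl s := by
  have h1 : Tendsto (fun M => gg (M + 1) s) atTop (𝓝 (gl s)) := (tendsto_add_atTop_iff_nat 1).2 (tendsto_gg hs)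
  have h2 : Tendsto (fun M => gg (M + 1) s) atTop (𝓝 (phi0 s + Rop gl s)) :=
    (tendsto_Rop hs (fun M t ht => gg_nonneg M t ht) (fun M t ht => gg_le_sqrt M t ht)
      (fun t ht => tendsto_gg ht)).const_add _
  exact tendsto_nhds_unique h1 h2

lemma Gl_eq {s : ℝ} (hs : 0 < s) : Gl s = phi1 s + Rop Gl s := by
  have h1 : Tendsto (fun M => GG (M + 1) s) atTop (𝓝 (Gl s)) := (tendsto_add_atTop_iff_nat 1).2 (tendsto_GG hs)
  have h2 : Tendsto (fun M => GG (M + 1) s) atTop (𝓝 (phi1 s + Rop Gl s)) :=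
    (tendsto_Rop hs (fun M t ht => GG_nonneg M t ht) (fun M t ht => GG_le_sqrt M t ht)
      (fun t ht => tendsto_GG ht)).const_add _
  exact tendsto_nhds_unique h1 h2

lemma summable_gl {s : ℝ} (hs : 0 < s) : Summable fun e => ew e * gl (bq e * s) :=
  summable_of_bdd hs (fun _ ht => gl_nonneg ht) (fun _ ht => gl_le_sqrt ht)

lemma summable_Gl {s : ℝ} (hs : 0 < s) : Summable fun e => ew e * Gl (bq e * s) :=
  summable_of_bdd hs (fun _ ht => Gl_nonneg ht) (fun _ ht => Gl_le_sqrt ht)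

/-! ### The extremal sequence -/

/-- The lower limit of the renewal function. -/
noncomputable def bet : ℝ := liminf gl atTop

lemma bdd_ge : IsBoundedUnder (· ≥ ·) atTop gl :=
  ⟨0, by
    rw [eventually_map]
    filter_upwards [eventually_gt_atTop 0] with s hs using gl_nonneg hs⟩

lemma bdd_le : IsBoundedUnder (· ≤ ·) atTop gl :=
  ⟨48, by
    rw [eventually_map]
    filter_upwards [eventually_gt_atTop 0] with s hs using gl_le hs⟩

lemma bet_lower {ε : ℝ} (hε : 0 < ε) : ∀ᶠ s in atTop, bet - ε < gl s :=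
  eventually_lt_of_lt_liminf (by unfold bet; linarith) bdd_ge

lemma bet_nonneg : 0 ≤ bet := by
  refine le_liminf_of_le bdd_le.isCoboundedUnder_ge ?_
  filter_upwards [eventually_gt_atTop 0] with s hs using gl_nonneg hs

lemma bet_le : bet ≤ 48 := by
  refine liminf_le_of_le bdd_ge fun b hb => ?_
  obtain ⟨s, h1, h2⟩ := (hb.and (eventually_gt_atTop 0)).exists
  exact h1.trans (gl_le h2)

lemma exists_seq : ∃ x : ℕ → ℝ, Tendsto x atTop atTop ∧ (∀ n, 0 < x n) ∧ Tendsto (fun n => gl (x n)) atTop (𝓝 bet) := by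
  have h1 : ∀ n : ℕ, ∃ s : ℝ, (n : ℝ) < s ∧ 0 < s ∧ gl s < bet + 1 / (n + 1) ∧ bet - 1 / (n + 1) < gl s := by
    intro n
    have hn : (0 : ℝ) < 1 / (n + 1) := by positivity
    have h2 : ∃ᶠ s in atTop, gl s < bet + 1 / (n + 1) :=
      frequently_lt_of_liminf_lt bdd_le.isCoboundedUnder_ge (by
        show bet < bet + 1 / (n + 1)
        linarith)
    obtain ⟨s, h3, h4, h5, h6⟩ := (h2.and_eventually ((bet_lower hn).and
      ((eventually_gt_atTop (n : ℝ)).and (eventually_gt_atTop 0)))).exists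
    exact ⟨s, h5, h6, h3, h4⟩
  choose x hx1 hx2 hx3 hx4 using h1
  refine ⟨x, tendsto_atTop_mono (fun n => (hx1 n).le) tendsto_natCast_atTop_atTop, hx2, ?_⟩
  have h0 : Tendsto (fun n : ℕ => (1 : ℝ) / (n + 1)) atTop (𝓝 0) := tendsto_one_div_add_atTop_nhds_zero_nat
  refine tendsto_of_tendsto_of_tendsto_of_le_of_le (g := fun n : ℕ => bet - 1 / (n + 1))
    (h := fun n : ℕ => bet + 1 / (n + 1)) ?_ ?_ (fun n => (hx4 n).le) (fun n => (hx3 n).le)
  · simpa using h0.const_sub bet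
  · simpa using h0.const_add bet

/-- Propagation to the children. -/
lemma child_tendsto {y : ℕ → ℝ} (h1 : Tendsto y atTop atTop) (h2 : ∀ n, 0 < y n)
    (h3 : Tendsto (fun n => gl (y n)) atTop (𝓝 bet)) (e : ℕ) :
    Tendsto (fun n => gl (bq e * y n)) atTop (𝓝 bet) := by
  have hphi : Tendsto (fun n => phi0 (y n)) atTop (𝓝 0) := by
    refine squeeze_zero (fun n => phi0_nonneg _) (g := fun n => 1 / y n) (fun n => ?_)
      (h1.inv_tendsto_atTop.congr fun n => (one_div _).symm)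
    unfold phi0
    have := h2 n
    split_ifs
    · exact le_rfl
    · positivity
  rw [Metric.tendsto_atTop]
  intro ε hε
  have hw := ew_pos e
  -- choose a finite set of letters with almost the whole mass
  obtain ⟨δ, hδ, hδ2⟩ : ∃ δ : ℝ, 0 < δ ∧ δ * 52 < ew e * ε := ⟨ew e * ε / 53, by positivity, by
    have : 0 < ew e * ε := by positivity
    linarith⟩
  obtain ⟨F, hF⟩ : ∃ F : Finset ℕ, ∀ F' : Finset ℕ, F ⊆ F' → 1 - δ < ∑ i ∈ F', ew i := by
    have := (hasSum_ew).eventually (lt_mem_nhds (show (1 : ℝ) - δ < 1 by linarith))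
    obtain ⟨F, hF⟩ := (eventually_atTop.1 this)
    exact ⟨F, fun F' h => hF F' h⟩
  set F' := insert e F with hF'
  have hmass := hF F' (subset_insert _ _)
  have hmass1 : ∑ i ∈ F', ew i ≤ 1 := sum_le_hasSum _ (fun i _ => (ew_pos i).le) hasSum_ew
  have hlow : ∀ᶠ n in atTop, ∀ i ∈ F', bet - δ < gl (bq i * y n) := by
    rw [eventually_all_finset]
    intro i _
    have h4 : Tendsto (fun n => bq i * y n) atTop atTop := h1.const_mul_atTop (bq_pos i)
    exact h4.eventually (bet_lower hδ)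
  have hup : ∀ᶠ n in atTop, gl (y n) < bet + δ := h3.eventually (gt_mem_nhds (by linarith))
  obtain ⟨N, hN⟩ := eventually_atTop.1 (hlow.and hup)
  refine ⟨N, fun n hn => ?_⟩
  obtain ⟨h5, h6⟩ := hN n hn
  have h7 := gl_eq (h2 n)
  have h8 : ∑ i ∈ F', ew i * gl (bq i * y n) ≤ Rop gl (y n) :=
    sum_le_hasSum _ (fun i _ => mul_nonneg (ew_pos i).le (gl_nonneg (mul_pos (bq_pos i) (h2 n))))
      (summable_gl (h2 n)).hasSum
  have heF : e ∈ F' := mem_insert_self _ _
  rw [← add_sum_erase _ _ heF] at h8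
  have h9 : ∑ i ∈ F'.erase e, ew i * (bet - δ) ≤ ∑ i ∈ F'.erase e, ew i * gl (bq i * y n) :=
    sum_le_sum fun i hi => mul_le_mul_of_nonneg_left (h5 i (mem_of_mem_erase hi)).le (ew_pos i).le
  rw [← sum_mul] at h9
  have h10 : ew e + ∑ i ∈ F'.erase e, ew i = ∑ i ∈ F', ew i := add_sum_erase _ _ heF
  have h11 := phi0_nonneg (y n)
  have h12 := h5 e heF
  have hb0 := bet_nonneg
  have hb1 := bet_le
  set m := ∑ i ∈ F'.erase e, ew i with hm
  have hw1 : ew e ≤ 1 := by linarith [show 0 ≤ m from sum_nonneg fun i _ => (ew_pos i).le]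
  have hm0 : 0 ≤ m := sum_nonneg fun i _ => (ew_pos i).le
  have h13 : ew e * gl (bq e * y n) < ew e * bet + ew e * ε := by
    have h14 : m * bet ≥ (1 - δ - ew e) * bet := by
      have : m ≥ 1 - δ - ew e := by linarith
      exact mul_le_mul_of_nonneg_right this hb0
    have h15 : m * δ ≤ δ := by
      have : m ≤ 1 := by linarith
      nlinarith
    have h16 : δ * bet ≤ δ * 48 := mul_le_mul_of_nonneg_left hb1 hδ.le
    nlinarith
  have h17 : gl (bq e * y n) < bet + ε := by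
    have : ew e * gl (bq e * y n) < ew e * (bet + ε) := by linarith
    exact lt_of_mul_lt_mul_left this hw.le
  rw [Real.dist_eq, abs_lt]
  have hδε : δ < ε := by nlinarith
  constructor <;> linarith

/-- Points of the semigroup generated by the scales. -/
inductive SG : ℝ → Prop
  | one : SG 1
  | mul (e : ℕ) (c : ℝ) : SG c → SG (bq e * c)

lemma SG.pos {c : ℝ} (h : SG c) : 0 < c := by
  induction h with
  | one => norm_num
  | mul e c _ ih => exact mul_pos (bq_pos e) ih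

lemma SG.mul' {c d : ℝ} (hc : SG c) (hd : SG d) : SG (c * d) := by
  induction hc with
  | one => rwa [one_mul]
  | mul e c _ ih => rw [mul_assoc]; exact SG.mul e _ ih

lemma SG.pow {c : ℝ} (hc : SG c) (n : ℕ) : SG (c ^ n) := by
  induction n with
  | zero => rw [pow_zero]; exact SG.one
  | succ n ih => rw [pow_succ]; exact ih.mul' hc

/-- `3 ^ k / 2 ^ J` with `J ≥ k ≥ 1` is in the semigroup. -/
lemma SG.of_pow : ∀ k j : ℕ, SG (3 ^ (k + 1) / 2 ^ (k + 1 + j)) := by
  intro k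
  induction k with
  | zero =>
    intro j
    have := SG.mul j 1 SG.one
    convert this using 1
    unfold bq
    rw [one_div_pow]
    ring
  | succ k ih =>
    intro j
    have := SG.mul 0 _ (ih j)
    convert this using 1
    unfold bq
    rw [pow_succ 3 (k + 1), show k + 1 + 1 + j = (k + 1 + j) + 1 by ring, pow_succ 2 (k + 1 + j)]
    ring

lemma sg_tendsto {x : ℕ → ℝ} (h1 : Tendsto x atTop atTop) (h2 : ∀ n, 0 < x n)
    (h3 : Tendsto (fun n => gl (x n)) atTop (𝓝 bet)) {c : ℝ} (hc : SG c) :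
    Tendsto (fun n => gl (c * x n)) atTop (𝓝 bet) := by
  induction hc with
  | one => simpa using h3
  | mul e c hc ih =>
    have := child_tendsto (h1.const_mul_atTop hc.pos) (fun n => mul_pos hc.pos (h2 n)) ih e
    simpa [mul_assoc] using this

end CollatzNat
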