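import Pool.Agent.CollatzNat.Tree

set_option autoImplicit false

/-!
# The restricted trees: words
-/

namespace CollatzNat

open CollatzOne CollatzExp Finset

lemma own_nonneg (K : ℕ) (X : ℝ) (v : ℤ) : 0 ≤ own K X v := by
  rw [own_eq]
  exact Nat.cast_nonneg _

open Classical in
lemma NK_letters {x X : ℝ} (E : ℕ) {v : ℤ} (hO : CollatzLin.OO v) (hH : Hit x v) :
    ∑ e ∈ Icc 1 E, (if v1 e v ∧ x < |((3 * c1 e v - 1 : ℤ) : ℝ)| then NK x X (c1 e v) else 0) ≤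
      NK x X v := by
  have h1 := own_add_le (X := X) (K := 0) (E := E) hO hH
  have h2 := own_nonneg 0 X v
  linarith

open Classical in
theorem NK_words {x X : ℝ} (E n : ℕ) {v : ℤ} (hO : CollatzLin.OO v) (hH : Hit x v) :
    ∑ W ∈ words E n, (if vd W v ∧ Out x W v then NK x X (ch W v) else 0) ≤ NK x X v := by
  induction n generalizing v with
  | zero => simp [words, vd_nil, ch_nil, Out]
  | succ n ih =>
    rw [sum_words_succ]
    refine le_trans (sum_le_sum fun e he => ?_) (NK_letters E hO hH)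
    rw [mem_Icc] at he
    by_cases h1 : v1 e v ∧ x < |((3 * c1 e v - 1 : ℤ) : ℝ)|
    · rw [if_pos h1]
      refine le_trans (le_of_eq ?_) (ih (CollatzLin.OO_c1 he.1 h1.1) (hH.child he.1 h1.1))
      refine sum_congr rfl fun W _ => ?_
      by_cases h2 : vd W (c1 e v) ∧ Out x W (c1 e v)
      · have h3 : vd (e :: W) v := vd_cons.2 ⟨h1.1, h2.1⟩
        rw [if_pos h2, if_pos ⟨h3, h1.2, h2.2⟩, ch_cons h3]
      · rw [if_neg h2, if_neg]
        rintro ⟨h3, h4⟩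
        exact h2 ⟨(vd_cons.1 h3).2, h4.2⟩
    · rw [if_neg h1]
      refine (sum_eq_zero fun W _ => ?_).le
      rw [if_neg]
      rintro ⟨h3, h4⟩
      exact h1 ⟨(vd_cons.1 h3).1, h4.1⟩

open Classical in
theorem own_words {x X : ℝ} (K E M : ℕ) {v : ℤ} (hO : CollatzLin.OO v) (hH : Hit x v) :
    ∑ D ∈ range M, ∑ W ∈ words E D, (if vd W v ∧ Out x W v then own K X (ch W v) else 0) ≤
      NK x X v := by
  induction M generalizing v with
  | zero => simpa using NK_nonneg x X v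
  | succ M ih =>
    rw [sum_range_succ']
    have h0 : ∑ W ∈ words E 0, (if vd W v ∧ Out x W v then own K X (ch W v) else 0) = own K X v := by
      simp [words, vd_nil, ch_nil, Out]
    rw [h0, add_comm]
    refine le_trans (add_le_add le_rfl ?_) (own_add_le (K := K) (E := E) hO hH)
    have h1 : ∑ D ∈ range M, ∑ W ∈ words E (D + 1), (if vd W v ∧ Out x W v then own K X (ch W v) else 0) =
        ∑ e ∈ Icc 1 E, ∑ D ∈ range M, ∑ W ∈ words E D,
          (if vd (e :: W) v ∧ Out x (e :: W) v then own K X (ch (e :: W) v) else 0) := by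
      rw [sum_comm]
      refine sum_congr rfl fun D _ => ?_
      rw [sum_words_succ]
    rw [h1]
    refine sum_le_sum fun e he => ?_
    rw [mem_Icc] at he
    by_cases h1 : v1 e v ∧ x < |((3 * c1 e v - 1 : ℤ) : ℝ)|
    · rw [if_pos h1]
      refine le_trans (le_of_eq ?_) (ih (CollatzLin.OO_c1 he.1 h1.1) (hH.child he.1 h1.1))
      refine sum_congr rfl fun D _ => sum_congr rfl fun W _ => ?_
      by_cases h2 : vd W (c1 e v) ∧ Out x W (c1 e v)
      · have h3 : vd (e :: W) v := vd_cons.2 ⟨h1.1, h2.1⟩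
        rw [if_pos h2, if_pos ⟨h3, h1.2, h2.2⟩, ch_cons h3]
      · rw [if_neg h2, if_neg]
        rintro ⟨h3, h4⟩
        exact h2 ⟨(vd_cons.1 h3).2, h4.2⟩
    · rw [if_neg h1]
      refine (sum_eq_zero fun D _ => sum_eq_zero fun W _ => ?_).le
      rw [if_neg]
      rintro ⟨h3, h4⟩
      exact h1 ⟨(vd_cons.1 h3).1, h4.1⟩

/-- Lower bound for the size of a child. -/
lemma abs_c1_ge {e : ℕ} {v : ℤ} (he : 1 ≤ e) (h : v1 e v) (hv : 1 / 3 ≤ |(v : ℝ)|) :
    2 / 3 * (|(v : ℝ)| - 1 / 3) ≤ |(c1 e v : ℝ)| := by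
  have h1 : (3 : ℝ) * c1 e v = 2 ^ e * v - cc e := by exact_mod_cast three_c1 h
  obtain ⟨h3, h4⟩ := cc_bounds e
  have h3' : (0 : ℝ) ≤ cc e := by exact_mod_cast h3
  have h4' : (3 : ℝ) * cc e ≤ 2 ^ e - 1 := by exact_mod_cast h4
  have h5 : (2 : ℝ) ^ e * |(v : ℝ)| - cc e ≤ |(2 : ℝ) ^ e * v - cc e| := by
    have := abs_sub_abs_le_abs_sub ((2 : ℝ) ^ e * v) (cc e)
    rw [abs_mul, abs_of_pos (by positivity : (0 : ℝ) < 2 ^ e), abs_of_nonneg h3'] at this
    exact this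
  have h6 : 3 * |(c1 e v : ℝ)| = |(2 : ℝ) ^ e * v - cc e| := by
    rw [← h1, abs_mul, abs_of_pos (show (0 : ℝ) < 3 by norm_num)]
  have h7 : (2 : ℝ) ≤ 2 ^ e := by
    calc (2 : ℝ) = 2 ^ 1 := by norm_num
      _ ≤ 2 ^ e := pow_le_pow_right₀ (by norm_num) he
  have h8 : 2 * (|(v : ℝ)| - 1 / 3) ≤ 2 ^ e * (|(v : ℝ)| - 1 / 3) :=
    mul_le_mul_of_nonneg_right h7 (by linarith)
  linarith

lemma Out_of_big' {x : ℝ} (hx : 0 ≤ x) {W : List ℕ} : ∀ {n : ℕ} {v : ℤ} (_ : ∀ e ∈ W, 1 ≤ e)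
    (_ : W.length ≤ n) (_ : vd W v) (_ : (3 / 2) ^ n * (x + 8 / 3) - 2 / 3 ≤ |(v : ℝ)|), Out x W v := by
  induction W with
  | nil => intro n v _ _ _ _; exact trivial
  | cons e W ih =>
    intro n v hW hn hv hb
    obtain ⟨m, rfl⟩ : ∃ m, n = m + 1 := ⟨n - 1, by simp only [List.length_cons] at hn; omega⟩
    obtain ⟨h1, h2⟩ := vd_cons.1 hv
    have he : 1 ≤ e := hW e (by simp)
    have hm : (1 : ℝ) ≤ (3 / 2) ^ m := one_le_pow₀ (by norm_num)
    have hm2 : x + 8 / 3 ≤ (3 / 2) ^ m * (x + 8 / 3) := le_mul_of_one_le_left (by linarith) hm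
    rw [pow_succ] at hb
    have hb' : 3 / 2 * (x + 8 / 3) - 2 / 3 ≤ |(v : ℝ)| := by
      refine le_trans ?_ hb
      have : (3 / 2 : ℝ) ^ m * (3 / 2) * (x + 8 / 3) = 3 / 2 * ((3 / 2) ^ m * (x + 8 / 3)) := by ring
      rw [this]
      linarith
    have hc := abs_c1_ge he h1 (by linarith)
    refine ⟨?_, ?_⟩
    · have h3 : 3 * |(c1 e v : ℝ)| - 1 ≤ |((3 * c1 e v - 1 : ℤ) : ℝ)| := by
        push_cast
        have := abs_sub_abs_le_abs_sub (3 * (c1 e v : ℝ)) 1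
        rw [abs_mul, abs_of_pos (show (0 : ℝ) < 3 by norm_num), abs_one] at this
        exact this
      linarith
    · refine ih (fun y hy => hW y (by simp [hy])) (n := m) (by simpa using hn) h2 ?_
      refine le_trans ?_ hc
      have : (3 / 2 : ℝ) ^ m * (3 / 2) * (x + 8 / 3) = 3 / 2 * ((3 / 2) ^ m * (x + 8 / 3)) := by ring
      rw [this] at hb
      linarith

theorem Out_of_big {x : ℝ} (hx : 0 ≤ x) {n : ℕ} {v : ℤ} {W : List ℕ} (hW : ∀ e ∈ W, 1 ≤ e)
    (hn : W.length ≤ n) (hv : vd W v) (hb : (3 / 2) ^ n * (x + 3) ≤ |(v : ℝ)|) : Out x W v := by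
  refine Out_of_big' hx hW hn hv (le_trans ?_ hb)
  have h : (0 : ℝ) ≤ (3 / 2) ^ n := by positivity
  nlinarith

end CollatzNat
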