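import Pool.Agent.CollatzNat.PsiNCore
import Pool.Agent.CollatzNat.Tree2

set_option autoImplicit false

/-!
# The normalised final count (module A3)
-/

namespace CollatzNat

open CollatzOne CollatzExp Finset

theorem psiN_nonneg (K l : ℕ) {s : ℝ} (hs : 0 ≤ s) (v : ℤ) : 0 ≤ psiN K l s v :=
  Psi.psiN_nonneg K l hs v

theorem psiN_per (K : ℕ) {l : ℕ} (hl : 1 ≤ l) (s : ℝ) : Per (3 ^ (100 * l)) (psiN K l s) :=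
  Psi.psiN_per K hl s

theorem psiN_le (K : ℕ) {l : ℕ} (hl : 1 ≤ l) {s : ℝ} (hs : 0 < s) (v : ℤ) :
    psiN K l s v ≤ 2 ^ (190 * l) := Psi.psiN_le K hl hs v

theorem psiN_count {x X : ℝ} {K l : ℕ} {s : ℝ} {v : ℤ} (hl : 1 ≤ l) (hx : 0 ≤ x)
    (hO : CollatzLin.OO v) (hH : Hit x v) (hs : 0 < s)
    (hb : (3 / 2) ^ (100 * l) * (x + 3) ≤ |(v : ℝ)|)
    (hX : 3 * s * (|(v : ℝ)| + 4 * (3 / 2) ^ (100 * l)) ≤ X) : s * psiN K l s v ≤ NK x X v :=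
  Psi.psiN_count_of (fun K E M _ h1 h2 => own_words K E M h1 h2)
    (fun hx _ _ _ h1 h2 h3 h4 => Out_of_big hx h1 h2 h3 h4) hl hx hO hH hs hb hX

/-- The mean of `psiN`, from the lower bound of the renewal theorem. -/
theorem psiN_mean_of
    (UU_ge : ∀ {ε : ℝ}, 0 < ε → ∃ (y₀ : ℝ) (l₀ : ℕ), ∀ l : ℕ, l₀ ≤ l → ∀ y : ℝ, y₀ ≤ y →
      y ≤ 2 ^ (12 * l + 3) → (1 - ε) * y / Real.log (4 / 3) ≤ UU (200 * l) (100 * l - 1) y)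
    {ε : ℝ} (hε : 0 < ε) : ∃ K l₀ : ℕ, ∀ l : ℕ, l₀ ≤ l → ∀ s : ℝ, 2 ^ l ≤ s →
    s ≤ 2 ^ (12 * l + 1) → (4 - ε) / Real.log (4 / 3) ≤ mean (3 ^ (100 * l)) (psiN K l s) :=
  Psi.psiN_mean_of UU_ge hε

end CollatzNat
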