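import Pool.Agent.CollatzNat.PsN
import Pool.Agent.CollatzNat.Defs

set_option autoImplicit false

/-!
The truncated renewal function as a sum over words.
-/

namespace CollatzNat

open CollatzOne Finset

lemma UU_def (E M : ℕ) (y : ℝ) : UU E M y =
  ∑ D ∈ range M, (∑ W ∈ words E D, if (2 : ℝ) ^ js W / 3 ^ D ≤ y then (1 : ℝ) else 0) / 3 ^ D := by
  unfold UU
  refine sum_congr rfl fun D _ => ?_
  rw [sum_div]
  refine sum_congr rfl fun W hW => ?_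
  have h1 : CollatzLin.ht W = 2 ^ js W / 3 ^ D := by
    unfold CollatzLin.ht
    rw [(mem_words.1 hW).1]
  rw [h1]
  split_ifs
  · rfl
  · rw [zero_div]

lemma UU_succ (E M : ℕ) (y : ℝ) :
    UU E (M + 1) y = (if 1 ≤ y then 1 else 0) + ∑ e ∈ Icc 1 E, 1 / 3 * UU E M (3 * y / 2 ^ e) := by
  rw [UU_def, sum_range_succ']
  have h0 : (∑ W ∈ words E 0, if (2 : ℝ) ^ js W / 3 ^ 0 ≤ y then (1 : ℝ) else 0) / 3 ^ 0 =
      if 1 ≤ y then 1 else 0 := by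
    rw [show words E 0 = {[]} from rfl, sum_singleton, js_nil, pow_zero, pow_zero, div_one, div_one]
  rw [h0, add_comm]
  congr 1
  have h1 : ∀ D ∈ range M, (∑ W ∈ words E (D + 1), if (2 : ℝ) ^ js W / 3 ^ (D + 1) ≤ y then (1 : ℝ) else 0) /
      3 ^ (D + 1) = ∑ e ∈ Icc 1 E, 1 / 3 * ((∑ W ∈ words E D,
        if (2 : ℝ) ^ js W / 3 ^ D ≤ 3 * y / 2 ^ e then (1 : ℝ) else 0) / 3 ^ D) := by
    intro D _
    rw [sum_words_succ, sum_div]
    refine sum_congr rfl fun e _ => ?_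
    have h2 : ∀ W : List ℕ, (if (2 : ℝ) ^ js (e :: W) / 3 ^ (D + 1) ≤ y then (1 : ℝ) else 0) =
        if (2 : ℝ) ^ js W / 3 ^ D ≤ 3 * y / 2 ^ e then (1 : ℝ) else 0 := by
      intro W
      have h3 : (2 : ℝ) ^ js (e :: W) / 3 ^ (D + 1) ≤ y ↔ (2 : ℝ) ^ js W / 3 ^ D ≤ 3 * y / 2 ^ e := by
        rw [js_cons, pow_add, pow_succ, div_le_iff₀ (by positivity), div_le_div_iff₀ (by positivity) (by positivity)]
        constructor <;> intro h <;> nlinarith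
      simp only [h3]
    rw [sum_congr rfl fun W _ => h2 W, pow_succ (3 : ℝ) D]
    generalize (∑ W ∈ words E D, if (2 : ℝ) ^ js W / 3 ^ D ≤ 3 * y / 2 ^ e then (1 : ℝ) else 0) = P
    field_simp
  rw [sum_congr rfl h1, sum_comm]
  exact sum_congr rfl fun e _ => by rw [UU_def, mul_sum]

lemma UU_eq (E M : ℕ) : ∀ y : ℝ, 0 < y → UU E (M + 1) y = y * gE E M y := by
  have h0 : ∀ y : ℝ, 0 < y → (if 1 ≤ y then (1 : ℝ) else 0) = y * phi0 y := by
    intro y hy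
    unfold phi0
    split_ifs
    · field_simp
    · ring
  induction M with
  | zero =>
    intro y hy
    rw [UU_succ, h0 y hy]
    simp [UU_def, gE]
  | succ M ih =>
    intro y hy
    rw [UU_succ, gE_succ, h0 y hy, mul_add, mul_sum]
    congr 1
    refine sum_congr rfl fun e _ => ?_
    rw [ih _ (by positivity)]
    ring

/-- Lower bound of the renewal theorem, in terms of words. -/
theorem UU_lower {ε : ℝ} (hε : 0 < ε) : ∃ (y₀ : ℝ) (l₀ : ℕ), 1 ≤ y₀ ∧ ∀ l E M : ℕ, l₀ ≤ l → 100 * l ≤ E →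
    100 * l ≤ M + 1 → ∀ y : ℝ, y₀ ≤ y → y ≤ 2 ^ (12 * l + 3) → (1 - ε) * y / Real.log (4 / 3) ≤ UU E M y := by
  have hmu := mu0_pos
  obtain ⟨y₀, l₀, hy, h⟩ := gE_lower (show 0 < ε / mu0 by positivity)
  refine ⟨y₀, max 1 l₀, hy, fun l E M h1 h2 h3 y h4 h5 => ?_⟩
  have hl1 : 1 ≤ l := (le_max_left _ _).trans h1
  have hl2 : l₀ ≤ l := (le_max_right _ _).trans h1
  obtain ⟨M', rfl⟩ : ∃ M', M = M' + 1 := ⟨M - 1, by omega⟩
  have hy0 : 0 < y := by linarith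
  rw [UU_eq E M' y hy0]
  have h6 := h l E M' hl2 h2 (by omega) y h4 h5
  have h7 := mul_le_mul_of_nonneg_left h6 hy0.le
  have h8 : (1 - ε) * y / Real.log (4 / 3) = y * (1 / mu0 - ε / mu0) := by
    unfold mu0; ring
  rw [h8]
  exact h7

theorem UU_ge {ε : ℝ} (hε : 0 < ε) : ∃ (y₀ : ℝ) (l₀ : ℕ), ∀ l : ℕ, l₀ ≤ l → ∀ y : ℝ, y₀ ≤ y →
    y ≤ 2 ^ (12 * l + 3) → (1 - ε) * y / Real.log (4 / 3) ≤ UU (200 * l) (100 * l - 1) y := by
  obtain ⟨y₀, l₀, -, h⟩ := UU_lower hε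
  exact ⟨y₀, l₀, fun l hl y hy hy' => h l (200 * l) (100 * l - 1) hl (by omega) (by omega) y hy hy'⟩

end CollatzNat
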