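import Pool.Agent.CollatzNat.PsiN
import Pool.Agent.CollatzNat.UU

set_option autoImplicit false

/-!
# The mean of the normalised final count
-/

namespace CollatzNat

open CollatzOne CollatzExp Finset

theorem psiN_mean {ε : ℝ} (hε : 0 < ε) : ∃ K l₀ : ℕ, ∀ l : ℕ, l₀ ≤ l → ∀ s : ℝ, 2 ^ l ≤ s →
    s ≤ 2 ^ (12 * l + 1) → (4 - ε) / Real.log (4 / 3) ≤ mean (3 ^ (100 * l)) (psiN K l s) :=
  psiN_mean_of (fun h => UU_ge h) hε

end CollatzNat
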