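import Pool.Agent.CollatzNat.Tree2
import Pool.Agent.CollatzLin.Par

set_option autoImplicit false

/-!
# The tower and the restricted trees
-/

namespace CollatzNat

open CollatzOne CollatzExp Finset

lemma hit_ch {x : ℝ} {W : List ℕ} (hW : ∀ e ∈ W, 1 ≤ e) {v : ℤ} (h : vd W v)
    (hv : Hit x v) : Hit x (ch W v) := by
  induction W generalizing v with
  | nil => rwa [ch_nil]
  | cons e W ih =>
    obtain ⟨h1, h2⟩ := vd_cons.1 h
    rw [ch_cons h]
    exact ih (fun x hx => hW x (by simp [hx])) h2 (hv.child (hW e (by simp)) h1)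

lemma tsys_T {x : ℝ} {l : ℕ} {hl : 600 ≤ l} (w : (tsys l hl).ι) (v : ℤ)
    (hw : (tsys l hl).valid w v) (h : TT x v) : TT x ((tsys l hl).child w v) := by
  have h1 : ∀ e ∈ w.1, 1 ≤ e := fun e he => ((mem_lettT.1 w.2).1.2 e he).1
  have h2 := (tsys_valid w v).1 hw
  rw [tsys_child]
  exact ⟨CollatzLin.OO_ch h1 h.1 h2, hit_ch h1 h2 h.2⟩

theorem tower_T {x : ℝ} (i : ℕ) (w : (tower.sys i).ι) (v : ℤ)
    (hw : (tower.sys i).valid w v) (h : TT x v) : TT x ((tower.sys i).child w v) :=
  tsys_T (hl := tower_len i) w v hw h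

open Classical in
lemma tsys_countN {x X : ℝ} (hx : 0 ≤ x) {l : ℕ} {hl : 600 ≤ l} (v : ℤ)
    (h : TT x v) (hb : (3 / 2) ^ l * (x + 3) ≤ |(v : ℝ)|) :
    ∑ w, (if (tsys l hl).valid w v then NK x X ((tsys l hl).child w v) else 0) ≤ NK x X v := by
  have h1 : ∀ w : (tsys l hl).ι,
      (if (tsys l hl).valid w v then NK x X ((tsys l hl).child w v) else 0) =
      (fun W : List ℕ => if vd W v then NK x X (ch W v) else 0) (w : {W // W ∈ lettT l}).1 := by
    intro w
    rw [tsys_child]
    by_cases h : vd w.1 v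
    · rw [if_pos ((tsys_valid w v).2 h)]
      show _ = (if vd w.1 v then _ else _)
      rw [if_pos h]
    · rw [if_neg (fun h' => h ((tsys_valid w v).1 h'))]
      show _ = (if vd w.1 v then _ else _)
      rw [if_neg h]
  calc _ = ∑ w : {W // W ∈ lettT l}, (fun W : List ℕ => if vd W v then NK x X (ch W v) else 0) w.1 :=
        sum_congr rfl fun w _ => h1 w
    _ = ∑ W ∈ lettT l, (if vd W v then NK x X (ch W v) else 0) :=
        Finset.sum_coe_sort (lettT l) (fun W : List ℕ => if vd W v then NK x X (ch W v) else 0)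
    _ = ∑ W ∈ lettT l, (if vd W v ∧ Out x W v then NK x X (ch W v) else 0) := by
        refine sum_congr rfl fun W hW => ?_
        by_cases h2 : vd W v
        · have h3 := mem_lettT.1 hW
          have h4 : Out x W v := Out_of_big hx (fun e he => (h3.1.2 e he).1) h3.1.1.le h2 hb
          rw [if_pos h2, if_pos ⟨h2, h4⟩]
        · rw [if_neg h2, if_neg (fun h' => h2 h'.1)]
    _ ≤ ∑ W ∈ words (11 * l) l, (if vd W v ∧ Out x W v then NK x X (ch W v) else 0) := by
        refine sum_le_sum_of_subset_of_nonneg (filter_subset _ _) fun W _ _ => ?_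
        split_ifs
        · exact NK_nonneg _ _ _
        · exact le_rfl
    _ ≤ _ := NK_words (11 * l) l h.1 h.2

open Classical in
theorem tower_count {x X : ℝ} (hx : 0 ≤ x) (i : ℕ) (v : ℤ) (h : TT x v)
    (hb : (3 / 2) ^ (tower.sys i).l * (x + 3) ≤ |(v : ℝ)|) :
    ∑ w, (if (tower.sys i).valid w v then NK x X ((tower.sys i).child w v) else 0) ≤ NK x X v :=
  tsys_countN (hl := tower_len i) hx v h hb

end CollatzNat
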