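import Pool.Agent.CollatzNat.Cross2
import Pool.Agent.CollatzNat.PsiN
import Pool.Agent.CollatzNat.PsiNMean
import Pool.Agent.CollatzNat.TowerN

set_option autoImplicit false

/-!
# The crossing for the restricted trees
-/

namespace CollatzNat

open CollatzOne CollatzExp Finset Filter Topology

/-- The data of the crossing. -/
lemma xdataN {ε : ℝ} {K l₀ : ℕ} (hmean : ∀ l : ℕ, l₀ ≤ l → ∀ s : ℝ, 2 ^ l ≤ s →
    s ≤ 2 ^ (12 * l + 1) → (4 - ε) / Real.log (4 / 3) ≤ mean (3 ^ (100 * l)) (psiN K l s))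
    {x : ℝ} (hx : 0 ≤ x) (X : ℝ) (i : ℕ) (hi : l₀ ≤ (tower.sys i).l) :
    XData (tower.sys i) (TT x) (NK x X) ((3 / 2) ^ (100 * (tower.sys i).l) * (x + 3)) (X / 3)
      ((4 - ε) / Real.log (4 / 3)) (fun s v => psiN K (tower.sys i).l (max s 0) v) := by
  have hl : 1 ≤ (tower.sys i).l := le_trans (by norm_num) (tower.str i).hl
  have hpos : ∀ s : ℝ, 2 ^ (tower.sys i).l ≤ s → 0 < s := fun s hs => lt_of_lt_of_le (by positivity) hs
  have hmax : ∀ s : ℝ, 2 ^ (tower.sys i).l ≤ s → max s 0 = s := fun s hs => max_eq_left (hpos s hs).le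
  refine ⟨fun v => NK_nonneg _ _ _, fun w v hw h _ => tower_T i w v hw h, fun v h hv => ?_,
    fun s v => psiN_nonneg _ _ (le_max_right _ _) v, fun s hs _ v => ?_, fun s => psiN_per K hl _,
    fun s hs hs' => ?_, fun s v hs hs' hT hv hX => ?_⟩
  · refine tower_count hx i v h (le_trans ?_ hv)
    gcongr
    · norm_num
    · omega
  · rw [hmax s hs]
    exact psiN_le K hl (hpos s hs) v
  · rw [hmax s hs]
    exact hmean _ hi s hs hs'
  · rw [hmax s hs]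
    refine psiN_count hl hx hT.1 hT.2 (hpos s hs) hv ?_
    have h1 := mul_le_mul_of_nonneg_left hX (show (0 : ℝ) ≤ 3 by norm_num)
    have h2 : 3 * (X / 3) = X := by ring
    rw [h2] at h1
    linarith

lemma pow_bound (l : ℕ) : ((3 / 2 : ℝ) ^ (100 * l) * 2 ^ l) ≤ 3 ^ (62 * l) := by
  calc ((3 / 2 : ℝ) ^ (100 * l) * 2 ^ l) = ((3 / 2 : ℝ) ^ 100 * 2) ^ l := by rw [pow_mul, mul_pow]
    _ ≤ (3 ^ 62) ^ l := pow_le_pow_left₀ (by positivity) (by norm_num) l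
    _ = 3 ^ (62 * l) := by rw [← pow_mul]

theorem crossN {ε : ℝ} (hε : 0 < ε) (hε1 : ε ≤ 1) : ∃ i₀ : ℕ, ∀ i ≥ i₀, ∀ (x X Y Y' b G : ℝ) (D g : ℕ)
    (Λ : (ℕ → ℤ → ℝ) → ℝ), 0 ≤ x → 0 ≤ Y → 0 ≤ b → Lin (RegP (TT x) D Y Y') Λ →
    1000 * (tower.sys i).l ≤ D → x + 3 ≤ (Y' - 1) * 2 ^ (tower.sys i).l →
    Λ (fun _ _ => 1) ≤ 16 ^ (tower.sys i).l * b →
    11 * (D + 17 * (tower.sys i).blk * (tower.sys i).l) ≤ g →
    16 * (g + 1) ≤ (tower.sys i).l * (tower.sys i).blk ^ 6 →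
    2 ^ (g + 12 * (tower.sys i).l) ≤ G → G ≤ 2 ^ (g + 12 * (tower.sys i).l + 1) →
    3 * G * (Y + 5) ≤ X →
    G * ((4 - ε) / Real.log (4 / 3)) * ((1 - ε) *
      Λ ((tower.sys i).PP^[17 * (tower.sys i).blk] (fun _ _ => 1)) -
        (1 / 2) ^ (80 * (tower.sys i).l) * b) ≤ Λ (fun J v => 2 ^ J / 3 ^ D * NK x X v) := by
  obtain ⟨K, l₁, hmean⟩ := psiN_mean hε
  obtain ⟨l₂, heqd⟩ := Sys.Str.eqd
  have hlim : ∀ᶠ l : ℕ in atTop, (399 / 400 : ℝ) ^ l < ε :=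
    (tendsto_pow_atTop_nhds_zero_of_lt_one (by norm_num) (by norm_num)).eventually (gt_mem_nhds hε)
  obtain ⟨l₃, hlim⟩ := eventually_atTop.1 hlim
  refine ⟨max (max l₁ l₂) l₃, fun i hi x X Y Y' b G D g Λ hx hY hb hΛ hD hxY hone hg1 hg2 hG1 hG2 hX => ?_⟩
  have hil : i ≤ (tower.sys i).l := by
    rw [tower.l_eq]
    have h1 : i < 2 ^ i := Nat.lt_two_pow_self
    omega
  have h1 : l₁ ≤ (tower.sys i).l := le_trans (le_trans (le_max_left _ _) (le_max_left _ _)) (hi.trans hil)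
  have h2 : l₂ ≤ (tower.sys i).l := le_trans (le_trans (le_max_right _ _) (le_max_left _ _)) (hi.trans hil)
  have h3 : l₃ ≤ (tower.sys i).l := le_trans (le_max_right _ _) (hi.trans hil)
  have hA := tower.str i
  have hE : EqdFor (tower.sys i) := heqd _ hA h2
  have hXD := xdataN hmean hx X i h1
  have hl := hA.hl
  have hlog : 0 < Real.log (4 / 3) := Real.log_pos (by norm_num)
  have hlog1 : Real.log (4 / 3) ≤ 1 := by
    have := Real.log_le_sub_one_of_pos (show (0 : ℝ) < 4 / 3 by norm_num)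
    linarith
  set κ := (4 - ε) / Real.log (4 / 3) with hκ
  have hκ1 : 1 ≤ κ := by
    rw [hκ, le_div_iff₀ hlog]
    linarith
  have hY1 : 0 < Y' - 1 := by
    by_contra hcon
    push Not at hcon
    have : (Y' - 1) * 2 ^ (tower.sys i).l ≤ 0 := mul_nonpos_of_nonpos_of_nonneg hcon (by positivity)
    linarith
  have hG0 : 0 ≤ G := le_trans (by positivity) hG1
  have hB : ((3 / 2 : ℝ) ^ (100 * (tower.sys i).l) * (x + 3)) ^ 16 ≤ (Y' - 1) ^ 16 * 3 ^ D := by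
    have e1 : (3 / 2 : ℝ) ^ (100 * (tower.sys i).l) * (x + 3) ≤ 3 ^ (62 * (tower.sys i).l) * (Y' - 1) := by
      calc (3 / 2 : ℝ) ^ (100 * (tower.sys i).l) * (x + 3)
          ≤ (3 / 2 : ℝ) ^ (100 * (tower.sys i).l) * ((Y' - 1) * 2 ^ (tower.sys i).l) := by gcongr
        _ = ((3 / 2 : ℝ) ^ (100 * (tower.sys i).l) * 2 ^ (tower.sys i).l) * (Y' - 1) := by ring
        _ ≤ 3 ^ (62 * (tower.sys i).l) * (Y' - 1) := mul_le_mul_of_nonneg_right (pow_bound _) hY1.le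
    calc ((3 / 2 : ℝ) ^ (100 * (tower.sys i).l) * (x + 3)) ^ 16
        ≤ (3 ^ (62 * (tower.sys i).l) * (Y' - 1)) ^ 16 := pow_le_pow_left₀ (by positivity) e1 16
      _ = (Y' - 1) ^ 16 * 3 ^ (62 * (tower.sys i).l * 16) := by rw [mul_pow, ← pow_mul]; ring
      _ ≤ (Y' - 1) ^ 16 * 3 ^ D := by
          refine mul_le_mul_of_nonneg_left (pow_le_pow_right₀ (by norm_num) (by omega)) (by positivity)
  have hmain := hA.cross_sharp hE hXD (le_trans zero_le_one hκ1) hb hΛ (by omega) hone (by positivity)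
    (by linarith) hB hg1 (by omega) hG1 hG2 (by linarith)
  refine le_trans ?_ hmain
  rw [mul_assoc]
  refine mul_le_mul_of_nonneg_left ?_ hG0
  set M := Λ ((tower.sys i).PP^[17 * (tower.sys i).blk] (fun _ _ => 1)) with hM
  have hM0 : 0 ≤ M := by
    refine hΛ.nonneg fun J v _ => ?_
    exact (tower.sys i).PP_nonneg (fun _ _ => zero_le_one) _ _ _
  have e1 : (1 - ε) * M ≤ (1 - (399 / 400) ^ (tower.sys i).l) * M :=
    mul_le_mul_of_nonneg_right (by linarith [hlim _ h3]) hM0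
  have e2 : 2 * ((1 / 2 : ℝ) ^ (90 * (tower.sys i).l) * b) ≤ (1 / 2) ^ (80 * (tower.sys i).l) * b := by
    rw [← mul_assoc]
    refine mul_le_mul_of_nonneg_right ?_ hb
    have e3 : (1 / 2 : ℝ) ^ (90 * (tower.sys i).l) ≤ (1 / 2) ^ (80 * (tower.sys i).l + 1) :=
      pow_le_pow_of_le_one (by norm_num) (by norm_num) (by omega)
    rw [pow_succ] at e3
    linarith
  have e4 : 0 ≤ (1 / 2 : ℝ) ^ (90 * (tower.sys i).l) * b := by positivity
  have e5 : κ * ((1 - ε) * M) ≤ κ * ((1 - (399 / 400) ^ (tower.sys i).l) * M) :=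
    mul_le_mul_of_nonneg_left e1 (by linarith)
  have e6 : κ * (2 * ((1 / 2 : ℝ) ^ (90 * (tower.sys i).l) * b)) ≤ κ * ((1 / 2) ^ (80 * (tower.sys i).l) * b) :=
    mul_le_mul_of_nonneg_left e2 (by linarith)
  have e7 : (1 / 2 : ℝ) ^ (90 * (tower.sys i).l) * b ≤ κ * ((1 / 2 : ℝ) ^ (90 * (tower.sys i).l) * b) :=
    le_mul_of_one_le_left e4 hκ1
  linarith

end CollatzNat
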