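import Pool.Agent.CollatzNat.TowerN

set_option autoImplicit false

/-!
# The stage recursion, with multiplicative losses tending to zero
-/

namespace CollatzNat

open CollatzOne CollatzExp Finset

/-- The inverse height. -/
lemma RegP.inv_height {T : ℤ → Prop} {D : ℕ} {Y Y' : ℝ} {J : ℕ} {v : ℤ} (h : RegP T D Y Y' J v) :
    (3 : ℝ) ^ D ≤ (15 / 16) ^ D * 2 ^ J := by
  have h1 : ((3 : ℝ) ^ D) ^ 16 ≤ ((15 / 16) ^ D * 2 ^ J) ^ 16 := by
    have h2 : (3 : ℝ) ^ (17 * D) ≤ 2 ^ (16 * J) := by exact_mod_cast h.ht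
    have h3 : (1 / 3 : ℝ) ^ D ≤ ((15 / 16) ^ 16) ^ D := pow_le_pow_left₀ (by norm_num) th16 D
    calc ((3 : ℝ) ^ D) ^ 16 = 3 ^ (17 * D) * (1 / 3 : ℝ) ^ D := by
          rw [← pow_mul, show 17 * D = D * 16 + D by ring, pow_add, mul_assoc, ← mul_pow]
          norm_num
      _ ≤ 2 ^ (16 * J) * ((15 / 16) ^ 16) ^ D := by gcongr
      _ = ((15 / 16) ^ D * 2 ^ J) ^ 16 := by
          rw [mul_pow, ← pow_mul, ← pow_mul, ← pow_mul]
          ring
  exact (pow_le_pow_iff_left₀ (by positivity) (by positivity) (by norm_num)).1 h1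

lemma RegP.mono {T : ℤ → Prop} {D : ℕ} {Y Y' Z Z' : ℝ} {J : ℕ} {v : ℤ} (h : RegP T D Y Y' J v)
    (hY : Y ≤ Z) (hY' : Z' ≤ Y') : RegP T D Z Z' J v :=
  ⟨h.ht, h.J_le, h.size.trans (by gcongr), le_trans (by gcongr) h.low, h.tr⟩

/-- One block. -/
lemma RegP.step {T : ℤ → Prop} {A : Sys} (hS : A.Str) {D : ℕ} {Y Y' : ℝ} {J : ℕ} {v : ℤ}
    (h : RegP T D Y Y' J v) {w : A.ι} (hw : A.valid w v) (hT : T (A.child w v)) :
    RegP T (D + A.l) (Y + 2 ^ A.l * (15 / 16) ^ D) (Y' - 2 ^ A.l * (15 / 16) ^ D) (J + A.J w)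
      (A.child w v) := by
  have h1 : (A.q : ℝ) * A.child w v = 2 ^ A.J w * v - A.b w := by
    exact_mod_cast A.q_mul_child hw
  have hb : |((A.b w : ℤ) : ℝ)| ≤ 2 ^ A.l * 2 ^ A.J w := by
    have := hS.b_le w
    exact_mod_cast this
  have hq : (A.q : ℝ) = 3 ^ A.l := by unfold Sys.q; push_cast; rfl
  have h2 : |((A.child w v : ℤ) : ℝ)| * 3 ^ A.l = |2 ^ A.J w * (v : ℝ) - A.b w| := by
    rw [← h1, abs_mul, abs_of_pos A.q_posR, hq, mul_comm]
  have h2a : |((A.child w v : ℤ) : ℝ)| * 3 ^ A.l ≤ 2 ^ A.J w * |(v : ℝ)| + 2 ^ A.l * 2 ^ A.J w := by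
    rw [h2]
    calc |2 ^ A.J w * (v : ℝ) - A.b w| ≤ |2 ^ A.J w * (v : ℝ)| + |(A.b w : ℝ)| := abs_sub _ _
      _ ≤ 2 ^ A.J w * |(v : ℝ)| + 2 ^ A.l * 2 ^ A.J w := by
          rw [abs_mul, abs_of_pos (by positivity : (0 : ℝ) < 2 ^ A.J w)]
          exact add_le_add le_rfl hb
  have h2b : 2 ^ A.J w * |(v : ℝ)| - 2 ^ A.l * 2 ^ A.J w ≤ |((A.child w v : ℤ) : ℝ)| * 3 ^ A.l := by
    rw [h2]
    calc 2 ^ A.J w * |(v : ℝ)| - 2 ^ A.l * 2 ^ A.J w ≤ |2 ^ A.J w * (v : ℝ)| - |(A.b w : ℝ)| := by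
          rw [abs_mul, abs_of_pos (by positivity : (0 : ℝ) < 2 ^ A.J w)]
          exact sub_le_sub le_rfl hb
      _ ≤ |2 ^ A.J w * (v : ℝ) - A.b w| := abs_sub_abs_le_abs_sub _ _
  refine ⟨?_, ?_, ?_, ?_, hT⟩
  · rw [mul_add, mul_add, pow_add, pow_add]
    exact Nat.mul_le_mul h.ht (hS.ht w)
  · have := h.J_le
    have := hS.J_le w
    omega
  · calc |((A.child w v : ℤ) : ℝ)| * 3 ^ (D + A.l) = |((A.child w v : ℤ) : ℝ)| * 3 ^ A.l * 3 ^ D := by
          rw [pow_add]; ring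
      _ ≤ (2 ^ A.J w * |(v : ℝ)| + 2 ^ A.l * 2 ^ A.J w) * 3 ^ D := by gcongr
      _ = 2 ^ A.J w * (|(v : ℝ)| * 3 ^ D) + 2 ^ A.l * 2 ^ A.J w * 3 ^ D := by ring
      _ ≤ 2 ^ A.J w * (Y * 2 ^ J) + 2 ^ A.l * 2 ^ A.J w * ((15 / 16) ^ D * 2 ^ J) :=
          add_le_add (mul_le_mul_of_nonneg_left h.size (by positivity))
            (mul_le_mul_of_nonneg_left h.inv_height (by positivity))
      _ = (Y + 2 ^ A.l * (15 / 16) ^ D) * 2 ^ (J + A.J w) := by
          rw [pow_add]; ring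
  · calc (Y' - 2 ^ A.l * (15 / 16) ^ D) * 2 ^ (J + A.J w)
        = 2 ^ A.J w * (Y' * 2 ^ J) - 2 ^ A.l * 2 ^ A.J w * ((15 / 16) ^ D * 2 ^ J) := by
          rw [pow_add]; ring
      _ ≤ 2 ^ A.J w * (|(v : ℝ)| * 3 ^ D) - 2 ^ A.l * 2 ^ A.J w * 3 ^ D :=
          sub_le_sub (mul_le_mul_of_nonneg_left h.low (by positivity))
            (mul_le_mul_of_nonneg_left h.inv_height (by positivity))
      _ = (2 ^ A.J w * |(v : ℝ)| - 2 ^ A.l * 2 ^ A.J w) * 3 ^ D := by ring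
      _ ≤ |((A.child w v : ℤ) : ℝ)| * 3 ^ A.l * 3 ^ D := by gcongr
      _ = |((A.child w v : ℤ) : ℝ)| * 3 ^ (D + A.l) := by
          rw [pow_add]; ring

/-- Several blocks. -/
lemma lin_blocksN {x : ℝ} (i : ℕ) {D : ℕ} {Y Y' : ℝ} {Λ : (ℕ → ℤ → ℝ) → ℝ}
    (h : Lin (RegP (TT x) D Y Y') Λ) (n : ℕ) :
    Lin (RegP (TT x) (D + n * (tower.sys i).l) (Y + 2 ^ ((tower.sys i).l + 1) * (15 / 16) ^ D)
      (Y' - 2 ^ ((tower.sys i).l + 1) * (15 / 16) ^ D)) (fun g => Λ ((tower.sys i).PP^[n] g)) := by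
  set A := tower.sys i with hA
  have hS : A.Str := tower.str i
  have h1 := Lin.comp_iter (Λ := Λ) A
    (fun k => RegP (TT x) (D + k * A.l) (Y + 2 ^ (A.l + 1) * (15 / 16) ^ D * (1 - (1 / 2) ^ k))
      (Y' - 2 ^ (A.l + 1) * (15 / 16) ^ D * (1 - (1 / 2) ^ k))) n
    (by simpa using h) ?_
  · have : (0 : ℝ) ≤ (1 / 2) ^ n := by positivity
    have h2 : (0 : ℝ) ≤ 2 ^ (A.l + 1) * (15 / 16) ^ D := by positivity
    refine h1.weaken fun J v hJ => hJ.mono ?_ ?_ <;> nlinarith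
  · intro k J v w _ hR hw
    have h2 := hR.step hS hw (tower_T i w v hw hR.tr)
    have e1 : D + (k + 1) * A.l = D + k * A.l + A.l := by ring
    simp only [e1]
    have h3 : ((15 / 16 : ℝ)) ^ (k * A.l) ≤ (1 / 2) ^ k := by
      rw [mul_comm, pow_mul]
      exact pow_le_pow_left₀ (by positivity) (pow_half_aux hS.hl) k
    have h4 : (2 : ℝ) ^ A.l * (15 / 16) ^ (D + k * A.l) ≤ 2 ^ A.l * ((15 / 16) ^ D * (1 / 2) ^ k) := by
      rw [pow_add]
      gcongr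
    have h5 : 2 ^ (A.l + 1) * (15 / 16 : ℝ) ^ D * (1 - (1 / 2) ^ (k + 1)) =
        2 ^ (A.l + 1) * (15 / 16) ^ D * (1 - (1 / 2) ^ k) + 2 ^ A.l * ((15 / 16) ^ D * (1 / 2) ^ k) := by
      rw [pow_succ, pow_succ]
      ring
    rw [h5]
    refine h2.mono ?_ ?_ <;> linarith

/-- The positions are large. -/
lemma RegP.big {T : ℤ → Prop} {D l : ℕ} {x Y Y' : ℝ} {J : ℕ} {v : ℤ} (h : RegP T D Y Y' J v)
    (hD : 22 * l ≤ D) (hY : 0 ≤ Y') (hx : x + 3 ≤ Y' * 2 ^ l) :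
    (3 / 2) ^ l * (x + 3) ≤ |(v : ℝ)| := by
  have h1 : Y' * (16 / 15) ^ D ≤ |(v : ℝ)| := by
    have h2 := h.low
    have h3 := h.inv_height
    have h4 : (16 / 15 : ℝ) ^ D * 3 ^ D ≤ 2 ^ J := by
      calc (16 / 15 : ℝ) ^ D * 3 ^ D ≤ (16 / 15) ^ D * ((15 / 16) ^ D * 2 ^ J) := by gcongr
        _ = 2 ^ J := by rw [← mul_assoc, ← mul_pow]; norm_num
    have h5 : Y' * (16 / 15) ^ D * 3 ^ D ≤ |(v : ℝ)| * 3 ^ D := by
      calc Y' * (16 / 15) ^ D * 3 ^ D = Y' * ((16 / 15) ^ D * 3 ^ D) := by ring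
        _ ≤ Y' * 2 ^ J := by gcongr
        _ ≤ _ := h2
    exact le_of_mul_le_mul_right h5 (by positivity)
  have h6 : (4 : ℝ) ^ l ≤ (16 / 15) ^ D := by
    calc (4 : ℝ) ^ l ≤ ((16 / 15) ^ 22) ^ l := pow_le_pow_left₀ (by norm_num) (by norm_num) _
      _ = (16 / 15) ^ (22 * l) := by rw [pow_mul]
      _ ≤ (16 / 15) ^ D := pow_le_pow_right₀ (by norm_num) hD
  calc (3 / 2) ^ l * (x + 3) ≤ (3 / 2) ^ l * (Y' * 2 ^ l) := by gcongr
    _ = Y' * 3 ^ l := by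
        rw [mul_comm, mul_assoc, ← mul_pow]; norm_num
    _ ≤ Y' * 4 ^ l := by gcongr; norm_num
    _ ≤ Y' * (16 / 15) ^ D := by gcongr
    _ ≤ _ := h1

/-- Counting: one block. -/
lemma count_stepN {x X : ℝ} (hx : 0 ≤ x) (i D J : ℕ) (v : ℤ) (hv : TT x v)
    (hb : (3 / 2) ^ (tower.sys i).l * (x + 3) ≤ |(v : ℝ)|) :
    (tower.sys i).PP (fun J v => 2 ^ J / 3 ^ (D + (tower.sys i).l) * NK x X v) J v ≤
      2 ^ J / 3 ^ D * NK x X v := by
  set A := tower.sys i with hA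
  unfold Sys.PP
  calc ∑ w, (if A.valid w v then (A.q : ℝ) / 2 ^ A.J w *
        (2 ^ (J + A.J w) / 3 ^ (D + A.l) * NK x X (A.child w v)) else 0)
      = 2 ^ J / 3 ^ D * ∑ w, (if A.valid w v then NK x X (A.child w v) else 0) := by
        rw [Finset.mul_sum]
        refine Finset.sum_congr rfl fun w _ => ?_
        have hq : (A.q : ℝ) = 3 ^ A.l := by unfold Sys.q; push_cast; rfl
        split_ifs
        · rw [hq, pow_add, pow_add]
          field_simp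
        · ring
    _ ≤ 2 ^ J / 3 ^ D * NK x X v := by
        gcongr
        exact tower_count hx i v hv hb

/-- Counting: several blocks. -/
lemma count_blocksN {x : ℝ} (hx : 0 ≤ x) (i : ℕ) {D : ℕ} {Y Y' Z : ℝ} {Λ : (ℕ → ℤ → ℝ) → ℝ}
    (h : Lin (RegP (TT x) D Y Y') Λ) (hD : 22 * (tower.sys i).l ≤ D) (hZ : 0 ≤ Z)
    (hZ' : Z ≤ Y' - 2 ^ ((tower.sys i).l + 1) * (15 / 16) ^ D)
    (hxZ : x + 3 ≤ Z * 2 ^ (tower.sys i).l) (X : ℝ) (n : ℕ) :
    Λ ((tower.sys i).PP^[n] (fun J v => 2 ^ J / 3 ^ (D + n * (tower.sys i).l) * NK x X v)) ≤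
      Λ (fun J v => 2 ^ J / 3 ^ D * NK x X v) := by
  induction n with
  | zero => simp
  | succ n ih =>
    refine le_trans ?_ ih
    have h1 := (lin_blocksN i h n).weaken (R' := RegP (TT x) (D + n * (tower.sys i).l) _ Z)
      fun J v hJ => hJ.mono le_rfl hZ'
    rw [Function.iterate_succ_apply]
    have h2 := h1.mono ((tower.sys i).PP (fun J v => 2 ^ J /
      3 ^ (D + (n + 1) * (tower.sys i).l) * NK x X v))
      (fun J v => 2 ^ J / 3 ^ (D + n * (tower.sys i).l) * NK x X v) fun J v hJ => ?_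
    · exact h2
    · have h3 := count_stepN (X := X) hx i (D + n * (tower.sys i).l) J v hJ.tr
        (hJ.big (by omega) hZ hxZ)
      rw [show D + n * (tower.sys i).l + (tower.sys i).l = D + (n + 1) * (tower.sys i).l by ring] at h3
      exact h3

/-- Recursion for the masses of a functional. -/
lemma mass_lin : ∃ l₀ : ℕ, ∀ A : Sys, A.Str → l₀ ≤ A.l → ∀ (R : ℕ → ℤ → Prop)
    (Λ : (ℕ → ℤ → ℝ) → ℝ), Lin R Λ → ∀ a b c η : ℝ, 0 ≤ a → 0 ≤ b → c ≤ 1 → 0 ≤ η →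
    Λ (fun _ _ => 1) ≤ 16 ^ A.l * b → c * a - η * b ≤ Λ (A.PP^[17 * A.blk] (fun _ _ => 1)) →
    ∀ m ≤ A.blk ^ 6, (c - m * (99 / 100) ^ A.l) * a - (η + m * (1 / 2) ^ (94 * A.l)) * b ≤
      Λ (A.PP^[17 * A.blk + m] (fun _ _ => 1)) := by
  obtain ⟨l₁, h₁⟩ := Sys.Str.mass_step
  obtain ⟨l₂, h₂⟩ := Sys.Str.iter_one_le'
  refine ⟨max l₁ l₂, fun A hA hl R Λ hΛ a b c η ha hb hc hη hone h0 m => ?_⟩
  induction m with
  | zero =>
    intro _
    simpa using h0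
  | succ m ih =>
    intro hm
    have h3 := ih (by omega)
    set u : ℝ := Λ (A.PP^[17 * A.blk + m] (fun _ _ => 1)) with hu
    have h4 : A.Z * u - (1 / 2) ^ (100 * A.l) * Λ (A.PP^[m] (fun _ _ => 1)) ≤
        Λ (A.PP^[17 * A.blk + (m + 1)] (fun _ _ => 1)) := by
      have h5 := h₁ A hA ((le_max_left _ _).trans hl) (17 * A.blk + m) (by omega)
      rw [Nat.add_sub_cancel_left] at h5
      have h6 : Λ (fun J v => A.Z * A.PP^[17 * A.blk + m] (fun _ _ => 1) J v -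
          (1 / 2) ^ (100 * A.l) * A.PP^[m] (fun _ _ => 1) J v) ≤
          Λ (A.PP^[17 * A.blk + (m + 1)] (fun _ _ => 1)) :=
        hΛ.mono _ _ fun J v _ => h5 J v
      refine le_trans (le_of_eq ?_) h6
      rw [hΛ.sub, hΛ.smul, hΛ.smul]
    have h10 : Λ (A.PP^[m] (fun _ _ => 1)) ≤ 64 ^ A.l * b := by
      have h11 : ∀ (J : ℕ) (v : ℤ), A.PP^[m] (fun _ _ => 1) J v ≤ 4 ^ A.l * 1 := by
        intro J v
        rw [Sys.PP_iter_const, mul_one]
        exact h₂ A hA ((le_max_right _ _).trans hl) m (by omega) v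
      calc Λ (A.PP^[m] (fun _ _ => 1)) ≤ Λ (fun _ _ => 4 ^ A.l * 1) :=
            hΛ.mono _ _ fun J v _ => h11 J v
        _ = 4 ^ A.l * Λ (fun _ _ => 1) := hΛ.smul _ _
        _ ≤ 4 ^ A.l * (16 ^ A.l * b) := mul_le_mul_of_nonneg_left hone (by positivity)
        _ = 64 ^ A.l * b := by rw [← mul_assoc, ← mul_pow]; norm_num
    have h12 : (1 / 2 : ℝ) ^ (100 * A.l) * Λ (A.PP^[m] (fun _ _ => 1)) ≤
        (1 / 2) ^ (94 * A.l) * b := by
      calc (1 / 2 : ℝ) ^ (100 * A.l) * Λ (A.PP^[m] (fun _ _ => 1))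
          ≤ (1 / 2) ^ (100 * A.l) * (64 ^ A.l * b) :=
            mul_le_mul_of_nonneg_left h10 (by positivity)
        _ = (1 / 2) ^ (94 * A.l) * b := by
            rw [← mul_assoc, num3]
    have hZ1 := hA.Z_ge
    have hZle := hA.Z_le
    have hZ0 : 0 ≤ A.Z := by
      have : (99 / 100 : ℝ) ^ A.l ≤ 1 := pow_le_one₀ (by norm_num) (by norm_num)
      linarith
    set θ : ℝ := (99 / 100) ^ A.l with hθ
    set τ : ℝ := (1 / 2) ^ (94 * A.l) with hτ
    have hθ0 : 0 ≤ θ := by rw [hθ]; positivity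
    have hτ0 : 0 ≤ τ := by rw [hτ]; positivity
    have h13 : A.Z * ((c - m * θ) * a - (η + m * τ) * b) ≤ A.Z * u :=
      mul_le_mul_of_nonneg_left h3 hZ0
    set p : ℝ := c - m * θ with hp
    have hp1 : p ≤ 1 := by
      have : 0 ≤ (m : ℝ) * θ := by positivity
      rw [hp]; linarith
    have h14 : (p - θ) * a ≤ A.Z * (p * a) := by
      rw [← mul_assoc]
      refine mul_le_mul_of_nonneg_right ?_ ha
      nlinarith
    have h15 : A.Z * ((η + m * τ) * b) ≤ (η + m * τ) * b := by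
      have : 0 ≤ (η + m * τ) * b := by positivity
      exact mul_le_of_le_one_left this hZle
    push_cast
    have h16 : (c - ((m : ℝ) + 1) * θ) * a - (η + ((m : ℝ) + 1) * τ) * b =
        (p - θ) * a - (η + m * τ) * b - τ * b := by
      rw [hp]; ring
    rw [h16]
    have h17 : A.Z * (p * a - (η + m * τ) * b) = A.Z * (p * a) - A.Z * ((η + m * τ) * b) := by ring
    linarith

lemma numN1 (k : ℕ) : (2 : ℝ) ^ k * (99 / 100) ^ (100 * k) ≤ (3 / 4) ^ k := by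
  rw [pow_mul, ← mul_pow]
  exact pow_le_pow_left₀ (by positivity) (by norm_num) k

lemma numN2 (k : ℕ) : (2 : ℝ) ^ k * (1 / 2) ^ (94 * (100 * k)) ≤ (1 / 2) ^ (9399 * k) := by
  refine le_of_eq ?_
  rw [show 94 * (100 * k) = 9399 * k + k by ring, pow_add, mul_comm, mul_assoc, ← mul_pow]
  norm_num

lemma numN3 (k j : ℕ) (hk : 6 * j ≤ k) : (3 / 4 : ℝ) ^ k ≤ (1 / 4) ^ j := by
  calc (3 / 4 : ℝ) ^ k ≤ (3 / 4) ^ (6 * j) := pow_le_pow_of_le_one (by norm_num) (by norm_num) hk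
    _ = ((3 / 4) ^ 6) ^ j := by rw [pow_mul]
    _ ≤ (1 / 4) ^ j := pow_le_pow_left₀ (by norm_num) (by norm_num) _

/-- The state after the stage `j`; the system in use is the one of index `i₁ + j`. -/
structure StageN (x Y Y' a b ε : ℝ) (V : ℝ → ℝ) (i₁ j D : ℕ) (Λ : (ℕ → ℤ → ℝ) → ℝ) : Prop where
  lin : Lin (RegP (TT x) D (Y + 1 - (1 / 2) ^ (j + 1)) (Y' - 1 + (1 / 2) ^ (j + 1))) Λ
  one : Λ (fun _ _ => 1) ≤ 16 ^ (tower.sys (i₁ + j)).l * b
  mass : ∀ n ≤ (tower.sys (i₁ + j)).blk ^ 6, (1 - ε * (1 - (1 / 2) ^ (j + 1))) * a -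
    (1 / 2) ^ (90 * (tower.sys i₁).l) * (1 - (1 / 2) ^ (j + 1)) * b ≤
    Λ ((tower.sys (i₁ + j)).PP^[n] (fun _ _ => 1))
  cnt : ∀ X : ℝ, Λ (fun J v => 2 ^ J / 3 ^ D * NK x X v) ≤ V X
  D_ge : 22 * (tower.sys (i₁ + j)).l ≤ D

lemma l_pos_mono {i j : ℕ} (h : i ≤ j) : (tower.sys i).l ≤ (tower.sys j).l := by
  rw [tower.l_eq, tower.l_eq]
  exact Nat.mul_le_mul_left _ (Nat.pow_le_pow_right (by norm_num) h)

/-- The shift in a stage. -/
lemma shift_le {l D : ℕ} (hD : 22 * l ≤ D) : (2 : ℝ) ^ (l + 1) * (15 / 16) ^ D ≤ 2 * (1 / 2) ^ l := by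
  have h4 : (15 / 16 : ℝ) ^ D ≤ (1 / 4) ^ l := by
    calc (15 / 16 : ℝ) ^ D ≤ (15 / 16) ^ (22 * l) :=
          pow_le_pow_of_le_one (by norm_num) (by norm_num) hD
      _ = ((15 / 16) ^ 22) ^ l := by rw [pow_mul]
      _ ≤ (1 / 4) ^ l := pow_le_pow_left₀ (by norm_num) (by norm_num) _
  calc (2 : ℝ) ^ (l + 1) * (15 / 16) ^ D ≤ 2 ^ (l + 1) * (1 / 4) ^ l := by gcongr
    _ = 2 * (1 / 2) ^ l := by
        rw [pow_succ, mul_comm _ (2 : ℝ), mul_assoc, ← mul_pow]; norm_num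

theorem stageN_step {ε : ℝ} (hε : 0 < ε) : ∃ i₀ : ℕ, ∀ (i₁ j D : ℕ) (x Y Y' a b : ℝ) (V : ℝ → ℝ)
    (Λ : (ℕ → ℤ → ℝ) → ℝ), i₀ ≤ i₁ → 0 ≤ x → 0 ≤ a → 0 ≤ b →
    x + 3 ≤ (Y' - 1) * 2 ^ (tower.sys i₁).l → StageN x Y Y' a b ε V i₁ j D Λ →
    StageN x Y Y' a b ε V i₁ (j + 1) (D + (tower.sys (i₁ + j)).blk * (tower.sys (i₁ + j)).l)
      (fun g => Λ ((tower.sys (i₁ + j)).PP^[(tower.sys (i₁ + j)).blk] g)) := by
  obtain ⟨l₁, h₁⟩ := mass_lin
  obtain ⟨l₂, h₂⟩ := Sys.Str.iter_one_le'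
  obtain ⟨i₂, hi₂⟩ := exists_pow_lt_of_lt_one hε (by norm_num : (1 / 4 : ℝ) < 1)
  refine ⟨max (max (max l₁ l₂) i₂) 5, fun i₁ j D x Y Y' a b V Λ hi hx ha hb hxY hst => ?_⟩
  have hi1 : l₁ ≤ i₁ :=
    (le_max_left _ _).trans ((le_max_left _ _).trans ((le_max_left _ _).trans hi))
  have hi2 : l₂ ≤ i₁ :=
    (le_max_right _ _).trans ((le_max_left _ _).trans ((le_max_left _ _).trans hi))
  have hi3 : i₂ ≤ i₁ := (le_max_right _ _).trans ((le_max_left _ _).trans hi)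
  have hi5 : 5 ≤ i₁ := (le_max_right _ _).trans hi
  set i := i₁ + j with hidef
  have hlt : i < 2 ^ i := Nat.lt_two_pow_self
  have hli : i + 600 ≤ (tower.sys i).l := by rw [tower.l_eq]; omega
  have hls : (tower.sys (i + 1)).l = 2 * (tower.sys i).l := tower.st_l_succ i
  have hbs : (tower.sys (i + 1)).blk = (tower.sys i).blk ^ 2 := tower.st_blk_succ i
  have hblk : 35 ≤ (tower.sys i).blk := tower.blk_ge (by omega)
  have hll : (tower.sys i₁).l ≤ (tower.sys i).l := l_pos_mono (by omega)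
  have eij : i₁ + (j + 1) = i + 1 := by omega
  -- the new functional
  have hlin' := lin_blocksN i hst.lin (tower.sys i).blk
  have hsh : (2 : ℝ) ^ ((tower.sys i).l + 1) * (15 / 16) ^ D ≤ (1 / 2) ^ (j + 2) := by
    refine (shift_le hst.D_ge).trans ?_
    calc 2 * (1 / 2 : ℝ) ^ (tower.sys i).l ≤ 2 * (1 / 2) ^ (j + 3) := by
          gcongr 2 * ?_
          exact pow_le_pow_of_le_one (by norm_num) (by norm_num) (by omega)
      _ = (1 / 2) ^ (j + 2) := by rw [pow_succ (1 / 2 : ℝ) (j + 2)]; ring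
  have hp2 : (1 / 2 : ℝ) ^ (j + 1 + 1) = (1 / 2) ^ (j + 1) / 2 := by rw [pow_succ]; ring
  have hp3 : (1 / 2 : ℝ) ^ (j + 2) = (1 / 2) ^ (j + 1) / 2 := by rw [pow_succ]; ring
  -- (one)
  have hone : Λ ((tower.sys i).PP^[(tower.sys i).blk] (fun _ _ => 1)) ≤
      16 ^ (tower.sys (i + 1)).l * b := by
    have h3 : ∀ (J : ℕ) (v : ℤ), (tower.sys i).PP^[(tower.sys i).blk] (fun _ _ => 1) J v ≤
        4 ^ (tower.sys i).l * 1 := by
      intro J v
      rw [Sys.PP_iter_const, mul_one]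
      refine h₂ _ (tower.str i) (by omega) _ ?_ v
      exact (Nat.le_self_pow (by norm_num) _).trans (Nat.le_succ _)
    calc Λ ((tower.sys i).PP^[(tower.sys i).blk] (fun _ _ => 1))
        ≤ Λ (fun _ _ => 4 ^ (tower.sys i).l * 1) :=
          hst.lin.mono _ _ fun J v _ => h3 J v
      _ = 4 ^ (tower.sys i).l * Λ (fun _ _ => 1) := hst.lin.smul _ _
      _ ≤ 4 ^ (tower.sys i).l * (16 ^ (tower.sys i).l * b) :=
          mul_le_mul_of_nonneg_left hst.one (by positivity)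
      _ = 64 ^ (tower.sys i).l * b := by
          rw [← mul_assoc, ← mul_pow]; norm_num
      _ ≤ 16 ^ (tower.sys (i + 1)).l * b := by
          rw [hls, pow_mul]
          gcongr
          norm_num
  refine ⟨?_, ?_, ?_, ?_, ?_⟩
  · -- linearity on the region
    refine hlin'.weaken fun J v hJ => hJ.mono ?_ ?_
    · rw [hp2]; linarith
    · rw [hp2]; linarith
  · rw [eij]; exact hone
  · -- masses
    rw [eij]
    set A := tower.sys i with hA
    set B := tower.sys (i + 1) with hB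
    set c : ℝ := 1 - ε * (1 - (1 / 2) ^ (j + 1)) with hc
    set η : ℝ := (1 / 2) ^ (90 * (tower.sys i₁).l) * (1 - (1 / 2) ^ (j + 1)) with hη
    have hhalf : (1 / 2 : ℝ) ^ (j + 1) ≤ 1 := pow_le_one₀ (by norm_num) (by norm_num)
    have hc1 : c ≤ 1 := by
      rw [hc]
      have : 0 ≤ ε * (1 - (1 / 2) ^ (j + 1)) := mul_nonneg hε.le (by linarith)
      linarith
    have hη0 : 0 ≤ η := by
      rw [hη]
      exact mul_nonneg (by positivity) (by linarith)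
    have hsmall : ∀ n ≤ 17 * B.blk, c * a - η * b ≤ Λ (A.PP^[A.blk] (B.PP^[n] (fun _ _ => 1))) := by
      intro n hn
      have h3 : A.blk + 2 * n ≤ A.blk ^ 6 := by
        rw [hbs] at hn
        have h4 : A.blk + 2 * n ≤ 35 * A.blk ^ 2 := by nlinarith
        have h5 : 35 * A.blk ^ 2 ≤ A.blk * A.blk ^ 2 := Nat.mul_le_mul_right _ hblk
        have h6 : A.blk * A.blk ^ 2 ≤ A.blk ^ 6 := by
          rw [← pow_succ']
          exact Nat.pow_le_pow_right (by omega) (by norm_num)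
        omega
      refine (hst.mass _ h3).trans ?_
      rw [Function.iterate_add_apply]
      refine hst.lin.mono _ _ fun J v _ => A.PP_mono (fun J v => ?_) _ J v
      exact tower.double_iter i n _ (fun _ _ => zero_le_one) J v
    have hlarge := h₁ B (tower.str (i + 1)) (by omega) _ _ hlin' a b c η ha hb hc1 hη0 hone
      (hsmall _ le_rfl)
    intro n hn
    have hcc : 1 - ε * (1 - (1 / 2 : ℝ) ^ (j + 1 + 1)) = c - ε * (1 / 2) ^ (j + 2) := by
      rw [hc, hp2]; ring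
    have hηη : (1 / 2 : ℝ) ^ (90 * (tower.sys i₁).l) * (1 - (1 / 2) ^ (j + 1 + 1)) =
        η + (1 / 2) ^ (90 * (tower.sys i₁).l) * (1 / 2) ^ (j + 2) := by
      rw [hη, hp2]; ring
    rw [hcc, hηη]
    have hpos1 : (0 : ℝ) ≤ ε * (1 / 2) ^ (j + 2) := by positivity
    have hpos2 : (0 : ℝ) ≤ (1 / 2) ^ (90 * (tower.sys i₁).l) * (1 / 2) ^ (j + 2) := by positivity
    rcases le_or_gt n (17 * B.blk) with h | h
    · refine le_trans ?_ (hsmall n h)
      refine sub_le_sub (mul_le_mul_of_nonneg_right ?_ ha) (mul_le_mul_of_nonneg_right ?_ hb)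
      · linarith
      · linarith
    · obtain ⟨m, rfl⟩ := Nat.exists_eq_add_of_le h.le
      refine le_trans ?_ (hlarge m (by omega))
      have h16 : (m : ℝ) ≤ 2 ^ (6 * 2 ^ (i + 1)) := by
        have h17 : m ≤ B.blk ^ 6 := by omega
        have h18 : B.blk ^ 6 = 2 ^ (6 * 2 ^ (i + 1)) := by
          rw [hB, tower.st_blk_eq, ← pow_mul, mul_comm]
        rw [h18] at h17
        exact_mod_cast h17
      have h19 : B.l = 100 * (6 * 2 ^ (i + 1)) := by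
        rw [hB, tower.l_eq]; ring
      have hlt1 : i + 1 < 2 ^ (i + 1) := Nat.lt_two_pow_self
      refine sub_le_sub (mul_le_mul_of_nonneg_right ?_ ha) (mul_le_mul_of_nonneg_right ?_ hb)
      · have h20 : (m : ℝ) * (99 / 100) ^ B.l ≤ ε * (1 / 2) ^ (j + 2) := by
          calc (m : ℝ) * (99 / 100) ^ B.l
              ≤ 2 ^ (6 * 2 ^ (i + 1)) * (99 / 100) ^ (100 * (6 * 2 ^ (i + 1))) := by
                rw [h19]
                gcongr
            _ ≤ (3 / 4) ^ (6 * 2 ^ (i + 1)) := numN1 _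
            _ ≤ (1 / 4) ^ (i₂ + (j + 2)) := numN3 _ _ (by omega)
            _ = (1 / 4) ^ i₂ * (1 / 4) ^ (j + 2) := by rw [pow_add]
            _ ≤ ε * (1 / 2) ^ (j + 2) := by
                gcongr
                norm_num
        linarith
      · have h20 : (m : ℝ) * (1 / 2) ^ (94 * B.l) ≤
            (1 / 2) ^ (90 * (tower.sys i₁).l) * (1 / 2) ^ (j + 2) := by
          calc (m : ℝ) * (1 / 2) ^ (94 * B.l)
              ≤ 2 ^ (6 * 2 ^ (i + 1)) * (1 / 2) ^ (94 * (100 * (6 * 2 ^ (i + 1)))) := by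
                rw [h19]
                gcongr
            _ ≤ (1 / 2) ^ (9399 * (6 * 2 ^ (i + 1))) := numN2 _
            _ ≤ (1 / 2) ^ (90 * (tower.sys i₁).l + (j + 2)) := by
                refine pow_le_pow_of_le_one (by norm_num) (by norm_num) ?_
                rw [tower.l_eq]
                have h21 : 2 ^ (i + 1) = 2 ^ i₁ * 2 ^ (j + 1) := by
                  rw [← pow_add]; congr 1
                have h22 : j + 1 < 2 ^ (j + 1) := Nat.lt_two_pow_self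
                have h23 : 1 ≤ 2 ^ i₁ := Nat.one_le_two_pow
                have h24 : 2 ^ i₁ * (j + 2) ≤ 2 ^ (i + 1) := by
                  rw [h21]; exact Nat.mul_le_mul_left _ (by omega)
                nlinarith
            _ = (1 / 2) ^ (90 * (tower.sys i₁).l) * (1 / 2) ^ (j + 2) := by rw [pow_add]
        linarith
  · -- counting
    intro X
    refine le_trans ?_ (hst.cnt X)
    have hY1 : 0 ≤ Y' - 1 := by
      by_contra hneg
      push Not at hneg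
      have : (Y' - 1) * 2 ^ (tower.sys i₁).l ≤ 0 := mul_nonpos_of_nonpos_of_nonneg hneg.le (by positivity)
      linarith
    refine count_blocksN hx i hst.lin hst.D_ge hY1 ?_ ?_ X (tower.sys i).blk
    · have : (0 : ℝ) ≤ (1 / 2) ^ (j + 1) := by positivity
      linarith
    · refine hxY.trans ?_
      gcongr
      norm_num
  · rw [eij, hls]
    have h3 : 22 * (tower.sys i).l ≤ D := hst.D_ge
    have h4 : 22 * (tower.sys i).l ≤ (tower.sys i).blk * (tower.sys i).l :=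
      Nat.mul_le_mul_right _ (by omega)
    calc 22 * (2 * (tower.sys i).l) = 22 * (tower.sys i).l + 22 * (tower.sys i).l := by ring
      _ ≤ D + (tower.sys i).blk * (tower.sys i).l := add_le_add h3 h4

theorem stagesN {ε : ℝ} (hε : 0 < ε) : ∃ i₀ : ℕ, ∀ i₁ ≥ i₀, ∀ (x Y Y' b : ℝ) (D₀ : ℕ)
    (Λ₀ : (ℕ → ℤ → ℝ) → ℝ), 0 ≤ x → 0 ≤ Y → 0 ≤ b → x + 3 ≤ (Y' - 1) * 2 ^ (tower.sys i₁).l →
    Lin (RegP (TT x) D₀ Y Y') Λ₀ → 22 * (tower.sys i₁).l ≤ D₀ → Λ₀ (fun _ _ => 1) ≤ b →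
    ∃ (D : ℕ → ℕ) (Λ : ℕ → (ℕ → ℤ → ℝ) → ℝ),
    (∀ i ≥ i₁, Lin (RegP (TT x) (D i) (Y + 1) (Y' - 1)) (Λ i)) ∧
    (∀ i ≥ i₁, Λ i (fun _ _ => 1) ≤ 16 ^ (tower.sys i).l * b) ∧
    (∀ i ≥ i₁, ∀ n ≤ (tower.sys i).blk ^ 6,
      (1 - ε) * Λ₀ ((tower.sys i₁).PP^[17 * (tower.sys i₁).blk] (fun _ _ => 1)) -
        (1 / 2) ^ (90 * (tower.sys i₁).l) * b ≤ Λ i ((tower.sys i).PP^[n] (fun _ _ => 1))) ∧
    (∀ i ≥ i₁, ∀ X : ℝ, Λ i (fun J v => 2 ^ J / 3 ^ D i * NK x X v) ≤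
      Λ₀ (fun J v => 2 ^ J / 3 ^ D₀ * NK x X v)) ∧
    D i₁ = D₀ + 17 * (tower.sys i₁).blk * (tower.sys i₁).l ∧
    (∀ i ≥ i₁, D (i + 1) = D i + (tower.sys i).blk * (tower.sys i).l) := by
  obtain ⟨i₂, hstep⟩ := stageN_step hε
  obtain ⟨l₃, hmass⟩ := mass_lin
  obtain ⟨l₂, h₂⟩ := Sys.Str.iter_one_le'
  obtain ⟨i₃, hi₃⟩ := exists_pow_lt_of_lt_one hε (by norm_num : (1 / 4 : ℝ) < 1)
  refine ⟨max (max (max l₃ l₂) (max i₂ i₃)) 5, fun i₁ hi x Y Y' b D₀ Λ₀ hx hY hb hxY hΛ hD₀ hone => ?_⟩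
  have hi1 : l₃ ≤ i₁ := (le_max_left _ _).trans ((le_max_left _ _).trans ((le_max_left _ _).trans hi))
  have hi2 : l₂ ≤ i₁ := (le_max_right _ _).trans ((le_max_left _ _).trans ((le_max_left _ _).trans hi))
  have hi3 : i₂ ≤ i₁ := (le_max_left _ _).trans ((le_max_right _ _).trans ((le_max_left _ _).trans hi))
  have hi4 : i₃ ≤ i₁ := (le_max_right _ _).trans ((le_max_right _ _).trans ((le_max_left _ _).trans hi))
  have hi5 : 5 ≤ i₁ := (le_max_right _ _).trans hi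
  set A := tower.sys i₁ with hA
  have hlt : i₁ < 2 ^ i₁ := Nat.lt_two_pow_self
  have hl : i₁ + 600 ≤ A.l := by rw [hA, tower.l_eq]; omega
  have hblk : 35 ≤ A.blk := tower.blk_ge hi5
  set a : ℝ := Λ₀ (A.PP^[17 * A.blk] (fun _ _ => 1)) with ha
  have ha0 : 0 ≤ a := hΛ.nonneg fun J v _ => A.PP_nonneg (fun _ _ => zero_le_one) _ J v
  have hY1 : 0 ≤ Y' - 1 := by
    by_contra hneg
    push Not at hneg
    have : (Y' - 1) * 2 ^ A.l ≤ 0 := mul_nonpos_of_nonpos_of_nonneg hneg.le (by positivity)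
    linarith
  have hsh : (2 : ℝ) ^ (A.l + 1) * (15 / 16) ^ D₀ ≤ 1 / 2 := by
    refine (shift_le hD₀).trans ?_
    calc 2 * (1 / 2 : ℝ) ^ A.l ≤ 2 * (1 / 2) ^ 2 := by
          gcongr 2 * ?_
          exact pow_le_pow_of_le_one (by norm_num) (by norm_num) (by omega)
      _ = 1 / 2 := by norm_num
  let DL : ℕ → ℕ × ((ℕ → ℤ → ℝ) → ℝ) := fun j => Nat.rec
    (D₀ + 17 * A.blk * A.l, fun g => Λ₀ (A.PP^[17 * A.blk] g))
    (fun j p => (p.1 + (tower.sys (i₁ + j)).blk * (tower.sys (i₁ + j)).l,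
      fun g => p.2 ((tower.sys (i₁ + j)).PP^[(tower.sys (i₁ + j)).blk] g))) j
  have hDL0 : DL 0 = (D₀ + 17 * A.blk * A.l, fun g => Λ₀ (A.PP^[17 * A.blk] g)) := rfl
  have hDLs : ∀ j, DL (j + 1) = ((DL j).1 + (tower.sys (i₁ + j)).blk * (tower.sys (i₁ + j)).l,
      fun g => (DL j).2 ((tower.sys (i₁ + j)).PP^[(tower.sys (i₁ + j)).blk] g)) := fun j => rfl
  have hst : ∀ j, StageN x Y Y' a b ε (fun X => Λ₀ (fun J v => 2 ^ J / 3 ^ D₀ * NK x X v)) i₁ j
      (DL j).1 (DL j).2 := by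
    intro j
    induction j with
    | zero =>
      rw [hDL0]
      refine ⟨?_, ?_, ?_, ?_, ?_⟩
      · refine (lin_blocksN i₁ hΛ (17 * A.blk)).weaken fun J v hJ => hJ.mono ?_ ?_
        · rw [zero_add, pow_one]; linarith
        · rw [zero_add, pow_one]; linarith
      · show Λ₀ (A.PP^[17 * A.blk] (fun _ _ => 1)) ≤ 16 ^ A.l * b
        have h3 : ∀ (J : ℕ) (v : ℤ), A.PP^[17 * A.blk] (fun _ _ => 1) J v ≤ 4 ^ A.l * 1 := by
          intro J v
          rw [Sys.PP_iter_const, mul_one]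
          refine h₂ A (tower.str i₁) (by omega) _ ?_ v
          have h4 : 17 * A.blk ≤ A.blk * A.blk := Nat.mul_le_mul_right _ (by omega)
          have h5 : A.blk * A.blk ≤ A.blk ^ 6 := by
            rw [← pow_two]
            exact Nat.pow_le_pow_right (by omega) (by norm_num)
          omega
        calc Λ₀ (A.PP^[17 * A.blk] (fun _ _ => 1)) ≤ Λ₀ (fun _ _ => 4 ^ A.l * 1) :=
              hΛ.mono _ _ fun J v _ => h3 J v
          _ = 4 ^ A.l * Λ₀ (fun _ _ => 1) := hΛ.smul _ _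
          _ ≤ 4 ^ A.l * b := mul_le_mul_of_nonneg_left hone (by positivity)
          _ ≤ 16 ^ A.l * b := by gcongr; norm_num
      · intro n hn
        show _ ≤ Λ₀ (A.PP^[17 * A.blk] (A.PP^[n] (fun _ _ => 1)))
        rw [← Function.iterate_add_apply]
        have h3 := hmass A (tower.str i₁) (by omega) _ _ hΛ a b 1 0 ha0 hb le_rfl le_rfl
          (hone.trans (le_mul_of_one_le_left hb (one_le_pow₀ (by norm_num)))) (by rw [← ha]; linarith)
          n hn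
        refine le_trans ?_ h3
        have h16 : (n : ℝ) ≤ 2 ^ (6 * 2 ^ i₁) := by
          have h18 : A.blk ^ 6 = 2 ^ (6 * 2 ^ i₁) := by
            rw [hA, tower.st_blk_eq, ← pow_mul, mul_comm]
          rw [add_zero, ← hA, h18] at hn
          exact_mod_cast hn
        have h19 : A.l = 100 * (6 * 2 ^ i₁) := by
          rw [hA, tower.l_eq]; ring
        refine sub_le_sub (mul_le_mul_of_nonneg_right ?_ ha0) (mul_le_mul_of_nonneg_right ?_ hb)
        · have h20 : (n : ℝ) * (99 / 100) ^ A.l ≤ ε * (1 / 2) := by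
            calc (n : ℝ) * (99 / 100) ^ A.l
                ≤ 2 ^ (6 * 2 ^ i₁) * (99 / 100) ^ (100 * (6 * 2 ^ i₁)) := by
                  rw [h19]
                  gcongr
              _ ≤ (3 / 4) ^ (6 * 2 ^ i₁) := numN1 _
              _ ≤ (1 / 4) ^ (i₃ + 1) := numN3 _ _ (by omega)
              _ = (1 / 4) ^ i₃ * (1 / 4) := by rw [pow_succ]
              _ ≤ ε * (1 / 2) := by
                  gcongr
                  norm_num
          rw [zero_add, pow_one]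
          linarith
        · have h20 : (n : ℝ) * (1 / 2) ^ (94 * A.l) ≤ (1 / 2) ^ (90 * A.l) * (1 / 2) := by
            calc (n : ℝ) * (1 / 2) ^ (94 * A.l)
                ≤ 2 ^ (6 * 2 ^ i₁) * (1 / 2) ^ (94 * (100 * (6 * 2 ^ i₁))) := by
                  rw [h19]
                  gcongr
              _ ≤ (1 / 2) ^ (9399 * (6 * 2 ^ i₁)) := numN2 _
              _ ≤ (1 / 2) ^ (90 * A.l + 1) := by
                  refine pow_le_pow_of_le_one (by norm_num) (by norm_num) ?_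
                  rw [h19]
                  omega
              _ = (1 / 2) ^ (90 * A.l) * (1 / 2) := by rw [pow_succ]
          rw [zero_add, zero_add, pow_one]
          linarith
      · intro X
        show Λ₀ (A.PP^[17 * A.blk] (fun J v => 2 ^ J / 3 ^ (D₀ + 17 * A.blk * A.l) * NK x X v)) ≤ _
        refine count_blocksN hx i₁ hΛ hD₀ hY1 ?_ hxY X (17 * A.blk)
        linarith
      · show 22 * A.l ≤ D₀ + 17 * A.blk * A.l
        omega
    | succ j ih =>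
      rw [hDLs]
      exact hstep i₁ j (DL j).1 x Y Y' a b _ (DL j).2 (by omega) hx ha0 hb hxY ih
  refine ⟨fun i => (DL (i - i₁)).1, fun i => (DL (i - i₁)).2, ?_, ?_, ?_, ?_, ?_, ?_⟩
  · intro i hi'
    obtain ⟨j, rfl⟩ := Nat.exists_eq_add_of_le hi'
    simp only [Nat.add_sub_cancel_left]
    have : (0 : ℝ) < (1 / 2) ^ (j + 1) := by positivity
    refine (hst j).lin.weaken fun J v hJ => hJ.mono ?_ ?_ <;> linarith
  · intro i hi'
    obtain ⟨j, rfl⟩ := Nat.exists_eq_add_of_le hi'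
    simp only [Nat.add_sub_cancel_left]
    exact (hst j).one
  · intro i hi' n hn'
    obtain ⟨j, rfl⟩ := Nat.exists_eq_add_of_le hi'
    simp only [Nat.add_sub_cancel_left]
    refine le_trans ?_ ((hst j).mass n hn')
    have h3 : (0 : ℝ) ≤ (1 / 2) ^ (j + 1) := by positivity
    refine sub_le_sub (mul_le_mul_of_nonneg_right ?_ ha0) (mul_le_mul_of_nonneg_right ?_ hb)
    · nlinarith [mul_nonneg hε.le h3]
    · have h4 : (0 : ℝ) ≤ (1 / 2) ^ (90 * A.l) := by positivity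
      nlinarith [mul_nonneg h4 h3]
  · intro i hi' X
    obtain ⟨j, rfl⟩ := Nat.exists_eq_add_of_le hi'
    simp only [Nat.add_sub_cancel_left]
    exact (hst j).cnt X
  · simp only [Nat.sub_self]
    rw [hDL0]
  · intro i hi'
    obtain ⟨j, rfl⟩ := Nat.exists_eq_add_of_le hi'
    simp only [Nat.add_sub_cancel_left, add_assoc]
    rw [hDLs]

end CollatzNat
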