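import Pool.Agent.CollatzNat.Root
import Pool.Agent.CollatzNat.StagesN
import Pool.Agent.CollatzNat.CrossN

set_option autoImplicit false

/-!
# Lower bounds for the restricted trees
-/

namespace CollatzNat

open CollatzOne CollatzExp Finset Filter Topology

lemma NK_nonneg' (x X : ℝ) (v : ℤ) : 0 ≤ NK x X v := by
  unfold NK
  positivity

/-- The lower bound for one root. -/
theorem root_bound {δ : ℝ} (hδ : 0 < δ) (hδ1 : δ ≤ 1) : ∃ i₀ : ℕ, ∀ i₁ ≥ i₀, ∀ (x : ℝ) (m : ℤ), 0 ≤ x →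
    CollatzLin.OO m → |((3 * m - 1 : ℤ) : ℝ)| ≤ x →
    x + 3 ≤ (|(m : ℝ)| - (22 * (tower.sys i₁).l : ℕ) - 2) * 2 ^ (tower.sys i₁).l →
    ∃ X₀ : ℝ, ∀ X ≥ X₀,
      X / (3 * (|(m : ℝ)| + (22 * (tower.sys i₁).l : ℕ) + 6)) * ((4 - δ) / Real.log (4 / 3)) *
        ((1 - δ) * ((1 - δ) * Lam0 x (22 * (tower.sys i₁).l) m
          ((tower.sys i₁).PP^[17 * (tower.sys i₁).blk] (fun _ _ => 1)) -
          (1 / 2) ^ (90 * (tower.sys i₁).l) * 3 ^ (22 * (tower.sys i₁).l)) -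
          (1 / 2) ^ (80 * (tower.sys i₁).l) * 3 ^ (22 * (tower.sys i₁).l)) ≤ NK x X m := by
  obtain ⟨i₂, hS⟩ := stagesN hδ
  obtain ⟨i₃, hC⟩ := crossN hδ hδ1
  refine ⟨max (max i₂ i₃) 4, fun i₁ hi x m hx hO hm hxm => ?_⟩
  have hi2 : i₂ ≤ i₁ := (le_max_left _ _).trans ((le_max_left _ _).trans hi)
  have hi3 : i₃ ≤ i₁ := (le_max_right _ _).trans ((le_max_left _ _).trans hi)
  have hi4 : 4 ≤ i₁ := (le_max_right _ _).trans hi
  set l := (tower.sys i₁).l with hl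
  set D₀ : ℕ := 22 * l with hD₀
  have hmD : 2 < |(m : ℝ)| - D₀ := by
    by_contra hcon
    push Not at hcon
    have : (|(m : ℝ)| - D₀ - 2) * 2 ^ l ≤ 0 :=
      mul_nonpos_of_nonpos_of_nonneg (by linarith) (by positivity)
    linarith
  have hb : (0 : ℝ) ≤ 3 ^ D₀ := by positivity
  obtain ⟨D, Λ, hLin, hone, hmass, hcnt, hDi₁, hDs⟩ := hS i₁ hi2 x (|(m : ℝ)| + D₀) (|(m : ℝ)| - D₀)
    (3 ^ D₀) D₀ (Lam0 x D₀ m) hx (by positivity) hb (by
      refine hxm.trans ?_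
      gcongr
      linarith) (Lam0_lin hO hm) le_rfl (Lam0_one_le x D₀ m)
  rw [← hl] at hmass hDi₁
  set a : ℝ := Lam0 x D₀ m ((tower.sys i₁).PP^[17 * (tower.sys i₁).blk] (fun _ _ => 1)) with ha
  -- the depths
  have hblk : ∀ i, i₁ ≤ i → 65536 ≤ (tower.sys i).blk := by
    intro i hi'
    rw [tower.blk_eq]
    calc 65536 = 2 ^ 2 ^ 4 := by norm_num
      _ ≤ 2 ^ 2 ^ i := Nat.pow_le_pow_right (by norm_num) (Nat.pow_le_pow_right (by norm_num) (by omega))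
  have hD1000 : ∀ i, i₁ ≤ i → 1000 * (tower.sys i).l ≤ D i := by
    intro i hi'
    rcases Nat.eq_or_lt_of_le hi' with h | h
    · rw [← h, hDi₁, ← hl]
      have h1 := hblk i₁ le_rfl
      nlinarith [Nat.zero_le l]
    · obtain ⟨j, rfl⟩ : ∃ j, i = j + 1 := ⟨i - 1, by omega⟩
      rw [hDs j (by omega), tower.l_succ]
      have h1 := hblk j (by omega)
      nlinarith [Nat.zero_le (tower.sys j).l]
  set lo : ℕ → ℕ := fun i => 11 * (D i + 17 * (tower.sys i).blk * (tower.sys i).l) +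
    12 * (tower.sys i).l with hlo
  have hDle : ∀ k : ℕ, D (i₁ + k) ≤ D i₁ + (tower.sys (i₁ + k)).l * (tower.sys (i₁ + k)).blk := by
    intro k
    induction k with
    | zero => simp
    | succ k ih =>
      rw [← add_assoc, hDs _ (by omega), tower.l_succ, tower.blk_succ]
      have h1 : 1 ≤ (tower.sys (i₁ + k)).blk := by rw [tower.blk_eq]; exact Nat.one_le_two_pow
      have h2 : (tower.sys (i₁ + k)).blk ≤ (tower.sys (i₁ + k)).blk ^ 2 := by nlinarith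
      nlinarith [Nat.mul_le_mul_left (tower.sys (i₁ + k)).l h2]
  set i₅ := i₁ + D i₁ + 10 with hi₅
  have hrange : ∀ i ≥ i₅, 16 * (lo (i + 1) + 1) ≤ (tower.sys i).l * (tower.sys i).blk ^ 6 := by
    intro i hi
    obtain ⟨k, rfl⟩ : ∃ k, i = i₁ + k := ⟨i - i₁, by omega⟩
    have h1 := hDle k
    have h2 := tower.le_blk (i₁ + k)
    have h3 := hDs (i₁ + k) (by omega)
    have hl : 1 ≤ (tower.sys (i₁ + k)).l := (tower.sys (i₁ + k)).hl
    simp only [hlo]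
    rw [tower.blk_succ, tower.l_succ, h3]
    set n := (tower.sys (i₁ + k)).blk with hn
    set l := (tower.sys (i₁ + k)).l with hl'
    have hm10 : D i₁ + 10 ≤ n := by omega
    have hmm : n ≤ n ^ 2 := by nlinarith
    have h4 : 6880 ≤ n ^ 4 := by
      calc 6880 ≤ 10 ^ 4 := by norm_num
        _ ≤ n ^ 4 := Nat.pow_le_pow_left (by omega) 4
    have h5 : l * n ≤ l * n ^ 2 := Nat.mul_le_mul_left l hmm
    have h6 : D i₁ ≤ l * n ^ 2 := by nlinarith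
    have hm0 : 0 < n := by omega
    have h7 : l ≤ l * n ^ 2 := Nat.le_mul_of_pos_right l (by positivity)
    have h8 : 1 ≤ l * n ^ 2 := hl.trans h7
    calc 16 * (11 * (D (i₁ + k) + n * l + 17 * n ^ 2 * (2 * l)) + 12 * (2 * l) + 1)
        ≤ 16 * (11 * (D i₁ + l * n + n * l + 17 * n ^ 2 * (2 * l)) + 12 * (2 * l) + 1) := by
          gcongr
      _ ≤ 6976 * (l * n ^ 2) := by nlinarith
      _ ≤ n ^ 4 * (l * n ^ 2) := Nat.mul_le_mul_right _ (by
          calc 6976 ≤ 10 ^ 4 := by norm_num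
            _ ≤ n ^ 4 := Nat.pow_le_pow_left (by omega) 4)
      _ = l * n ^ 6 := by ring
  have hlo_ge : ∀ i, i ≤ lo i := by
    intro i
    have h1 := tower.le_blk i
    have hl : 1 ≤ (tower.sys i).l := (tower.sys i).hl
    simp only [hlo]
    nlinarith
  have hlog : 0 < Real.log (4 / 3) := Real.log_pos (by norm_num)
  set C : ℝ := 3 * (|(m : ℝ)| + D₀ + 6) with hC'
  have hC0 : 0 < C := by positivity
  refine ⟨C * 2 ^ lo i₅, fun X hX => ?_⟩
  set G : ℝ := X / C with hG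
  have hG1 : 2 ^ lo i₅ ≤ G := by rw [hG, le_div_iff₀ hC0]; linarith
  have hG2 : 1 ≤ G := (one_le_pow₀ (by norm_num)).trans hG1
  obtain ⟨t, ht1, ht2⟩ := exists_nat_pow_near hG2 (by norm_num : (1 : ℝ) < 2)
  have ht : lo i₅ ≤ t := by
    have h1 : (2 : ℝ) ^ lo i₅ < 2 ^ (t + 1) := hG1.trans_lt ht2
    have h2 := (pow_lt_pow_iff_right₀ (by norm_num : (1 : ℝ) < 2)).1 h1
    omega
  obtain ⟨i, hi', h1, h2⟩ : ∃ i, i₅ ≤ i ∧ lo i ≤ t ∧ t < lo (i + 1) := by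
    by_contra hcon
    push Not at hcon
    have hall : ∀ k, lo (i₅ + k) ≤ t := by
      intro k
      induction k with
      | zero => exact ht
      | succ k ih => exact hcon (i₅ + k) (by omega) ih
    have := hlo_ge (i₅ + (t + 1))
    have := hall (t + 1)
    omega
  have hrng := hrange i hi'
  obtain ⟨g, hg⟩ : ∃ g, t = g + 12 * (tower.sys i).l := ⟨t - 12 * (tower.sys i).l, by
    simp only [hlo] at h1
    omega⟩
  have hg1 : 11 * (D i + 17 * (tower.sys i).blk * (tower.sys i).l) ≤ g := by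
    simp only [hlo] at h1
    omega
  have hg2 : 16 * (g + 1) ≤ (tower.sys i).l * (tower.sys i).blk ^ 6 := by omega
  have hi1 : i₁ ≤ i := by omega
  have hll : l ≤ (tower.sys i).l := l_pos_mono hi1
  have h3 := hC i (hi3.trans hi1) x X (|(m : ℝ)| + D₀ + 1) (|(m : ℝ)| - D₀ - 1) (3 ^ D₀) G (D i) g (Λ i)
    hx (by positivity) hb (hLin i hi1) (hD1000 i hi1) (by
      refine hxm.trans ?_
      rw [show |(m : ℝ)| - D₀ - 1 - 1 = |(m : ℝ)| - D₀ - 2 by ring]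
      exact mul_le_mul_of_nonneg_left (pow_le_pow_right₀ (by norm_num) hll) (by linarith))
    (hone i hi1) hg1 hg2 (by rw [← hg]; exact ht1) (by rw [← hg]; exact ht2.le) (by
      rw [show |(m : ℝ)| + D₀ + 1 + 5 = |(m : ℝ)| + D₀ + 6 by ring]
      have : G * C = X := by rw [hG]; field_simp
      rw [← this, hC']
      linarith)
  have h4 : Lam0 x D₀ m (fun J v => 2 ^ J / 3 ^ D₀ * NK x X v) ≤ NK x X m := Lam0_count hO hm
  have h5 := hmass i hi1 (17 * (tower.sys i).blk) (by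
    have h6 := hblk i hi1
    have h7 : 17 * (tower.sys i).blk ≤ (tower.sys i).blk * (tower.sys i).blk :=
      Nat.mul_le_mul_right _ (by omega)
    have h8 : (tower.sys i).blk * (tower.sys i).blk ≤ (tower.sys i).blk ^ 6 := by
      rw [← pow_two]
      exact Nat.pow_le_pow_right (by omega) (by norm_num)
    omega)
  refine le_trans ?_ (h3.trans ((hcnt i hi1 X).trans h4))
  have hκ : 0 ≤ G * ((4 - δ) / Real.log (4 / 3)) := by
    have h6 : 0 ≤ (4 - δ) / Real.log (4 / 3) := div_nonneg (by linarith) hlog.le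
    positivity
  refine mul_le_mul_of_nonneg_left ?_ hκ
  refine sub_le_sub ?_ ?_
  · exact mul_le_mul_of_nonneg_left h5 (by linarith)
  · refine mul_le_mul_of_nonneg_right ?_ hb
    exact pow_le_pow_of_le_one (by norm_num) (by norm_num) (by omega)

lemma tendsto_core : Tendsto (fun δ : ℝ => (4 - δ) / Real.log (4 / 3) / 6 *
    ((1 - δ) ^ 2 / (1 + δ) * (3 / 2 * Real.log (4 / 3) - δ) - δ)) (𝓝 0) (𝓝 1) := by
  have hlog : 0 < Real.log (4 / 3) := Real.log_pos (by norm_num)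
  have h : ContinuousAt (fun δ : ℝ => (4 - δ) / Real.log (4 / 3) / 6 *
      ((1 - δ) ^ 2 / (1 + δ) * (3 / 2 * Real.log (4 / 3) - δ) - δ)) 0 := by
    have h1 : (1 : ℝ) + 0 ≠ 0 := by norm_num
    fun_prop (disch := norm_num)
  have h2 : (4 - (0 : ℝ)) / Real.log (4 / 3) / 6 *
      ((1 - 0) ^ 2 / (1 + 0) * (3 / 2 * Real.log (4 / 3) - 0) - 0) = 1 := by
    field_simp
    ring
  have h3 := h.tendsto
  rw [h2] at h3
  exact h3

/-- The sum of the reciprocals of the roots. -/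
lemma sum_roots_le {x : ℝ} (hx : 1 ≤ x) (l : ℕ) :
    ∑ m ∈ roots x l, 1 / |(m : ℝ)| ≤ 9 * 2 ^ (l / 2) := by
  have hx0 : 0 < x := by linarith
  have h1 : ∀ m ∈ roots x l, 1 / |(m : ℝ)| ≤ 3 * 2 ^ (l / 2) / x := by
    intro m hm
    unfold roots at hm
    rw [mem_filter] at hm
    obtain ⟨-, -, -, hm⟩ := hm
    have h2 : 0 < |(m : ℝ)| := by
      by_contra hcon
      push Not at hcon
      have : 3 * 2 ^ (l / 2) * |(m : ℝ)| ≤ 0 := mul_nonpos_of_nonneg_of_nonpos (by positivity) hcon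
      linarith
    rw [div_le_div_iff₀ h2 hx0]
    linarith
  have h2 : ((roots x l).card : ℝ) ≤ 3 * x := by
    have h3 : (roots x l).card ≤ (Icc (-⌊x⌋) ⌊x⌋).card := card_le_card (filter_subset _ _)
    rw [Int.card_Icc] at h3
    have h4 : 0 ≤ ⌊x⌋ := Int.floor_nonneg.2 hx0.le
    have h5 : ((roots x l).card : ℤ) ≤ 2 * ⌊x⌋ + 1 := by omega
    have h6 : ((roots x l).card : ℝ) ≤ 2 * (⌊x⌋ : ℝ) + 1 := by exact_mod_cast h5
    have h7 : (⌊x⌋ : ℝ) ≤ x := Int.floor_le x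
    linarith
  calc ∑ m ∈ roots x l, 1 / |(m : ℝ)| ≤ ∑ m ∈ roots x l, 3 * 2 ^ (l / 2) / x := sum_le_sum h1
    _ = (roots x l).card * (3 * 2 ^ (l / 2) / x) := by rw [sum_const, nsmul_eq_mul]
    _ ≤ 3 * x * (3 * 2 ^ (l / 2) / x) := by gcongr
    _ = 9 * 2 ^ (l / 2) := by field_simp; norm_num

/-- The statement of the average over the roots. -/
def BaseAvg : Prop := ∀ {ε : ℝ}, 0 < ε → ∃ l₀ : ℕ, ∀ A : Sys, A.Str → l₀ ≤ A.l → ∃ x₀ : ℝ,
    ∀ x ≥ x₀, 3 / 2 * Real.log (4 / 3) - ε ≤ ∑ m ∈ roots x A.l,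
      1 / |(m : ℝ)| * Lam0 x (22 * A.l) m (A.PP^[17 * A.blk] (fun _ _ => 1))

theorem core_of (base_avg : BaseAvg) {ε : ℝ} (hε : 0 < ε) (B₀ : ℝ) : ∃ (x : ℝ) (R : Finset ℤ) (L : ℤ → ℝ), B₀ ≤ x ∧
    (∀ m ∈ R, CollatzLin.OO m ∧ |((3 * m - 1 : ℤ) : ℝ)| ≤ x ∧ B₀ ≤ |((3 * m - 1 : ℤ) : ℝ)|) ∧
    (∀ m, 0 ≤ L m) ∧ 1 - ε ≤ ∑ m ∈ R, L m ∧
    ∀ m ∈ R, ∃ X₀ : ℝ, ∀ X ≥ X₀, 2 * X * L m ≤ NK x X m := by
  have hlog : 0 < Real.log (4 / 3) := Real.log_pos (by norm_num)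
  -- the choice of the parameters
  obtain ⟨δ, hδ, hδ1, hδε⟩ : ∃ δ : ℝ, 0 < δ ∧ δ ≤ 1 / 2 ∧ 1 - ε ≤ (4 - δ) / Real.log (4 / 3) / 6 *
      ((1 - δ) ^ 2 / (1 + δ) * (3 / 2 * Real.log (4 / 3) - δ) - δ) := by
    have h1 : ∀ᶠ δ : ℝ in 𝓝 0, 1 - ε < (4 - δ) / Real.log (4 / 3) / 6 *
      ((1 - δ) ^ 2 / (1 + δ) * (3 / 2 * Real.log (4 / 3) - δ) - δ) :=
      tendsto_core.eventually (lt_mem_nhds (by linarith))
    rw [Metric.eventually_nhds_iff] at h1
    obtain ⟨r, hr, h1⟩ := h1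
    refine ⟨min (r / 2) (1 / 2), by positivity, min_le_right _ _, (h1 ?_).le⟩
    rw [Real.dist_eq, sub_zero, abs_of_pos (by positivity)]
    exact (min_le_left _ _).trans_lt (by linarith)
  obtain ⟨i₀, hroot⟩ := root_bound hδ (by linarith)
  obtain ⟨l₀, havg⟩ := base_avg hδ
  obtain ⟨i₂, hi₂⟩ := exists_pow_lt_of_lt_one hδ (by norm_num : (1 / 2 : ℝ) < 1)
  set i₁ := max (max i₀ l₀) (max i₂ 4) with hi₁
  have hi1 : i₀ ≤ i₁ := (le_max_left _ _).trans (le_max_left _ _)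
  have hi2 : l₀ ≤ i₁ := (le_max_right _ _).trans (le_max_left _ _)
  have hi3 : i₂ ≤ i₁ := (le_max_left _ _).trans (le_max_right _ _)
  set A := tower.sys i₁ with hA
  have hlt : i₁ < 2 ^ i₁ := Nat.lt_two_pow_self
  have hl : i₁ + 600 ≤ A.l := by rw [hA, tower.l_eq]; omega
  obtain ⟨x₀, hx₀⟩ := havg A (tower.str i₁) (by omega)
  set l := A.l with hldef
  set D₀ : ℕ := 22 * l with hD₀
  set E : ℝ := 2 * (1 / 2) ^ (45 * l) with hE
  set κ : ℝ := (4 - δ) / Real.log (4 / 3) with hκ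
  have hκ0 : 0 < κ := div_pos (by linarith) hlog
  -- the level
  set K : ℝ := 3 * 2 ^ (l / 2) * (D₀ + 6) / δ with hK
  have hK0 : 0 < K := by positivity
  set x : ℝ := max (max x₀ |B₀|) (max (3 * 2 ^ (l / 2) * (|B₀| + 1)) (max K 1)) with hxdef
  have hx1 : x₀ ≤ x := (le_max_left _ _).trans (le_max_left _ _)
  have hx2 : |B₀| ≤ x := (le_max_right _ _).trans (le_max_left _ _)
  have hx3 : 3 * 2 ^ (l / 2) * (|B₀| + 1) ≤ x := (le_max_left _ _).trans (le_max_right _ _)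
  have hx4 : K ≤ x := (le_max_left _ _).trans ((le_max_right _ _).trans (le_max_right _ _))
  have hx5 : 1 ≤ x := (le_max_right _ _).trans ((le_max_right _ _).trans (le_max_right _ _))
  -- properties of the roots
  have hmem : ∀ m ∈ roots x l, CollatzLin.OO m ∧ |((3 * m - 1 : ℤ) : ℝ)| ≤ x ∧
      x ≤ 3 * 2 ^ (l / 2) * |(m : ℝ)| := by
    intro m hm
    unfold roots at hm
    rw [mem_filter] at hm
    exact hm.2
  have hmB : ∀ m ∈ roots x l, |B₀| + 1 ≤ |(m : ℝ)| := by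
    intro m hm
    obtain ⟨-, -, h1⟩ := hmem m hm
    have h2 := hx3.trans h1
    exact le_of_mul_le_mul_left h2 (by positivity)
  have hmD : ∀ m ∈ roots x l, (D₀ : ℝ) + 6 ≤ δ * |(m : ℝ)| := by
    intro m hm
    obtain ⟨-, -, h1⟩ := hmem m hm
    have h2 := hx4.trans h1
    rw [hK, div_le_iff₀ hδ] at h2
    have h3 : 3 * 2 ^ (l / 2) * ((D₀ : ℝ) + 6) ≤ 3 * 2 ^ (l / 2) * (δ * |(m : ℝ)|) := by linarith
    exact le_of_mul_le_mul_left h3 (by positivity)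
  set L : ℤ → ℝ := fun m => max 0 (1 / (6 * (|(m : ℝ)| + D₀ + 6)) * κ *
    ((1 - δ) ^ 2 * Lam0 x D₀ m (A.PP^[17 * A.blk] (fun _ _ => 1)) - E)) with hL
  have hE1 : (1 - δ) * ((1 / 2) ^ (90 * l) * 3 ^ D₀) + (1 / 2) ^ (80 * l) * 3 ^ D₀ ≤ E := by
    have h1 : (1 / 2 : ℝ) ^ (80 * l) * 3 ^ D₀ ≤ (1 / 2) ^ (45 * l) := by
      rw [hD₀, pow_mul, pow_mul, pow_mul, ← mul_pow]
      exact pow_le_pow_left₀ (by positivity) (by norm_num) l
    have h2 : (1 / 2 : ℝ) ^ (90 * l) * 3 ^ D₀ ≤ (1 / 2) ^ (45 * l) := by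
      refine le_trans (mul_le_mul_of_nonneg_right ?_ (by positivity)) h1
      exact pow_le_pow_of_le_one (by norm_num) (by norm_num) (by omega)
    have h3 : (0 : ℝ) ≤ (1 / 2) ^ (90 * l) * 3 ^ D₀ := by positivity
    have h4 : (1 - δ) * ((1 / 2 : ℝ) ^ (90 * l) * 3 ^ D₀) ≤ 1 * ((1 / 2) ^ (90 * l) * 3 ^ D₀) :=
      mul_le_mul_of_nonneg_right (by linarith) h3
    rw [hE]
    linarith
  refine ⟨x, roots x l, L, (le_abs_self _).trans hx2, ?_, fun m => le_max_left _ _, ?_, ?_⟩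
  · intro m hm
    refine ⟨(hmem m hm).1, (hmem m hm).2.1, ?_⟩
    have h1 := hmB m hm
    push_cast
    have h2 : |(m : ℝ)| ≤ |3 * (m : ℝ) - 1| := by
      have h3 : 1 ≤ |(m : ℝ)| := by linarith [abs_nonneg B₀]
      have h4 : 3 * |(m : ℝ)| - 1 ≤ |3 * (m : ℝ) - 1| := by
        calc 3 * |(m : ℝ)| - 1 = |3 * (m : ℝ)| - |(1 : ℝ)| := by
              rw [abs_mul, abs_one, abs_of_pos (by norm_num : (0 : ℝ) < 3)]
          _ ≤ |3 * (m : ℝ) - 1| := abs_sub_abs_le_abs_sub _ _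
      linarith
    linarith [le_abs_self B₀]
  · -- the sum
    refine hδε.trans ?_
    have hsum := hx₀ x hx1
    have hrec := sum_roots_le hx5 l
    have hterm : ∀ m ∈ roots x l, κ / 6 * ((1 - δ) ^ 2 / (1 + δ) * (1 / |(m : ℝ)| *
        Lam0 x D₀ m (A.PP^[17 * A.blk] (fun _ _ => 1))) - E * (1 / |(m : ℝ)|)) ≤ L m := by
      intro m hm
      have hm0 : 0 < |(m : ℝ)| := by linarith [hmB m hm, abs_nonneg B₀]
      have h1 := hmD m hm
      set a := Lam0 x D₀ m (A.PP^[17 * A.blk] (fun _ _ => 1)) with ha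
      have ha0 : 0 ≤ a := (Lam0_lin (hmem m hm).1 (hmem m hm).2.1).nonneg
        fun J v _ => A.PP_nonneg (fun _ _ => zero_le_one) _ J v
      have hE0 : 0 ≤ E := by positivity
      refine le_trans ?_ (le_max_right _ _)
      have h2 : 1 / ((1 + δ) * |(m : ℝ)|) ≤ 1 / (|(m : ℝ)| + D₀ + 6) :=
        one_div_le_one_div_of_le (by positivity) (by linarith)
      have h3 : 1 / (|(m : ℝ)| + D₀ + 6) ≤ 1 / |(m : ℝ)| :=
        one_div_le_one_div_of_le hm0 (by linarith [(Nat.cast_nonneg D₀ : (0 : ℝ) ≤ D₀)])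
      have h4 : 1 / (6 * (|(m : ℝ)| + D₀ + 6)) * κ * ((1 - δ) ^ 2 * a - E) =
          κ / 6 * ((1 - δ) ^ 2 * a * (1 / (|(m : ℝ)| + D₀ + 6)) - E * (1 / (|(m : ℝ)| + D₀ + 6))) := by
        field_simp
      have h5 : (1 - δ) ^ 2 / (1 + δ) * (1 / |(m : ℝ)| * a) =
          (1 - δ) ^ 2 * a * (1 / ((1 + δ) * |(m : ℝ)|)) := by
        field_simp
      rw [h4, h5]
      refine mul_le_mul_of_nonneg_left ?_ (by positivity)
      exact sub_le_sub (mul_le_mul_of_nonneg_left h2 (by positivity))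
        (mul_le_mul_of_nonneg_left h3 hE0)
    refine le_trans ?_ (sum_le_sum hterm)
    rw [← mul_sum, sum_sub_distrib, ← mul_sum, ← mul_sum]
    refine mul_le_mul_of_nonneg_left ?_ (by positivity)
    refine sub_le_sub (mul_le_mul_of_nonneg_left hsum (by positivity)) ?_
    calc E * ∑ m ∈ roots x l, 1 / |(m : ℝ)| ≤ E * (9 * 2 ^ (l / 2)) := by
          have hE0 : 0 ≤ E := by positivity
          gcongr
      _ ≤ E * (9 * 2 ^ l) := by
          have hE0 : 0 ≤ E := by positivity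
          gcongr
          · norm_num
          · omega
      _ = 18 * (1 / 2) ^ (44 * l) := by
          have h1 : (1 / 2 : ℝ) ^ l * 2 ^ l = 1 := by rw [← mul_pow]; norm_num
          rw [hE, show 45 * l = 44 * l + l by ring, pow_add]
          calc 2 * ((1 / 2 : ℝ) ^ (44 * l) * (1 / 2) ^ l) * (9 * 2 ^ l)
              = 18 * (1 / 2) ^ (44 * l) * ((1 / 2) ^ l * 2 ^ l) := by ring
            _ = _ := by rw [h1, mul_one]
      _ ≤ 18 * (1 / 2) ^ (i₂ + 5) := by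
          gcongr 18 * ?_
          exact pow_le_pow_of_le_one (by norm_num) (by norm_num) (by omega)
      _ ≤ (1 / 2) ^ i₂ := by
          rw [pow_add]
          have : (0 : ℝ) < (1 / 2) ^ i₂ := by positivity
          nlinarith
      _ ≤ δ := hi₂.le
  · intro m hm
    have hm0 : 0 < |(m : ℝ)| := by linarith [hmB m hm, abs_nonneg B₀]
    have h1 := hmD m hm
    have hl2 : (2 : ℝ) ^ (l / 2) * 2 ^ (l / 2) ≤ 2 ^ l := by
      rw [← pow_add]
      exact pow_le_pow_right₀ (by norm_num) (by omega)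
    have hl3 : (24 : ℝ) ≤ 2 ^ (l / 2) := by
      calc (24 : ℝ) ≤ 2 ^ 5 := by norm_num
        _ ≤ 2 ^ (l / 2) := pow_le_pow_right₀ (by norm_num) (by omega)
    have hbig : x + 3 ≤ (|(m : ℝ)| - D₀ - 2) * 2 ^ l := by
      have h2 : |(m : ℝ)| / 2 ≤ |(m : ℝ)| - D₀ - 2 := by
        have : δ * |(m : ℝ)| ≤ 1 / 2 * |(m : ℝ)| := by gcongr
        linarith
      calc x + 3 ≤ 4 * x := by linarith
        _ ≤ 4 * (3 * 2 ^ (l / 2) * |(m : ℝ)|) := by
            have := (hmem m hm).2.2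
            linarith
        _ = |(m : ℝ)| / 2 * (24 * 2 ^ (l / 2)) := by ring
        _ ≤ |(m : ℝ)| / 2 * (2 ^ (l / 2) * 2 ^ (l / 2)) := by gcongr
        _ ≤ |(m : ℝ)| / 2 * 2 ^ l := by gcongr
        _ ≤ (|(m : ℝ)| - D₀ - 2) * 2 ^ l := by gcongr
    obtain ⟨X₀, hX₀⟩ := hroot i₁ hi1 x m (by linarith) (hmem m hm).1 (hmem m hm).2.1 hbig
    refine ⟨max X₀ 0, fun X hX => ?_⟩
    have hX1 : X₀ ≤ X := (le_max_left _ _).trans hX
    have hX2 : 0 ≤ X := (le_max_right _ _).trans hX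
    rw [hL]
    simp only
    rw [mul_max_of_nonneg _ _ (by positivity), mul_zero]
    refine max_le (NK_nonneg' _ _ _) (le_trans ?_ (hX₀ X hX1))
    rw [← hA, ← hldef, ← hD₀]
    set a := Lam0 x D₀ m (A.PP^[17 * A.blk] (fun _ _ => 1)) with ha
    have h5 : 2 * X * (1 / (6 * (|(m : ℝ)| + D₀ + 6)) * κ * ((1 - δ) ^ 2 * a - E)) =
        X / (3 * (|(m : ℝ)| + D₀ + 6)) * κ * ((1 - δ) ^ 2 * a - E) := by
      field_simp
      ring
    rw [h5]
    refine mul_le_mul_of_nonneg_left ?_ (by positivity)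
    have h6 : (1 - δ) * ((1 - δ) * a - (1 / 2) ^ (90 * l) * 3 ^ D₀) - (1 / 2) ^ (80 * l) * 3 ^ D₀ =
        (1 - δ) ^ 2 * a - ((1 - δ) * ((1 / 2) ^ (90 * l) * 3 ^ D₀) + (1 / 2) ^ (80 * l) * 3 ^ D₀) := by
      ring
    rw [h6]
    linarith

end CollatzNat
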