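import Pool.Agent.CollatzNat.Core
import Pool.Agent.CollatzNat.Average

set_option autoImplicit false

/-!
# The core theorem
-/

namespace CollatzNat

open CollatzOne CollatzExp Finset Filter Topology

/-- For every `ε` there are finitely many roots whose restricted trees (which are pairwise disjoint)
have lower densities with sum at least `1 - ε`. -/
theorem core {ε : ℝ} (hε : 0 < ε) (B₀ : ℝ) : ∃ (x : ℝ) (R : Finset ℤ) (L : ℤ → ℝ), B₀ ≤ x ∧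
    (∀ m ∈ R, CollatzLin.OO m ∧ |((3 * m - 1 : ℤ) : ℝ)| ≤ x ∧ B₀ ≤ |((3 * m - 1 : ℤ) : ℝ)|) ∧
    (∀ m, 0 ≤ L m) ∧ 1 - ε ≤ ∑ m ∈ R, L m ∧
    ∀ m ∈ R, ∃ X₀ : ℝ, ∀ X ≥ X₀, 2 * X * L m ≤ NK x X m :=
  core_of base_avg hε B₀

end CollatzNat
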