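import Pool.Agent.CollatzNat.CrossDefs

set_option autoImplicit false

/-!
Sharp crossing: one block.
-/

namespace CollatzOne

open CollatzNat (RegP)

namespace Sys

variable {A : Sys}

/-! ### The functions -/

/-- The remaining factor, for the real target `G`. -/
noncomputable def sq (A : Sys) (D : ℕ) (G : ℝ) (n J : ℕ) : ℝ := G * 3 ^ (D + A.l * n) / 2 ^ J

/-- The counting function after crossing. -/
noncomputable def gq (A : Sys) (ψ : ℝ → ℤ → ℝ) (D g : ℕ) (G : ℝ) (n : ℕ) (J : ℕ) (v : ℤ) : ℝ :=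
  (1 - A.io D g n J) * ψ (A.sq D G n J) v

/-- The crossing function. -/
noncomputable def Tq (A : Sys) (ψ : ℝ → ℤ → ℝ) (D g : ℕ) (G : ℝ) (n : ℕ) (J : ℕ) (v : ℤ) : ℝ :=
  A.io D g n J * A.PP (A.gq ψ D g G (n + 1)) J v

lemma sq_le {D g n J : ℕ} {G : ℝ} (hG : G ≤ 2 ^ (g + 12 * A.l + 1)) (h : ¬ A.unc D g n J) :
    A.sq D G n J ≤ 2 ^ (12 * A.l + 1) := by
  unfold unc at h
  push Not at h
  have h1 : (2 : ℝ) ^ g * 3 ^ (D + A.l * n) ≤ 2 ^ J := by exact_mod_cast h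
  unfold sq
  rw [div_le_iff₀ (by positivity)]
  calc G * 3 ^ (D + A.l * n) ≤ 2 ^ (g + 12 * A.l + 1) * 3 ^ (D + A.l * n) := by gcongr
    _ = 2 ^ (12 * A.l + 1) * (2 ^ g * 3 ^ (D + A.l * n)) := by
        rw [show g + 12 * A.l + 1 = g + (12 * A.l + 1) by ring, pow_add]; ring
    _ ≤ _ := by gcongr

lemma Str.le_sq (hA : A.Str) {D g n J : ℕ} {G : ℝ} (hG : 2 ^ (g + 12 * A.l) ≤ G) {w : A.ι}
    (h : A.unc D g n J) : 2 ^ A.l ≤ A.sq D G (n + 1) (J + A.J w) := by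
  have hG0 : 0 ≤ G := le_trans (by positivity) hG
  unfold unc at h
  have h1 : (2 : ℝ) ^ J ≤ 2 ^ g * 3 ^ (D + A.l * n) := by exact_mod_cast h.le
  have h2 : (2 : ℝ) ^ A.J w ≤ 2 ^ (11 * A.l) := pow_le_pow_right₀ (by norm_num) (hA.J_le w)
  unfold sq
  rw [le_div_iff₀ (by positivity)]
  have h3 : (1 : ℝ) ≤ 3 ^ A.l := one_le_pow₀ (by norm_num)
  calc (2 : ℝ) ^ A.l * 2 ^ (J + A.J w) = 2 ^ A.l * (2 ^ J * 2 ^ A.J w) := by rw [pow_add]
    _ ≤ 2 ^ A.l * ((2 ^ g * 3 ^ (D + A.l * n)) * (2 ^ (11 * A.l))) := by gcongr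
    _ = 2 ^ (g + 12 * A.l) * 3 ^ (D + A.l * n) * 1 := by
        rw [show g + 12 * A.l = g + 11 * A.l + A.l by ring, pow_add, pow_add]
        ring
    _ ≤ G * 3 ^ (D + A.l * n) * 3 ^ A.l := by gcongr
    _ = G * 3 ^ (D + A.l * (n + 1)) := by
        rw [show D + A.l * (n + 1) = (D + A.l * n) + A.l by ring, pow_add]
        ring

section

variable {T : ℤ → Prop} {N : ℤ → ℝ} {B X κ : ℝ} {ψ : ℝ → ℤ → ℝ}

lemma gq_nonneg (hψ : XData A T N B X κ ψ) (D g : ℕ) (G : ℝ) (n J : ℕ) (v : ℤ) : 0 ≤ A.gq ψ D g G n J v :=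
  mul_nonneg (by linarith [A.io_le_one D g n J]) (hψ.psi_nonneg _ _)

lemma gq_per (hψ : XData A T N B X κ ψ) (D g : ℕ) (G : ℝ) (n J : ℕ) : Per (A.q ^ 100) (A.gq ψ D g G n J) := by
  intro v
  unfold gq
  rw [q_pow_100, hψ.per]

lemma Tq_nonneg (hψ : XData A T N B X κ ψ) (D g : ℕ) (G : ℝ) (n J : ℕ) (v : ℤ) : 0 ≤ A.Tq ψ D g G n J v :=
  mul_nonneg (A.io_nonneg _ _ _ _) (A.PP_nonneg_one (gq_nonneg hψ D g G (n + 1)) J v)

lemma Tq_per (hψ : XData A T N B X κ ψ) (D g : ℕ) (G : ℝ) (n J : ℕ) : Per (A.q ^ 101) (A.Tq ψ D g G n J) := by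
  intro v
  unfold Tq
  rw [A.PP_per 100 (A.gq ψ D g G (n + 1)) (gq_per hψ D g G (n + 1)) J v]

lemma Str.Tq_le (hA : A.Str) (hψ : XData A T N B X κ ψ) {D g : ℕ} {G : ℝ} (hG1 : 2 ^ (g + 12 * A.l) ≤ G)
    (hG2 : G ≤ 2 ^ (g + 12 * A.l + 1)) (n J : ℕ) (v : ℤ) : A.Tq ψ D g G n J v ≤ 2 ^ (200 * A.l) := by
  unfold Tq io
  split_ifs with h
  · rw [one_mul]
    have h1 : A.PP (A.gq ψ D g G (n + 1)) J v ≤ 2 ^ (190 * A.l) * A.PP (fun _ _ => 1) J v := by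
      unfold PP
      rw [Finset.mul_sum]
      refine Finset.sum_le_sum fun w _ => ?_
      split_ifs with hv
      · have hq := A.q_posR
        have h2 : A.gq ψ D g G (n + 1) (J + A.J w) (A.child w v) ≤ 2 ^ (190 * A.l) := by
          unfold gq
          by_cases hc : A.unc D g (n + 1) (J + A.J w)
          · have h4 : A.io D g (n + 1) (J + A.J w) = 1 := if_pos hc
            rw [h4, sub_self, zero_mul]
            positivity
          · have h4 : A.io D g (n + 1) (J + A.J w) = 0 := if_neg hc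
            rw [h4, sub_zero, one_mul]
            exact hψ.psi_le _ (hA.le_sq hG1 h) (sq_le hG2 hc) _
        calc (A.q : ℝ) / 2 ^ A.J w * A.gq ψ D g G (n + 1) (J + A.J w) (A.child w v)
            ≤ (A.q : ℝ) / 2 ^ A.J w * 2 ^ (190 * A.l) := by gcongr
          _ = _ := by ring
      · simp
    have h2 := hA.PP_one_le J v
    have hl := hA.hl
    calc A.PP (A.gq ψ D g G (n + 1)) J v ≤ 2 ^ (190 * A.l) * 4 ^ A.l :=
          h1.trans (mul_le_mul_of_nonneg_left h2 (by positivity))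
      _ = 2 ^ (190 * A.l + 2 * A.l) := by
          rw [show (4 : ℝ) = 2 ^ 2 by norm_num, ← pow_mul, ← pow_add]
      _ ≤ 2 ^ (200 * A.l) := pow_le_pow_right₀ (by norm_num) (by omega)
  · rw [zero_mul]
    positivity

lemma Str.mean_Tq (hA : A.Str) (hψ : XData A T N B X κ ψ) {D g : ℕ} {G : ℝ} (hG1 : 2 ^ (g + 12 * A.l) ≤ G)
    (hG2 : G ≤ 2 ^ (g + 12 * A.l + 1)) (n J : ℕ) :
    κ * (A.io D g n J * A.pc D g n J) ≤ CollatzOne.mean (A.q ^ 101) (A.Tq ψ D g G n J) := by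
  have h1 : CollatzOne.mean (A.q ^ 101) (A.Tq ψ D g G n J) =
      A.io D g n J * CollatzOne.mean (A.q ^ 101) (A.PP (A.gq ψ D g G (n + 1)) J) := mean_smul _ _ _
  rw [h1, A.mean_PP 100 (A.gq ψ D g G (n + 1)) (gq_per hψ D g G (n + 1))]
  by_cases h : A.unc D g n J
  · have h3 : A.io D g n J = 1 := if_pos h
    rw [h3, one_mul, one_mul]
    unfold pc
    rw [Finset.mul_sum]
    refine Finset.sum_le_sum fun w _ => ?_
    have h4 : κ * (1 - A.io D g (n + 1) (J + A.J w)) ≤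
        CollatzOne.mean (A.q ^ 100) (A.gq ψ D g G (n + 1) (J + A.J w)) := by
      have h5 : CollatzOne.mean (A.q ^ 100) (A.gq ψ D g G (n + 1) (J + A.J w)) = (1 - A.io D g (n + 1) (J + A.J w)) *
          CollatzOne.mean (A.q ^ 100) (ψ (A.sq D G (n + 1) (J + A.J w))) := mean_smul _ _ _
      rw [h5]
      by_cases h6 : A.unc D g (n + 1) (J + A.J w)
      · have h7 : A.io D g (n + 1) (J + A.J w) = 1 := if_pos h6
        rw [h7]
        simp
      · have h7 : A.io D g (n + 1) (J + A.J w) = 0 := if_neg h6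
        rw [h7, sub_zero, mul_one, one_mul, q_pow_100]
        exact hψ.mean _ (hA.le_sq hG1 h) (sq_le hG2 h6)
    calc κ * (1 / 2 ^ A.J w * (1 - A.io D g (n + 1) (J + A.J w)))
        = 1 / 2 ^ A.J w * (κ * (1 - A.io D g (n + 1) (J + A.J w))) := by ring
      _ ≤ _ := by gcongr
  · have h3 : A.io D g n J = 0 := if_neg h
    rw [h3]
    simp

end

/-! ### The regions -/

/-- The nodes of a region are large. -/
lemma RegP_large {T : ℤ → Prop} {D : ℕ} {Y Y' B : ℝ} {J : ℕ} {v : ℤ} (hB0 : 0 ≤ B) (hY : 0 ≤ Y')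
    (hB : B ^ 16 ≤ Y' ^ 16 * 3 ^ D) (h : RegP T D Y Y' J v) : B ≤ |(v : ℝ)| := by
  have h1 : (3 : ℝ) ^ (17 * D) ≤ 2 ^ (16 * J) := by exact_mod_cast h.ht
  have h2 := h.low
  have h3 : (Y' * 2 ^ J) ^ 16 ≤ (|(v : ℝ)| * 3 ^ D) ^ 16 := pow_le_pow_left₀ (by positivity) h2 16
  have h4 : B ^ 16 * 3 ^ (16 * D) ≤ |(v : ℝ)| ^ 16 * 3 ^ (16 * D) := by
    calc B ^ 16 * 3 ^ (16 * D) ≤ (Y' ^ 16 * 3 ^ D) * 3 ^ (16 * D) := by gcongr
      _ = Y' ^ 16 * 3 ^ (17 * D) := by rw [mul_assoc, ← pow_add]; congr 2; ring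
      _ ≤ Y' ^ 16 * 2 ^ (16 * J) := by gcongr
      _ = (Y' * 2 ^ J) ^ 16 := by rw [mul_pow, ← pow_mul, mul_comm J]
      _ ≤ (|(v : ℝ)| * 3 ^ D) ^ 16 := h3
      _ = |(v : ℝ)| ^ 16 * 3 ^ (16 * D) := by rw [mul_pow, ← pow_mul, mul_comm D]
  have h5 : B ^ 16 ≤ |(v : ℝ)| ^ 16 := le_of_mul_le_mul_right h4 (by positivity)
  exact (pow_le_pow_iff_left₀ hB0 (abs_nonneg _) (by norm_num)).1 h5

/-- One block step of the regions. -/
lemma Str.regP_step (hA : A.Str) {T : ℤ → Prop} {B : ℝ}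
    (hT : ∀ w v, A.valid w v → T v → B ≤ |(v : ℝ)| → T (A.child w v)) {D k J : ℕ}
    {Y Y' : ℝ} {v : ℤ} {w : A.ι} (hD : 22 * A.l ≤ D) (hvB : B ≤ |(v : ℝ)|)
    (h : RegP T (D + A.l * k) (Y + 1 - (1 / 2) ^ k) (Y' - 1 + (1 / 2) ^ k) J v) (hv : A.valid w v) :
    RegP T (D + A.l * (k + 1)) (Y + 1 - (1 / 2) ^ (k + 1)) (Y' - 1 + (1 / 2) ^ (k + 1))
      (J + A.J w) (A.child w v) := by
  have e1 : D + A.l * (k + 1) = (D + A.l * k) + A.l := by ring
  have hq : (A.q : ℝ) = 3 ^ A.l := by unfold q; push_cast; rfl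
  have h2 : (A.q : ℝ) * A.child w v = 2 ^ A.J w * v - A.b w := by exact_mod_cast A.q_mul_child hv
  have h3 : |(A.b w : ℝ)| ≤ 2 ^ A.l * 2 ^ A.J w := by exact_mod_cast hA.b_le w
  have h5 : |(A.child w v : ℝ)| * A.q = |(2 : ℝ) ^ A.J w * v - A.b w| := by
    rw [← h2, abs_mul, abs_of_pos A.q_posR, mul_comm]
  have habs : |(2 : ℝ) ^ A.J w * v| = 2 ^ A.J w * |(v : ℝ)| := by
    rw [abs_mul, abs_of_pos (by positivity : (0 : ℝ) < 2 ^ A.J w)]
  have h4 : |(A.child w v : ℝ)| * A.q ≤ 2 ^ A.J w * (|(v : ℝ)| + 2 ^ A.l) := by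
    rw [h5]
    refine (abs_sub _ _).trans ?_
    rw [habs]
    linarith
  have h4' : 2 ^ A.J w * (|(v : ℝ)| - 2 ^ A.l) ≤ |(A.child w v : ℝ)| * A.q := by
    rw [h5]
    have := abs_sub_abs_le_abs_sub ((2 : ℝ) ^ A.J w * v) (A.b w)
    rw [habs] at this
    linarith
  have h6 := hA.reg_aux hD h.ht
  have h7 : (2 : ℝ) ^ (A.l + k + 1) * 3 ^ (D + A.l * k) ≤ 2 ^ J := by exact_mod_cast h6
  have h8 : (2 : ℝ) ^ A.l * 3 ^ (D + A.l * k) ≤ (1 / 2) ^ (k + 1) * 2 ^ J := by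
    have h9 : (1 / 2 : ℝ) ^ (k + 1) * (2 ^ (A.l + k + 1) * 3 ^ (D + A.l * k)) =
        2 ^ A.l * 3 ^ (D + A.l * k) := by
      rw [show A.l + k + 1 = (k + 1) + A.l by ring, pow_add (2 : ℝ) (k + 1), ← mul_assoc, ← mul_assoc,
        ← mul_pow]
      norm_num
    rw [← h9]
    gcongr
  refine ⟨?_, ?_, ?_, ?_, hT w v hv h.tr hvB⟩
  · have h1 := Nat.mul_le_mul h.ht (hA.ht w)
    rw [← pow_add, ← pow_add, ← Nat.mul_add, ← Nat.mul_add, ← e1] at h1
    exact h1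
  · have h1 := h.J_le
    have h2 := hA.J_le w
    rw [e1]
    omega
  · have h1 := h.size
    rw [e1, pow_add, pow_add (2 : ℝ)]
    calc |(A.child w v : ℝ)| * (3 ^ (D + A.l * k) * 3 ^ A.l)
        = (|(A.child w v : ℝ)| * A.q) * 3 ^ (D + A.l * k) := by rw [hq]; ring
      _ ≤ (2 ^ A.J w * (|(v : ℝ)| + 2 ^ A.l)) * 3 ^ (D + A.l * k) := by gcongr
      _ = 2 ^ A.J w * (|(v : ℝ)| * 3 ^ (D + A.l * k) + 2 ^ A.l * 3 ^ (D + A.l * k)) := by ring
      _ ≤ 2 ^ A.J w * ((Y + 1 - (1 / 2) ^ k) * 2 ^ J + (1 / 2) ^ (k + 1) * 2 ^ J) := by gcongr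
      _ = (Y + 1 - (1 / 2) ^ (k + 1)) * (2 ^ J * 2 ^ A.J w) := by rw [pow_succ]; ring
  · have h1 := h.low
    rw [e1, pow_add (3 : ℝ), pow_add (2 : ℝ)]
    calc (Y' - 1 + (1 / 2) ^ (k + 1)) * (2 ^ J * 2 ^ A.J w)
        = 2 ^ A.J w * ((Y' - 1 + (1 / 2) ^ k) * 2 ^ J - (1 / 2) ^ (k + 1) * 2 ^ J) := by
          rw [pow_succ]; ring
      _ ≤ 2 ^ A.J w * (|(v : ℝ)| * 3 ^ (D + A.l * k) - 2 ^ A.l * 3 ^ (D + A.l * k)) := by gcongr
      _ = (2 ^ A.J w * (|(v : ℝ)| - 2 ^ A.l)) * 3 ^ (D + A.l * k) := by ring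
      _ ≤ (|(A.child w v : ℝ)| * A.q) * 3 ^ (D + A.l * k) := by gcongr
      _ = |(A.child w v : ℝ)| * (3 ^ (D + A.l * k) * 3 ^ A.l) := by rw [hq]; ring

/-- The nodes of the `k`-th region are large. -/
lemma regP_large' {T : ℤ → Prop} {D k l : ℕ} {Y Y' B : ℝ} {J : ℕ} {v : ℤ} (hB0 : 0 ≤ B) (hY : 1 ≤ Y')
    (hB : B ^ 16 ≤ (Y' - 1) ^ 16 * 3 ^ D) (h : RegP T (D + l * k) Y (Y' - 1 + (1 / 2) ^ k) J v) :
    B ≤ |(v : ℝ)| := by
  have h0 : (0 : ℝ) ≤ (1 / 2) ^ k := by positivity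
  have h1 : 0 ≤ Y' - 1 := by linarith
  refine RegP_large hB0 (by linarith) (hB.trans ?_) h
  gcongr
  · linarith
  · norm_num
  · exact Nat.le_add_right _ _

lemma Str.linP_iter (hA : A.Str) {T : ℤ → Prop} {B : ℝ}
    (hT : ∀ w v, A.valid w v → T v → B ≤ |(v : ℝ)| → T (A.child w v)) {D : ℕ} {Y Y' : ℝ}
    (hD : 22 * A.l ≤ D) (hB0 : 0 ≤ B) (hY : 1 ≤ Y') (hB : B ^ 16 ≤ (Y' - 1) ^ 16 * 3 ^ D)
    {Λ : (ℕ → ℤ → ℝ) → ℝ} (hΛ : Lin (RegP T D Y Y') Λ) (n : ℕ) :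
    Lin (RegP T (D + A.l * n) (Y + 1 - (1 / 2) ^ n) (Y' - 1 + (1 / 2) ^ n)) (fun f => Λ (A.PP^[n] f)) := by
  refine Lin.comp_iter A (fun k => RegP T (D + A.l * k) (Y + 1 - (1 / 2) ^ k) (Y' - 1 + (1 / 2) ^ k)) n ?_ ?_
  · simpa using hΛ
  · intro k J v w _ h hv
    exact hA.regP_step hT hD (regP_large' hB0 hY hB h) h hv

/-- the weighted counting function -/
noncomputable def VQ (A : Sys) (N : ℤ → ℝ) (D : ℕ) (n J : ℕ) (v : ℤ) : ℝ := 2 ^ J / 3 ^ (D + A.l * n) * N v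

section

variable {T : ℤ → Prop} {N : ℤ → ℝ} {B X κ : ℝ} {ψ : ℝ → ℤ → ℝ}

lemma VQ_nonneg (hψ : XData A T N B X κ ψ) (D n J : ℕ) (v : ℤ) : 0 ≤ A.VQ N D n J v :=
  mul_nonneg (by positivity) (hψ.nonneg _)

lemma PP_VQ_le (hψ : XData A T N B X κ ψ) (D n J : ℕ) {v : ℤ} (hv : T v) (hvB : B ≤ |(v : ℝ)|) :
    A.PP (A.VQ N D (n + 1)) J v ≤ A.VQ N D n J v := by
  have h1 : A.PP (A.VQ N D (n + 1)) J v = 2 ^ J / 3 ^ (D + A.l * n) *
      ∑ w, (if A.valid w v then N (A.child w v) else 0) := by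
    unfold PP VQ
    rw [Finset.mul_sum]
    refine Finset.sum_congr rfl fun w _ => ?_
    split_ifs
    · rw [← mul_assoc, weight_eq]
    · ring
  rw [h1]
  unfold VQ
  exact mul_le_mul_of_nonneg_left (hψ.cnt v hv hvB) (by positivity)

/-- Counting step: the uncrossed part and the crossing part. -/
lemma Str.countP_step (hA : A.Str) (hψ : XData A T N B X κ ψ) {D g : ℕ} {Y Y' G : ℝ}
    (hD : 22 * A.l ≤ D) (hg : 59 * A.l ≤ g) (hG1 : 2 ^ (g + 12 * A.l) ≤ G)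
    (hG2 : G ≤ 2 ^ (g + 12 * A.l + 1)) (hX : (Y + 5) * G ≤ X)
    (hB0 : 0 ≤ B) (hY : 1 ≤ Y') (hB : B ^ 16 ≤ (Y' - 1) ^ 16 * 3 ^ D) {n J : ℕ} {v : ℤ}
    (h : RegP T (D + A.l * n) (Y + 1 - (1 / 2) ^ n) (Y' - 1 + (1 / 2) ^ n) J v) :
    A.PP (fun J v => A.io D g (n + 1) J * A.VQ N D (n + 1) J v) J v +
      G * A.Tq ψ D g G n J v ≤ A.io D g n J * A.VQ N D n J v := by
  have hvB : B ≤ |(v : ℝ)| := regP_large' hB0 hY hB h
  have hG0 : (0 : ℝ) ≤ G := le_trans (by positivity) hG1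
  by_cases hu : A.unc D g n J
  · have h3 : A.io D g n J = 1 := if_pos hu
    unfold Tq
    rw [h3, one_mul, one_mul]
    refine le_trans ?_ (mul_le_mul_of_nonneg_left (hψ.cnt v h.tr hvB)
      (by positivity : (0 : ℝ) ≤ 2 ^ J / 3 ^ (D + A.l * n)))
    unfold PP
    rw [Finset.mul_sum, Finset.mul_sum, ← Finset.sum_add_distrib]
    refine Finset.sum_le_sum fun w _ => ?_
    by_cases hv : A.valid w v
    · rw [if_pos hv, if_pos hv, if_pos hv]
      dsimp only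
      have hreg := hA.regP_step hψ.tree hD hvB h hv
      have huB := regP_large' hB0 hY hB hreg
      set J' := J + A.J w with hJ'
      set u := A.child w v with hu'
      have hwt := weight_eq (A := A) D n J w
      rw [← hJ'] at hwt
      by_cases hc : A.unc D g (n + 1) J'
      · have h4 : A.io D g (n + 1) J' = 1 := if_pos hc
        unfold VQ gq
        rw [h4, sub_self, zero_mul, mul_zero, mul_zero, add_zero, one_mul, ← mul_assoc, hwt]
      · have h4 : A.io D g (n + 1) J' = 0 := if_neg hc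
        unfold gq
        rw [h4, sub_zero, zero_mul, mul_zero, zero_add, one_mul]
        set s := A.sq D G (n + 1) J' with hs
        have hs1 : 2 ^ A.l ≤ s := hA.le_sq hG1 hu
        have hs2 : s ≤ 2 ^ (12 * A.l + 1) := sq_le hG2 hc
        have hs0 : 0 ≤ s := le_trans (by positivity) hs1
        have hsG : s * (2 ^ J' / 3 ^ (D + A.l * (n + 1))) = G := by
          rw [hs]
          unfold sq
          field_simp
        have hcount : s * ψ s u ≤ N u := by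
          refine hψ.count s u hs1 hs2 hreg.tr huB (le_trans ?_ hX)
          have h5 : s * |(u : ℝ)| ≤ (Y + 1) * G := by
            have h6 := hreg.size
            have h7 : |(u : ℝ)| * 3 ^ (D + A.l * (n + 1)) ≤ (Y + 1) * 2 ^ J' := by
              refine h6.trans ?_
              gcongr
              have : (0 : ℝ) ≤ (1 / 2) ^ (n + 1) := by positivity
              linarith
            rw [← hsG]
            calc s * |(u : ℝ)| = s / 3 ^ (D + A.l * (n + 1)) * (|(u : ℝ)| * 3 ^ (D + A.l * (n + 1))) := by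
                  field_simp
              _ ≤ s / 3 ^ (D + A.l * (n + 1)) * ((Y + 1) * 2 ^ J') := by gcongr
              _ = _ := by ring
          have h8 : s * (3 / 2 : ℝ) ^ (100 * A.l) ≤ G := by
            have h9 : (3 / 2 : ℝ) ^ (100 * A.l) * 2 ≤ 2 ^ g := by
              calc (3 / 2 : ℝ) ^ (100 * A.l) * 2 ≤ (3 / 2 : ℝ) ^ (100 * A.l) * (100 / 99) ^ A.l := by
                    gcongr
                    have hl := hA.hl
                    calc (2 : ℝ) ≤ (100 / 99) ^ 100 := by norm_num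
                      _ ≤ (100 / 99) ^ A.l := pow_le_pow_right₀ (by norm_num) (by omega)
                _ = ((3 / 2 : ℝ) ^ 100 * (100 / 99)) ^ A.l := by rw [pow_mul, mul_pow]
                _ ≤ (2 ^ 59) ^ A.l := by gcongr; norm_num
                _ = 2 ^ (59 * A.l) := by rw [← pow_mul]
                _ ≤ 2 ^ g := pow_le_pow_right₀ (by norm_num) hg
            calc s * (3 / 2 : ℝ) ^ (100 * A.l) ≤ 2 ^ (12 * A.l + 1) * (3 / 2 : ℝ) ^ (100 * A.l) := by gcongr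
              _ = 2 ^ (12 * A.l) * ((3 / 2 : ℝ) ^ (100 * A.l) * 2) := by rw [pow_succ]; ring
              _ ≤ 2 ^ (12 * A.l) * 2 ^ g := by gcongr
              _ = 2 ^ (g + 12 * A.l) := by rw [← pow_add]; congr 1; ring
              _ ≤ G := hG1
          calc s * (|(u : ℝ)| + 4 * (3 / 2) ^ (100 * A.l))
              = s * |(u : ℝ)| + 4 * (s * (3 / 2) ^ (100 * A.l)) := by ring
            _ ≤ (Y + 1) * G + 4 * G := by gcongr
            _ = (Y + 5) * G := by ring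
        calc G * ((A.q : ℝ) / 2 ^ A.J w * ψ s u)
            = ((A.q : ℝ) / 2 ^ A.J w * (2 ^ J' / 3 ^ (D + A.l * (n + 1)))) * (s * ψ s u) := by
              rw [← hsG]; ring
          _ ≤ ((A.q : ℝ) / 2 ^ A.J w * (2 ^ J' / 3 ^ (D + A.l * (n + 1)))) * N u := by
              have := A.q_posR
              gcongr
          _ = 2 ^ J / 3 ^ (D + A.l * n) * N u := by rw [hwt]
    · rw [if_neg hv, if_neg hv, if_neg hv]
      simp
  · have h3 : A.io D g n J = 0 := if_neg hu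
    unfold Tq
    rw [h3, zero_mul, mul_zero, zero_mul, add_zero]
    refine le_of_eq (Finset.sum_eq_zero fun w _ => ?_)
    have h4 : A.io D g (n + 1) (J + A.J w) = 0 := if_neg fun h' => hu (A.unc_of_child h')
    split_ifs
    · dsimp only
      rw [h4, zero_mul, mul_zero]
    · rfl

end

end Sys

end CollatzOne
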