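import Pool.Agent.CollatzNat.Cross

set_option autoImplicit false

/-!
Sharp crossing: the assembly.
-/

namespace CollatzOne

open CollatzNat (RegP)

namespace Sys

variable {A : Sys}

lemma blk_pow_kappa (A : Sys) : (99 / 100 : ℝ) ^ A.l * (A.blk : ℝ) ^ 6 ≤ (399 / 400) ^ A.l := by
  have h3 : ((A.blk : ℝ) ^ 6) ^ 100 ≤ 2 ^ A.l := by
    have h4 : (A.blk ^ 6) ^ 100 ≤ 2 ^ A.l := by
      unfold blk
      rw [← pow_mul, ← pow_mul]
      exact Nat.pow_le_pow_right (by norm_num) (by omega)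
    exact_mod_cast h4
  have h5 : ((99 / 100 : ℝ) ^ A.l * (A.blk : ℝ) ^ 6) ^ 100 ≤ ((399 / 400) ^ A.l) ^ 100 := by
    calc ((99 / 100 : ℝ) ^ A.l * (A.blk : ℝ) ^ 6) ^ 100
        = ((99 / 100 : ℝ) ^ 100) ^ A.l * ((A.blk : ℝ) ^ 6) ^ 100 := by
          rw [mul_pow, ← pow_mul (99 / 100 : ℝ), mul_comm A.l 100, pow_mul]
      _ ≤ ((99 / 100 : ℝ) ^ 100) ^ A.l * 2 ^ A.l := by gcongr
      _ = ((99 / 100 : ℝ) ^ 100 * 2) ^ A.l := by rw [mul_pow]
      _ ≤ ((399 / 400) ^ 100) ^ A.l := pow_le_pow_left₀ (by positivity) (by norm_num) _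
      _ = ((399 / 400) ^ A.l) ^ 100 := by rw [← pow_mul, ← pow_mul, mul_comm A.l 100]
  exact (pow_le_pow_iff_left₀ (by positivity) (by positivity) (by norm_num)).1 h5

lemma blk_pow_le_two (A : Sys) : (A.blk : ℝ) ^ 6 ≤ 2 ^ A.l := by
  have := blk_pow_le A
  have h4 : A.blk ^ 6 ≤ 2 ^ A.l := this.trans (Nat.pow_le_pow_right (by norm_num) (by omega))
  exact_mod_cast h4

lemma blk_eta_le' (hl : 600 ≤ A.l) :
    3 * ((A.blk : ℝ) ^ 6 * ((1 / 2 : ℝ) ^ (100 * A.l) * (4 ^ A.l * 16 ^ A.l))) ≤ (1 / 2) ^ (90 * A.l) := by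
  have h3 := blk_pow_le_two A
  have h5 : (3 : ℝ) ≤ 2 ^ A.l := by
    calc (3 : ℝ) ≤ 2 ^ 2 := by norm_num
      _ ≤ 2 ^ A.l := pow_le_pow_right₀ (by norm_num) (by omega)
  calc 3 * ((A.blk : ℝ) ^ 6 * ((1 / 2 : ℝ) ^ (100 * A.l) * (4 ^ A.l * 16 ^ A.l)))
      ≤ 2 ^ A.l * (2 ^ A.l * ((1 / 2 : ℝ) ^ (100 * A.l) * (4 ^ A.l * 16 ^ A.l))) := by gcongr
    _ = ((2 : ℝ) * (2 * ((1 / 2) ^ 100 * (4 * 16)))) ^ A.l := by
        rw [pow_mul, mul_pow, mul_pow, mul_pow, mul_pow]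
    _ ≤ ((1 / 2) ^ 90) ^ A.l := pow_le_pow_left₀ (by positivity) (by norm_num) _
    _ = (1 / 2) ^ (90 * A.l) := by rw [← pow_mul]

/-- Sharp crossing for one system. -/
theorem Str.cross_sharp (hA : A.Str) (hE : EqdFor A) {T : ℤ → Prop} {N : ℤ → ℝ} {B X κ : ℝ}
    {ψ : ℝ → ℤ → ℝ} (hψ : XData A T N B X κ ψ) (hκ : 0 ≤ κ)
    {D g : ℕ} {Y Y' G b : ℝ} {Λ : (ℕ → ℤ → ℝ) → ℝ} (hb : 0 ≤ b)
    (hΛ : Lin (RegP T D Y Y') Λ) (hD : 22 * A.l ≤ D) (hone : Λ (fun _ _ => 1) ≤ 16 ^ A.l * b)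
    (hB0 : 0 ≤ B) (hY : 1 ≤ Y') (hB : B ^ 16 ≤ (Y' - 1) ^ 16 * 3 ^ D)
    (hg1 : 11 * (D + 17 * A.blk * A.l) ≤ g) (hg2 : 16 * g ≤ A.l * A.blk ^ 6)
    (hG1 : 2 ^ (g + 12 * A.l) ≤ G) (hG2 : G ≤ 2 ^ (g + 12 * A.l + 1)) (hX : (Y + 5) * G ≤ X) :
    G * (κ * ((1 - (399 / 400) ^ A.l) * Λ (A.PP^[17 * A.blk] (fun _ _ => 1))) -
      (κ + 1) * ((1 / 2) ^ (90 * A.l) * b)) ≤ Λ (fun J v => 2 ^ J / 3 ^ D * N v) := by
  have hl := hA.hl
  have hb2 := blk_two_le hl
  have hL := hA.linP_iter hψ.tree hD hB0 hY hB hΛ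
  set ns := 17 * A.blk with hns
  set ne := A.blk ^ 6 with hne
  have hnsne : ns ≤ ne := by
    have h1 : 32 ≤ A.blk ^ 5 := by
      calc 32 = 2 ^ 5 := by norm_num
        _ ≤ A.blk ^ 5 := Nat.pow_le_pow_left hb2 5
    calc ns = 17 * A.blk := hns
      _ ≤ A.blk ^ 5 * A.blk := by nlinarith
      _ = ne := by rw [hne]; ring
  set η : ℝ := (1 / 2 : ℝ) ^ (100 * A.l) * (4 ^ A.l * (16 ^ A.l * b)) with hη
  have hη0 : 0 ≤ η := by positivity
  -- masses are bounded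
  have hE0 : ∀ m ≤ ne, Λ (A.PP^[m] (fun _ _ => 1)) ≤ 4 ^ A.l * (16 ^ A.l * b) := by
    intro m hm
    have h1 : Λ (A.PP^[m] (fun _ _ => 1)) ≤ Λ (fun _ _ => 4 ^ A.l * 1) := by
      refine hΛ.mono _ _ fun J v _ => ?_
      rw [mul_one, A.PP_iter_const]
      exact hA.iter_one_le'' (by omega) v
    rw [hΛ.smul] at h1
    exact h1.trans (mul_le_mul_of_nonneg_left hone (by positivity))
  -- equidistribution
  have hE1 : ∀ (n : ℕ) (f : ℕ → ℤ → ℝ), ns ≤ n → n ≤ ne → (∀ J, Per (A.q ^ 101) (f J)) →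
      (∀ J v, 0 ≤ f J v) → (∀ J v, f J v ≤ 2 ^ (200 * A.l)) →
      |Λ (A.PP^[n] f) - Λ (A.PP^[n] (fun J _ => CollatzOne.mean (A.q ^ 101) (f J)))| ≤ η := by
    intro n f h1 h2 hf1 hf2 hf3
    have h3 := hΛ.abs_sub_le (f := A.PP^[n] f) (g := A.PP^[n] (fun J _ => CollatzOne.mean (A.q ^ 101) (f J)))
      (k := A.PP^[n - 17 * A.blk] (fun _ _ => 1)) (c := (1 / 2 : ℝ) ^ (100 * A.l))
      (fun J v _ => hE n f h1 hf1 hf2 hf3 J v)
    refine h3.trans ?_
    have h4 := hE0 (n - 17 * A.blk) (by omega)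
    exact mul_le_mul_of_nonneg_left h4 (by positivity)
  set s : ℕ → ℝ := fun n => Λ (A.PP^[n] (fun J _ => A.io D g n J)) with hs
  set c : ℕ → ℝ := fun n => Λ (A.PP^[n] (fun J _ => A.io D g n J * A.pc D g n J)) with hc
  have hs0 : ∀ n, 0 ≤ s n := fun n => (hL n).nonneg fun J v _ => A.io_nonneg _ _ _ _
  have hc0 : ∀ n, 0 ≤ c n := fun n =>
    (hL n).nonneg fun J v _ => mul_nonneg (A.io_nonneg _ _ _ _) (A.pc_nonneg _ _ _ _)
  -- the mass equation
  have hE2 : ∀ n, ns ≤ n → n ≤ ne → |s (n + 1) - (A.Z * s n - c n)| ≤ η := by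
    intro n h1 h2
    have h3 := hE1 n (A.PP (fun J _ => A.io D g (n + 1) J)) h1 h2
      (A.PP_per 100 (fun J _ => A.io D g (n + 1) J) (fun _ _ => rfl))
      (A.PP_nonneg_one (fun J _ => A.io_nonneg _ _ _ _)) (fun J v => by
        refine (A.PP_mono_one (g := fun _ _ => 1) (fun J _ => A.io_le_one _ _ _ _) J v).trans
          ((hA.PP_one_le J v).trans ?_)
        rw [show (4 : ℝ) = 2 ^ 2 by norm_num, ← pow_mul]
        exact pow_le_pow_right₀ (by norm_num) (by omega))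
    have h4 : (fun (J : ℕ) (_ : ℤ) => CollatzOne.mean (A.q ^ 101) (A.PP (fun J _ => A.io D g (n + 1) J) J)) =
        fun J _ => A.Z * A.io D g n J - A.io D g n J * A.pc D g n J := by
      funext J v
      rw [A.mean_stay]
      ring
    rw [h4, ← Function.iterate_succ_apply] at h3
    have h5 : Λ (A.PP^[n] (fun J _ => A.Z * A.io D g n J - A.io D g n J * A.pc D g n J)) =
        A.Z * s n - c n := by
      have h6 := (hL n).sub (fun J _ => A.Z * A.io D g n J) (fun J _ => A.io D g n J * A.pc D g n J)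
      have h7 := (hL n).smul A.Z (fun J _ => A.io D g n J)
      rw [h6, h7]
    rw [h5] at h3
    exact h3
  -- crossing masses
  have hE3 : ∀ n, ns ≤ n → n ≤ ne → κ * c n - η ≤ Λ (A.PP^[n] (A.Tq ψ D g G n)) := by
    intro n h1 h2
    have h3 := hE1 n (A.Tq ψ D g G n) h1 h2 (Tq_per hψ D g G n) (Tq_nonneg hψ D g G n) (hA.Tq_le hψ hG1 hG2 n)
    have h4 : κ * c n ≤ Λ (A.PP^[n] (fun J _ => CollatzOne.mean (A.q ^ 101) (A.Tq ψ D g G n J))) := by
      have h5 := (hL n).smul κ (fun J _ => A.io D g n J * A.pc D g n J)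
      rw [← h5]
      exact (hL n).mono _ _ fun J v _ => hA.mean_Tq hψ hG1 hG2 n J
    have h6 := (abs_le.1 h3).1
    linarith
  -- counting
  have hg59 : 59 * A.l ≤ g := by omega
  set U : ℕ → ℝ := fun n => Λ (A.PP^[n] (fun J v => A.io D g n J * A.VQ N D n J v)) with hU
  have hG0 : 0 ≤ G := le_trans (by positivity) hG1
  have hE4 : ∀ n, U (n + 1) + G * Λ (A.PP^[n] (A.Tq ψ D g G n)) ≤ U n := by
    intro n
    have h1 := (hL n).mono (fun J v => A.PP (fun J v => A.io D g (n + 1) J * A.VQ N D (n + 1) J v) J v +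
      G * A.Tq ψ D g G n J v) (fun J v => A.io D g n J * A.VQ N D n J v)
      (fun J v hJ => hA.countP_step hψ hD hg59 hG1 hG2 hX hB0 hY hB hJ)
    have h2 := (hL n).add (A.PP (fun J v => A.io D g (n + 1) J * A.VQ N D (n + 1) J v))
      (fun J v => G * A.Tq ψ D g G n J v)
    have h3 := (hL n).smul G (A.Tq ψ D g G n)
    rw [h2, h3, ← Function.iterate_succ_apply] at h1
    exact h1
  have hE5 : ∀ n, Λ (A.PP^[n] (A.VQ N D n)) ≤ Λ (fun J v => 2 ^ J / 3 ^ D * N v) := by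
    intro n
    induction n with
    | zero =>
      refine le_of_eq ?_
      show Λ (A.VQ N D 0) = _
      congr 1
    | succ n ih =>
      refine le_trans ?_ ih
      rw [Function.iterate_succ_apply]
      exact (hL n).mono _ _ fun J v hJ => PP_VQ_le hψ D n J hJ.tr (regP_large' hB0 hY hB hJ)
  have hUle : U ns ≤ Λ (fun J v => 2 ^ J / 3 ^ D * N v) := by
    refine le_trans ((hL ns).mono _ _ fun J v _ => ?_) (hE5 ns)
    have h1 := VQ_nonneg hψ D ns J v
    have h2 := A.io_le_one D g ns J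
    nlinarith
  have hU0 : ∀ n, 0 ≤ U n := fun n => (hL n).nonneg fun J v _ =>
    mul_nonneg (A.io_nonneg _ _ _ _) (VQ_nonneg hψ _ _ _ _)
  have hsum : ∀ k, U (ns + k) + G * ∑ n ∈ Finset.range k, Λ (A.PP^[ns + n] (A.Tq ψ D g G (ns + n))) ≤ U ns := by
    intro k
    induction k with
    | zero => simp
    | succ k ih =>
      rw [Finset.sum_range_succ]
      have := hE4 (ns + k)
      rw [← add_assoc]
      linarith
  -- the start and the end
  have hstart : s ns = Λ (A.PP^[ns] (fun _ _ => 1)) := by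
    refine (hL ns).congr' fun J v hJ => ?_
    have hJ1 := hJ.J_le
    have h1 : A.unc D g ns J := by
      unfold unc
      have h2 : J ≤ g := by
        refine hJ1.trans (le_trans (le_of_eq ?_) hg1)
        rw [hns]; ring
      have h3 : 1 < 3 ^ (D + A.l * ns) := Nat.one_lt_pow (by omega) (by norm_num)
      calc 2 ^ J ≤ 2 ^ g := Nat.pow_le_pow_right (by norm_num) h2
        _ < 2 ^ g * 3 ^ (D + A.l * ns) := lt_mul_of_one_lt_right (by positivity) h3
    unfold io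
    rw [if_pos h1]
  have hend : s ne = 0 := by
    have h1 : s ne = Λ (A.PP^[ne] (fun _ _ => 0 * 1)) := by
      refine (hL ne).congr' fun J v hJ => ?_
      have hJ1 := hJ.ht
      have h1 : ¬ A.unc D g ne J := by
        unfold unc
        push Not
        set D' := D + A.l * ne with hD'
        have h2 : (2 ^ g * 3 ^ D') ^ 16 ≤ (2 ^ J) ^ 16 := by
          calc (2 ^ g * 3 ^ D') ^ 16 = 2 ^ (16 * g) * 3 ^ (16 * D') := by
                rw [mul_pow, ← pow_mul, ← pow_mul, mul_comm g, mul_comm D']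
            _ ≤ 3 ^ D' * 3 ^ (16 * D') := by
                refine Nat.mul_le_mul_right _ ?_
                calc 2 ^ (16 * g) ≤ 2 ^ D' := Nat.pow_le_pow_right (by norm_num) (by omega)
                  _ ≤ 3 ^ D' := Nat.pow_le_pow_left (by norm_num) _
            _ = 3 ^ (17 * D') := by rw [← pow_add]; congr 1; ring
            _ ≤ 2 ^ (16 * J) := hJ1
            _ = (2 ^ J) ^ 16 := by rw [← pow_mul, mul_comm]
        exact (Nat.pow_le_pow_iff_left (by norm_num)).1 h2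
      unfold io
      rw [if_neg h1, zero_mul]
    rw [h1]
    have h2 := (hL ne).smul 0 (fun _ _ => 1)
    rw [h2, zero_mul]
  -- the masses do not grow
  have hgrow : ∀ k, ns + k ≤ ne → s (ns + k) ≤ s ns + k * η := by
    intro k
    induction k with
    | zero => intro _; simp
    | succ k ih =>
      intro hk
      have h1 := ih (by omega)
      have h2 := (abs_le.1 (hE2 (ns + k) (by omega) (by omega))).2
      have h3 := hc0 (ns + k)
      have h4 := hs0 (ns + k)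
      have h5 : A.Z * s (ns + k) ≤ s (ns + k) := mul_le_of_le_one_left h4 hA.Z_le
      rw [← add_assoc]
      push_cast
      linarith
  -- summation
  obtain ⟨K, hK⟩ : ∃ K, ne = ns + K := ⟨ne - ns, by omega⟩
  have hKne : (K : ℝ) ≤ (A.blk : ℝ) ^ 6 := by
    have : K ≤ ne := by omega
    rw [hne] at this
    exact_mod_cast this
  have hx0 : 0 ≤ (99 / 100 : ℝ) ^ A.l := by positivity
  have hcsum : s ns - (99 / 100 : ℝ) ^ A.l * (K * (s ns + K * η)) - K * η ≤
      ∑ n ∈ Finset.range K, c (ns + n) := by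
    have h1 : ∀ n ∈ Finset.range K, s (ns + n) - s (ns + n + 1) -
        (99 / 100 : ℝ) ^ A.l * (s ns + K * η) - η ≤ c (ns + n) := by
      intro n hn
      have hn' := Finset.mem_range.1 hn
      have h2 := (abs_le.1 (hE2 (ns + n) (by omega) (by omega))).1
      have h3 := hgrow n (by omega)
      have h4 : (n : ℝ) ≤ K := by exact_mod_cast hn'.le
      have h5 : s (ns + n) ≤ s ns + K * η := by
        have := mul_le_mul_of_nonneg_right h4 hη0
        linarith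
      have h6 := hs0 (ns + n)
      have h7 := hA.Z_ge
      have h8 : (1 - A.Z) * s (ns + n) ≤ (99 / 100 : ℝ) ^ A.l * (s ns + K * η) :=
        mul_le_mul (by linarith) h5 h6 hx0
      linarith
    refine le_trans (le_of_eq ?_) (Finset.sum_le_sum h1)
    have h9 : ∑ n ∈ Finset.range K, (s (ns + n) - s (ns + n + 1)) = s ns - s ne := by
      have := Finset.sum_range_sub' (fun n => s (ns + n)) K
      rw [hK]
      simpa [add_assoc] using this
    rw [Finset.sum_sub_distrib, Finset.sum_sub_distrib, h9, hend, Finset.sum_const, Finset.sum_const,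
      Finset.card_range, nsmul_eq_mul, nsmul_eq_mul]
    ring
  have hThsum : κ * ∑ n ∈ Finset.range K, c (ns + n) - K * η ≤
      ∑ n ∈ Finset.range K, Λ (A.PP^[ns + n] (A.Tq ψ D g G (ns + n))) := by
    have h1 := Finset.sum_le_sum fun n (hn : n ∈ Finset.range K) =>
      hE3 (ns + n) (by omega) (by have := Finset.mem_range.1 hn; omega)
    rw [Finset.sum_sub_distrib, ← Finset.mul_sum, Finset.sum_const, Finset.card_range, nsmul_eq_mul] at h1
    exact h1
  have hfin := hsum K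
  have hU1 := hU0 (ns + K)
  have hρ := blk_pow_kappa A
  have hρ1 : (399 / 400 : ℝ) ^ A.l ≤ 1 := pow_le_one₀ (by norm_num) (by norm_num)
  have hxK : (99 / 100 : ℝ) ^ A.l * K ≤ (399 / 400) ^ A.l := by
    refine le_trans ?_ hρ
    gcongr
  have hηK : 3 * (K * η) ≤ (1 / 2) ^ (90 * A.l) * b := by
    refine le_trans ?_ (mul_le_mul_of_nonneg_right (blk_eta_le' hl) hb)
    have e1 : 3 * ((A.blk : ℝ) ^ 6 * ((1 / 2 : ℝ) ^ (100 * A.l) * (4 ^ A.l * 16 ^ A.l))) * b =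
        3 * ((A.blk : ℝ) ^ 6 * η) := by rw [hη]; ring
    rw [e1]
    gcongr
  have hηK0 : 0 ≤ K * η := by positivity
  have hsns : 0 ≤ s ns + K * η := by
    have := hs0 ns
    positivity
  have h1 : (99 / 100 : ℝ) ^ A.l * (K * (s ns + K * η)) ≤ (399 / 400) ^ A.l * (s ns + K * η) := by
    rw [← mul_assoc]
    exact mul_le_mul_of_nonneg_right hxK hsns
  have h1' : (399 / 400 : ℝ) ^ A.l * (K * η) ≤ 1 * (K * η) := mul_le_mul_of_nonneg_right hρ1 hηK0
  have h2 : (1 - (399 / 400) ^ A.l) * s ns - 2 * (K * η) ≤ ∑ n ∈ Finset.range K, c (ns + n) := by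
    linarith
  have h3 : κ * ((1 - (399 / 400) ^ A.l) * s ns) - (κ + 1) * ((1 / 2) ^ (90 * A.l) * b) ≤
      ∑ n ∈ Finset.range K, Λ (A.PP^[ns + n] (A.Tq ψ D g G (ns + n))) := by
    refine le_trans ?_ hThsum
    have h4 := mul_le_mul_of_nonneg_left h2 hκ
    have h5 : κ * (2 * (K * η)) ≤ κ * ((1 / 2) ^ (90 * A.l) * b) := mul_le_mul_of_nonneg_left (by linarith) hκ
    linarith
  rw [← hstart]
  calc _ ≤ G * ∑ n ∈ Finset.range K, Λ (A.PP^[ns + n] (A.Tq ψ D g G (ns + n))) :=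
        mul_le_mul_of_nonneg_left h3 hG0
    _ ≤ U ns := by linarith
    _ ≤ _ := hUle

end Sys

end CollatzOne
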