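import Pool.Agent.CollatzDens.Cross2
import Pool.Agent.CollatzNat.Defs

set_option autoImplicit false

/-!
Sharp crossing: definitions.  `N v` will be the number of the descendants of `v` of size at most
`X` along paths that stay above a threshold, `T v` the tree condition, `B` the size from which on
everything stays above the threshold.
-/

namespace CollatzOne

/-- Data for a sharp crossing. -/
structure XData (A : Sys) (T : ℤ → Prop) (N : ℤ → ℝ) (B X κ : ℝ) (ψ : ℝ → ℤ → ℝ) : Prop where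
  nonneg : ∀ v, 0 ≤ N v
  tree : ∀ w v, A.valid w v → T v → B ≤ |(v : ℝ)| → T (A.child w v)
  cnt : ∀ v, T v → B ≤ |(v : ℝ)| → ∑ w, (if A.valid w v then N (A.child w v) else 0) ≤ N v
  psi_nonneg : ∀ s v, 0 ≤ ψ s v
  psi_le : ∀ s, 2 ^ A.l ≤ s → s ≤ 2 ^ (12 * A.l + 1) → ∀ v, ψ s v ≤ 2 ^ (190 * A.l)
  per : ∀ s, Per (3 ^ (100 * A.l)) (ψ s)
  mean : ∀ s, 2 ^ A.l ≤ s → s ≤ 2 ^ (12 * A.l + 1) → κ ≤ mean (3 ^ (100 * A.l)) (ψ s)
  count : ∀ s v, 2 ^ A.l ≤ s → s ≤ 2 ^ (12 * A.l + 1) → T v → B ≤ |(v : ℝ)| →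
    s * (|(v : ℝ)| + 4 * (3 / 2) ^ (100 * A.l)) ≤ X → s * ψ s v ≤ N v

end CollatzOne
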