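import Pool.Agent.CollatzNat.Defs

set_option autoImplicit false

/-!
# Positivity and countable additivity of the natural densities

The two main theorems (existence of the densities and tightness) enter as hypotheses.
-/

namespace CollatzNat

open CollatzOne CollatzExp Finset Filter Topology

/-- The set `S` of integers has the natural density `d`. -/
def HasDensity (S : Set ℤ) (d : ℝ) : Prop :=
  Tendsto (fun N : ℕ => ({n : ℤ | |n| ≤ N ∧ n ∈ S}.ncard : ℝ) / (2 * N + 1)) atTop (𝓝 d)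

/-- The set `S` is completely invariant under the Collatz map. -/
def Inv (S : Set ℤ) : Prop := ∀ n, n ∈ S ↔ C n ∈ S

lemma Inv.iter {S : Set ℤ} (hS : Inv S) (k : ℕ) (n : ℤ) : n ∈ S ↔ C^[k] n ∈ S := by
  induction k generalizing n with
  | zero => rfl
  | succ k ih => rw [Function.iterate_succ_apply, ← ih]; exact hS n

lemma box_finite (N : ℕ) (S : Set ℤ) : {n : ℤ | |n| ≤ N ∧ n ∈ S}.Finite :=
  (Set.finite_Icc (-(N : ℤ)) N).subset fun n hn => by
    have := abs_le.1 hn.1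
    exact ⟨this.1, this.2⟩

/-- The number of elements of `S` of absolute value at most `N`. -/
noncomputable def bc (S : Set ℤ) (N : ℕ) : ℝ := ({n : ℤ | |n| ≤ N ∧ n ∈ S}.ncard : ℝ)

lemma bc_nonneg (S : Set ℤ) (N : ℕ) : 0 ≤ bc S N := Nat.cast_nonneg _

lemma bc_mono {S T : Set ℤ} (h : S ⊆ T) (N : ℕ) : bc S N ≤ bc T N :=
  Nat.cast_le.2 (Set.ncard_le_ncard (fun _ hn => ⟨hn.1, h hn.2⟩) (box_finite N T))

lemma bc_union_le (S T : Set ℤ) (N : ℕ) : bc (S ∪ T) N ≤ bc S N + bc T N := by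
  unfold bc
  have h : {n : ℤ | |n| ≤ N ∧ n ∈ S ∪ T} = {n : ℤ | |n| ≤ N ∧ n ∈ S} ∪ {n : ℤ | |n| ≤ N ∧ n ∈ T} := by
    ext n
    simp only [Set.mem_ofPred_eq, Set.mem_union]
    tauto
  rw [h]
  exact_mod_cast Set.ncard_union_le _ _

lemma bc_union {S T : Set ℤ} (hd : Disjoint S T) (N : ℕ) : bc (S ∪ T) N = bc S N + bc T N := by
  unfold bc
  have h : {n : ℤ | |n| ≤ N ∧ n ∈ S ∪ T} = {n : ℤ | |n| ≤ N ∧ n ∈ S} ∪ {n : ℤ | |n| ≤ N ∧ n ∈ T} := by
    ext n
    simp only [Set.mem_ofPred_eq, Set.mem_union]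
    tauto
  rw [h, Set.ncard_union_eq _ (box_finite N S) (box_finite N T)]
  · push_cast; rfl
  · rw [Set.disjoint_left] at hd ⊢
    exact fun n h1 h2 => hd h1.2 h2.2

lemma bc_univ (N : ℕ) : bc Set.univ N = 2 * N + 1 := by
  unfold bc
  have h : {n : ℤ | |n| ≤ N ∧ n ∈ (Set.univ : Set ℤ)} = ((Finset.Icc (-(N : ℤ)) N : Finset ℤ) : Set ℤ) := by
    ext n
    simp only [Set.mem_ofPred_eq, Set.mem_univ, and_true, Finset.coe_Icc, Set.mem_Icc, abs_le]
  rw [h, Set.ncard_coe_finset, Int.card_Icc]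
  have : ((N : ℤ) + 1 - -(N : ℤ)).toNat = 2 * N + 1 := by omega
  rw [this]
  push_cast
  ring

lemma bc_biUnion {ι : Type*} {S : ι → Set ℤ} (hdisj : Pairwise (Function.onFun Disjoint S))
    (F : Finset ι) (N : ℕ) : bc (⋃ i ∈ F, S i) N = ∑ i ∈ F, bc (S i) N := by
  classical
  induction F using Finset.induction_on with
  | empty =>
    unfold bc
    simp
  | insert a F ha ih =>
    rw [Finset.set_biUnion_insert, bc_union, ih, sum_insert ha]
    rw [Set.disjoint_iUnion₂_right]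
    intro i hi
    exact hdisj (fun h => ha (h ▸ hi))

lemma HasDensity.nonneg {S : Set ℤ} {d : ℝ} (h : HasDensity S d) : 0 ≤ d :=
  ge_of_tendsto' h fun N => div_nonneg (Nat.cast_nonneg _) (by positivity)

lemma hasDensity_univ : HasDensity Set.univ 1 := by
  unfold HasDensity
  have h : ∀ N : ℕ, ({n : ℤ | |n| ≤ N ∧ n ∈ (Set.univ : Set ℤ)}.ncard : ℝ) / (2 * N + 1) = 1 := by
    intro N
    have := bc_univ N
    unfold bc at this
    rw [this]
    have h1 : (0 : ℝ) < 2 * N + 1 := by positivity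
    field_simp
  rw [tendsto_congr h]
  exact tendsto_const_nhds

/-- The density of an invariant set that contains a nonzero integer is positive. -/
theorem pos_density {S : Set ℤ} (hS : Inv S) {m : ℤ} (hm : m ∈ S) (hm0 : m ≠ 0) {d : ℝ}
    (h : HasDensity S d) : 0 < d := by
  obtain ⟨c, hc, hmain⟩ := merge_density collatz_density m hm0
  have h1 : ∀ N : ℕ, |m| ≤ N → 1 ≤ N → c / 3 ≤ ({n : ℤ | |n| ≤ N ∧ n ∈ S}.ncard : ℝ) / (2 * N + 1) := by
    intro N hN hN1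
    have hN' : |(m : ℝ)| ≤ (N : ℝ) := by exact_mod_cast hN
    have h2 := hmain N hN'
    have h3 : ({n : ℤ | |(n : ℝ)| ≤ (N : ℝ) ∧ (0 < n * m ∧ ∃ i j : ℕ, C^[i] n = C^[j] m)}.ncard : ℝ) ≤
        ({n : ℤ | |n| ≤ N ∧ n ∈ S}.ncard : ℝ) := by
      refine Nat.cast_le.2 (Set.ncard_le_ncard (fun n hn => ?_) (box_finite N S))
      obtain ⟨h4, -, i, j, h5⟩ := hn
      refine ⟨by exact_mod_cast h4, ?_⟩
      rw [hS.iter i n, h5, ← hS.iter j m]
      exact hm
    rw [le_div_iff₀ (by positivity)]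
    have h4 : (1 : ℝ) ≤ N := by exact_mod_cast hN1
    nlinarith
  have h2 : c / 3 ≤ d := by
    refine ge_of_tendsto h ?_
    filter_upwards [eventually_ge_atTop (max m.natAbs 1)] with N hN
    refine h1 N ?_ ((le_max_right _ _).trans hN)
    have := (le_max_left _ _).trans hN
    rw [Int.abs_eq_natAbs]
    exact_mod_cast this
  linarith

/-- Countable additivity of the densities of invariant sets. -/
theorem hasSum_density
    (tight : ∀ {ε : ℝ}, 0 < ε → ∃ M : ℕ, ∃ N₀ : ℕ, ∀ N ≥ N₀,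
      (1 - ε) * (2 * N + 1) ≤ ({n : ℤ | |n| ≤ N ∧ ∃ k : ℕ, |C^[k] n| ≤ M}.ncard : ℝ))
    {ι : Type*} {S : ι → Set ℤ} (hS : ∀ i, Inv (S i)) (hdisj : Pairwise (Function.onFun Disjoint S))
    {d : ι → ℝ} (hd : ∀ i, HasDensity (S i) (d i)) {D : ℝ} (hD : HasDensity (⋃ i, S i) D) :
    HasSum d D := by
  classical
  refine hasSum_of_isLUB_of_nonneg D (fun i => (hd i).nonneg) ?_
  -- finite unions
  have hfin : ∀ F : Finset ι, Tendsto (fun N : ℕ => bc (⋃ i ∈ F, S i) N / (2 * N + 1)) atTop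
      (𝓝 (∑ i ∈ F, d i)) := by
    intro F
    have h1 : ∀ N : ℕ, bc (⋃ i ∈ F, S i) N / (2 * N + 1) = ∑ i ∈ F, bc (S i) N / (2 * N + 1) := by
      intro N
      rw [bc_biUnion hdisj, sum_div]
    rw [tendsto_congr h1]
    exact tendsto_finsetSum _ fun i _ => hd i
  constructor
  · rintro _ ⟨F, rfl⟩
    refine le_of_tendsto_of_tendsto' (hfin F) hD fun N => ?_
    refine div_le_div_of_nonneg_right (bc_mono ?_ N) (by positivity)
    exact Set.iUnion₂_subset fun i _ => Set.subset_iUnion S i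
  · intro u hu
    refine le_of_forall_pos_le_add fun ε hε => ?_
    obtain ⟨M, N₀, hM⟩ := tight hε
    -- the sets that meet `[-M, M]`
    have hfinF : {i : ι | ∃ m ∈ S i, |m| ≤ (M : ℤ)}.Finite := by
      have h1 : ∀ i ∈ {i : ι | ∃ m ∈ S i, |m| ≤ (M : ℤ)}, ∃ m : ℤ, m ∈ S i ∧ |m| ≤ (M : ℤ) :=
        fun i hi => by obtain ⟨m, h1, h2⟩ := hi; exact ⟨m, h1, h2⟩
      choose! f hf using h1
      refine Set.Finite.of_finite_image (f := f) ((Set.finite_Icc (-(M : ℤ)) M).subset ?_) ?_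
      · rintro _ ⟨i, hi, rfl⟩
        have := abs_le.1 (hf i hi).2
        exact ⟨this.1, this.2⟩
      · intro i hi j hj hij
        by_contra hne
        have h1 := Set.disjoint_left.1 (hdisj hne) (hf i hi).1
        apply h1
        rw [hij]
        exact (hf j hj).1
    set F : Finset ι := hfinF.toFinset with hF
    have h2 : ∀ N : ℕ, N₀ ≤ N → bc (⋃ i, S i) N / (2 * N + 1) ≤ bc (⋃ i ∈ F, S i) N / (2 * N + 1) + ε := by
      intro N hN
      have h3 := hM N hN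
      set A : Set ℤ := {n : ℤ | ∃ k : ℕ, |C^[k] n| ≤ M} with hA
      have h4 : bc (⋃ i, S i) N ≤ bc (⋃ i ∈ F, S i) N + bc Aᶜ N := by
        refine le_trans (bc_mono ?_ N) (bc_union_le _ _ N)
        intro n hn
        obtain ⟨i, hi⟩ := Set.mem_iUnion.1 hn
        by_cases hnA : n ∈ A
        · left
          obtain ⟨k, hk⟩ := hnA
          refine Set.mem_iUnion₂.2 ⟨i, ?_, hi⟩
          rw [hF, Set.Finite.mem_toFinset]
          exact ⟨C^[k] n, ((hS i).iter k n).1 hi, hk⟩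
        · right
          exact hnA
      have h5 : bc A N + bc Aᶜ N = 2 * N + 1 := by
        rw [← bc_union disjoint_compl_right, Set.union_compl_self, bc_univ]
      have h6 : (1 - ε) * (2 * N + 1) ≤ bc A N := h3
      have h7 : (0 : ℝ) < 2 * N + 1 := by positivity
      rw [div_le_iff₀ h7, add_mul, div_mul_cancel₀ _ h7.ne']
      linarith
    have h3 : D ≤ ∑ i ∈ F, d i + ε := by
      refine le_of_tendsto_of_tendsto hD ((hfin F).add_const ε) ?_
      filter_upwards [eventually_ge_atTop N₀] with N hN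
      exact h2 N hN
    have h4 : ∑ i ∈ F, d i ≤ u := hu ⟨F, rfl⟩
    linarith

/-- Two integers are in the same grand orbit if their trajectories meet. -/
def orb : Setoid ℤ where
  r n m := ∃ i j : ℕ, C^[i] n = C^[j] m
  iseqv := by
    refine ⟨fun n => ⟨0, 0, rfl⟩, fun ⟨i, j, h⟩ => ⟨j, i, h.symm⟩, ?_⟩
    rintro n m p ⟨i, j, h1⟩ ⟨k, l, h2⟩
    refine ⟨k + i, j + l, ?_⟩
    rw [Function.iterate_add_apply, h1, ← Function.iterate_add_apply, add_comm k j,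
      Function.iterate_add_apply, h2, ← Function.iterate_add_apply]

/-- The grand orbit `q`. -/
def orbSet (q : Quotient orb) : Set ℤ := {n | Quotient.mk orb n = q}

lemma orbSet_inv (q : Quotient orb) : Inv (orbSet q) := by
  intro n
  have h : Quotient.mk orb n = Quotient.mk orb (C n) := Quotient.sound ⟨1, 0, rfl⟩
  unfold orbSet
  rw [Set.mem_ofPred_eq, Set.mem_ofPred_eq, h]

/-- The densities of the grand orbits sum to one. -/
theorem hasSum_orb
    (tight : ∀ {ε : ℝ}, 0 < ε → ∃ M : ℕ, ∃ N₀ : ℕ, ∀ N ≥ N₀,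
      (1 - ε) * (2 * N + 1) ≤ ({n : ℤ | |n| ≤ N ∧ ∃ k : ℕ, |C^[k] n| ≤ M}.ncard : ℝ))
    {d : Quotient orb → ℝ} (hd : ∀ q, HasDensity (orbSet q) (d q)) : HasSum d 1 := by
  refine hasSum_density tight orbSet_inv ?_ hd ?_
  · intro q q' hqq
    rw [Function.onFun, Set.disjoint_left]
    intro n h1 h2
    exact hqq (h1.symm.trans h2)
  · have : (⋃ q, orbSet q) = Set.univ := by
      rw [Set.eq_univ_iff_forall]
      intro n
      exact Set.mem_iUnion.2 ⟨Quotient.mk orb n, rfl⟩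
    rw [this]
    exact hasDensity_univ

/-! ### Half lines -/

lemma C_pos_iff (n : ℤ) : 0 < C n ↔ 0 < n := by
  unfold C
  split_ifs with h
  · obtain ⟨k, rfl⟩ := h
    omega
  · rw [Int.not_even_iff] at h
    omega

/-- The part of an invariant set in the positive integers has a natural density. -/
theorem half_density
    (inv_density : ∀ S : Set ℤ, (∀ n, n ∈ S ↔ C n ∈ S) → ∃ d : ℝ,
      Tendsto (fun N : ℕ => ({n : ℤ | |n| ≤ N ∧ n ∈ S}.ncard : ℝ) / (2 * N + 1)) atTop (𝓝 d))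
    (S : Set ℤ) (hS : ∀ n, 0 < n → (n ∈ S ↔ C n ∈ S)) :
    ∃ d : ℝ, (∀ m ∈ S, 0 < m → 0 < d) ∧
      Tendsto (fun N : ℕ => ({n : ℤ | 1 ≤ n ∧ n ≤ N ∧ n ∈ S}.ncard : ℝ) / N) atTop (𝓝 d) := by
  set S' : Set ℤ := {n | 0 < n ∧ n ∈ S} with hS'
  have hinv : Inv S' := by
    intro n
    rw [hS', Set.mem_ofPred_eq, Set.mem_ofPred_eq, C_pos_iff]
    by_cases hn : 0 < n
    · simp only [hn, true_and]; exact hS n hn
    · simp only [hn, false_and]
  obtain ⟨d, hd⟩ := inv_density S' hinv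
  refine ⟨2 * d, fun m hm hm0 => ?_, ?_⟩
  · have := pos_density hinv (m := m) ⟨hm0, hm⟩ (by omega) hd
    linarith
  · have h1 : ∀ N : ℕ, {n : ℤ | |n| ≤ N ∧ n ∈ S'} = {n : ℤ | 1 ≤ n ∧ n ≤ N ∧ n ∈ S} := by
      intro N
      ext n
      rw [hS', Set.mem_ofPred_eq, Set.mem_ofPred_eq, Set.mem_ofPred_eq]
      constructor
      · rintro ⟨h1, h2, h3⟩
        exact ⟨by omega, (abs_le.1 h1).2, h3⟩
      · rintro ⟨h1, h2, h3⟩
        exact ⟨by rw [abs_of_pos (by omega)]; exact h2, by omega, h3⟩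
    have h2 : Tendsto (fun N : ℕ => 2 + 1 / (N : ℝ)) atTop (𝓝 (2 + 0)) :=
      tendsto_const_nhds.add (tendsto_const_nhds.div_atTop tendsto_natCast_atTop_atTop)
    have h3 := h2.mul hd
    rw [add_zero] at h3
    refine h3.congr' ?_
    filter_upwards [eventually_gt_atTop 0] with N hN
    rw [h1]
    have h4 : (0 : ℝ) < N := by exact_mod_cast hN
    field_simp

/-- Almost all positive trajectories attain bounded values. -/
theorem half_tight
    (tight : ∀ {ε : ℝ}, 0 < ε → ∃ M : ℕ, ∃ N₀ : ℕ, ∀ N ≥ N₀,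
      (1 - ε) * (2 * N + 1) ≤ ({n : ℤ | |n| ≤ N ∧ ∃ k : ℕ, |C^[k] n| ≤ M}.ncard : ℝ))
    {ε : ℝ} (hε : 0 < ε) : ∃ M : ℕ, ∃ N₀ : ℕ, ∀ N ≥ N₀,
      (1 - ε) * N ≤ ({n : ℤ | 1 ≤ n ∧ n ≤ N ∧ ∃ k : ℕ, C^[k] n ≤ M}.ncard : ℝ) := by
  obtain ⟨M, N₀, h⟩ := tight (show 0 < ε / 4 by positivity)
  obtain ⟨N₁, hN₁⟩ := exists_nat_gt (2 / ε)
  refine ⟨M, max N₀ N₁, fun N hN => ?_⟩
  have h1 := h N ((le_max_left _ _).trans hN)
  have h2 : (N₁ : ℝ) ≤ N := by exact_mod_cast (le_max_right _ _).trans hN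
  have h3 : 2 ≤ ε * N := by
    rw [div_lt_iff₀ hε] at hN₁
    nlinarith
  have h4 : ({n : ℤ | |n| ≤ N ∧ ∃ k : ℕ, |C^[k] n| ≤ M}.ncard : ℝ) ≤
      ({n : ℤ | 1 ≤ n ∧ n ≤ N ∧ ∃ k : ℕ, C^[k] n ≤ M}.ncard : ℝ) + (N + 1) := by
    have h5 : {n : ℤ | |n| ≤ N ∧ ∃ k : ℕ, |C^[k] n| ≤ M} ⊆
        {n : ℤ | 1 ≤ n ∧ n ≤ N ∧ ∃ k : ℕ, C^[k] n ≤ M} ∪ ((Finset.Icc (-(N : ℤ)) 0 : Finset ℤ) : Set ℤ) := by
      rintro n ⟨h6, k, h7⟩
      by_cases hn : 1 ≤ n
      · left
        exact ⟨hn, (abs_le.1 h6).2, k, (abs_le.1 h7).2⟩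
      · right
        rw [Finset.coe_Icc]
        exact ⟨(abs_le.1 h6).1, by omega⟩
    have h8 : {n : ℤ | 1 ≤ n ∧ n ≤ N ∧ ∃ k : ℕ, C^[k] n ≤ M}.Finite :=
      (Set.finite_Icc (1 : ℤ) N).subset fun n hn => ⟨hn.1, hn.2.1⟩
    have h9 := (Set.ncard_le_ncard h5 (h8.union (Finset.finite_toSet _))).trans (Set.ncard_union_le _ _)
    rw [Set.ncard_coe_finset, Int.card_Icc] at h9
    have h10 : ((0 : ℤ) + 1 - -(N : ℤ)).toNat = N + 1 := by omega
    rw [h10] at h9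
    exact_mod_cast h9
  nlinarith

end CollatzNat
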