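import Pool.Agent.CollatzDens.Renewal
import Pool.Agent.CollatzNat.Blackwell3

set_option autoImplicit false

/-!
The normalised number of descendants within `M` single moves (each at most `E`) up to the relative
height `s`: its mean is the truncated renewal function.
-/

namespace CollatzNat

open CollatzOne Finset

/-- Normalised number of descendants within `M` letters (each `≤ E`) of height at most `s`. -/
noncomputable def psN (E : ℕ) : ℕ → ℝ → ℤ → ℝ
  | 0, s, _ => phi0 s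
  | M + 1, s, v => phi0 s + ∑ e ∈ Icc 1 E,
      if v1 e v then (3 : ℝ) / 2 ^ e * psN E M (3 * s / 2 ^ e) (c1 e v) else 0

/-- Its mean. -/
noncomputable def gE (E : ℕ) : ℕ → ℝ → ℝ
  | 0, s => phi0 s
  | M + 1, s => phi0 s + ∑ e ∈ Icc 1 E, 1 / 2 ^ e * gE E M (3 * s / 2 ^ e)

lemma psN_succ (E M : ℕ) (s : ℝ) (v : ℤ) : psN E (M + 1) s v = phi0 s + ∑ e ∈ Icc 1 E,
      if v1 e v then (3 : ℝ) / 2 ^ e * psN E M (3 * s / 2 ^ e) (c1 e v) else 0 := rfl

lemma psN_nonneg (E M : ℕ) (s : ℝ) (v : ℤ) : 0 ≤ psN E M s v := by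
  induction M generalizing s v with
  | zero => exact phi0_nonneg s
  | succ M ih =>
    rw [psN_succ]
    refine add_nonneg (phi0_nonneg s) (sum_nonneg fun e _ => ?_)
    split_ifs
    · exact mul_nonneg (by positivity) (ih _ _)
    · exact le_rfl

lemma phi0_le_one (s : ℝ) : phi0 s ≤ 1 := by
  unfold phi0
  split_ifs with h
  · rw [div_le_one (by linarith)]; exact h
  · norm_num

lemma psN_le (E M : ℕ) (s : ℝ) (v : ℤ) : psN E M s v ≤ 2 ^ (M + 1) - 1 := by
  induction M generalizing s v with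
  | zero =>
    have := phi0_le_one s
    show phi0 s ≤ _
    norm_num
    exact this
  | succ M ih =>
    rw [psN_succ]
    have h1 : ∑ e ∈ Icc 1 E, (if v1 e v then (3 : ℝ) / 2 ^ e * psN E M (3 * s / 2 ^ e) (c1 e v) else 0) ≤
        ∑ e ∈ Icc 1 E, (if v1 e v then (3 : ℝ) / 2 ^ e else 0) * (2 ^ (M + 1) - 1) := by
      refine sum_le_sum fun e _ => ?_
      split_ifs
      · exact mul_le_mul_of_nonneg_left (ih _ _) (by positivity)
      · simp
    rw [← sum_mul] at h1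
    have h2 := sum_v1_le E v
    have h3 := phi0_le_one s
    have h4 : (1 : ℝ) ≤ 2 ^ (M + 1) := one_le_pow₀ (by norm_num)
    have h5 : (∑ e ∈ Icc 1 E, (if v1 e v then (3 : ℝ) / 2 ^ e else 0)) * (2 ^ (M + 1) - 1) ≤
        2 * (2 ^ (M + 1) - 1) := mul_le_mul_of_nonneg_right h2 (by linarith)
    rw [pow_succ 2 (M + 1)]
    linarith

lemma psN_per (E M : ℕ) (s : ℝ) : Per (3 ^ M) (psN E M s) := by
  induction M generalizing s with
  | zero => intro v; rfl
  | succ M ih =>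
    intro v
    rw [psN_succ, psN_succ]
    congr 1
    refine sum_congr rfl fun e _ => ?_
    exact per_c1 M e (ih (3 * s / 2 ^ e)) v

lemma mean_psN (E M : ℕ) (s : ℝ) : mean (3 ^ M) (psN E M s) = gE E M s := by
  induction M generalizing s with
  | zero =>
    unfold mean
    rw [show psN E 0 s = fun _ => phi0 s from rfl, S_const]
    simp [gE]
  | succ M ih =>
    have h1 : ∀ v : ℤ, psN E (M + 1) s v = phi0 s + ∑ e ∈ Icc 1 E,
      if v1 e v then (3 : ℝ) / 2 ^ e * psN E M (3 * s / 2 ^ e) (c1 e v) else 0 := fun v => rfl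
    unfold mean
    rw [S_congr h1, S_add, add_div, S_sum, sum_div, S_const]
    have h3 : ((3 ^ (M + 1) : ℕ) : ℝ) * phi0 s / ((3 ^ (M + 1) : ℕ) : ℝ) = phi0 s := by
      push_cast
      field_simp
    rw [h3]
    show _ = phi0 s + ∑ e ∈ Icc 1 E, 1 / 2 ^ e * gE E M (3 * s / 2 ^ e)
    congr 1
    refine sum_congr rfl fun e _ => ?_
    have h4 := mean_c1 M e (psN_per E M (3 * s / 2 ^ e))
    unfold mean at h4 ih
    rw [h4, ih]

lemma bq_le (e : ℕ) : bq e ≤ 3 / 2 := by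
  unfold bq
  have : (1 / 2 : ℝ) ^ (e + 1) ≤ (1 / 2) ^ 1 := pow_le_pow_of_le_one (by norm_num) (by norm_num) (by omega)
  linarith

lemma gg_zero_of_small (M : ℕ) : ∀ s, 0 < s → s * (3 / 2) ^ M < 1 → gg M s = 0 := by
  induction M with
  | zero =>
    intro s _ h
    rw [pow_zero, mul_one] at h
    show phi0 s = 0
    unfold phi0
    rw [if_neg (not_le.2 h)]
  | succ M ih =>
    intro s hs h
    have h1 : s < 1 := by
      have h2 : (1 : ℝ) ≤ (3 / 2) ^ (M + 1) := one_le_pow₀ (by norm_num)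
      nlinarith
    have h2 : phi0 s = 0 := by unfold phi0; rw [if_neg (not_le.2 h1)]
    have h3 : Rop (gg M) s = 0 := by
      unfold Rop
      have h4 : ∀ e, ew e * gg M (bq e * s) = 0 := by
        intro e
        rw [ih (bq e * s) (mul_pos (bq_pos e) hs), mul_zero]
        refine lt_of_le_of_lt ?_ h
        have h5 : bq e ≤ 3 / 2 := bq_le e
        rw [pow_succ]
        calc bq e * s * (3 / 2) ^ M ≤ 3 / 2 * s * (3 / 2) ^ M := by gcongr
          _ = s * ((3 / 2) ^ M * (3 / 2)) := by ring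
      rw [tsum_congr h4, tsum_zero]
    show phi0 s + Rop (gg M) s = 0
    rw [h2, h3, add_zero]

lemma gE_eq_gg (E M : ℕ) : ∀ s, 0 < s → 3 * s * (3 / 2) ^ M ≤ 2 ^ E → gE E M s = gg M s := by
  induction M with
  | zero => intro s _ _; rfl
  | succ M ih =>
    intro s hs h
    show phi0 s + _ = phi0 s + _
    congr 1
    unfold Rop
    rw [tsum_eq_sum (s := range E)]
    · have h1 : ∑ e ∈ Icc 1 E, 1 / 2 ^ e * gE E M (3 * s / 2 ^ e) =
          ∑ e ∈ Ico 1 (E + 1), 1 / 2 ^ e * gE E M (3 * s / 2 ^ e) := rfl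
      rw [h1, sum_Ico_eq_sum_range, Nat.add_sub_cancel]
      refine sum_congr rfl fun e _ => ?_
      have h2 : 3 * s / 2 ^ (1 + e) = bq e * s := by
        unfold bq
        rw [one_div_pow, add_comm 1 e]
        ring
      have h3 : bq e ≤ 3 / 2 := bq_le e
      rw [h2, ih (bq e * s) (mul_pos (bq_pos e) hs)]
      · unfold ew
        rw [one_div_pow, add_comm 1 e]
      · refine le_trans ?_ h
        rw [pow_succ]
        calc 3 * (bq e * s) * (3 / 2) ^ M ≤ 3 * (3 / 2 * s) * (3 / 2) ^ M := by gcongr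
          _ = 3 * s * ((3 / 2) ^ M * (3 / 2)) := by ring
    · intro e he
      rw [mem_range, not_lt] at he
      rw [gg_zero_of_small M _ (mul_pos (bq_pos e) hs), mul_zero]
      have h4 : bq e ≤ 3 / 2 ^ (E + 1) := by
        unfold bq
        rw [one_div_pow, mul_one_div]
        gcongr
        · norm_num
      have hM : (0 : ℝ) < (3 / 2) ^ M := by positivity
      calc bq e * s * (3 / 2) ^ M ≤ 3 / 2 ^ (E + 1) * s * (3 / 2) ^ M := by gcongr
        _ = (3 * s * (3 / 2) ^ M) / 2 ^ (E + 1) := by ring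
        _ < 1 := by
          rw [div_lt_one (by positivity), pow_succ 2 E]
          rw [pow_succ] at h
          have : 0 < 3 * s * (3 / 2) ^ M := by positivity
          have : (0 : ℝ) < 2 ^ E := by positivity
          nlinarith

/-- The tail of the renewal function. -/
lemma gl_sub_gg (M : ℕ) : ∀ s, 0 < s → gl s - gg M s ≤ 20 * (19 / 20) ^ M * √s := by
  induction M with
  | zero =>
    intro s hs
    have := gl_le_sqrt hs
    have h2 : 0 ≤ gg 0 s := gg_nonneg 0 s hs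
    rw [pow_zero]
    linarith
  | succ M ih =>
    intro s hs
    have h1 := gl_eq hs
    have h2 : gg (M + 1) s = phi0 s + Rop (gg M) s := rfl
    have h3 : Rop gl s - Rop (gg M) s = Rop (fun t => gl t - gg M t) s := by
      unfold Rop
      rw [← (summable_gl hs).tsum_sub (summable_gg M hs)]
      exact tsum_congr fun e => by ring
    have h4 := Rop_sqrt_le (φ := fun t => gl t - gg M t) hs (fun t ht => by
      have := gg_le_gl ht M
      show 0 ≤ gl t - gg M t
      linarith) ih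
    have h5 := rho_le
    have h6 : 20 * (19 / 20) ^ M * rho * √s ≤ 20 * (19 / 20) ^ (M + 1) * √s := by
      rw [pow_succ]
      have : 0 ≤ 20 * (19 / 20 : ℝ) ^ M * √s := by positivity
      nlinarith
    linarith

lemma gE_nonneg (E M : ℕ) (s : ℝ) : 0 ≤ gE E M s := by
  induction M generalizing s with
  | zero => exact phi0_nonneg s
  | succ M ih => exact add_nonneg (phi0_nonneg s) (sum_nonneg fun e _ => mul_nonneg (by positivity) (ih _))

lemma gE_succ (E M : ℕ) (s : ℝ) : gE E (M + 1) s = phi0 s + ∑ e ∈ Icc 1 E, 1 / 2 ^ e * gE E M (3 * s / 2 ^ e) := rfl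

lemma gE_mono_M (E M : ℕ) (s : ℝ) : gE E M s ≤ gE E (M + 1) s := by
  induction M generalizing s with
  | zero =>
    rw [gE_succ]
    have : 0 ≤ ∑ e ∈ Icc 1 E, 1 / 2 ^ e * gE E 0 (3 * s / 2 ^ e) :=
      sum_nonneg fun e _ => mul_nonneg (by positivity) (gE_nonneg _ _ _)
    show phi0 s ≤ _
    linarith
  | succ M ih =>
    rw [gE_succ E M, gE_succ E (M + 1)]
    have := sum_le_sum (s := Icc 1 E) fun e _ =>
      mul_le_mul_of_nonneg_left (ih (3 * s / 2 ^ e)) (show (0 : ℝ) ≤ 1 / 2 ^ e by positivity)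
    linarith

lemma gE_mono_E {E E' : ℕ} (h : E ≤ E') (M : ℕ) (s : ℝ) : gE E M s ≤ gE E' M s := by
  induction M generalizing s with
  | zero => exact le_rfl
  | succ M ih =>
    rw [gE_succ, gE_succ]
    have h1 := sum_le_sum (s := Icc 1 E) fun e _ =>
      mul_le_mul_of_nonneg_left (ih (3 * s / 2 ^ e)) (show (0 : ℝ) ≤ 1 / 2 ^ e by positivity)
    have h2 : ∑ e ∈ Icc 1 E, 1 / 2 ^ e * gE E' M (3 * s / 2 ^ e) ≤ ∑ e ∈ Icc 1 E', 1 / 2 ^ e * gE E' M (3 * s / 2 ^ e) :=
      sum_le_sum_of_subset_of_nonneg (Icc_subset_Icc le_rfl h)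
        (fun e _ _ => mul_nonneg (by positivity) (gE_nonneg _ _ _))
    linarith

lemma gE_mono {E E' M M' : ℕ} (h : E ≤ E') (h' : M ≤ M') (s : ℝ) : gE E M s ≤ gE E' M' s :=
  (gE_mono_E h M s).trans (monotone_nat_of_le_succ (fun M => gE_mono_M E' M s) h')

/-- Lower bound of the renewal theorem for the truncated renewal functions. -/
theorem gE_lower {ε : ℝ} (hε : 0 < ε) : ∃ (y₀ : ℝ) (l₀ : ℕ), 1 ≤ y₀ ∧ ∀ l E M : ℕ, l₀ ≤ l → 100 * l ≤ E →
    100 * l ≤ M + 2 → ∀ s : ℝ, y₀ ≤ s → s ≤ 2 ^ (12 * l + 3) → 1 / mu0 - ε ≤ gE E M s := by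
  obtain ⟨S, hS⟩ := gl_lower (show 0 < ε / 2 by positivity)
  obtain ⟨l2, hl2⟩ := pow_unbounded_of_one_lt (160 / ε) (show (1 : ℝ) < 2 by norm_num)
  refine ⟨max 1 S, max 1 l2, le_max_left _ _, fun l E M hl hE hM s hs1 hs2 => ?_⟩
  have hl0 : 1 ≤ l := (le_max_left _ _).trans hl
  have hl2' : l2 ≤ l := (le_max_right _ _).trans hl
  have hs0 : 1 ≤ s := (le_max_left _ _).trans hs1
  refine le_trans ?_ (gE_mono hE (show 100 * l - 2 ≤ M by omega) s)
  rw [gE_eq_gg _ _ s (by linarith)]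
  · have h1 := hS s ((le_max_right _ _).trans hs1)
    have h2 := gl_sub_gg (100 * l - 2) s (by linarith)
    have h3 : 20 * (19 / 20) ^ (100 * l - 2) * √s ≤ ε / 2 := by
      have h4 : √s ≤ 3 * 2 ^ (6 * l) := by
        rw [Real.sqrt_le_left (by positivity)]
        refine hs2.trans ?_
        rw [mul_pow, ← pow_mul, show 6 * l * 2 = 12 * l by ring, pow_add]
        have : (0 : ℝ) < 2 ^ (12 * l) := by positivity
        linarith
      have h5 : (19 / 20 : ℝ) ^ (100 * l - 2) ≤ 5 / 4 * (1 / 2 ^ 7) ^ l := by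
        have h6 : (19 / 20 : ℝ) ^ (100 * l) = (19 / 20) ^ (100 * l - 2) * (19 / 20) ^ 2 := by
          rw [← pow_add]; congr 1; omega
        have h7 : (19 / 20 : ℝ) ^ (100 * l) ≤ (1 / 2 ^ 7) ^ l := by
          rw [pow_mul]
          exact pow_le_pow_left₀ (by positivity) (by norm_num) l
        have h8 : (0 : ℝ) < (1 / 2 ^ 7) ^ l := by positivity
        nlinarith
      have h6 : (1 / 2 ^ 7 : ℝ) ^ l * 2 ^ (6 * l) = 1 / 2 ^ l := by
        have h9 : (1 / 2 ^ 7 : ℝ) ^ l * 2 ^ (6 * l) = (1 / 2) ^ l := by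
          rw [pow_mul, ← mul_pow]
          congr 1
          norm_num
        rw [h9, one_div_pow]
      have h7 : 160 / ε < 2 ^ l := lt_of_lt_of_le hl2 (pow_le_pow_right₀ (by norm_num) hl2')
      calc 20 * (19 / 20) ^ (100 * l - 2) * √s ≤ 20 * (5 / 4 * (1 / 2 ^ 7) ^ l) * (3 * 2 ^ (6 * l)) := by gcongr
        _ = 75 * ((1 / 2 ^ 7) ^ l * 2 ^ (6 * l)) := by ring
        _ = 75 / 2 ^ l := by rw [h6]; ring
        _ ≤ ε / 2 := by
          rw [div_le_iff₀ (by positivity)]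
          rw [div_lt_iff₀ hε] at h7
          linarith
    linarith
  · have h10 : (3 / 2 : ℝ) ^ (100 * l - 2) ≤ (3 / 2) ^ (100 * l) := pow_le_pow_right₀ (by norm_num) (by omega)
    calc 3 * s * (3 / 2) ^ (100 * l - 2) ≤ 3 * 2 ^ (12 * l + 3) * (3 / 2) ^ (100 * l) := by gcongr
      _ ≤ 3 * 2 ^ (12 * l + 3) * 2 ^ (59 * l) := by
        gcongr
        rw [pow_mul, pow_mul]
        exact pow_le_pow_left₀ (by positivity) (by norm_num) l
      _ ≤ 2 ^ 2 * 2 ^ (12 * l + 3) * 2 ^ (59 * l) := by gcongr; norm_num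
      _ = 2 ^ (2 + (12 * l + 3) + 59 * l) := by rw [← pow_add, ← pow_add]
      _ ≤ 2 ^ (100 * l) := pow_le_pow_right₀ (by norm_num) (by omega)

/-- The mean of the normalised number of descendants. -/
theorem psN_mean {ε : ℝ} (hε : 0 < ε) : ∃ (y₀ : ℝ) (l₀ : ℕ), 1 ≤ y₀ ∧ ∀ l E M : ℕ, l₀ ≤ l → 100 * l ≤ E →
    100 * l ≤ M + 2 → ∀ s : ℝ, y₀ ≤ s → s ≤ 2 ^ (12 * l + 3) → 1 / mu0 - ε ≤ mean (3 ^ M) (psN E M s) := by
  obtain ⟨y₀, l₀, hy, h⟩ := gE_lower hε
  refine ⟨y₀, l₀, hy, fun l E M h1 h2 h3 s h4 h5 => ?_⟩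
  rw [mean_psN]
  exact h l E M h1 h2 h3 s h4 h5

end CollatzNat
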