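import Pool.Agent.CollatzNat.Defs

set_option autoImplicit false

/-!
# The normalised final count

Nonnegativity, periodicity, upper bound, counting property and mean of `psiN`.
-/

namespace CollatzNat.Psi

open CollatzOne CollatzExp Finset
open CollatzLin (ht ht_pos dst)

/-! ### The odd predecessors -/

lemma three_uj {j : ℕ} (hj : j % 2 = 1) (v : ℤ) : 3 * uj j v = 2 ^ j * (3 * v - 1) - 1 := by
  unfold uj
  have h := two_pow_mod_three j
  rw [if_pos hj] at h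
  have h2 : (2 ^ j * (3 * v - 1) - 1 : ℤ) = 3 * (2 ^ j * v) - (2 ^ j + 1) := by ring
  have h3 : (3 : ℤ) ∣ 2 ^ j * (3 * v - 1) - 1 := by
    rw [h2]
    exact dvd_sub (dvd_mul_right _ _) (by omega)
  exact Int.mul_ediv_cancel' h3

lemma uj_add {j : ℕ} (hj : j % 2 = 1) (v u : ℤ) : uj j (v + 3 * u) = uj j v + 3 * (2 ^ j * u) := by
  have h1 := three_uj hj v
  have h2 := three_uj hj (v + 3 * u)
  have h3 : (3 : ℤ) * uj j (v + 3 * u) = 3 * (uj j v + 3 * (2 ^ j * u)) := by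
    rw [h2]
    linear_combination -h1
  exact mul_left_cancel₀ (by norm_num) h3

lemma uj_mod_add {j : ℕ} (hj : j % 2 = 1) (v u : ℤ) : uj j (v + 3 * u) % 3 = uj j v % 3 := by
  rw [uj_add hj, Int.add_mul_emod_self_left]

lemma mem_odds {K j : ℕ} : j ∈ odds K ↔ j ≤ K ∧ j % 2 = 1 := by
  unfold odds
  rw [mem_filter, mem_range]
  omega

lemma uj_affine {j : ℕ} (hj : j % 2 = 1) (v : ℤ) : uj j v = 2 ^ j * v + uj j 0 := by
  have h1 := three_uj hj v
  have h2 := three_uj hj 0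
  have h3 : (3 : ℤ) * uj j v = 3 * (2 ^ j * v + uj j 0) := by
    rw [h1]
    linear_combination -h2
  exact mul_left_cancel₀ (by norm_num) h3

lemma abs_uj_le {j : ℕ} (hj : j % 2 = 1) (v : ℤ) : |(uj j v : ℝ)| ≤ 2 ^ j * (|(v : ℝ)| + 2 / 3) := by
  have h1 : (3 : ℝ) * uj j v = 2 ^ j * (3 * v - 1) - 1 := by exact_mod_cast three_uj hj v
  have h2 : (uj j v : ℝ) = 2 ^ j * v - (2 ^ j + 1) / 3 := by linarith
  rw [h2]
  refine (abs_sub _ _).trans ?_
  have h3 : (1 : ℝ) ≤ 2 ^ j := one_le_pow₀ (by norm_num)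
  rw [abs_mul, abs_of_pos (show (0 : ℝ) < 2 ^ j by positivity),
    abs_of_pos (show (0 : ℝ) < (2 ^ j + 1) / 3 by positivity)]
  linarith

/-! ### The count at a word -/

lemma ownw_nonneg (K : ℕ) (s : ℝ) (W : List ℕ) (u : ℤ) : 0 ≤ ownw K s W u := by
  unfold ownw
  refine add_nonneg (sum_nonneg fun i _ => ?_) (sum_nonneg fun j _ => add_nonneg ?_
    (sum_nonneg fun i _ => ?_))
  all_goals
    split_ifs
    · exact zero_le_one
    · exact le_rfl

lemma ownw_per (K : ℕ) (s : ℝ) (W : List ℕ) (u k : ℤ) : ownw K s W (u + 3 * k) = ownw K s W u := by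
  unfold ownw
  congr 1
  refine sum_congr rfl fun j hj => ?_
  rw [uj_mod_add (mem_odds.1 hj).2]

theorem psiN_nonneg (K l : ℕ) {s : ℝ} (hs : 0 ≤ s) (v : ℤ) : 0 ≤ psiN K l s v := by
  unfold psiN
  refine mul_nonneg (by positivity) (sum_nonneg fun D _ => sum_nonneg fun W _ => ?_)
  split_ifs
  · exact ownw_nonneg K s W _
  · exact le_rfl

theorem psiN_per (K : ℕ) {l : ℕ} (hl : 1 ≤ l) (s : ℝ) : Per (3 ^ (100 * l)) (psiN K l s) := by
  intro v
  unfold psiN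
  congr 1
  refine sum_congr rfl fun D hD => sum_congr rfl fun W hW => ?_
  rw [mem_range] at hD
  have hlen := CollatzLin.length_of_mem hW
  obtain ⟨k, hk⟩ : ∃ k, 100 * l = D + (k + 1) := ⟨100 * l - D - 1, by omega⟩
  have h1 : v + ((3 ^ (100 * l) : ℕ) : ℤ) = v + 3 ^ D * 3 ^ (k + 1) := by
    rw [hk]; push_cast; ring
  rw [h1]
  by_cases hv : vd W v
  · rw [if_pos hv, if_pos ((CollatzLin.vd_shift hlen _ _).2 hv), CollatzLin.ch_shift hlen hv]
    rw [show ch W v + 2 ^ js W * 3 ^ (k + 1) = ch W v + 3 * (2 ^ js W * 3 ^ k) by ring]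
    exact ownw_per K s W _ _
  · rw [if_neg hv, if_neg (fun h => hv ((CollatzLin.vd_shift hlen _ _).1 h))]

/-! ### Upper bound -/

lemma sum_half_le (K : ℕ) : ∑ i ∈ range (K + 1), (1 : ℝ) / 2 ^ i ≤ 2 := by
  have h : ∀ n : ℕ, ∑ i ∈ range n, (1 : ℝ) / 2 ^ i = 2 - 2 / 2 ^ n := by
    intro n
    induction n with
    | zero => simp
    | succ n ih => rw [sum_range_succ, ih, pow_succ]; field_simp; ring
  rw [h]
  have : (0 : ℝ) < 2 / 2 ^ (K + 1) := by positivity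
  linarith

lemma sum_Icc_half_le (K : ℕ) : ∑ i ∈ Icc 1 K, (1 : ℝ) / 2 ^ i ≤ 1 := by
  rw [CollatzLin.sum_letters]
  exact CollatzLin.Z_le_one K

lemma sum_odds_le (K : ℕ) : ∑ j ∈ odds K, (1 : ℝ) / 2 ^ j ≤ 2 / 3 := by
  have h : ∀ n : ℕ, ∑ j ∈ odds n, (1 : ℝ) / 2 ^ j + (if n % 2 = 1 then 1 / 3 else 2 / 3) / 2 ^ n = 2 / 3 := by
    intro n
    induction n with
    | zero =>
      have h0 : odds 0 = ∅ := by
        ext j; rw [mem_odds]; simp; omega
      rw [h0]; norm_num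
    | succ n ih =>
      have hodds : odds (n + 1) = if (n + 1) % 2 = 1 then insert (n + 1) (odds n) else odds n := by
        split_ifs with h
        · ext j; rw [mem_insert, mem_odds, mem_odds]; omega
        · ext j; rw [mem_odds, mem_odds]
          constructor
          · rintro ⟨h1, h2⟩
            refine ⟨?_, h2⟩
            rcases Nat.lt_or_ge j (n + 1) with h3 | h3
            · omega
            · exfalso; apply h; rw [show n + 1 = j by omega]; exact h2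
          · rintro ⟨h1, h2⟩; exact ⟨by omega, h2⟩
      rw [hodds]
      by_cases h : (n + 1) % 2 = 1
      · have h2 : ¬ n % 2 = 1 := by omega
        rw [if_neg h2] at ih
        rw [if_pos h, if_pos h, sum_insert (by rw [mem_odds]; omega)]
        rw [pow_succ]
        have h3 : (1 : ℝ) / (2 ^ n * 2) + ∑ j ∈ odds n, (1 : ℝ) / 2 ^ j + 1 / 3 / (2 ^ n * 2) =
            ∑ j ∈ odds n, (1 : ℝ) / 2 ^ j + 2 / 3 / 2 ^ n := by
          field_simp; ring
        rw [h3, ih]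
      · have h2 : n % 2 = 1 := by omega
        rw [if_pos h2] at ih
        rw [if_neg h, if_neg h, pow_succ]
        have h3 : ∑ j ∈ odds n, (1 : ℝ) / 2 ^ j + 2 / 3 / (2 ^ n * 2) =
            ∑ j ∈ odds n, (1 : ℝ) / 2 ^ j + 1 / 3 / 2 ^ n := by
          field_simp
        rw [h3, ih]
  have h2 := h K
  have h3 : (0 : ℝ) ≤ (if K % 2 = 1 then (1 : ℝ) / 3 else 2 / 3) / 2 ^ K := by
    split_ifs <;> positivity
  linarith

lemma ind_le {a h s : ℝ} (ha : 0 < a) (hh : 0 < h) (hs : 0 < s) (p : Prop) [Decidable (p ∧ a * h ≤ s)] :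
    (if p ∧ a * h ≤ s then (1 : ℝ) else 0) ≤ s / h * (1 / a) := by
  split_ifs with h1
  · rw [div_mul_div_comm, mul_one, le_div_iff₀ (by positivity), one_mul]
    linarith [h1.2]
  · positivity

lemma ownw_le (K : ℕ) {s : ℝ} (hs : 0 < s) (W : List ℕ) (u : ℤ) :
    ownw K s W u ≤ 6 * s * (1 / ht W) := by
  have hh := ht_pos W
  have h1 : ∑ i ∈ range (K + 1), (if (2 : ℝ) ^ i * ht W ≤ s then (1 : ℝ) else 0) ≤ s / ht W * 2 := by
    refine (sum_le_sum (g := fun i => s / ht W * (1 / 2 ^ i)) fun i _ => ?_).trans ?_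
    · split_ifs with h1
      · rw [div_mul_div_comm, mul_one, le_div_iff₀ (by positivity), one_mul]
        linarith
      · positivity
    · rw [← mul_sum]
      exact mul_le_mul_of_nonneg_left (sum_half_le K) (by positivity)
  have h2 : ∑ j ∈ odds K, ((if uj j u % 3 ≠ 2 ∧ (2 : ℝ) ^ j * ht W ≤ 3 * s then (1 : ℝ) else 0) +
    ∑ i ∈ Icc 1 K, (if uj j u % 3 = 0 ∧ (2 : ℝ) ^ (i + j) * ht W ≤ 3 * s then (1 : ℝ) else 0)) ≤
      3 * s / ht W * (2 * (2 / 3)) := by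
    refine (sum_le_sum (g := fun j => 3 * s / ht W * (2 * (1 / 2 ^ j))) fun j _ => ?_).trans ?_
    · have h3 := ind_le (p := uj j u % 3 ≠ 2) (show (0 : ℝ) < 2 ^ j by positivity) hh
        (show (0 : ℝ) < 3 * s by positivity)
      have h4 : ∑ i ∈ Icc 1 K, (if uj j u % 3 = 0 ∧ (2 : ℝ) ^ (i + j) * ht W ≤ 3 * s then (1 : ℝ) else 0) ≤
          3 * s / ht W * (1 / 2 ^ j) := by
        refine (sum_le_sum (g := fun i => 3 * s / ht W * (1 / 2 ^ j) * (1 / 2 ^ i)) fun i _ => ?_).trans ?_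
        · have h5 := ind_le (p := uj j u % 3 = 0) (show (0 : ℝ) < 2 ^ (i + j) by positivity) hh
            (show (0 : ℝ) < 3 * s by positivity)
          refine h5.trans (le_of_eq ?_)
          rw [pow_add]
          field_simp
        · rw [← mul_sum]
          have := mul_le_mul_of_nonneg_left (sum_Icc_half_le K)
            (show (0 : ℝ) ≤ 3 * s / ht W * (1 / 2 ^ j) by positivity)
          rwa [mul_one] at this
      have h6 : 3 * s / ht W * (2 * (1 / 2 ^ j)) = 3 * s / ht W * (1 / 2 ^ j) + 3 * s / ht W * (1 / 2 ^ j) := by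
        ring
      simp only [h6]
      exact add_le_add h3 h4
    · rw [← mul_sum, ← mul_sum]
      have := sum_odds_le K
      have h7 : (0 : ℝ) ≤ 3 * s / ht W := by positivity
      gcongr
  unfold ownw
  have h3 : s / ht W * 2 + 3 * s / ht W * (2 * (2 / 3)) = 6 * s * (1 / ht W) := by
    field_simp; ring
  rw [← h3]
  exact add_le_add h1 h2

lemma sum_inv_ht_le {E D : ℕ} (hE : 1 ≤ E) (v : ℤ) :
    ∑ W ∈ words E D, (if vd W v then 1 / ht W else 0) ≤ 3 ^ D := by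
  have h := CollatzLin.F_le hE D v
  refine le_trans (sum_le_sum fun W hW => ?_) h
  rw [mul_one]
  split_ifs
  · unfold CollatzLin.wt
    have h1 := CollatzLin.Z_pos hE
    have h2 := CollatzLin.Z_le_one E
    have h3 : CollatzLin.Z E ^ W.length ≤ 1 := pow_le_one₀ h1.le h2
    have h4 := ht_pos W
    refine one_div_le_one_div_of_le (by positivity) ?_
    nlinarith
  · exact le_rfl

lemma sum_three_pow (n : ℕ) : ∑ D ∈ range n, (3 : ℝ) ^ D = (3 ^ n - 1) / 2 := by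
  induction n with
  | zero => simp
  | succ n ih => rw [sum_range_succ, ih, pow_succ]; ring

theorem psiN_le (K : ℕ) {l : ℕ} (hl : 1 ≤ l) {s : ℝ} (hs : 0 < s) (v : ℤ) :
    psiN K l s v ≤ 2 ^ (190 * l) := by
  have hE : 1 ≤ 200 * l := by omega
  have h1 : ∑ D ∈ range (100 * l - 1), ∑ W ∈ words (200 * l) D,
      (if vd W v then ownw K s W (ch W v) else 0) ≤ ∑ D ∈ range (100 * l - 1), 6 * s * 3 ^ D := by
    refine sum_le_sum fun D _ => ?_
    refine le_trans ?_ (mul_le_mul_of_nonneg_left (sum_inv_ht_le hE v) (by positivity))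
    rw [mul_sum]
    refine sum_le_sum fun W _ => ?_
    split_ifs
    · exact ownw_le K hs W _
    · rw [mul_zero]
  rw [← mul_sum, sum_three_pow] at h1
  have h2 : psiN K l s v ≤ 1 / s * (6 * s * ((3 ^ (100 * l - 1) - 1) / 2)) :=
    mul_le_mul_of_nonneg_left h1 (by positivity)
  refine h2.trans ?_
  have h3 : 1 / s * (6 * s * ((3 ^ (100 * l - 1) - 1) / 2)) = 3 * 3 ^ (100 * l - 1) - (3 : ℝ) := by
    field_simp; ring
  rw [h3, ← pow_succ', show 100 * l - 1 + 1 = 100 * l by omega]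
  have h4 : (3 : ℝ) ^ (100 * l) ≤ 2 ^ (190 * l) := by
    calc (3 : ℝ) ^ (100 * l) = (3 ^ 10) ^ (10 * l) := by rw [← pow_mul]; congr 1; ring
      _ ≤ (2 ^ 19) ^ (10 * l) := pow_le_pow_left₀ (by norm_num) (by norm_num) _
      _ = 2 ^ (190 * l) := by rw [← pow_mul]; congr 1; ring
  linarith

/-! ### Counting -/

lemma dst_le {W : List ℕ} (hW : ∀ e ∈ W, 1 ≤ e) : dst W ≤ 3 * (3 / 2) ^ W.length - 2 := by
  induction W with
  | nil => simp [dst]; norm_num
  | cons e W ih =>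
    have h1 := ih (fun x hx => hW x (List.mem_cons_of_mem _ hx))
    have he : 1 ≤ e := hW e (List.mem_cons_self ..)
    have h2 : (2 : ℝ) ≤ 2 ^ e := by
      calc (2 : ℝ) = 2 ^ 1 := (pow_one _).symm
        _ ≤ 2 ^ e := pow_le_pow_right₀ (by norm_num) he
    have h3 : (3 : ℝ) / 2 ^ e ≤ 3 / 2 := by
      rw [div_le_div_iff₀ (by positivity) (by norm_num)]
      linarith
    have h4 := CollatzLin.one_le_dst W
    have h5 : dst (e :: W) = 1 + 3 / 2 ^ e * dst W := rfl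
    rw [h5, List.length_cons, pow_succ]
    have h6 : (3 : ℝ) / 2 ^ e * dst W ≤ 3 / 2 * dst W := mul_le_mul_of_nonneg_right h3 (by linarith)
    linarith

lemma own_ge {K : ℕ} {s X y R : ℝ} {W : List ℕ} {v : ℤ} (hs : 0 < s) (hv : vd W v)
    (hy : |(v : ℝ)| = y) (hR : dst W * (5 / 3) ≤ R) (hX : 3 * s * (y + R) ≤ X) :
    ownw K s W (ch W v) ≤ own K X (ch W v) := by
  have hh := ht_pos W
  have h1 := CollatzLin.abs_ch_le hv
  rw [hy] at h1
  have h2 := CollatzLin.inv_ht_le_dst W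
  have hd := CollatzLin.one_le_dst W
  have h3 : 1 ≤ ht W * dst W := by
    rw [div_le_iff₀ hh] at h2
    linarith
  have hy0 : 0 ≤ y := by rw [← hy]; exact abs_nonneg _
  set u := ch W v with hu
  -- a bound for all powers
  have key : ∀ a : ℝ, 0 ≤ a → a * ht W ≤ 3 * s → a * (|(u : ℝ)| + 2 / 3) ≤ X := by
    intro a ha h
    have h4 : a * (|(u : ℝ)| + 2 / 3) ≤ a * (ht W * (y + dst W) + 2 / 3 * (ht W * dst W)) := by
      refine mul_le_mul_of_nonneg_left ?_ ha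
      linarith
    have h5 : a * (ht W * (y + dst W) + 2 / 3 * (ht W * dst W)) = a * ht W * (y + dst W * (5 / 3)) := by ring
    have h6 : a * ht W * (y + dst W * (5 / 3)) ≤ 3 * s * (y + dst W * (5 / 3)) :=
      mul_le_mul_of_nonneg_right h (by positivity)
    have h7 : 3 * s * (y + dst W * (5 / 3)) ≤ 3 * s * (y + R) := by
      refine mul_le_mul_of_nonneg_left ?_ (by positivity)
      linarith
    linarith
  unfold ownw own
  refine add_le_add (sum_le_sum fun i _ => ?_) (sum_le_sum fun j hj => add_le_add ?_ (sum_le_sum fun i _ => ?_))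
  · by_cases h : (2 : ℝ) ^ i * ht W ≤ s
    · rw [if_pos h, if_pos]
      have h4 := key (3 * 2 ^ i) (by positivity) (by linarith)
      refine le_trans ?_ h4
      have h5 : |((3 * u - 1 : ℤ) : ℝ)| ≤ 3 * |(u : ℝ)| + 1 := by
        push_cast
        refine (abs_sub _ _).trans ?_
        rw [abs_mul, abs_one, abs_of_pos (show (0 : ℝ) < 3 by norm_num)]
      calc (2 : ℝ) ^ i * |((3 * u - 1 : ℤ) : ℝ)| ≤ 2 ^ i * (3 * |(u : ℝ)| + 1) :=
            mul_le_mul_of_nonneg_left h5 (by positivity)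
        _ ≤ 3 * 2 ^ i * (|(u : ℝ)| + 2 / 3) := by
            have : (0 : ℝ) ≤ 2 ^ i := by positivity
            nlinarith
    · rw [if_neg h]
      split_ifs <;> norm_num
  · by_cases h : uj j u % 3 ≠ 2 ∧ (2 : ℝ) ^ j * ht W ≤ 3 * s
    · rw [if_pos h, if_pos]
      refine ⟨h.1, (abs_uj_le (mem_odds.1 hj).2 u).trans (key (2 ^ j) (by positivity) h.2)⟩
    · rw [if_neg h]
      split_ifs <;> norm_num
  · by_cases h : uj j u % 3 = 0 ∧ (2 : ℝ) ^ (i + j) * ht W ≤ 3 * s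
    · rw [if_pos h, if_pos]
      refine ⟨h.1, ?_⟩
      have h4 := key (2 ^ (i + j)) (by positivity) h.2
      refine le_trans ?_ h4
      rw [pow_add, mul_assoc]
      exact mul_le_mul_of_nonneg_left (abs_uj_le (mem_odds.1 hj).2 u) (by positivity)
    · rw [if_neg h]
      split_ifs <;> norm_num

open Classical in
theorem psiN_count_of
    (own_words : ∀ {x X : ℝ} (K E M : ℕ) {v : ℤ}, CollatzLin.OO v → Hit x v →
      ∑ D ∈ range M, ∑ W ∈ words E D, (if vd W v ∧ Out x W v then own K X (ch W v) else 0) ≤ NK x X v)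
    (Out_of_big : ∀ {x : ℝ}, 0 ≤ x → ∀ {n : ℕ} {v : ℤ} {W : List ℕ}, (∀ e ∈ W, 1 ≤ e) →
      W.length ≤ n → vd W v → (3 / 2) ^ n * (x + 3) ≤ |(v : ℝ)| → Out x W v)
    {x X : ℝ} {K l : ℕ} {s : ℝ} {v : ℤ} (hl : 1 ≤ l) (hx : 0 ≤ x)
    (hO : CollatzLin.OO v) (hH : Hit x v) (hs : 0 < s)
    (hb : (3 / 2) ^ (100 * l) * (x + 3) ≤ |(v : ℝ)|)
    (hX : 3 * s * (|(v : ℝ)| + 4 * (3 / 2) ^ (100 * l)) ≤ X) : s * psiN K l s v ≤ NK x X v := by
  refine le_trans ?_ (own_words K (200 * l) (100 * l - 1) hO hH)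
  unfold psiN
  rw [← mul_assoc, mul_one_div_cancel hs.ne', one_mul]
  refine sum_le_sum fun D hD => sum_le_sum fun W hW => ?_
  rw [mem_range] at hD
  have hlen := CollatzLin.length_of_mem hW
  by_cases hv : vd W v
  · have hW1 := CollatzLin.one_le_of_mem hW
    have hout : Out x W v := Out_of_big hx hW1 (by omega : W.length ≤ 100 * l) hv hb
    rw [if_pos hv, if_pos ⟨hv, hout⟩]
    refine own_ge hs hv rfl ?_ hX
    have h1 := dst_le hW1
    obtain ⟨k, hk⟩ : ∃ k, 100 * l = W.length + k := ⟨100 * l - W.length, by omega⟩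
    have h2 : (1 : ℝ) ≤ (3 / 2) ^ k := one_le_pow₀ (by norm_num)
    have h3 : (0 : ℝ) < (3 / 2) ^ W.length := by positivity
    have h4 : (3 / 2 : ℝ) ^ (W.length + 2) ≤ (3 / 2) ^ (100 * l) :=
      pow_le_pow_right₀ (by norm_num) (by omega)
    rw [pow_add] at h4
    norm_num at h4
    linarith
  · rw [if_neg hv, if_neg (fun h => hv h.1)]

/-! ### The mean -/

lemma S3_ne {j : ℕ} (hj : j % 2 = 1) (P : Prop) [Decidable P] (inst : ∀ u : ℤ, Decidable (uj j u % 3 ≠ 2 ∧ P)) :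
    S 3 (fun u => if uj j u % 3 ≠ 2 ∧ P then (1 : ℝ) else 0) = 2 * (if P then 1 else 0) := by
  rw [S_three]
  have h0 := uj_affine hj 0
  have h1 := uj_affine hj 1
  have h2 := uj_affine hj 2
  have h3 := two_pow_mod_three j
  rw [if_pos hj] at h3
  by_cases hP : P
  · simp only [hP, and_true, if_true]
    have hc : uj j 0 % 3 = 0 ∨ uj j 0 % 3 = 1 ∨ uj j 0 % 3 = 2 := by omega
    rcases hc with hc | hc | hc
    · rw [if_pos (by omega), if_neg (by omega), if_pos (by omega)]; norm_num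
    · rw [if_pos (by omega), if_pos (by omega), if_neg (by omega)]; norm_num
    · rw [if_neg (by omega), if_pos (by omega), if_pos (by omega)]; norm_num
  · simp only [hP, and_false, if_false]
    norm_num

lemma S3_eq {j : ℕ} (hj : j % 2 = 1) (P : Prop) [Decidable P] (inst : ∀ u : ℤ, Decidable (uj j u % 3 = 0 ∧ P)) :
    S 3 (fun u => if uj j u % 3 = 0 ∧ P then (1 : ℝ) else 0) = (if P then 1 else 0) := by
  rw [S_three]
  have h0 := uj_affine hj 0
  have h1 := uj_affine hj 1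
  have h2 := uj_affine hj 2
  have h3 := two_pow_mod_three j
  rw [if_pos hj] at h3
  by_cases hP : P
  · simp only [hP, and_true, if_true]
    have hc : uj j 0 % 3 = 0 ∨ uj j 0 % 3 = 1 ∨ uj j 0 % 3 = 2 := by omega
    rcases hc with hc | hc | hc
    · rw [if_pos (by omega), if_neg (by omega), if_neg (by omega)]; norm_num
    · rw [if_neg (by omega), if_pos (by omega), if_neg (by omega)]; norm_num
    · rw [if_neg (by omega), if_neg (by omega), if_pos (by omega)]; norm_num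
  · simp only [hP, and_false, if_false]
    norm_num

open Classical in
lemma mean_ownw (K : ℕ) (s : ℝ) (W : List ℕ) :
    CollatzLin.mean 3 (ownw K s W) = ∑ i ∈ range (K + 1), (if (2 : ℝ) ^ i * ht W ≤ s then (1 : ℝ) else 0) +
      ∑ j ∈ odds K, (2 / 3 * (if (2 : ℝ) ^ j * ht W ≤ 3 * s then (1 : ℝ) else 0) +
    ∑ i ∈ Icc 1 K, 1 / 3 * (if (2 : ℝ) ^ (i + j) * ht W ≤ 3 * s then (1 : ℝ) else 0)) := by
  unfold ownw
  rw [CollatzLin.mean_add, CollatzLin.mean_const (by norm_num), CollatzLin.mean_sum]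
  congr 1
  refine sum_congr rfl fun j hj => ?_
  have hj2 := (mem_odds.1 hj).2
  rw [CollatzLin.mean_add, CollatzLin.mean_sum]
  congr 1
  · unfold CollatzLin.mean
    rw [S3_ne hj2]
    push_cast
    ring
  · refine sum_congr rfl fun i _ => ?_
    unfold CollatzLin.mean
    rw [S3_eq hj2]
    push_cast
    ring

lemma mean_term {W : List ℕ} {n m : ℕ} (hW : W.length = n) {φ : ℤ → ℝ} (hφ : Per (3 ^ m) φ) :
    CollatzLin.mean (3 ^ (n + m)) (fun y => if vd W y then φ (ch W y) else 0) =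
      1 / 3 ^ n * CollatzLin.mean (3 ^ m) φ := by
  have h1 := CollatzLin.mean_vd (E := 1) hW hφ
  have h2 := CollatzLin.wt_pos (E := 1) le_rfl W
  have h3 := CollatzLin.wt_eq 1 W
  have h4 : ∀ y : ℤ, (if vd W y then φ (ch W y) else 0) =
      1 / CollatzLin.wt 1 W * (if vd W y then CollatzLin.wt 1 W * φ (ch W y) else 0) := by
    intro y
    split_ifs
    · field_simp
    · rw [mul_zero]
  rw [CollatzLin.mean_congr h4, CollatzLin.mean_mul_left, h1, ← mul_assoc]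
  congr 1
  rw [h3, hW]
  rw [h3, hW] at h2
  have h5 : 0 < CollatzLin.pr 1 W := CollatzLin.pr_pos le_rfl W
  field_simp

lemma UU_scale (E M : ℕ) (y a : ℝ) (ha : 0 < a) (q : ℕ → List ℕ → Prop) [∀ D W, Decidable (q D W)]
    (hq : ∀ D W, q D W ↔ a * ht W ≤ y) :
    ∑ D ∈ range M, ∑ W ∈ words E D, 1 / (3 : ℝ) ^ D * (if q D W then (1 : ℝ) else 0) = UU E M (y / a) := by
  unfold UU
  refine sum_congr rfl fun D _ => sum_congr rfl fun W _ => ?_
  have h : q D W ↔ ht W ≤ y / a := by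
    rw [hq, le_div_iff₀ ha, mul_comm]
  by_cases h1 : q D W
  · rw [if_pos h1, if_pos (h.1 h1), mul_one]
  · rw [if_neg h1, if_neg (fun h2 => h1 (h.2 h2)), mul_zero]

open Classical in
lemma mean_psiN_eq (K : ℕ) {l : ℕ} (hl : 1 ≤ l) (s : ℝ) :
    CollatzLin.mean (3 ^ (100 * l)) (psiN K l s) = 1 / s *
      (∑ i ∈ range (K + 1), UU (200 * l) (100 * l - 1) (s / 2 ^ i) +
        ∑ j ∈ odds K, (2 / 3 * UU (200 * l) (100 * l - 1) (3 * s / 2 ^ j) +
          ∑ i ∈ Icc 1 K, 1 / 3 * UU (200 * l) (100 * l - 1) (3 * s / 2 ^ (i + j)))) := by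
  unfold psiN
  rw [CollatzLin.mean_mul_left, CollatzLin.mean_sum]
  congr 1
  have h1 : ∀ D ∈ range (100 * l - 1), CollatzLin.mean (3 ^ (100 * l)) (fun v => ∑ W ∈ words (200 * l) D,
      if vd W v then ownw K s W (ch W v) else 0) = ∑ W ∈ words (200 * l) D,
      1 / 3 ^ D * (∑ i ∈ range (K + 1), (if (2 : ℝ) ^ i * ht W ≤ s then (1 : ℝ) else 0) +
      ∑ j ∈ odds K, (2 / 3 * (if (2 : ℝ) ^ j * ht W ≤ 3 * s then (1 : ℝ) else 0) +
    ∑ i ∈ Icc 1 K, 1 / 3 * (if (2 : ℝ) ^ (i + j) * ht W ≤ 3 * s then (1 : ℝ) else 0))) := by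
    intro D hD
    rw [mem_range] at hD
    rw [CollatzLin.mean_sum]
    refine sum_congr rfl fun W hW => ?_
    obtain ⟨k, hk⟩ : ∃ k, 100 * l = D + (k + 1) := ⟨100 * l - D - 1, by omega⟩
    have hper : Per (3 ^ 1) (ownw K s W) := by
      intro u
      have := ownw_per K s W u 1
      simpa using this
    rw [hk, mean_term (CollatzLin.length_of_mem hW) (CollatzLin.Per.pow_mono (by omega) hper),
      CollatzLin.mean_pow (n := 1) (by omega) hper, pow_one, mean_ownw]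
  rw [sum_congr rfl h1]
  have h2 : ∀ D : ℕ, ∀ W : List ℕ, 1 / (3 : ℝ) ^ D * (∑ i ∈ range (K + 1), (if (2 : ℝ) ^ i * ht W ≤ s then (1 : ℝ) else 0) +
      ∑ j ∈ odds K, (2 / 3 * (if (2 : ℝ) ^ j * ht W ≤ 3 * s then (1 : ℝ) else 0) +
    ∑ i ∈ Icc 1 K, 1 / 3 * (if (2 : ℝ) ^ (i + j) * ht W ≤ 3 * s then (1 : ℝ) else 0))) =
    ∑ i ∈ range (K + 1), 1 / (3 : ℝ) ^ D * (if (2 : ℝ) ^ i * ht W ≤ s then (1 : ℝ) else 0) +
      ∑ j ∈ odds K, (2 / 3 * (1 / (3 : ℝ) ^ D * (if (2 : ℝ) ^ j * ht W ≤ 3 * s then (1 : ℝ) else 0)) +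
    ∑ i ∈ Icc 1 K, 1 / 3 * (1 / (3 : ℝ) ^ D * (if (2 : ℝ) ^ (i + j) * ht W ≤ 3 * s then (1 : ℝ) else 0))) := by
    intro D W
    rw [mul_add, mul_sum, mul_sum]
    congr 1
    refine sum_congr rfl fun j _ => ?_
    rw [mul_add, mul_sum]
    congr 1
    · ring
    · exact sum_congr rfl fun i _ => by ring
  rw [sum_congr rfl fun D _ => sum_congr rfl fun W _ => h2 D W]
  simp only [sum_add_distrib]
  congr 1
  · have h3 : ∀ i ∈ range (K + 1), UU (200 * l) (100 * l - 1) (s / 2 ^ i) =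
        ∑ D ∈ range (100 * l - 1), ∑ W ∈ words (200 * l) D,
          1 / (3 : ℝ) ^ D * (if (2 : ℝ) ^ i * ht W ≤ s then (1 : ℝ) else 0) := fun i _ =>
      (UU_scale _ _ _ _ (by positivity) _ (fun D W => Iff.rfl)).symm
    rw [sum_congr rfl h3]
    rw [sum_congr rfl fun D _ => sum_comm, sum_comm]
  · congr 1
    · have h3 : ∀ j ∈ odds K, 2 / 3 * UU (200 * l) (100 * l - 1) (3 * s / 2 ^ j) =
        ∑ D ∈ range (100 * l - 1), ∑ W ∈ words (200 * l) D,
          2 / 3 * (1 / (3 : ℝ) ^ D * (if (2 : ℝ) ^ j * ht W ≤ 3 * s then (1 : ℝ) else 0)) := fun j _ => by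
        rw [← UU_scale _ _ _ _ (by positivity) _ (fun D W => Iff.rfl), mul_sum]
        exact sum_congr rfl fun D _ => mul_sum _ _ _
      rw [sum_congr rfl h3]
      rw [sum_congr rfl fun D _ => sum_comm, sum_comm]
    · have h3 : ∀ j ∈ odds K, ∑ i ∈ Icc 1 K, 1 / 3 * UU (200 * l) (100 * l - 1) (3 * s / 2 ^ (i + j)) =
        ∑ D ∈ range (100 * l - 1), ∑ W ∈ words (200 * l) D, ∑ i ∈ Icc 1 K,
          1 / 3 * (1 / (3 : ℝ) ^ D * (if (2 : ℝ) ^ (i + j) * ht W ≤ 3 * s then (1 : ℝ) else 0)) := fun j _ => by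
        have h4 : ∀ i ∈ Icc 1 K, 1 / 3 * UU (200 * l) (100 * l - 1) (3 * s / 2 ^ (i + j)) =
          ∑ D ∈ range (100 * l - 1), ∑ W ∈ words (200 * l) D,
          1 / 3 * (1 / (3 : ℝ) ^ D * (if (2 : ℝ) ^ (i + j) * ht W ≤ 3 * s then (1 : ℝ) else 0)) := fun i _ => by
          rw [← UU_scale _ _ _ _ (by positivity) _ (fun D W => Iff.rfl), mul_sum]
          exact sum_congr rfl fun D _ => mul_sum _ _ _
        rw [sum_congr rfl h4]
        rw [sum_comm]
        exact sum_congr rfl fun D _ => sum_comm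
      rw [sum_congr rfl h3]
      rw [sum_congr rfl fun D _ => sum_comm, sum_comm]

/-- `odds (2 k)` has sum `2 / 3 * (1 - 4 ^ (-k))`. -/
lemma sum_odds (k : ℕ) : ∑ j ∈ odds (2 * k), (1 : ℝ) / 2 ^ j = 2 / 3 * (1 - 1 / 4 ^ k) := by
  induction k with
  | zero =>
    have h0 : odds (2 * 0) = ∅ := by
      ext j; rw [mem_odds]; simp; omega
    rw [h0]; norm_num
  | succ k ih =>
    have h1 : odds (2 * (k + 1)) = insert (2 * k + 1) (odds (2 * k)) := by
      ext j; rw [mem_insert, mem_odds, mem_odds]; omega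
    rw [h1, sum_insert (by rw [mem_odds]; omega), ih, pow_succ 2 (2 * k), pow_mul, pow_succ]
    norm_num
    field_simp
    ring

lemma sum_range_half (K : ℕ) : ∑ i ∈ range (K + 1), (1 : ℝ) / 2 ^ i = 2 - 1 / 2 ^ K := by
  induction K with
  | zero => norm_num
  | succ K ih => rw [sum_range_succ, ih, pow_succ]; field_simp; ring

theorem psiN_mean_of
    (UU_ge : ∀ {ε : ℝ}, 0 < ε → ∃ (y₀ : ℝ) (l₀ : ℕ), ∀ l : ℕ, l₀ ≤ l → ∀ y : ℝ, y₀ ≤ y →
      y ≤ 2 ^ (12 * l + 3) → (1 - ε) * y / Real.log (4 / 3) ≤ UU (200 * l) (100 * l - 1) y)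
    {ε : ℝ} (hε : 0 < ε) : ∃ K l₀ : ℕ, ∀ l : ℕ, l₀ ≤ l → ∀ s : ℝ, 2 ^ l ≤ s →
    s ≤ 2 ^ (12 * l + 1) → (4 - ε) / Real.log (4 / 3) ≤ CollatzLin.mean (3 ^ (100 * l)) (psiN K l s) := by
  -- choose `δ ≤ 1` and `k`
  obtain ⟨δ, hδ0, hδ1, hδε⟩ : ∃ δ : ℝ, 0 < δ ∧ δ ≤ 1 ∧ 8 * δ ≤ ε :=
    ⟨min 1 (ε / 8), by positivity, min_le_left _ _, by linarith [min_le_right 1 (ε / 8)]⟩
  obtain ⟨y₀, l₀, h⟩ := UU_ge hδ0
  obtain ⟨k, hk⟩ : ∃ k : ℕ, (1 / 4 : ℝ) ^ k < δ := exists_pow_lt_of_lt_one hδ0 (by norm_num)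
  set K := 2 * k with hK
  obtain ⟨l₁, hl₁⟩ : ∃ l₁ : ℕ, y₀ * 2 ^ (2 * K) ≤ 2 ^ l₁ := by
    obtain ⟨n, hn⟩ := pow_unbounded_of_one_lt (y₀ * 2 ^ (2 * K)) (one_lt_two)
    exact ⟨n, hn.le⟩
  refine ⟨K, max 1 (max l₀ l₁), fun l hl s hs1 hs2 => ?_⟩
  have hl1 : 1 ≤ l := (le_max_left _ _).trans hl
  have hl2 : l₀ ≤ l := (le_max_left _ _).trans ((le_max_right _ _).trans hl)
  have hl3 : l₁ ≤ l := (le_max_right _ _).trans ((le_max_right _ _).trans hl)
  have hs0 : 0 < s := lt_of_lt_of_le (by positivity) hs1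
  have hmu : 0 < Real.log (4 / 3) := Real.log_pos (by norm_num)
  set μ := Real.log (4 / 3) with hμ
  have hbig : y₀ * 2 ^ (2 * K) ≤ s :=
    hl₁.trans ((pow_le_pow_right₀ one_le_two hl3).trans hs1)
  -- the bound at `a * s`
  have key : ∀ c : ℝ, ∀ n : ℕ, 1 ≤ c → n ≤ 2 * K → c / 2 ^ n ≤ 2 →
      (1 - δ) / μ * (c * s / 2 ^ n) ≤ UU (200 * l) (100 * l - 1) (c * s / 2 ^ n) := by
    intro c n hc hn hc2
    have h1 : y₀ ≤ c * s / 2 ^ n := by
      rcases le_or_gt y₀ 0 with hy | hy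
      · exact hy.trans (by positivity)
      · rw [le_div_iff₀ (by positivity)]
        have h2 : y₀ * 2 ^ n ≤ y₀ * 2 ^ (2 * K) :=
          mul_le_mul_of_nonneg_left (pow_le_pow_right₀ one_le_two hn) hy.le
        nlinarith
    have h2 : c * s / 2 ^ n ≤ 2 ^ (12 * l + 3) := by
      have h3 : c * s / 2 ^ n = c / 2 ^ n * s := by ring
      rw [h3]
      calc c / 2 ^ n * s ≤ 2 * 2 ^ (12 * l + 1) := mul_le_mul hc2 hs2 hs0.le (by norm_num)
        _ ≤ 2 ^ (12 * l + 3) := by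
          rw [show 12 * l + 3 = 12 * l + 1 + 2 by ring, pow_add 2 (12 * l + 1) 2]
          have : (0 : ℝ) < 2 ^ (12 * l + 1) := by positivity
          nlinarith
    refine le_trans (le_of_eq ?_) (h l hl2 _ h1 h2)
    ring
  rw [mean_psiN_eq K hl1]
  set U := UU (200 * l) (100 * l - 1) with hU
  have A1 : (1 - δ) / μ * s * (2 - 1 / 2 ^ K) ≤ ∑ i ∈ range (K + 1), U (s / 2 ^ i) := by
    rw [← sum_range_half, mul_sum]
    refine sum_le_sum fun i hi => ?_
    rw [mem_range] at hi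
    have h1 := key 1 i le_rfl (by omega) (by
      have : (1 : ℝ) ≤ 2 ^ i := one_le_pow₀ (by norm_num)
      rw [div_le_iff₀ (by positivity)]; linarith)
    rw [one_mul] at h1
    refine le_trans (le_of_eq ?_) h1
    ring
  have A2 : (1 - δ) / μ * s * ((2 + (1 - 1 / 2 ^ K)) * (2 / 3 * (1 - 1 / 4 ^ k))) ≤
      ∑ j ∈ odds K, (2 / 3 * U (3 * s / 2 ^ j) + ∑ i ∈ Icc 1 K, 1 / 3 * U (3 * s / 2 ^ (i + j))) := by
    rw [← sum_odds, mul_sum, mul_sum]
    refine sum_le_sum fun j hj => ?_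
    rw [mem_odds] at hj
    have hj2 : (3 : ℝ) / 2 ^ j ≤ 2 := by
      have h1 : (2 : ℝ) ^ 1 ≤ 2 ^ j := pow_le_pow_right₀ one_le_two (by omega)
      rw [div_le_iff₀ (by positivity)]
      linarith
    have h1 := key 3 j (by norm_num) (by omega) hj2
    have h2 : (1 - δ) / μ * s * ((1 - 1 / 2 ^ K) * (1 / 2 ^ j)) ≤
        ∑ i ∈ Icc 1 K, 1 / 3 * U (3 * s / 2 ^ (i + j)) := by
      have h3 : (1 - 1 / 2 ^ K : ℝ) = ∑ i ∈ Icc 1 K, (1 : ℝ) / 2 ^ i := (CollatzLin.sum_letters K).symm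
      rw [h3, sum_mul, mul_sum]
      refine sum_le_sum fun i hi => ?_
      rw [mem_Icc] at hi
      have h4 : (3 : ℝ) / 2 ^ (i + j) ≤ 2 := by
        refine le_trans ?_ hj2
        exact div_le_div_of_nonneg_left (by norm_num) (by positivity)
          (pow_le_pow_right₀ one_le_two (by omega))
      have h5 := key 3 (i + j) (by norm_num) (by omega) h4
      have h6 := mul_le_mul_of_nonneg_left h5 (show (0 : ℝ) ≤ 1 / 3 by norm_num)
      refine le_trans (le_of_eq ?_) h6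
      rw [pow_add]
      field_simp
    have h3 : (1 - δ) / μ * s * ((2 + (1 - 1 / 2 ^ K)) * (1 / 2 ^ j)) =
        2 / 3 * ((1 - δ) / μ * (3 * s / 2 ^ j)) + (1 - δ) / μ * s * ((1 - 1 / 2 ^ K) * (1 / 2 ^ j)) := by
      ring
    rw [h3]
    exact add_le_add (mul_le_mul_of_nonneg_left h1 (by norm_num)) h2
  have hq : (1 : ℝ) / 2 ^ K = 1 / 4 ^ k := by
    rw [hK, pow_mul]; norm_num
  have hq2 : (1 : ℝ) / 4 ^ k = (1 / 4) ^ k := by rw [one_div_pow]
  rw [hq] at A1 A2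
  rw [hq2] at A1 A2
  set q : ℝ := (1 / 4) ^ k with hqq
  have hq0 : 0 < q := by positivity
  have h5 := mul_le_mul_of_nonneg_left (add_le_add A1 A2) (show (0 : ℝ) ≤ 1 / s by positivity)
  refine le_trans ?_ h5
  have h6 : 1 / s * ((1 - δ) / μ * s * (2 - q) + (1 - δ) / μ * s * ((2 + (1 - q)) * (2 / 3 * (1 - q)))) =
      (1 - δ) * ((2 - q) + (2 + (1 - q)) * (2 / 3 * (1 - q))) / μ := by
    field_simp
  rw [h6]
  refine div_le_div_of_nonneg_right ?_ hmu.le
  have h7 : 4 - 11 / 3 * q ≤ (2 - q) + (2 + (1 - q)) * (2 / 3 * (1 - q)) := by nlinarith [sq_nonneg q]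
  have h8 : (1 - δ) * (4 - 11 / 3 * q) ≤ (1 - δ) * ((2 - q) + (2 + (1 - q)) * (2 / 3 * (1 - q))) :=
    mul_le_mul_of_nonneg_left h7 (by linarith)
  refine le_trans ?_ h8
  nlinarith [mul_pos hδ0 hq0]

end CollatzNat.Psi
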