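import Pool.Agent.CollatzNat.Tree2
import Pool.Agent.CollatzLin.Par

set_option autoImplicit false

/-!
# The functionals of the roots
-/

namespace CollatzNat

open CollatzOne CollatzExp Finset

lemma mh_pos (W : List ℕ) : 0 < mh W := by
  induction W with
  | nil => simp [mh]
  | cons e W ih =>
    rw [mh]
    exact lt_min one_pos (by positivity)

lemma mh_le_one (W : List ℕ) : mh W ≤ 1 := by
  cases W with
  | nil => simp [mh]
  | cons e W => rw [mh]; exact min_le_left _ _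

lemma hn_pos (W : List ℕ) : 0 < hn W := by
  cases W with
  | nil => simp [hn]
  | cons e W =>
    rw [hn]
    have := mh_pos W
    positivity

lemma mh_le_ht {W : List ℕ} : ∀ P Q : List ℕ, P ++ Q = W → mh W ≤ CollatzLin.ht P := by
  induction W with
  | nil =>
    intro P Q h
    obtain ⟨rfl, -⟩ := List.append_eq_nil_iff.1 h
    simp [mh, CollatzLin.ht_nil]
  | cons e W ih =>
    intro P Q h
    cases P with
    | nil => rw [CollatzLin.ht_nil]; exact mh_le_one _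
    | cons e' P =>
      rw [List.cons_append, List.cons.injEq] at h
      obtain ⟨rfl, h⟩ := h
      rw [CollatzLin.ht_cons, mh]
      refine (min_le_right _ _).trans ?_
      have := ih P Q h
      gcongr

lemma hn_le_ht {W P Q : List ℕ} (hP : P ≠ []) (h : P ++ Q = W) : hn W ≤ CollatzLin.ht P := by
  cases P with
  | nil => exact absurd rfl hP
  | cons e P =>
    rw [← h, List.cons_append, hn, CollatzLin.ht_cons]
    have := mh_le_ht (W := P ++ Q) P Q rfl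
    gcongr

lemma dst_le_mh (W : List ℕ) : CollatzLin.dst W * mh W ≤ W.length + 1 := by
  induction W with
  | nil => simp [mh, CollatzLin.dst]
  | cons e W ih =>
    have h1 := mh_pos W
    have h2 := CollatzLin.one_le_dst W
    rw [CollatzLin.dst, mh, List.length_cons]
    push_cast
    have h3 : min 1 (2 ^ e / 3 * mh W) ≤ 1 := min_le_left _ _
    have h4 : min 1 (2 ^ e / 3 * mh W) ≤ 2 ^ e / 3 * mh W := min_le_right _ _
    have h5 : (0 : ℝ) ≤ 3 / 2 ^ e * CollatzLin.dst W := by positivity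
    calc (1 + 3 / 2 ^ e * CollatzLin.dst W) * min 1 (2 ^ e / 3 * mh W)
        = min 1 (2 ^ e / 3 * mh W) + 3 / 2 ^ e * CollatzLin.dst W * min 1 (2 ^ e / 3 * mh W) := by ring
      _ ≤ 1 + 3 / 2 ^ e * CollatzLin.dst W * (2 ^ e / 3 * mh W) :=
          add_le_add h3 (mul_le_mul_of_nonneg_left h4 h5)
      _ = 1 + CollatzLin.dst W * mh W := by field_simp
      _ ≤ _ := by linarith

/-- Sharp bound of the translation. -/
lemma three_bs_le (W : List ℕ) : 3 * (bs W : ℝ) ≤ 2 ^ js W * (CollatzLin.dst W - 1 / CollatzLin.ht W) := by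
  induction W with
  | nil => simp [bs_nil, js_nil, CollatzLin.dst, CollatzLin.ht_nil]
  | cons e W ih =>
    rw [bs_cons, js_cons, CollatzLin.dst, CollatzLin.ht_cons, pow_add]
    push_cast
    have h1 : 3 * (cc e : ℝ) ≤ 2 ^ e := by
      have := CollatzLin.cc_le e
      linarith
    have h2 : (0 : ℝ) ≤ 2 ^ js W := by positivity
    have h3 := mul_le_mul_of_nonneg_left h1 h2
    have h4 := CollatzLin.ht_pos W
    have h5 : (2 : ℝ) ^ e * 2 ^ js W * (1 + 3 / 2 ^ e * CollatzLin.dst W - 1 / (2 ^ e / 3 * CollatzLin.ht W)) =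
        2 ^ e * 2 ^ js W + 3 * (2 ^ js W * (CollatzLin.dst W - 1 / CollatzLin.ht W)) := by
      field_simp
      ring
    rw [h5]
    nlinarith

lemma mem_bw {x : ℝ} {D : ℕ} {m : ℤ} {W : List ℕ} : W ∈ bw x D m ↔ W ∈ words (11 * D) D ∧ vd W m ∧
    x / 3 + 1 < hn W * (|(m : ℝ)| - D) ∧ 3 ^ (17 * D) ≤ 2 ^ (16 * js W) ∧ js W ≤ 11 * D := by
  unfold bw
  rw [mem_filter]

/-- Bounds of the root. -/
lemma abs_root_le {x : ℝ} {m : ℤ} (hm : |((3 * m - 1 : ℤ) : ℝ)| ≤ x) : |(m : ℝ)| < x / 3 + 1 := by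
  have h1 : 3 * |(m : ℝ)| ≤ |((3 * m - 1 : ℤ) : ℝ)| + 1 := by
    push_cast
    calc 3 * |(m : ℝ)| = |3 * (m : ℝ)| := by rw [abs_mul, abs_of_pos (by norm_num : (0 : ℝ) < 3)]
      _ = |(3 * (m : ℝ) - 1) + 1| := by ring_nf
      _ ≤ |3 * (m : ℝ) - 1| + |(1 : ℝ)| := abs_add_le _ _
      _ = _ := by norm_num
  linarith

lemma bw_facts {x : ℝ} {D : ℕ} {m : ℤ} (hm : |((3 * m - 1 : ℤ) : ℝ)| ≤ x) {W : List ℕ}
    (hW : W ∈ bw x D m) : 0 < |(m : ℝ)| - D ∧ 1 < hn W ∧ mh W = 1 ∧ CollatzLin.dst W ≤ D + 1 := by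
  rw [mem_bw] at hW
  obtain ⟨h1, h2, h3, h4, h5⟩ := hW
  have hx : 0 ≤ x := (abs_nonneg _).trans hm
  have hroot := abs_root_le hm
  have hhn := hn_pos W
  have hpos : 0 < |(m : ℝ)| - D := by
    by_contra hcon
    push Not at hcon
    have := mul_nonpos_of_nonneg_of_nonpos hhn.le hcon
    linarith
  have hD : (0 : ℝ) ≤ D := Nat.cast_nonneg D
  have h1hn : 1 < hn W := by
    by_contra hcon
    push Not at hcon
    have h6 : hn W * (|(m : ℝ)| - D) ≤ 1 * (|(m : ℝ)| - D) := mul_le_mul_of_nonneg_right hcon hpos.le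
    linarith
  have hmh : mh W = 1 := by
    cases W with
    | nil => simp [mh]
    | cons e V =>
      rw [hn] at h1hn
      rw [mh]
      exact min_eq_left h1hn.le
  refine ⟨hpos, h1hn, hmh, ?_⟩
  have h6 := dst_le_mh W
  rw [hmh, mul_one, CollatzLin.length_of_mem h1] at h6
  exact h6

/-- Bound of the displacement along a prefix. -/
lemma disp_le {x : ℝ} {D : ℕ} {m : ℤ} (hm : |((3 * m - 1 : ℤ) : ℝ)| ≤ x) {W : List ℕ}
    (hW : W ∈ bw x D m) {P Q : List ℕ} (hPQ : P ++ Q = W) : (bs P : ℝ) / 2 ^ js P ≤ D := by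
  obtain ⟨h1, h2, h3, h4⟩ := bw_facts hm hW
  have h5 := three_bs_le P
  have h6 : CollatzLin.dst P ≤ D + 1 := by
    refine le_trans ?_ h4
    rw [← hPQ]
    exact CollatzLin.dst_le_append P Q
  have h7 := CollatzLin.ht_pos P
  rw [div_le_iff₀ (by positivity)]
  have hlen : P.length ≤ D := by
    rw [← CollatzLin.length_of_mem (mem_bw.1 hW).1, ← hPQ, List.length_append]
    omega
  rcases Nat.eq_zero_or_pos D with h0 | h0
  · subst h0
    have : P = [] := List.length_eq_zero_iff.1 (by omega)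
    subst this
    simp [bs_nil]
  · have hD : (1 : ℝ) ≤ D := by exact_mod_cast h0
    have h8 : (0 : ℝ) ≤ 1 / CollatzLin.ht P := by positivity
    have h9 : (0 : ℝ) < 2 ^ js P := by positivity
    have h10 : (2 : ℝ) ^ js P * (CollatzLin.dst P - 1 / CollatzLin.ht P) ≤ 2 ^ js P * (D + 1) :=
      mul_le_mul_of_nonneg_left (by linarith) h9.le
    nlinarith

lemma abs_ch_bounds {W : List ℕ} {m : ℤ} {D : ℝ} (hv : vd W m) (hD : (bs W : ℝ) / 2 ^ js W ≤ D) :
    |(ch W m : ℝ)| ≤ CollatzLin.ht W * (|(m : ℝ)| + D) ∧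
    CollatzLin.ht W * (|(m : ℝ)| - D) ≤ |(ch W m : ℝ)| := by
  have h0 : (0 : ℝ) ≤ bs W / 2 ^ js W := by
    have : (0 : ℝ) ≤ bs W := by exact_mod_cast CollatzLin.bs_nonneg W
    positivity
  have hh := CollatzLin.ht_pos W
  rw [CollatzLin.ch_real hv, abs_mul, abs_of_pos hh]
  constructor
  · refine mul_le_mul_of_nonneg_left ?_ hh.le
    refine (abs_sub _ _).trans ?_
    rw [abs_of_nonneg h0]
    linarith
  · refine mul_le_mul_of_nonneg_left ?_ hh.le
    have := abs_sub_abs_le_abs_sub (m : ℝ) (bs W / 2 ^ js W)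
    rw [abs_of_nonneg h0] at this
    linarith

lemma Out_of_prefix {x : ℝ} {W : List ℕ} : ∀ {v : ℤ}, vd W v →
    (∀ P Q : List ℕ, P ≠ [] → P ++ Q = W → x < |((3 * ch P v - 1 : ℤ) : ℝ)|) → Out x W v := by
  induction W with
  | nil => intro v _ _; trivial
  | cons e W ih =>
    intro v hv h
    obtain ⟨h1, h2⟩ := vd_cons.1 hv
    refine ⟨?_, ih h2 fun P Q hP hPQ => ?_⟩
    · have h3 := h [e] W (by simp) rfl
      have h4 : vd [e] v := vd_cons.2 ⟨h1, vd_nil _⟩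
      rwa [ch_cons h4, ch_nil] at h3
    · have h3 := h (e :: P) Q (by simp) (by rw [List.cons_append, hPQ])
      have h4 : vd (e :: P) v := by
        refine vd_cons.2 ⟨h1, ?_⟩
        rw [← hPQ] at h2
        exact (cvd_append.1 h2).1
      rwa [ch_cons h4] at h3

lemma bw_out {x : ℝ} {D : ℕ} {m : ℤ} (hm : |((3 * m - 1 : ℤ) : ℝ)| ≤ x) {W : List ℕ}
    (hW : W ∈ bw x D m) : Out x W m := by
  have hW' := mem_bw.1 hW
  obtain ⟨h1, h2, h3, h4⟩ := bw_facts hm hW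
  refine Out_of_prefix hW'.2.1 fun P Q hP hPQ => ?_
  have hvP : vd P m := by
    have := hW'.2.1
    rw [← hPQ] at this
    exact (cvd_append.1 this).1
  have h5 := (abs_ch_bounds hvP (disp_le hm hW hPQ)).2
  have h6 := hn_le_ht hP hPQ
  have h7 : x / 3 + 1 < |(ch P m : ℝ)| :=
    lt_of_lt_of_le hW'.2.2.1 ((mul_le_mul_of_nonneg_right h6 h1.le).trans h5)
  push_cast
  have h8 : 3 * |(ch P m : ℝ)| ≤ |3 * (ch P m : ℝ) - 1| + 1 := by
    calc 3 * |(ch P m : ℝ)| = |3 * (ch P m : ℝ)| := by rw [abs_mul, abs_of_pos (by norm_num : (0 : ℝ) < 3)]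
      _ = |(3 * (ch P m : ℝ) - 1) + 1| := by ring_nf
      _ ≤ |3 * (ch P m : ℝ) - 1| + |(1 : ℝ)| := abs_add_le _ _
      _ = _ := by norm_num
  linarith

lemma Hit.ch {x : ℝ} {W : List ℕ} : ∀ {v : ℤ}, (∀ e ∈ W, 1 ≤ e) → vd W v → Hit x v → Hit x (ch W v) := by
  induction W with
  | nil => intro v _ _ h; rwa [ch_nil]
  | cons e W ih =>
    intro v hW hv h
    obtain ⟨h1, h2⟩ := vd_cons.1 hv
    rw [ch_cons hv]
    exact ih (fun y hy => hW y (by simp [hy])) h2 (h.child (hW e (by simp)) h1)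

lemma TT.ch {x : ℝ} {W : List ℕ} {v : ℤ} (hW : ∀ e ∈ W, 1 ≤ e) (hv : vd W v) (h : TT x v) :
    TT x (ch W v) := ⟨CollatzLin.OO_ch hW h.1 hv, Hit.ch hW hv h.2⟩

lemma TT_root {x : ℝ} {m : ℤ} (hO : CollatzLin.OO m) (hm : |((3 * m - 1 : ℤ) : ℝ)| ≤ x) : TT x m := by
  refine ⟨hO, 0, ⟨?_, ?_⟩, hm⟩
  · show (3 * m - 1) % 3 = 2
    omega
  · show (3 * m - 1) % 4 ≠ 0
    unfold CollatzLin.OO at hO
    omega

lemma reg_of_bw {x : ℝ} {D : ℕ} {m : ℤ} (hO : CollatzLin.OO m) (hm : |((3 * m - 1 : ℤ) : ℝ)| ≤ x)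
    {W : List ℕ} (hW : W ∈ bw x D m) :
    RegP (TT x) D (|(m : ℝ)| + D) (|(m : ℝ)| - D) (js W) (ch W m) := by
  have hW' := mem_bw.1 hW
  obtain ⟨h1, h2⟩ := abs_ch_bounds hW'.2.1 (disp_le hm hW (P := W) (Q := []) (by simp))
  have hht : CollatzLin.ht W * 3 ^ D = 2 ^ js W := by
    unfold CollatzLin.ht
    rw [CollatzLin.length_of_mem hW'.1]
    field_simp
  refine ⟨hW'.2.2.2.1, hW'.2.2.2.2, ?_, ?_, ?_⟩
  · calc |(ch W m : ℝ)| * 3 ^ D ≤ CollatzLin.ht W * (|(m : ℝ)| + D) * 3 ^ D := by gcongr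
      _ = (|(m : ℝ)| + D) * (CollatzLin.ht W * 3 ^ D) := by ring
      _ = _ := by rw [hht]
  · calc (|(m : ℝ)| - D) * 2 ^ js W = CollatzLin.ht W * (|(m : ℝ)| - D) * 3 ^ D := by rw [← hht]; ring
      _ ≤ _ := by gcongr
  · exact TT.ch (CollatzLin.one_le_of_mem hW'.1) hW'.2.1 (TT_root hO hm)

theorem Lam0_lin {x : ℝ} {D : ℕ} {m : ℤ} (hO : CollatzLin.OO m) (hm : |((3 * m - 1 : ℤ) : ℝ)| ≤ x) :
    Lin (RegP (TT x) D (|(m : ℝ)| + D) (|(m : ℝ)| - D)) (Lam0 x D m) := by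
  refine ⟨fun f g h => ?_, fun f g => ?_, fun c f => ?_⟩
  · unfold Lam0
    refine sum_le_sum fun W hW => ?_
    exact mul_le_mul_of_nonneg_left (h _ _ (reg_of_bw hO hm hW)) (by positivity)
  · unfold Lam0
    rw [← sum_add_distrib]
    exact sum_congr rfl fun W _ => by ring
  · unfold Lam0
    rw [mul_sum]
    exact sum_congr rfl fun W _ => by ring

theorem Lam0_count {x X : ℝ} {D : ℕ} {m : ℤ} (hO : CollatzLin.OO m)
    (hm : |((3 * m - 1 : ℤ) : ℝ)| ≤ x) :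
    Lam0 x D m (fun J v => 2 ^ J / 3 ^ D * NK x X v) ≤ NK x X m := by
  classical
  have h1 : Lam0 x D m (fun J v => 2 ^ J / 3 ^ D * NK x X v) = ∑ W ∈ bw x D m, NK x X (ch W m) := by
    unfold Lam0
    refine sum_congr rfl fun W _ => ?_
    field_simp
  rw [h1]
  refine le_trans ?_ (NK_words (11 * D) D hO (TT_root hO hm).2)
  rw [← sum_filter]
  refine sum_le_sum_of_subset_of_nonneg ?_ fun W _ _ => Nat.cast_nonneg _
  intro W hW
  rw [mem_filter]
  exact ⟨(mem_bw.1 hW).1, (mem_bw.1 hW).2.1, bw_out hm hW⟩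

theorem Lam0_one_le (x : ℝ) (D : ℕ) (m : ℤ) : Lam0 x D m (fun _ _ => 1) ≤ 3 ^ D := by
  have h1 : Lam0 x D m (fun _ _ => 1) = 3 ^ D * ∑ W ∈ bw x D m, (1 / 2 : ℝ) ^ js W := by
    unfold Lam0
    rw [mul_sum]
    refine sum_congr rfl fun W _ => ?_
    rw [mul_one, one_div, inv_pow, ← div_eq_mul_inv]
  have h2 : ∑ W ∈ bw x D m, (1 / 2 : ℝ) ^ js W ≤ ∑ W ∈ words (11 * D) D, (1 / 2 : ℝ) ^ js W :=
    sum_le_sum_of_subset_of_nonneg (fun W hW => (mem_bw.1 hW).1) fun _ _ _ => by positivity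
  have h3 : ∑ W ∈ words (11 * D) D, (1 / 2 : ℝ) ^ js W ≤ 1 := by
    rw [sum_half_words]
    have h4 : (1 / 2 : ℝ) ^ (11 * D) ≤ 1 := pow_le_one₀ (by norm_num) (by norm_num)
    have h5 : (0 : ℝ) ≤ (1 / 2 : ℝ) ^ (11 * D) := by positivity
    exact pow_le_one₀ (by linarith) (by linarith)
  rw [h1]
  calc (3 : ℝ) ^ D * ∑ W ∈ bw x D m, (1 / 2 : ℝ) ^ js W ≤ 3 ^ D * 1 :=
        mul_le_mul_of_nonneg_left (h2.trans h3) (by positivity)
    _ = _ := mul_one _

end CollatzNat
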