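import Pool.Agent.CollatzNat.Defs
import Pool.Agent.CollatzLin.Par

set_option autoImplicit false

/-!
# The restricted trees: superadditivity
-/

namespace CollatzNat

open CollatzOne CollatzExp Finset

/-! ### Paths that avoid the small canonical integers -/

/-- Path of `k` steps from `n` to `b` that avoids the small canonical integers before `b`. -/
def Trk (x : ℝ) (b n : ℤ) (k : ℕ) : Prop := C^[k] n = b ∧ ∀ j < k, ¬ KK x (C^[j] n)

/-- The first visit of the small canonical integers is at time `h`. -/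
def Hk (x : ℝ) (n : ℤ) (h : ℕ) : Prop := KK x (C^[h] n) ∧ ∀ j < h, ¬ KK x (C^[j] n)

lemma Trk.tr {x : ℝ} {b n : ℤ} {k : ℕ} (h : Trk x b n k) : Tr x b n := ⟨k, h⟩

lemma Trk.trans {x : ℝ} {a b n : ℤ} {k l : ℕ} (h : Trk x b n k) (h' : Trk x a b l) : Trk x a n (k + l) := by
  obtain ⟨h1, h2⟩ := h
  obtain ⟨h3, h4⟩ := h'
  refine ⟨?_, ?_⟩
  · rw [add_comm, Function.iterate_add_apply, h1, h3]
  · intro j hj
    by_cases hjk : j < k
    · exact h2 j hjk
    · obtain ⟨d, rfl⟩ : ∃ d, j = d + k := ⟨j - k, by omega⟩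
      rw [Function.iterate_add_apply, h1]
      exact h4 d (by omega)

lemma Tr.trans {x : ℝ} {a b n : ℤ} (h : Tr x b n) (h' : Tr x a b) : Tr x a n := by
  obtain ⟨k, hk⟩ := h
  obtain ⟨l, hl⟩ := h'
  exact (Trk.trans hk hl).tr

lemma Trk.hk {x : ℝ} {b n : ℤ} {k h : ℕ} (h1 : Trk x b n k) (h2 : Hk x b h) : Hk x n (k + h) := by
  obtain ⟨h3, h4⟩ := h1
  obtain ⟨h5, h6⟩ := h2
  refine ⟨?_, ?_⟩
  · rw [add_comm, Function.iterate_add_apply, h3]
    exact h5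
  · intro j hj
    by_cases hjk : j < k
    · exact h4 j hjk
    · obtain ⟨d, rfl⟩ : ∃ d, j = d + k := ⟨j - k, by omega⟩
      rw [Function.iterate_add_apply, h3]
      exact h6 d (by omega)

lemma Hk.unique {x : ℝ} {n : ℤ} {h h' : ℕ} (h1 : Hk x n h) (h2 : Hk x n h') : h = h' := by
  rcases Nat.lt_trichotomy h h' with h3 | h3 | h3
  · exact absurd h1.1 (h2.2 h h3)
  · exact h3
  · exact absurd h2.1 (h1.2 h' h3)

lemma Hit.hk {x : ℝ} {v : ℤ} (h : Hit x v) : ∃ k, Hk x (3 * v - 1) k := by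
  classical
  exact ⟨Nat.find h, Nat.find_spec h, fun j hj => Nat.find_min h hj⟩

/-! ### The basic paths -/

lemma not_KK_two_pow {x : ℝ} {b : ℤ} (hb : b % 3 = 2) {m : ℕ} (hm : 1 ≤ m) : ¬ KK x (2 ^ m * b) := by
  rintro ⟨⟨h1, h2⟩, -⟩
  obtain ⟨k, rfl⟩ : ∃ k, m = k + 1 := ⟨m - 1, by omega⟩
  rcases Nat.eq_zero_or_pos k with rfl | hk
  · rw [zero_add, pow_one] at h1
    omega
  · obtain ⟨j, rfl⟩ : ∃ j, k = j + 1 := ⟨k - 1, by omega⟩
    rw [show (2 : ℤ) ^ (j + 1 + 1) * b = 4 * (2 ^ j * b) by ring] at h2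
    omega

lemma not_KK_three {x : ℝ} {b : ℤ} (hb : b % 3 ≠ 2) : ¬ KK x b := fun h => hb h.1.1

lemma mod_two_pow_mul {b : ℤ} (hb : b % 3 = 0) (m : ℕ) : (2 ^ m * b) % 3 = 0 := by
  obtain ⟨c, rfl⟩ : (3 : ℤ) ∣ b := Int.dvd_of_emod_eq_zero hb
  rw [show (2 : ℤ) ^ m * (3 * c) = 3 * (2 ^ m * c) by ring]
  omega

lemma four_not {m : ℕ} {b c : ℤ} (hm : 2 ≤ m) (hc : c % 4 ≠ 0) : 2 ^ m * b ≠ c := by
  rintro rfl
  obtain ⟨k, rfl⟩ : ∃ k, m = k + 2 := ⟨m - 2, by omega⟩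
  rw [show (2 : ℤ) ^ (k + 2) * b = 4 * (2 ^ k * b) by ring] at hc
  omega

lemma trk_two_pow (x : ℝ) {b : ℤ} (hb : b % 3 = 2) (i : ℕ) : Trk x b (2 ^ i * b) i := by
  refine ⟨?_, fun j hj => ?_⟩
  · rw [C_iter_two_pow i i b le_rfl]; simp
  · rw [C_iter_two_pow j i b hj.le]
    exact not_KK_two_pow hb (by omega)

lemma trk_two_pow' (x : ℝ) {b : ℤ} (hb : b % 3 = 0) (i : ℕ) : Trk x b (2 ^ i * b) i := by
  refine ⟨?_, fun j hj => ?_⟩
  · rw [C_iter_two_pow i i b le_rfl]; simp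
  · rw [C_iter_two_pow j i b hj.le]
    refine not_KK_three ?_
    rw [mod_two_pow_mul hb]
    norm_num

lemma three_uj {j : ℕ} (hj : j % 2 = 1) (v : ℤ) : 3 * uj j v + 1 = 2 ^ j * (3 * v - 1) := by
  have h := two_pow_mod_three j
  rw [if_pos hj] at h
  unfold uj
  have h1 : (2 ^ j * (3 * v - 1)) % 3 = 1 := by
    rw [Int.mul_emod, h]
    omega
  omega

lemma uj_odd {j : ℕ} (hj : j % 2 = 1) (v : ℤ) : uj j v % 2 = 1 := by
  have h := three_uj hj v
  obtain ⟨k, rfl⟩ : ∃ k, j = k + 1 := ⟨j - 1, by omega⟩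
  rw [show (2 : ℤ) ^ (k + 1) * (3 * v - 1) = 2 * (2 ^ k * (3 * v - 1)) by ring] at h
  omega

lemma C_uj {j : ℕ} (hj : j % 2 = 1) (v : ℤ) : C (uj j v) = 2 ^ j * (3 * v - 1) := by
  rw [C_odd (uj_odd hj v), three_uj hj v]

lemma trk_uj (x : ℝ) {j : ℕ} (hj : j % 2 = 1) {v : ℤ} (h : uj j v % 3 ≠ 2) :
    Trk x (3 * v - 1) (uj j v) (j + 1) := by
  have h1 : Trk x (2 ^ j * (3 * v - 1)) (uj j v) 1 := by
    refine ⟨by rw [Function.iterate_one, C_uj hj], fun i hi => ?_⟩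
    obtain rfl : i = 0 := by omega
    exact not_KK_three h
  rw [add_comm]
  exact h1.trans (trk_two_pow x (by omega) j)

lemma trk_two_pow_uj (x : ℝ) {j : ℕ} (hj : j % 2 = 1) {v : ℤ} (h : uj j v % 3 = 0) (i : ℕ) :
    Trk x (3 * v - 1) (2 ^ i * uj j v) (i + (j + 1)) :=
  (trk_two_pow' x h i).trans (trk_uj x hj (by omega))

lemma trk_child {x : ℝ} {e : ℕ} {v : ℤ} (he : 1 ≤ e) (hv : v1 e v)
    (hx : x < |((3 * c1 e v - 1 : ℤ) : ℝ)|) : Trk x (3 * v - 1) (3 * c1 e v - 1) (e + 1) := by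
  have hval := (valid_iff e v).2 hv
  have hch := child_eq hv
  have h3 := three_mul_child hval
  rw [hch] at h3
  refine ⟨by rw [← hch]; exact C_iter_child_full he hval, fun j hj => ?_⟩
  rcases Nat.eq_zero_or_pos j with rfl | hj0
  · rintro ⟨-, h⟩
    simp only [Function.iterate_zero, id_eq] at h
    linarith
  · by_cases hc : e % 2 = 1 ∨ 2 ≤ j
    · rw [← hch, C_iter_child he hval hj0 hj.le hc]
      exact not_KK_two_pow (by omega) (by omega)
    · push Not at hc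
      obtain rfl : j = 1 := by omega
      have he2 : e % 2 = 0 := by omega
      rw [eps_even he2] at h3
      obtain ⟨f, rfl⟩ : ∃ f, e = f + 1 := ⟨e - 1, by omega⟩
      rw [show (2 : ℤ) ^ (f + 1) * (3 * v - 1) = 2 * (2 ^ f * (3 * v - 1)) by ring] at h3
      rw [Function.iterate_one, C_even (by omega)]
      exact not_KK_three (by omega)

theorem Hit.child {x : ℝ} {v : ℤ} {e : ℕ} (h : Hit x v) (he : 1 ≤ e) (hv : v1 e v) : Hit x (c1 e v) := by
  obtain ⟨k, hk⟩ := h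
  refine ⟨k + (e + 1), ?_⟩
  rw [Function.iterate_add_apply, ← child_eq hv, C_iter_child_full he ((valid_iff e v).2 hv)]
  exact hk

/-! ### Finite sets -/

open Classical in
/-- The integers of absolute value at most `X` in the restricted tree of `3 v - 1`. -/
noncomputable def TS (x X : ℝ) (v : ℤ) : Finset ℤ := (Icc (-⌊X⌋) ⌊X⌋).filter (fun n => Tr x (3 * v - 1) n)

lemma mem_TS {x X : ℝ} {v n : ℤ} : n ∈ TS x X v ↔ |(n : ℝ)| ≤ X ∧ Tr x (3 * v - 1) n := by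
  classical
  unfold TS
  rw [mem_filter, mem_Icc]
  refine and_congr_left fun _ => ?_
  rw [abs_le]
  constructor
  · rintro ⟨h1, h2⟩
    constructor
    · have h4 : ((-⌊X⌋ : ℤ) : ℝ) ≤ n := by exact_mod_cast h1
      have h3 := Int.floor_le X
      push_cast at h4
      linarith
    · exact Int.le_floor.1 h2
  · rintro ⟨h1, h2⟩
    refine ⟨?_, Int.le_floor.2 h2⟩
    have : -n ≤ ⌊X⌋ := Int.le_floor.2 (by push_cast; linarith)
    omega

lemma NK_eq (x X : ℝ) (v : ℤ) : NK x X v = ((TS x X v).card : ℝ) := by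
  unfold NK
  have : {n : ℤ | |(n : ℝ)| ≤ X ∧ Tr x (3 * v - 1) n} = (TS x X v : Set ℤ) := by
    ext n
    rw [Set.mem_ofPred_eq, mem_coe, mem_TS]
  rw [this, Set.ncard_coe_finset]

lemma NK_nonneg (x X : ℝ) (v : ℤ) : 0 ≤ NK x X v := Nat.cast_nonneg _

/-! ### Superadditivity -/

open Classical in
/-- The first kind of own integers. -/
noncomputable def O1 (K : ℕ) (X : ℝ) (v : ℤ) : Finset ℤ :=
  ((range (K + 1)).filter (fun i => (2 : ℝ) ^ i * |((3 * v - 1 : ℤ) : ℝ)| ≤ X)).image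
    (fun i => 2 ^ i * (3 * v - 1))

open Classical in
/-- The second kind of own integers. -/
noncomputable def O2 (K : ℕ) (X : ℝ) (v : ℤ) : Finset ℤ :=
  ((odds K).filter (fun j => uj j v % 3 ≠ 2 ∧ |(uj j v : ℝ)| ≤ X)).image (fun j => uj j v)

open Classical in
/-- The third kind of own integers. -/
noncomputable def O3 (K : ℕ) (X : ℝ) (v : ℤ) : Finset ℤ :=
  ((odds K ×ˢ Icc 1 K).filter (fun p => uj p.1 v % 3 = 0 ∧ (2 : ℝ) ^ p.2 * |(uj p.1 v : ℝ)| ≤ X)).image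
    (fun p => 2 ^ p.2 * uj p.1 v)

lemma mem_odds {K j : ℕ} : j ∈ odds K ↔ j ≤ K ∧ j % 2 = 1 := by
  unfold odds
  rw [mem_filter, mem_range]
  constructor <;> rintro ⟨h1, h2⟩ <;> exact ⟨by omega, h2⟩

lemma two_pow_mul_inj {b c : ℤ} (hb : b % 2 = 1) (hc : c % 2 = 1) : ∀ {i j : ℕ}, 2 ^ i * b = 2 ^ j * c →
    i = j ∧ b = c := by
  intro i
  induction i with
  | zero =>
    intro j h
    rcases Nat.eq_zero_or_pos j with rfl | hj
    · exact ⟨rfl, by simpa using h⟩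
    · obtain ⟨k, rfl⟩ : ∃ k, j = k + 1 := ⟨j - 1, by omega⟩
      rw [pow_zero, one_mul, show (2 : ℤ) ^ (k + 1) * c = 2 * (2 ^ k * c) by ring] at h
      omega
  | succ i ih =>
    intro j h
    rcases Nat.eq_zero_or_pos j with rfl | hj
    · rw [pow_zero, one_mul, show (2 : ℤ) ^ (i + 1) * b = 2 * (2 ^ i * b) by ring] at h
      omega
    · obtain ⟨k, rfl⟩ : ∃ k, j = k + 1 := ⟨j - 1, by omega⟩
      rw [show (2 : ℤ) ^ (i + 1) * b = 2 * (2 ^ i * b) by ring,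
        show (2 : ℤ) ^ (k + 1) * c = 2 * (2 ^ k * c) by ring] at h
      obtain ⟨h1, h2⟩ := ih (mul_left_cancel₀ (by norm_num) h)
      exact ⟨by omega, h2⟩

lemma two_pow_mul_inj' {b : ℤ} (hb : b ≠ 0) {i j : ℕ} (h : 2 ^ i * b = 2 ^ j * b) : i = j := by
  have h1 := mul_right_cancel₀ hb h
  exact Int.pow_right_injective (by norm_num) h1

lemma uj_inj {i j : ℕ} (hi : i % 2 = 1) (hj : j % 2 = 1) {v : ℤ} (h : uj i v = uj j v) : i = j := by
  have h1 := three_uj hi v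
  have h2 := three_uj hj v
  rw [h] at h1
  exact two_pow_mul_inj' (b := 3 * v - 1) (by omega) (h1.symm.trans h2)

lemma card_O1 (K : ℕ) (X : ℝ) (v : ℤ) : ((O1 K X v).card : ℝ) =
    ∑ i ∈ range (K + 1), (if (2 : ℝ) ^ i * |((3 * v - 1 : ℤ) : ℝ)| ≤ X then 1 else 0) := by
  classical
  unfold O1
  rw [card_image_of_injOn, sum_ite, sum_const_zero, add_zero, sum_const, nsmul_eq_mul, mul_one]
  intro i _ j _ h
  exact two_pow_mul_inj' (by omega) h

lemma card_O2 (K : ℕ) (X : ℝ) (v : ℤ) : ((O2 K X v).card : ℝ) =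
    ∑ j ∈ odds K, (if uj j v % 3 ≠ 2 ∧ |(uj j v : ℝ)| ≤ X then 1 else 0) := by
  classical
  unfold O2
  rw [card_image_of_injOn, sum_ite, sum_const_zero, add_zero, sum_const, nsmul_eq_mul, mul_one]
  intro i hi j hj h
  rw [mem_coe, mem_filter, mem_odds] at hi hj
  exact uj_inj hi.1.2 hj.1.2 h

lemma card_O3 (K : ℕ) (X : ℝ) (v : ℤ) : ((O3 K X v).card : ℝ) =
    ∑ j ∈ odds K, ∑ i ∈ Icc 1 K, (if uj j v % 3 = 0 ∧ (2 : ℝ) ^ i * |(uj j v : ℝ)| ≤ X then 1 else 0) := by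
  classical
  unfold O3
  rw [card_image_of_injOn, ← sum_product' (odds K) (Icc 1 K) (fun j i =>
    if uj j v % 3 = 0 ∧ (2 : ℝ) ^ i * |(uj j v : ℝ)| ≤ X then (1 : ℝ) else 0), sum_ite, sum_const_zero,
    add_zero, sum_const, nsmul_eq_mul, mul_one]
  rintro ⟨j, i⟩ hi ⟨j', i'⟩ hj h
  rw [mem_coe, mem_filter, mem_product, mem_odds] at hi hj
  obtain ⟨h1, h2⟩ := two_pow_mul_inj (uj_odd hi.1.1.2 v) (uj_odd hj.1.1.2 v) h
  exact Prod.ext (uj_inj hi.1.1.2 hj.1.1.2 h2) h1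

lemma own_eq (K : ℕ) (X : ℝ) (v : ℤ) :
    own K X v = (((O1 K X v).card + ((O2 K X v).card + (O3 K X v).card) : ℕ) : ℝ) := by
  unfold own
  rw [Nat.cast_add, Nat.cast_add, card_O1, card_O2, card_O3, ← sum_add_distrib]

lemma mem_O1 {K : ℕ} {X : ℝ} {v n : ℤ} (h : n ∈ O1 K X v) : ∃ i : ℕ, n = 2 ^ i * (3 * v - 1) ∧ |(n : ℝ)| ≤ X := by
  classical
  unfold O1 at h
  rw [mem_image] at h
  obtain ⟨i, hi, rfl⟩ := h
  rw [mem_filter] at hi
  refine ⟨i, rfl, ?_⟩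
  have h1 : |((2 ^ i * (3 * v - 1) : ℤ) : ℝ)| = (2 : ℝ) ^ i * |((3 * v - 1 : ℤ) : ℝ)| := by
    push_cast
    rw [abs_mul, abs_of_pos (by positivity : (0 : ℝ) < 2 ^ i)]
  rw [h1]
  exact hi.2

lemma mem_O2 {K : ℕ} {X : ℝ} {v n : ℤ} (h : n ∈ O2 K X v) : ∃ j : ℕ, j % 2 = 1 ∧ n = uj j v ∧
    uj j v % 3 ≠ 2 ∧ |(n : ℝ)| ≤ X := by
  classical
  unfold O2 at h
  rw [mem_image] at h
  obtain ⟨j, hj, rfl⟩ := h
  rw [mem_filter, mem_odds] at hj
  exact ⟨j, hj.1.2, rfl, hj.2.1, hj.2.2⟩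

lemma mem_O3 {K : ℕ} {X : ℝ} {v n : ℤ} (h : n ∈ O3 K X v) : ∃ i j : ℕ, 1 ≤ i ∧ j % 2 = 1 ∧
    n = 2 ^ i * uj j v ∧ uj j v % 3 = 0 ∧ |(n : ℝ)| ≤ X := by
  classical
  unfold O3 at h
  rw [mem_image] at h
  obtain ⟨⟨j, i⟩, hj, rfl⟩ := h
  rw [mem_filter, mem_product, mem_odds, mem_Icc] at hj
  refine ⟨i, j, hj.1.2.1, hj.1.1.2, rfl, hj.2.1, ?_⟩
  have h1 : |((2 ^ i * uj j v : ℤ) : ℝ)| = (2 : ℝ) ^ i * |(uj j v : ℝ)| := by
    push_cast
    rw [abs_mul, abs_of_pos (by positivity : (0 : ℝ) < 2 ^ i)]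
  rw [h1]
  exact hj.2.2

/-- Every own integer has a path whose length is not compatible with a path through a child. -/
lemma own_not_child {x X : ℝ} {K : ℕ} {v n : ℤ} (hH : Hit x v)
    (hn : n ∈ O1 K X v ∪ (O2 K X v ∪ O3 K X v)) {e : ℕ} (he : 1 ≤ e) (hv : v1 e v)
    (hx : x < |((3 * c1 e v - 1 : ℤ) : ℝ)|) (hT : Tr x (3 * c1 e v - 1) n) : False := by
  obtain ⟨h, hh⟩ := hH.hk
  obtain ⟨k, hk⟩ := hT
  have hk' : Trk x (3 * c1 e v - 1) n k := hk
  have hkh := (hk'.trans (trk_child he hv hx)).hk hh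
  have hO := CollatzLin.OO_c1 he hv
  have hc4 : (3 * c1 e v - 1) % 4 ≠ 0 := by
    unfold CollatzLin.OO at hO
    omega
  rw [mem_union, mem_union] at hn
  rcases hn with hn | hn | hn
  · obtain ⟨i, rfl, -⟩ := mem_O1 hn
    have h1 := ((trk_two_pow x (b := 3 * v - 1) (by omega) i).hk hh).unique hkh
    have h2 := hk.1
    rw [C_iter_two_pow k i _ (by omega)] at h2
    exact four_not (by omega) hc4 h2
  · obtain ⟨j, hj, rfl, h3, -⟩ := mem_O2 hn
    have h1 := ((trk_uj x hj h3).hk hh).unique hkh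
    have h2 := hk.1
    rcases Nat.eq_zero_or_pos k with rfl | hk0
    · rw [Function.iterate_zero, id_eq] at h2
      omega
    · obtain ⟨k', rfl⟩ : ∃ k', k = k' + 1 := ⟨k - 1, by omega⟩
      rw [Function.iterate_succ_apply, C_uj hj, C_iter_two_pow k' j _ (by omega)] at h2
      exact four_not (by omega) hc4 h2
  · obtain ⟨i, j, hi, hj, rfl, h3, -⟩ := mem_O3 hn
    have h1 := ((trk_two_pow_uj x hj h3 i).hk hh).unique hkh
    have h2 := hk.1
    by_cases hki : k ≤ i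
    · rw [C_iter_two_pow k i _ hki] at h2
      have := mod_two_pow_mul h3 (i - k)
      omega
    · obtain ⟨k', rfl⟩ : ∃ k', k = k' + (i + 1) := ⟨k - (i + 1), by omega⟩
      rw [Function.iterate_add_apply, Function.iterate_succ_apply', C_iter_two_pow i i _ le_rfl,
        Nat.sub_self, pow_zero, one_mul, C_uj hj, C_iter_two_pow k' j _ (by omega)] at h2
      exact four_not (by omega) hc4 h2

open Classical in
/-- Superadditivity: own integers and the restricted trees of the children above the level. -/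
theorem own_add_le {x X : ℝ} {K E : ℕ} {v : ℤ} (hO : CollatzLin.OO v) (hH : Hit x v) :
    own K X v + ∑ e ∈ Icc 1 E, (if v1 e v ∧ x < |((3 * c1 e v - 1 : ℤ) : ℝ)| then
      NK x X (c1 e v) else 0) ≤ NK x X v := by
  set s := (Icc 1 E).filter (fun e => v1 e v ∧ x < |((3 * c1 e v - 1 : ℤ) : ℝ)|) with hs
  have h1 : ∑ e ∈ Icc 1 E, (if v1 e v ∧ x < |((3 * c1 e v - 1 : ℤ) : ℝ)| then
      NK x X (c1 e v) else 0) = ((∑ e ∈ s, (TS x X (c1 e v)).card : ℕ) : ℝ) := by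
    rw [← sum_filter, ← hs]
    push_cast
    exact sum_congr rfl fun e _ => NK_eq _ _ _
  rw [h1, own_eq, NK_eq]
  have hmem : ∀ e ∈ s, 1 ≤ e ∧ v1 e v ∧ x < |((3 * c1 e v - 1 : ℤ) : ℝ)| := by
    intro e he
    rw [hs, mem_filter, mem_Icc] at he
    exact ⟨he.1.1, he.2.1, he.2.2⟩
  have hdisj : (s : Set ℕ).PairwiseDisjoint (fun e => TS x X (c1 e v)) := by
    have key : ∀ e ∈ s, ∀ f ∈ s, e < f → ∀ n, n ∈ TS x X (c1 e v) → n ∈ TS x X (c1 f v) → False := by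
      intro e he f hf hlt n hn hn'
      obtain ⟨he1, he2, he3⟩ := hmem e he
      obtain ⟨hf1, hf2, hf3⟩ := hmem f hf
      obtain ⟨-, k, hk⟩ := mem_TS.1 hn
      obtain ⟨-, l, hl⟩ := mem_TS.1 hn'
      obtain ⟨h, hh⟩ := hH.hk
      have hk' : Trk x (3 * c1 e v - 1) n k := hk
      have hl' : Trk x (3 * c1 f v - 1) n l := hl
      have h2 := ((hk'.trans (trk_child he1 he2 he3)).hk hh).unique ((hl'.trans (trk_child hf1 hf2 hf3)).hk hh)
      apply child_sep he1 ((valid_iff e v).2 he2) ((valid_iff f v).2 hf2) hlt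
      rw [child_eq he2, child_eq hf2, ← hl.1, ← Function.iterate_add_apply,
        show f - e + l = k by omega, hk.1]
    intro e he f hf hne
    rw [Function.onFun, disjoint_left]
    intro n hn hn'
    rcases Nat.lt_or_gt_of_ne hne with h | h
    · exact key e he f hf h n hn hn'
    · exact key f hf e he h n hn' hn
  have hd23 : Disjoint (O2 K X v) (O3 K X v) := by
    rw [disjoint_left]
    intro n h2 h3
    obtain ⟨j, hj, rfl, -, -⟩ := mem_O2 h2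
    obtain ⟨i, j', hi, hj', h4, -, -⟩ := mem_O3 h3
    have h5 := uj_odd hj v
    obtain ⟨k, rfl⟩ : ∃ k, i = k + 1 := ⟨i - 1, by omega⟩
    rw [h4, show (2 : ℤ) ^ (k + 1) * uj j' v = 2 * (2 ^ k * uj j' v) by ring] at h5
    omega
  have hd1 : Disjoint (O1 K X v) (O2 K X v ∪ O3 K X v) := by
    rw [disjoint_left]
    intro n h1 h2
    obtain ⟨i, rfl, -⟩ := mem_O1 h1
    have h0 : (3 * v - 1) % 3 ≠ 0 := by omega
    rw [mem_union] at h2
    rcases h2 with h2 | h2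
    · obtain ⟨j, hj, h3, h4, -⟩ := mem_O2 h2
      have h5 := uj_odd hj v
      rcases Nat.eq_zero_or_pos i with rfl | hi
      · rw [pow_zero, one_mul] at h3
        omega
      · obtain ⟨k, rfl⟩ : ∃ k, i = k + 1 := ⟨i - 1, by omega⟩
        rw [← h3, show (2 : ℤ) ^ (k + 1) * (3 * v - 1) = 2 * (2 ^ k * (3 * v - 1)) by ring] at h5
        omega
    · obtain ⟨i', j, -, -, h3, h4, -⟩ := mem_O3 h2
      have h5 := mod_two_pow_mul h4 i'
      rw [← h3, Int.mul_emod] at h5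
      have h6 := two_pow_mod_three i
      split_ifs at h6 <;> rw [h6] at h5 <;> omega
  have hdo : Disjoint (O1 K X v ∪ (O2 K X v ∪ O3 K X v)) (s.biUnion fun e => TS x X (c1 e v)) := by
    rw [disjoint_left]
    intro n hn hn'
    rw [mem_biUnion] at hn'
    obtain ⟨e, he, hn'⟩ := hn'
    obtain ⟨he1, he2, he3⟩ := hmem e he
    exact own_not_child hH hn he1 he2 he3 (mem_TS.1 hn').2
  have hcard : (O1 K X v).card + ((O2 K X v).card + (O3 K X v).card) + ∑ e ∈ s, (TS x X (c1 e v)).card =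
      ((O1 K X v ∪ (O2 K X v ∪ O3 K X v)) ∪ (s.biUnion fun e => TS x X (c1 e v))).card := by
    rw [card_union_of_disjoint hdo, card_union_of_disjoint hd1, card_union_of_disjoint hd23,
      card_biUnion hdisj]
  have hle : (O1 K X v).card + ((O2 K X v).card + (O3 K X v).card) + ∑ e ∈ s, (TS x X (c1 e v)).card ≤
      (TS x X v).card := by
    rw [hcard]
    refine card_le_card fun n hn => ?_
    rw [mem_union] at hn
    rcases hn with hn | hn
    · rw [mem_union, mem_union] at hn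
      rcases hn with hn | hn | hn
      · obtain ⟨i, rfl, h2⟩ := mem_O1 hn
        exact mem_TS.2 ⟨h2, (trk_two_pow x (by omega) i).tr⟩
      · obtain ⟨j, hj, rfl, h3, h2⟩ := mem_O2 hn
        exact mem_TS.2 ⟨h2, (trk_uj x hj h3).tr⟩
      · obtain ⟨i, j, -, hj, rfl, h3, h2⟩ := mem_O3 hn
        exact mem_TS.2 ⟨h2, (trk_two_pow_uj x hj h3 i).tr⟩
    · rw [mem_biUnion] at hn
      obtain ⟨e, he, hn⟩ := hn
      obtain ⟨he1, he2, he3⟩ := hmem e he
      obtain ⟨h2, h3⟩ := mem_TS.1 hn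
      exact mem_TS.2 ⟨h2, h3.trans (trk_child he1 he2 he3).tr⟩
  exact_mod_cast hle

end CollatzNat
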